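import Pool.Agent.MG.One.Main
import Pool.Agent.MG.Fin

/-!
# `M̄_{1,1}`: the main statements of part (C)

`CL`: stable one-pointed curves of genus one over algebraically closed fields are Weierstrass
curves. `WLF`: the same Zariski locally over any base. `EX`: every invariant polynomial is a
regular function on `T^*M̄_{1,1}`.
-/

open CategoryTheory CategoryTheory.Limits AlgebraicGeometry TensorProduct

namespace Pool.Agent.MG.WL

open Pool.Agent.MG.W Pool.Agent.MG.One

/-- CL: a stable one-pointed curve of genus one over an algebraically closed field of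
characteristic zero is a Weierstrass curve without cusps. -/
def Stmt_CL : Prop :=
  ∀ {k : Type} [Field k] [IsAlgClosed k] [CharZero k] (C : Fam 1 k), IsStable 1 C →
    ∃ a b : k, (a ≠ 0 ∨ b ≠ 0) ∧ ∃ f : Arrow (RingHom.id k) C (Wei (WZ a b)), IsIso f.f

/-- WLF: Weierstrass curves are the local form of stable one-pointed curves of genus one. -/
def Stmt_WLF : Prop :=
  ∀ (A : Type) [CommRing A] [Algebra ℂ A] (C : Fam 1 A), IsStable 1 C →
    ∀ p : PrimeSpectrum A, ∃ f : A, f ∉ p.asIdeal ∧ ∃ a b : Localization.Away f,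
      Ideal.span {a, b} = ⊤ ∧
        Nonempty (Arrow (algebraMap A (Localization.Away f)) (Wei (WZ a b)) C)

/-- EX: existence of regular functions. -/
def Stmt_EX : Prop :=
  ∀ P ∈ One.Inv, ∃ F : Reg 1 1, ∀ (B : Type) [CommRing B] [Algebra ℂ B] (a b τ : B)
    (hs : IsStable 1 (Wei (WZ a b))), Ideal.span {a, b} = ⊤ →
      F.F B (Wei (WZ a b)) hs (cov six a b τ) = MvPolynomial.aeval ![a, b, τ] P

end Pool.Agent.MG.WL
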