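import Pool.Agent.MG.WL.StmtsW

/-!
# ALGF: the graph trick, algebra
-/

namespace Pool.Agent.MG.WL

namespace ALGF

open Polynomial

section

variable {Q S : Type} [CommRing Q] [CommRing S] (j : Q →+* S) (h : S)

/-- `τ_n p = ∑_k p_{n + k} h ^ k`. -/
noncomputable def tau (n : ℕ) (p : Q[X]) : S := eval₂ j h (divX^[n] p)

theorem tau_zero (p : Q[X]) : tau j h 0 p = eval₂ j h p := rfl

theorem tau_succ (n : ℕ) (p : Q[X]) : tau j h (n + 1) p = tau j h n (divX p) := rfl

theorem tau_add (n : ℕ) (p q : Q[X]) : tau j h n (p + q) = tau j h n p + tau j h n q := by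
  induction n generalizing p q with
  | zero => simp [tau_zero]
  | succ n ih => rw [tau_succ, divX_add, ih, ← tau_succ, ← tau_succ]

theorem tau_C_mul (n : ℕ) (a : Q) (p : Q[X]) : tau j h n (C a * p) = j a * tau j h n p := by
  induction n generalizing p with
  | zero => simp [tau_zero, eval₂_mul]
  | succ n ih => rw [tau_succ, divX_C_mul, ih, ← tau_succ]

/-- `τ_n` as an additive homomorphism. -/
noncomputable def tauHom (n : ℕ) : Q[X] →+ S where
  toFun := tau j h n
  map_zero' := by
    have h1 := tau_add j h n 0 0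
    rw [add_zero] at h1
    exact left_eq_add.1 h1
  map_add' := tau_add j h n

theorem tau_sub (n : ℕ) (p q : Q[X]) : tau j h n (p - q) = tau j h n p - tau j h n q :=
  map_sub (tauHom j h n) p q

theorem tau_sum {ι : Type*} (s : Finset ι) (n : ℕ) (p : ι → Q[X]) :
    tau j h n (∑ i ∈ s, p i) = ∑ i ∈ s, tau j h n (p i) :=
  map_sum (tauHom j h n) p s

theorem tau_X_mul (n : ℕ) (p : Q[X]) : tau j h (n + 1) (X * p) = tau j h n p := by
  rw [tau_succ]
  congr 1
  ext k
  rw [coeff_divX, coeff_X_mul]

theorem tau_X_pow_mul (n k : ℕ) (p : Q[X]) : tau j h (n + k) (X ^ k * p) = tau j h n p := by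
  induction k with
  | zero => simp
  | succ k ih => rw [pow_succ', mul_assoc, ← add_assoc, tau_X_mul, ih]

theorem tau_eq (n : ℕ) (p : Q[X]) : tau j h n p = j (p.coeff n) + h * tau j h (n + 1) p := by
  induction n generalizing p with
  | zero =>
    conv_lhs => rw [← divX_mul_X_add p]
    rw [tau_zero, eval₂_add, eval₂_mul, eval₂_X, eval₂_C, tau_succ, tau_zero]
    ring
  | succ n ih =>
    rw [tau_succ, ih, coeff_divX, tau_succ _ _ (n + 1) p]

theorem tau_big {n : ℕ} {p : Q[X]} (hn : p.natDegree < n) : tau j h n p = 0 := by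
  induction n generalizing p with
  | zero => omega
  | succ n ih =>
    rw [tau_succ]
    rcases Nat.eq_zero_or_pos p.natDegree with h0 | h0
    · rw [natDegree_eq_zero] at h0
      obtain ⟨a, rfl⟩ := h0
      rw [divX_C]
      exact map_zero (tauHom j h n)
    · refine ih ?_
      rw [natDegree_divX_eq_natDegree_tsub_one]
      omega

/-- `τ` kills multiples of `β X - α` up to `Q`. -/
theorem tau_mul (α β : Q) (hh : j β * h = j α) (n : ℕ) (u : Q[X]) :
    tau j h (n + 1) ((C β * X - C α) * u) = j (β * u.coeff n) := by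
  rw [sub_mul, tau_sub, mul_assoc, tau_C_mul, tau_C_mul, tau_X_mul, tau_eq, ← hh, map_mul]
  ring

/-- `H_n g = ∑_{k ≤ n} g_k h ^ (n - k)`. -/
noncomputable def hom (n : ℕ) (g : S[X]) : S :=
  ∑ k ∈ Finset.range (n + 1), g.coeff k * h ^ (n - k)

theorem hom_succ (n : ℕ) (g : S[X]) : hom h (n + 1) g = h * hom h n g + g.coeff (n + 1) := by
  rw [hom, Finset.sum_range_succ, Nat.sub_self, pow_zero, mul_one, hom, Finset.mul_sum]
  congr 1
  refine Finset.sum_congr rfl fun k hk => ?_
  rw [Finset.mem_range] at hk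
  rw [show n + 1 - k = (n - k) + 1 by omega, pow_succ]
  ring

theorem hom_kill (n : ℕ) (u : S[X]) : hom h n ((C h * X - 1) * u) = - u.coeff n := by
  induction n with
  | zero => simp [hom, mul_coeff_zero]
  | succ n ih =>
    rw [hom_succ, ih, sub_mul, one_mul, mul_assoc, coeff_sub, coeff_C_mul, coeff_X_mul]
    ring

theorem hom_sub (n : ℕ) (g g' : S[X]) : hom h n (g - g') = hom h n g - hom h n g' := by
  simp only [hom, coeff_sub, sub_mul, Finset.sum_sub_distrib]

theorem hom_C (n : ℕ) (s : S) : hom h n (C s) = s * h ^ n := by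
  rw [hom, Finset.sum_eq_single 0]
  · simp
  · intro k _ hk
    rw [coeff_C, if_neg hk, zero_mul]
  · simp

/-- The reversed polynomial. -/
noncomputable def rev (n : ℕ) (q : Q[X]) : Q[X] :=
  ∑ k ∈ Finset.range (n + 1), C (q.coeff k) * X ^ (n - k)

theorem eval_rev (n : ℕ) (q : Q[X]) : eval₂ j h (rev n q) = hom h n (q.map j) := by
  rw [rev, hom, eval₂_finsetSum]
  refine Finset.sum_congr rfl fun k _ => ?_
  rw [eval₂_mul, eval₂_C, eval₂_X_pow, coeff_map]

theorem tau_rev (n : ℕ) (q : Q[X]) : tau j h n (rev n q) = j (q.coeff 0) := by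
  rw [rev, tau_sum, Finset.sum_eq_single 0]
  · rw [Nat.sub_zero, tau_C_mul]
    have := tau_X_pow_mul j h 0 n 1
    rw [zero_add, mul_one] at this
    rw [this, tau_zero, eval₂_one, mul_one]
  · intro k hk h0
    rw [Finset.mem_range] at hk
    rw [tau_C_mul]
    have := tau_X_pow_mul j h k (n - k) 1
    rw [mul_one, show k + (n - k) = n by omega] at this
    rw [this, tau_big _ _ (by rw [natDegree_one]; omega), mul_zero]
  · simp

theorem hom_map (j : Q →+* S) (h : Q) (n : ℕ) (g : Q[X]) : hom (j h) n (g.map j) = j (hom h n g) := by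
  simp [hom]

end

variable {B : Type} [CommRing B] {ι : Type} (D : SRings B ι)

/-- The trivial elements and the combinations of the `e`. -/
def M {J : Type} [Fintype J] (e : J → ∀ i, D.S i) : AddSubgroup (∀ i, D.S i) where
  carrier := {s | ∃ (c : J → B) (r : D.R) (q : ∀ i, D.Q i),
    ∀ i, s i = ∑ l, D.cs i (c l) * e l i + D.jr i r + D.jq i (q i)}
  zero_mem' := ⟨0, 0, 0, fun i => by simp⟩
  add_mem' := by
    rintro s s' ⟨c, r, q, hs⟩ ⟨c', r', q', hs'⟩
    refine ⟨c + c', r + r', q + q', fun i => ?_⟩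
    simp only [Pi.add_apply, hs, hs', map_add, add_mul, Finset.sum_add_distrib]
    ring
  neg_mem' := by
    rintro s ⟨c, r, q, hs⟩
    refine ⟨-c, -r, -q, fun i => ?_⟩
    simp only [Pi.neg_apply, hs, map_neg, neg_mul, Finset.sum_neg_distrib]
    ring

variable {D} {J : Type} [Fintype J] {e : J → ∀ i, D.S i}

theorem mem_r (r : D.R) : (fun i => D.jr i r) ∈ M D e := ⟨0, r, 0, fun i => by simp⟩

theorem mem_q (q : ∀ i, D.Q i) : (fun i => D.jq i (q i)) ∈ M D e := ⟨0, 0, q, fun i => by simp⟩

theorem mem_e (b : B) (l : J) : (fun i => D.cs i b * e l i) ∈ M D e := by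
  classical
  refine ⟨fun l' => if l' = l then b else 0, 0, 0, fun i => ?_⟩
  rw [Finset.sum_eq_single l]
  · simp
  · intro l' _ hl
    simp [hl]
  · simp

theorem main (h : D.R) (α β : ∀ i, D.Q i) [Finite ι]
    (hh : ∀ i, D.jq i (β i) * D.jr i h = D.jq i (α i))
    (G0 : D.Geo (X - C h) (fun i => C (β i) * X - C (α i)))
    (G1 : D.Geo (C h * X - 1) (fun i => C (α i) * X - C (β i))) :
    ∃ (J : Type) (_ : Fintype J) (e : J → ∀ i, D.S i), ∀ s, s ∈ M D e := by
  classical
  have := Fintype.ofFinite ι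
  obtain ⟨⟨m, e, e', he, hG⟩, hs0⟩ := G0
  have hev : ∀ (i) (r : Polynomial D.R) (q : Polynomial (D.Q i)), r.map (D.jr i) - q.map (D.jq i) ∈
      Ideal.span {(X - C h : Polynomial D.R).map (D.jr i)} →
      eval₂ (D.jq i) (D.jr i h) q = D.jr i (r.eval h) := by
    intro i r q hrq
    rw [Ideal.mem_span_singleton] at hrq
    obtain ⟨u, hu⟩ := hrq
    have h1 := congrArg (eval (D.jr i h)) hu
    rw [eval_sub, eval_mul, Polynomial.map_sub, map_X, map_C, eval_sub, eval_X, eval_C, sub_self,
      zero_mul, sub_eq_zero, eval_map, eval_map, eval₂_hom] at h1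
    exact h1.symm
  -- a bound for the degrees
  obtain ⟨L, hL⟩ : ∃ L, ∀ j i, (e' j i).natDegree ≤ L :=
    ⟨∑ j, ∑ i, (e' j i).natDegree, fun j i =>
      (Finset.single_le_sum (f := fun i => (e' j i).natDegree) (fun _ _ => Nat.zero_le _)
        (Finset.mem_univ i)).trans
      (Finset.single_le_sum (f := fun j => ∑ i, (e' j i).natDegree) (fun _ _ => Nat.zero_le _)
        (Finset.mem_univ j))⟩
  let E : Fin m × Fin L → ∀ i, D.S i := fun jl i =>
    tau (D.jq i) (D.jr i h) (jl.2 + 1) (e' jl.1 i)
  refine ⟨Fin m × Fin L, inferInstance, E, ?_⟩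
  -- the values of `τ` on the multiples of the generators
  have key : ∀ (n : ℕ) (j : Fin m) (c : Polynomial B),
      (fun i => tau (D.jq i) (D.jr i h) n (c.map (D.cq i) * e' j i)) ∈ M D E := by
    intro n j c
    induction c using Polynomial.induction_on' with
    | add p q hp hq =>
      have := add_mem hp hq
      convert this using 1
      funext i
      rw [Pi.add_apply, Polynomial.map_add, add_mul, tau_add]
    | monomial k b =>
      have h1 : (fun i => tau (D.jq i) (D.jr i h) n ((monomial k b).map (D.cq i) * e' j i)) =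
          fun i => D.cs i b * tau (D.jq i) (D.jr i h) n (X ^ k * e' j i) := by
        funext i
        rw [map_monomial, ← C_mul_X_pow_eq_monomial, mul_assoc, tau_C_mul, D.hq]
      rw [h1]
      rcases Nat.lt_or_ge k n with hk | hk
      · obtain ⟨d, rfl⟩ := Nat.exists_eq_add_of_lt hk
        have h2 : ∀ i, tau (D.jq i) (D.jr i h) (k + d + 1) (X ^ k * e' j i) =
            tau (D.jq i) (D.jr i h) (d + 1) (e' j i) := by
          intro i
          rw [show k + d + 1 = (d + 1) + k by omega, tau_X_pow_mul]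
        simp only [h2]
        rcases Nat.lt_or_ge d L with hd | hd
        · exact mem_e b (⟨j, ⟨d, hd⟩⟩ : Fin m × Fin L)
        · have h3 : (fun i => D.cs i b * tau (D.jq i) (D.jr i h) (d + 1) (e' j i)) = 0 := by
            funext i
            rw [tau_big _ _ (by have := hL j i; omega), mul_zero]
            rfl
          rw [h3]
          exact zero_mem _
      · obtain ⟨d, rfl⟩ := Nat.exists_eq_add_of_le hk
        have h2 : (fun i => D.cs i b * tau (D.jq i) (D.jr i h) n (X ^ (n + d) * e' j i)) =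
            fun i => D.jr i (D.cr b * (h ^ d * (e j).eval h)) := by
          funext i
          have h3 := tau_X_pow_mul (D.jq i) (D.jr i h) 0 n (X ^ d * e' j i)
          rw [zero_add, ← mul_assoc, ← pow_add, tau_zero, eval₂_mul, eval₂_X_pow,
            hev i (e j) (e' j i) (he j i)] at h3
          rw [h3, map_mul, map_mul, map_pow, D.hr]
        rw [h2]
        exact mem_r _
  -- values of polynomials over `Q`
  have key2 : ∀ p : ∀ i, Polynomial (D.Q i), (fun i => eval₂ (D.jq i) (D.jr i h) (p i)) ∈ M D E := by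
    intro p
    obtain ⟨r, q, hrq⟩ := G1.2 (fun i => C (eval₂ (D.jq i) (D.jr i h) (p i)))
    simp only [Ideal.mem_span_singleton'] at hrq
    choose u hu using hrq
    obtain ⟨n, hn⟩ : ∃ n, ∀ i, (u i).natDegree ≤ n :=
      ⟨∑ i, (u i).natDegree, fun i =>
        Finset.single_le_sum (f := fun i => (u i).natDegree) (fun _ _ => Nat.zero_le _)
          (Finset.mem_univ i)⟩
    have h1 : ∀ i, eval₂ (D.jq i) (D.jr i h) (X ^ (n + 1) * p i - rev (n + 1) (q i)) =
        D.jr i (hom h (n + 1) r) := by
      intro i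
      have h2 := congrArg (hom (D.jr i h) (n + 1)) (hu i)
      rw [Polynomial.map_sub, Polynomial.map_mul, map_C, map_X, Polynomial.map_one, mul_comm,
        hom_kill, coeff_eq_zero_of_natDegree_lt (by have := hn i; omega), neg_zero, hom_sub,
        hom_sub, hom_C, hom_map, ← eval_rev] at h2
      rw [eval₂_sub, eval₂_mul, eval₂_X_pow]
      linear_combination -h2
    obtain ⟨c, -, hc⟩ := hG (C (hom h (n + 1) r)) (fun i => X ^ (n + 1) * p i - rev (n + 1) (q i))
      (fun i => by
        rw [Polynomial.map_sub, map_X, map_C, map_C, Ideal.mem_span_singleton,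
          dvd_iff_isRoot, IsRoot.def, eval_sub, eval_C, eval_map, h1, sub_self])
    simp only [Ideal.mem_span_singleton'] at hc
    choose w hw using hc
    have h2 : (fun i => eval₂ (D.jq i) (D.jr i h) (p i)) =
        (∑ j, fun i => tau (D.jq i) (D.jr i h) (n + 1) ((c j).map (D.cq i) * e' j i)) +
        (fun i => D.jq i (β i * (w i).coeff n + (q i).coeff 0)) := by
      funext i
      have h3 := congrArg (tau (D.jq i) (D.jr i h) (n + 1)) (hw i)
      rw [mul_comm, tau_mul _ _ _ _ (hh i), tau_sub, tau_sub, tau_rev, tau_sum] at h3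
      have h4 := tau_X_pow_mul (D.jq i) (D.jr i h) 0 (n + 1) (p i)
      rw [zero_add, tau_zero] at h4
      rw [h4] at h3
      rw [Pi.add_apply, Finset.sum_apply, map_add, h3]
      ring
    rw [h2]
    exact add_mem (sum_mem fun j _ => key _ j _) (mem_q _)
  intro s
  obtain ⟨r, q, hrq⟩ := hs0 (fun i => C (s i))
  have h1 : s = (fun i => D.jr i (r.eval h)) + fun i => eval₂ (D.jq i) (D.jr i h) (q i) := by
    funext i
    have h2 := hrq i
    rw [Ideal.mem_span_singleton] at h2
    obtain ⟨u, hu⟩ := h2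
    have h3 := congrArg (eval (D.jr i h)) hu
    rw [eval_sub, eval_sub, eval_mul, Polynomial.map_sub, map_X, map_C, eval_sub, eval_X, eval_C,
      eval_C, sub_self, zero_mul, eval_map, eval_map, eval₂_hom] at h3
    rw [Pi.add_apply]
    linear_combination h3
  rw [h1]
  exact add_mem (mem_r _) (key2 _)

end ALGF

theorem t_ALGF : Stmt_ALGF := by
  intro B _ ι _ D h α β _ hh G0 G1
  obtain ⟨J, hJ, e, he⟩ := ALGF.main h α β hh G0 G1
  let E := Fintype.equivFin J
  refine ⟨Fintype.card J, fun l => e (E.symm l), fun s => ?_⟩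
  obtain ⟨c, r, q, hs⟩ := he s
  refine ⟨fun l => c (E.symm l), r, q, fun i => ?_⟩
  rw [hs, Equiv.sum_comp E.symm (fun l => D.cs i (c l) * e l i)]

end Pool.Agent.MG.WL
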