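import Pool.Agent.MG.WL.ARW
import Pool.Agent.MG.GLUT

/-!
# Sections of base changes
-/

open CategoryTheory CategoryTheory.Limits AlgebraicGeometry TensorProduct

namespace Pool.Agent.MG.WL

open Pool.Agent.MG.GLU

section

variable {n : ℕ} {A B : Type} [CommRing A] [CommRing B] {φ : A →+* B}
  {C : Fam n A} {y : Fam n B}

theorem arrow_push (a : Arrow φ y C) (V : C.X.Opens)
    (H : IsIso (pushoutSection a.cart (US := ⊤) (UT := ⊤) (UX := V) (UY := a.f ⁻¹ᵁ V) le_top le_top
      (by simp))) :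
    IsPushout (CommRingCat.ofHom (coef C.π V)) (CommRingCat.ofHom φ)
      (a.f.appLE V (a.f ⁻¹ᵁ V) le_rfl) (CommRingCat.ofHom (coef y.π (a.f ⁻¹ᵁ V))) := by
  have h1 := (isIso_pushoutSection_iff a.cart (US := ⊤) (UT := ⊤) (UX := V) (UY := a.f ⁻¹ᵁ V)
    le_top le_top (by simp)).1 H
  refine h1.of_iso (Scheme.ΓSpecIso (CommRingCat.of A)) (Iso.refl _)
    (Scheme.ΓSpecIso (CommRingCat.of B)) (Iso.refl _) ?_ ?_ ?_ ?_
  · rw [coef_eq, CommRingCat.ofHom_hom, Iso.hom_inv_id_assoc]
    simp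
  · exact Scheme.ΓSpecIso_naturality (CommRingCat.ofHom φ)
  · simp
  · rw [coef_eq, CommRingCat.ofHom_hom, Iso.hom_inv_id_assoc]
    simp

/-- The sections over the preimage of `V` are the tensor product. -/
def TP (a : Arrow φ y C) (V : C.X.Opens) : Prop :=
  letI := φ.toAlgebra
  letI := (coef C.π V).toAlgebra
  ∃ e : B ⊗[A] Γ(C.X, V) ≃+* Γ(y.X, a.f ⁻¹ᵁ V), ∀ b r, e (b ⊗ₜ r) =
    coef y.π (a.f ⁻¹ᵁ V) b * (a.f.appLE V (a.f ⁻¹ᵁ V) le_rfl).hom r

theorem tp_of (a : Arrow φ y C) (V : C.X.Opens)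
    (H : IsIso (pushoutSection a.cart (US := ⊤) (UT := ⊤) (UX := V) (UY := a.f ⁻¹ᵁ V) le_top le_top
      (by simp))) : TP a V := by
  let _ := φ.toAlgebra
  let _ := (coef C.π V).toAlgebra
  have h2 := arrow_push a V H
  have h3 := CommRingCat.isPushout_tensorProduct A B Γ(C.X, V)
  let i := h3.isoIsPushout _ _ h2.flip
  refine ⟨i.commRingCatIsoToRingEquiv, ?_⟩
  intro b r
  have e1 : i.commRingCatIsoToRingEquiv (b ⊗ₜ 1) = coef y.π (a.f ⁻¹ᵁ V) b :=
    ConcreteCategory.congr_hom (IsPushout.inl_isoIsPushout_hom _ _ h3 h2.flip) b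
  have e2 : i.commRingCatIsoToRingEquiv (1 ⊗ₜ r) =
      (a.f.appLE V (a.f ⁻¹ᵁ V) le_rfl).hom r :=
    ConcreteCategory.congr_hom (IsPushout.inr_isoIsPushout_hom _ _ h3 h2.flip) r
  have e3 : b ⊗ₜ[A] r = (b ⊗ₜ 1) * (1 ⊗ₜ r) := by simp
  rw [e3, map_mul, e1, e2]

/-- Base change of the sections over an affine open set. -/
theorem tp_affine (a : Arrow φ y C) {V : C.X.Opens} (hV : IsAffineOpen V) : TP a V :=
  tp_of a V (isIso_pushoutSection_of_isAffineOpen _ _ _ _ (isAffineOpen_top _)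
    (isAffineOpen_top _) hV)

/-- Flat base change of the sections over a quasi-compact and quasi-separated open set. -/
theorem tp_flat (a : Arrow φ y C) (hφ : φ.Flat) {V : C.X.Opens} (hV : IsCompact (V : Set C.X))
    (hs : IsQuasiSeparated (V : Set C.X)) : TP a V := by
  have : Flat (spMap φ) := Flat.SpecMap_iff.2 hφ
  exact tp_of a V (isIso_pushoutSection_of_isQuasiSeparated_of_flat_right _ _ _ _
    (isAffineOpen_top _) (isAffineOpen_top _) hV hs)

/-- The preimage of an affine open set under an arrow is affine. -/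
theorem pre_affine (a : Arrow φ y C) {V : C.X.Opens} (hV : IsAffineOpen V) :
    IsAffineOpen (a.f ⁻¹ᵁ V) := by
  have : IsAffineHom a.f := MorphismProperty.of_isPullback (P := @IsAffineHom) a.cart.flip
    inferInstance
  exact hV.preimage a.f

/-- The total space over an affine base is separated, compact. -/
theorem sep_of_proper (hC : IsProper C.π) : C.X.IsSeparated := by
  have := hC
  have : IsSeparated C.π := inferInstance
  have h : terminal.from C.X = C.π ≫ terminal.from (Sp A) := Subsingleton.elim _ _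
  exact ⟨by rw [h]; infer_instance⟩

theorem inf_affine (hC : IsProper C.π) {U V : C.X.Opens} (hU : IsAffineOpen U)
    (hV : IsAffineOpen V) : IsAffineOpen (U ⊓ V) := by
  have := sep_of_proper hC
  exact hU.inf hV

end

end Pool.Agent.MG.WL
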