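import Pool.Agent.MG.WL.StmtsW
import Pool.Agent.MG.WL.Tools

/-!
# ASW: assembly of the local Weierstrass form
-/

open CategoryTheory CategoryTheory.Limits AlgebraicGeometry TensorProduct

namespace Pool.Agent.MG.WL

open Pool.Agent.MG.W Pool.Agent.MG.One Pool.Agent.MG.GLU

namespace ASW

theorem rs_appLE {X Y : Scheme.{0}} (f : Y ⟶ X) {U V : X.Opens} {U' V' : Y.Opens} (h : U ≤ V)
    (h' : U' ≤ V') (e : V' ≤ f ⁻¹ᵁ V) (e' : U' ≤ f ⁻¹ᵁ U) (v : Γ(X, V)) :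
    rs Y h' ((f.appLE V V' e).hom v) = (f.appLE U U' e').hom (rs X h v) := by
  have h1 : f.appLE V V' e ≫ Y.presheaf.map (homOfLE h').op =
      X.presheaf.map (homOfLE h).op ≫ f.appLE U U' e' := by
    rw [Scheme.Hom.appLE_map, Scheme.Hom.map_appLE]
  exact ConcreteCategory.congr_hom h1 v

variable {A B : Type} [CommRing A] [CommRing B] {φ : A →+* B} {C : Fam 1 A} {y : Fam 1 B}

theorem coef_pull (a : Arrow φ y C) {V : C.X.Opens} {V' : y.X.Opens} (e : V' ≤ a.f ⁻¹ᵁ V)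
    (c : A) : (a.f.appLE V V' e).hom (coef C.π V c) = coef y.π V' (φ c) := by
  rw [coef_comp, a.cart.w, coef_spMap]

/-- Poles under base change. -/
theorem pole_pull (a : Arrow φ y C) (L : LC C) (L' : LC y) (h : L.Bc a L') {n : ℕ} {c : A}
    {X : Γ(C.X, L.U)} (hX : L.Pole n c X) : ∃ X' : Γ(y.X, L'.U), L'.Pole n (φ c) X' := by
  obtain ⟨r, hr⟩ := hX
  have e₁ : L'.U ≤ a.f ⁻¹ᵁ L.U := h.U.le
  have e₂ : L'.V ≤ a.f ⁻¹ᵁ L.V := h.V.le
  have e₃ : L'.U ⊓ L'.V ≤ a.f ⁻¹ᵁ (L.U ⊓ L.V) := fun z hz => ⟨e₁ hz.1, e₂ hz.2⟩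
  refine ⟨(a.f.appLE L.U L'.U e₁).hom X, (a.f.appLE L.V L'.V e₂).hom r, ?_⟩
  have h1 := congrArg (fun v => (a.f.appLE (L.U ⊓ L.V) (L'.U ⊓ L'.V) e₃).hom v) hr
  simp only [map_mul, map_pow, map_add] at h1
  rw [← rs_appLE a.f inf_le_right inf_le_right e₂ e₃, ← rs_appLE a.f inf_le_left inf_le_left e₁ e₃,
    ← rs_appLE a.f inf_le_right inf_le_right e₂ e₃, ← rs_appLE a.f inf_le_right inf_le_right e₂ e₃,
    coef_pull] at h1
  rw [map_add, map_mul, h.t]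
  exact h1

/-- Scaling of a pole by a unit. -/
theorem pole_unit (L : LC C) {n : ℕ} {c : A} (hc : IsUnit c) {X : Γ(C.X, L.U)}
    (hX : L.Pole n c X) : ∃ X' : Γ(C.X, L.U), L.Pole n 1 X' := by
  obtain ⟨r, hr⟩ := hX
  obtain ⟨u, hu⟩ := hc
  refine ⟨coef C.π L.U (↑u⁻¹ : A) * X, coef C.π L.V (↑u⁻¹ : A) * r, ?_⟩
  have h1 : ∀ {U V : C.X.Opens} (h : U ≤ V) (b : A), rs C.X h (coef C.π V b) = coef C.π U b := by
    intro U V h b
    have h2 : (C.π.appTop ≫ C.X.presheaf.map (homOfLE (le_top : V ≤ ⊤)).op) ≫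
        C.X.presheaf.map (homOfLE h).op =
        C.π.appTop ≫ C.X.presheaf.map (homOfLE (le_top : U ≤ ⊤)).op := by
      rw [Category.assoc, ← Functor.map_comp]
      rfl
    have h3 := ConcreteCategory.congr_hom h2
      ((Scheme.ΓSpecIso (CommRingCat.of A)).inv.hom b)
    exact h3
  have h4 : (↑u⁻¹ : A) * c = 1 := by
    rw [← hu, Units.inv_mul]
  have h5 : coef C.π L.V (1 : A) + L.t * (coef C.π L.V (↑u⁻¹ : A) * r) =
      coef C.π L.V (↑u⁻¹ : A) * (coef C.π L.V c + L.t * r) := by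
    rw [mul_add, ← map_mul, h4]
    ring
  rw [h5, map_mul, map_mul (rs C.X _) (coef C.π L.V _), ← hr, h1, h1]
  ring

end ASW

open ASW

theorem t_WLF (hLCE : Stmt_LCE) (hLCB : Stmt_LCB) (hLIFT : Stmt_LIFT) (hFIN : Stmt_FIN) :
    Stmt_WLF := by
  intro A _ _ C hC p
  obtain ⟨f₁, hf₁, ⟨L₁⟩⟩ := hLCE A C hC p
  -- the first localisation
  set A₁ := Localization.Away f₁ with hA₁
  set C₁ := PBS.bc (algebraMap A A₁) C with hC₁
  have hst₁ : IsStable 1 C₁ := PBS.bc_stable _ _ hC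
  obtain ⟨p₁, hp₁⟩ : ∃ p₁ : PrimeSpectrum A₁, PrimeSpectrum.comap (algebraMap A A₁) p₁ = p := by
    have h1 : p ∈ Set.range (PrimeSpectrum.comap (algebraMap A A₁)) := by
      rw [PrimeSpectrum.localization_away_comap_range A₁ f₁]
      exact hf₁
    exact h1
  obtain ⟨g₂, hg₂, X, hX⟩ := hLIFT A₁ C₁ hst₁ L₁ p₁ 2 le_rfl
  obtain ⟨g₃, hg₃, Y, hY⟩ := hLIFT A₁ C₁ hst₁ L₁ p₁ 3 (by norm_num)
  set g := g₂ * g₃ with hg
  have hgp : g ∉ p₁.asIdeal := fun h => (p₁.2.mem_or_mem h).elim hg₂ hg₃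
  set A₂ := Localization.Away g with hA₂
  let ψ : A₁ →+* A₂ := algebraMap A₁ A₂
  let C₂ := PBS.bc ψ C₁
  let a₂ : Arrow ψ C₂ C₁ := PBS.bcArrow ψ C₁
  have hst₂ : IsStable 1 C₂ := PBS.bc_stable _ _ hst₁
  obtain ⟨L₂, hL₂⟩ := hLCB a₂ L₁
  have hu : IsUnit (ψ g) := IsLocalization.Away.algebraMap_isUnit g
  have hmul : ψ g = ψ g₂ * ψ g₃ := map_mul ψ g₂ g₃
  have hu₂ : IsUnit (ψ g₂) := by
    rw [hmul] at hu
    exact isUnit_of_mul_isUnit_left hu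
  have hu₃ : IsUnit (ψ g₃) := by
    rw [hmul] at hu
    exact isUnit_of_mul_isUnit_right hu
  obtain ⟨X', hX'⟩ := pole_pull a₂ L₁ L₂ hL₂ hX
  obtain ⟨X'', hX''⟩ := pole_unit L₂ hu₂ hX'
  obtain ⟨Y', hY'⟩ := pole_pull a₂ L₁ L₂ hL₂ hY
  obtain ⟨Y'', hY''⟩ := pole_unit L₂ hu₃ hY'
  let _ : Algebra ℂ A₂ := (ψ.comp (algebraMap ℂ A₁)).toAlgebra
  obtain ⟨a, b, hab, ⟨e⟩⟩ := hFIN A₂ C₂ hst₂ L₂ X'' Y'' hX'' hY''
  -- the element of `A`
  obtain ⟨k, h, hk⟩ : ∃ (k : ℕ) (h : A), g * (algebraMap A A₁ f₁) ^ k = algebraMap A A₁ h := by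
    obtain ⟨k, h, hk⟩ := IsLocalization.Away.surj f₁ g
    exact ⟨k, h, hk⟩
  have hf₁u : IsUnit (algebraMap A A₁ f₁) := IsLocalization.Away.algebraMap_isUnit f₁
  have hh : h ∉ p.asIdeal := by
    intro hmem
    have h1 : algebraMap A A₁ h ∈ p₁.asIdeal := by
      rw [← hp₁] at hmem
      exact hmem
    rw [← hk] at h1
    rcases p₁.2.mem_or_mem h1 with h2 | h2
    · exact hgp h2
    · exact p₁.2.ne_top (Ideal.eq_top_of_isUnit_mem _ h2 (hf₁u.pow k))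
  refine ⟨f₁ * h, fun hmem => (p.2.mem_or_mem hmem).elim hf₁ hh, ?_⟩
  set D := Localization.Away (f₁ * h) with hD
  have huD : IsUnit (algebraMap A D (f₁ * h)) := IsLocalization.Away.algebraMap_isUnit (f₁ * h)
  rw [map_mul] at huD
  have hu1 : IsUnit (algebraMap A D f₁) := isUnit_of_mul_isUnit_left huD
  have hu2 : IsUnit (algebraMap A D h) := isUnit_of_mul_isUnit_right huD
  let θ₁ : A₁ →+* D := IsLocalization.Away.lift f₁ hu1
  have hθ₁ : θ₁.comp (algebraMap A A₁) = algebraMap A D := IsLocalization.Away.lift_comp f₁ hu1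
  have hθ₁g : IsUnit (θ₁ g) := by
    have h1 : θ₁ g * θ₁ (algebraMap A A₁ f₁) ^ k = algebraMap A D h := by
      rw [← map_pow, ← map_mul, hk, ← hθ₁]
      rfl
    rw [← h1] at hu2
    exact isUnit_of_mul_isUnit_left hu2
  let θ : A₂ →+* D := IsLocalization.Away.lift g hθ₁g
  have hθ : θ.comp ψ = θ₁ := IsLocalization.Away.lift_comp g hθ₁g
  have hcomp : (θ.comp ((RingHom.id A₂).comp ψ)).comp (algebraMap A A₁) = algebraMap A D := by
    rw [RingHom.id_comp, hθ, hθ₁]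
  refine ⟨θ a, θ b, ?_, ?_⟩
  · rw [Ideal.eq_top_iff_one, Ideal.mem_span_pair] at hab ⊢
    obtain ⟨r, s, hrs⟩ := hab
    exact ⟨θ r, θ s, by rw [← map_mul, ← map_mul, ← map_add, hrs, map_one]⟩
  · rw [← hcomp]
    exact ⟨PBS.comp (PBS.comp (warr θ rfl rfl) (PBS.comp e a₂)) (PBS.bcArrow (algebraMap A A₁) C)⟩

end Pool.Agent.MG.WL
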