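import Pool.Agent.MG.WL.StmtsW

/-!
# CEC: the first Čech cohomology of an affine scheme vanishes, for star shaped covers
-/

open CategoryTheory CategoryTheory.Limits AlgebraicGeometry TopologicalSpace

namespace Pool.Agent.MG.WL

namespace CEC

theorem rr_rr {X : Scheme.{0}} {U V W : X.Opens} (h : U ≤ V) (k : V ≤ W) (a : Γ(X, W)) :
    rs X h (rs X k a) = rs X (h.trans k) a := by
  change ((X.presheaf.map (homOfLE k).op ≫ X.presheaf.map (homOfLE h).op).hom) a = _
  rw [← X.presheaf.map_comp]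
  rfl

variable {X : Scheme.{0}}

theorem basicOpen_rr {U V : X.Opens} (h : U ≤ V) (f : Γ(X, V)) :
    X.basicOpen (rs X h f) = U ⊓ X.basicOpen f :=
  X.basicOpen_res f (homOfLE h).op

/-- A section of `O` on `V ⊆ U` extends to `U` after multiplication with a high power of `f`, if
`U ∩ D(f) ⊆ V`. -/
theorem extend_pow {T U V : X.Opens} (hU : IsAffineOpen U) (hV : IsAffineOpen V) (hVU : V ≤ U)
    (hUT : U ≤ T) (f : Γ(X, T)) (hf : U ⊓ X.basicOpen f ≤ V) (t : Γ(X, V)) :
    ∀ᶠ n : ℕ in Filter.atTop, ∃ y : Γ(X, U), rs X hVU y = rs X (hVU.trans hUT) f ^ n * t := by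
  have h1 : X.basicOpen (rs X hUT f) ≤ V := by
    rw [basicOpen_rr]
    exact hf
  obtain ⟨n, y, hy⟩ := exists_eq_pow_mul_of_isAffineOpen X U hU (rs X hUT f) (rs X h1 t)
  have hy' : rs X (X.basicOpen_le (rs X hUT f)) y =
      rs X (h1.trans (hVU.trans hUT)) f ^ n * rs X h1 t := by
    have h2 : rs X (X.basicOpen_le (rs X hUT f)) (rs X hUT f) =
        rs X (h1.trans (hVU.trans hUT)) f := rr_rr _ _ f
    rw [← h2]
    exact hy
  have h2 : X.basicOpen (rs X (hVU.trans hUT) f) ≤ X.basicOpen (rs X hUT f) := by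
    rw [basicOpen_rr, basicOpen_rr]
    exact inf_le_inf_right _ hVU
  obtain ⟨m, hm⟩ := exists_pow_mul_eq_zero_of_res_basicOpen_eq_zero_of_isAffineOpen X hV
    (rs X hVU y - rs X (hVU.trans hUT) f ^ n * t) (rs X (hVU.trans hUT) f) (by
      change rs X (X.basicOpen_le _) (rs X hVU y - rs X (hVU.trans hUT) f ^ n * t) = 0
      have h3 := congrArg (rs X h2) hy'
      rw [rr_rr, map_mul, map_pow, rr_rr, rr_rr] at h3
      rw [map_sub, rr_rr, map_mul, map_pow, rr_rr, sub_eq_zero]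
      exact h3)
  refine Filter.eventually_atTop.2 ⟨n + m, fun N hN => ?_⟩
  obtain ⟨j, rfl⟩ := Nat.exists_eq_add_of_le hN
  refine ⟨rs X hUT f ^ (j + m) * y, ?_⟩
  rw [map_mul, map_pow, rr_rr]
  rw [mul_sub, sub_eq_zero] at hm
  have h3 := congrArg (fun u => rs X (hVU.trans hUT) f ^ j * u) hm
  rw [← mul_assoc, ← pow_add] at h3
  rw [h3]
  ring

/-- The intersection of affine opens inside an affine open. -/
theorem aff_inf {T U V : X.Opens} (hT : IsAffineOpen T) (hU : IsAffineOpen U)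
    (hV : IsAffineOpen V) (hUT : U ≤ T) (hVT : V ≤ T) : IsAffineOpen (U ⊓ V) := by
  have : IsAffine T := hT
  have h1 : IsAffineOpen (T.ι ⁻¹ᵁ U) :=
    hU.preimage_of_isOpenImmersion T.ι (by rwa [Scheme.Opens.opensRange_ι])
  have h2 : IsAffineOpen (T.ι ⁻¹ᵁ V) :=
    hV.preimage_of_isOpenImmersion T.ι (by rwa [Scheme.Opens.opensRange_ι])
  have h3 := (h1.inf h2).image_of_isOpenImmersion T.ι
  rw [← Scheme.Hom.preimage_inf, Scheme.Hom.image_preimage_eq_opensRange_inf,
    Scheme.Opens.opensRange_ι, inf_eq_right.2 (inf_le_left.trans hUT)] at h3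
  exact h3

/-- The first Čech cohomology of an affine scheme vanishes, for coverings by affine open subsets
`W` and `V i` such that the intersections of the `V i` are in `W`. -/
theorem cech {T : X.Opens} (hT : IsAffineOpen T) {ι : Type} [Finite ι] {W : X.Opens}
    {E : ι → X.Opens} (hWT : W ≤ T) (hW : IsAffineOpen W) (hET : ∀ i, E i ≤ T)
    (hE : ∀ i, IsAffineOpen (E i)) (cov : ∀ x ∈ T, x ∈ W ∨ ∃ i, x ∈ E i)
    (dis : ∀ i j, i ≠ j → E i ⊓ E j ≤ W) (s : ∀ i, Γ(X, W ⊓ E i)) :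
    ∃ (w : Γ(X, W)) (p : ∀ i, Γ(X, E i)), ∀ i, s i = rs X inf_le_left w + rs X inf_le_right (p i) :=
  by
  classical
  have hWE : ∀ i, IsAffineOpen (W ⊓ E i) := fun i => aff_inf hT hW (hE i) hWT (hET i)
  have hWET : ∀ i, W ⊓ E i ≤ T := fun i => inf_le_left.trans hWT
  -- the ideal of the functions which make `s` trivial
  let I : Ideal Γ(X, T) :=
    { carrier := {f | ∃ (w : Γ(X, W)) (p : ∀ i, Γ(X, E i)), ∀ i,
        rs X (hWET i) f * s i = rs X inf_le_left w + rs X inf_le_right (p i)}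
      add_mem' := by
        rintro f g ⟨w, p, h⟩ ⟨w', p', h'⟩
        refine ⟨w + w', fun i => p i + p' i, fun i => ?_⟩
        rw [map_add, add_mul, h, h', map_add, map_add]
        ring
      zero_mem' := ⟨0, fun _ => 0, fun i => by simp⟩
      smul_mem' := by
        rintro c f ⟨w, p, h⟩
        refine ⟨rs X hWT c * w, fun i => rs X (hET i) c * p i, fun i => ?_⟩
        rw [smul_eq_mul, map_mul, mul_assoc, h, map_mul, map_mul, rr_rr, rr_rr, mul_add] }
  have key : ∀ f : Γ(X, T), (X.basicOpen f ≤ W ∨ ∃ i, X.basicOpen f ≤ E i) → ∃ n, f ^ n ∈ I := by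
    rintro f (hf | ⟨j, hf⟩)
    · have h1 : ∀ i, ∀ᶠ n : ℕ in Filter.atTop, ∃ y : Γ(X, E i),
          rs X inf_le_right y = rs X (hWET i) f ^ n * s i := fun i =>
        extend_pow (hE i) (hWE i) inf_le_right (hET i) f (fun x hx => ⟨hf hx.2, hx.1⟩) (s i)
      obtain ⟨n, hn⟩ := (Filter.eventually_all.2 h1).exists
      choose y hy using hn
      refine ⟨n, 0, fun i => y i, fun i => ?_⟩
      rw [map_pow, hy, map_zero, zero_add]
    · obtain ⟨n, w, hw⟩ := (extend_pow hW (hWE j) inf_le_left hWT f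
        (fun x hx => ⟨hx.1, hf hx.2⟩) (s j)).exists
      have h1 : ∀ i, ∀ᶠ m : ℕ in Filter.atTop, ∃ y : Γ(X, E i), rs X inf_le_right y =
          rs X (hWET i) f ^ m * (rs X (hWET i) f ^ n * s i - rs X inf_le_left w) := by
        intro i
        by_cases hij : i = j
        · subst hij
          refine Filter.Eventually.of_forall fun m => ⟨0, ?_⟩
          rw [hw, sub_self, mul_zero, map_zero]
        · exact extend_pow (hE i) (hWE i) inf_le_right (hET i) f
            (fun x hx => ⟨dis i j hij ⟨hx.1, hf hx.2⟩, hx.1⟩) _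
      obtain ⟨m, hm⟩ := (Filter.eventually_all.2 h1).exists
      choose y hy using hm
      refine ⟨m + n, rs X hWT f ^ m * w, fun i => y i, fun i => ?_⟩
      rw [map_pow, hy, map_mul, map_pow, rr_rr]
      ring
  have top : I = ⊤ := by
    rw [← Ideal.radical_eq_top, eq_top_iff, ← hT.self_le_iSup_basicOpen_iff
      (s := {f | X.basicOpen f ≤ W ∨ ∃ i, X.basicOpen f ≤ E i}) |>.1, Ideal.span_le]
    · intro f hf
      exact key f hf
    · intro x hxT
      rw [Opens.mem_iSup]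
      rcases cov x hxT with hx | ⟨i, hx⟩
      · obtain ⟨f, hf, hxf⟩ := hT.exists_basicOpen_le ⟨x, hx⟩ hxT
        exact ⟨⟨f, Or.inl hf⟩, hxf⟩
      · obtain ⟨f, hf, hxf⟩ := hT.exists_basicOpen_le ⟨x, hx⟩ hxT
        exact ⟨⟨f, Or.inr ⟨i, hf⟩⟩, hxf⟩
  obtain ⟨w, p, h⟩ := (Ideal.eq_top_iff_one I).1 top
  exact ⟨w, p, fun i => by rw [← h i, map_one, one_mul]⟩

end CEC

theorem t_CEC : Stmt_CEC := fun T hT _ _ _ _ hWT hW hET hE cov dis s =>
  CEC.cech hT hWT hW hET hE cov dis s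

end Pool.Agent.MG.WL
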