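import Pool.Agent.MG.WL.StmtsX

/-!
# DEA: existence and uniqueness of the class of a deformation in a chart
-/

open CategoryTheory CategoryTheory.Limits AlgebraicGeometry TensorProduct

namespace Pool.Agent.MG.WL

open Pool.Agent.MG.W Pool.Agent.MG.One

namespace DEA

/-- The inverse of an arrow over the identity. -/
noncomputable def arrowInv {n : ℕ} {A : Type} [CommRing A] {C y : Fam n A}
    (a : Arrow (RingHom.id A) y C) : Arrow (RingHom.id A) C y :=
  letI := arrow_id_iso a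
  { f := inv a.f
    cart := by
      have h0 : spMap (RingHom.id A) = 𝟙 _ := Spec.map_id _
      rw [h0]
      refine IsPullback.of_horiz_isIso ⟨?_⟩
      have hw := a.cart.w
      rw [h0, Category.comp_id] at hw
      rw [Category.comp_id, IsIso.inv_comp_eq]
      exact hw.symm
    sec := fun i => by
      have h0 : spMap (RingHom.id A) = 𝟙 _ := Spec.map_id _
      have hs := a.sec i
      rw [h0, Category.id_comp] at hs ⊢
      rw [← hs, Category.assoc, IsIso.hom_inv_id, Category.comp_id] }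

theorem comp_arrowInv {n : ℕ} {A : Type} [CommRing A] {C y : Fam n A}
    (a : Arrow (RingHom.id A) y C) : a.f ≫ (arrowInv a).f = 𝟙 _ := by
  have := arrow_id_iso a
  exact IsIso.hom_inv_id a.f

theorem arrowInv_comp {n : ℕ} {A : Type} [CommRing A] {C y : Fam n A}
    (a : Arrow (RingHom.id A) y C) : (arrowInv a).f ≫ a.f = 𝟙 _ := by
  have := arrow_id_iso a
  exact IsIso.inv_hom_id a.f

theorem snd_pow' {B : Type} [CommRing B] {u : Eps B} (hu : u.fst = 1) (k : ℕ) :
    (u ^ k).fst = 1 ∧ (u ^ k).snd = k * u.snd := by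
  induction k with
  | zero =>
    refine ⟨?_, ?_⟩
    · rw [pow_zero, TrivSqZeroExt.fst_one]
    · rw [pow_zero, TrivSqZeroExt.snd_one, Nat.cast_zero, zero_mul]
  | succ k ih =>
    refine ⟨?_, ?_⟩
    · rw [pow_succ, fst_mul', ih.1, hu, one_mul]
    · rw [pow_succ, snd_mul', ih.1, ih.2, hu, Nat.cast_succ]
      ring

theorem sc_snd {B : Type} [CommRing B] {u : Eps B} (hu : u.fst = 1) {a α α' : B} (k : ℕ)
    (h : ep a α' = u ^ k * ep a α) : α' = α + k * u.snd * a := by
  have h1 := congrArg TrivSqZeroExt.snd h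
  rw [snd_mul', snd_ep, snd_ep, fst_ep, (snd_pow' hu k).1, (snd_pow' hu k).2] at h1
  linear_combination h1

end DEA

open DEA

theorem t_DEA : Stmt_DEA := by
  intro A B _ _ φ C c h6 d
  have hex : ∃ δ, IsDelta c d δ := by
    obtain ⟨α, β, f, hf⟩ := exists_dW h6 c.h (bcD c.e d)
    refine ⟨_, α, β, castA (RingHom.id_comp _)
      (PBS.comp (arrowInv f) (PBS.bcArrow (epsMap φ) d.y)), ?_, rfl⟩
    rw [← bcD_r c.e d]
    change (dW h6 c.h α β).r.f ≫ (arrowInv f).f ≫ (PBS.bcArrow (epsMap φ) d.y).f = _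
    rw [← hf, Category.assoc, ← Category.assoc f.f, comp_arrowInv, Category.id_comp]
  obtain ⟨δ, hδ⟩ := hex
  refine ⟨δ, hδ, fun δ' hδ' => ?_⟩
  obtain ⟨α, β, f, hf, rfl⟩ := hδ
  obtain ⟨α', β', f', hf', rfl⟩ := hδ'
  let L : Arrow (RingHom.id (Eps B)) (Wei (WZ (ep c.a α') (ep c.b β')))
      (Wei (WZ (ep c.a α) (ep c.b β))) := arrowLift (castA (RingHom.id_comp _).symm f') f
  have hL : L.f ≫ f.f = f'.f := arrowLift_f (castA (RingHom.id_comp _).symm f') f
  have hr : (warr (eps0 B) (fst_ep c.a α').symm (fst_ep c.b β').symm).f ≫ L.f =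
      (warr (eps0 B) (fst_ep c.a α).symm (fst_ep c.b β).symm).f := by
    refine arrow_ext (castA (RingHom.comp_id _)
      (PBS.comp (warr (eps0 B) (fst_ep c.a α').symm (fst_ep c.b β').symm) L))
      (warr (eps0 B) (fst_ep c.a α).symm (fst_ep c.b β).symm) f ?_
    change ((warr (eps0 B) (fst_ep c.a α').symm (fst_ep c.b β').symm).f ≫ L.f) ≫ f.f = _
    rw [Category.assoc, hL, hf', hf]
  obtain ⟨u, hu, hsc⟩ := wu (sqEps B) (WZ c.a c.b) h6 (WZ (ep c.a α) (ep c.b β))
    (WZ (ep c.a α') (ep c.b β'))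
    ⟨(fst_ep _ _).symm, (fst_ep _ _).symm, fun i => i.elim0, fun i => i.elim0⟩
    ⟨(fst_ep _ _).symm, (fst_ep _ _).symm, fun i => i.elim0, fun i => i.elim0⟩ L hr
  have hu' : u.fst = 1 := hu
  have ha : α' = α + (4 : ℕ) * u.snd * c.a := sc_snd hu' 4 hsc.a
  have hb : β' = β + (6 : ℕ) * u.snd * c.b := sc_snd hu' 6 hsc.b
  rw [ha, hb]
  push_cast
  ring

end Pool.Agent.MG.WL
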