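import Pool.Agent.MG.WL.StmtsX

/-!
# DEC: functoriality of the class of a deformation in a chart
-/

open CategoryTheory CategoryTheory.Limits AlgebraicGeometry TensorProduct

namespace Pool.Agent.MG.WL

open Pool.Agent.MG.W Pool.Agent.MG.One

namespace DEC92

theorem eps0_epsMap' {A B : Type} [CommRing A] [CommRing B] (φ : A →+* B) :
    (eps0 B).comp (epsMap φ) = φ.comp (eps0 A) := eps0_epsMap φ

/-- The restriction of `a + ε α`, `b + ε β`. -/
noncomputable def rr {B : Type} [CommRing B] (a b α β : B) :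
    Arrow (eps0 B) (Wei (WZ a b)) (Wei (WZ (ep a α) (ep b β))) :=
  warr (eps0 B) (fst_ep a α).symm (fst_ep b β).symm

/-- Base change of the deformation `a + ε α`, `b + ε β`. -/
noncomputable def rw' {B D : Type} [CommRing B] [CommRing D] (ψ : B →+* D) (a b α β : B) :
    Arrow (epsMap ψ) (Wei (WZ (ep (ψ a) (ψ α)) (ep (ψ b) (ψ β)))) (Wei (WZ (ep a α) (ep b β))) :=
  warr (epsMap ψ) (epsMap_ep ψ a α).symm (epsMap_ep ψ b β).symm

theorem rr_rw {B D : Type} [CommRing B] [CommRing D] (ψ : B →+* D) (a b α β : B) :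
    (rr (ψ a) (ψ b) (ψ α) (ψ β)).f ≫ (rw' ψ a b α β).f =
      (warr ψ (a := a) (b := b) rfl rfl).f ≫ (rr a b α β).f := by
  have ea : a = eps0 B (ep a α) := (fst_ep a α).symm
  have eb : b = eps0 B (ep b β) := (fst_ep b β).symm
  have ea' : ψ a = ψ.comp (eps0 B) (ep a α) := congrArg ψ ea
  have eb' : ψ b = ψ.comp (eps0 B) (ep b β) := congrArg ψ eb
  have h1 := warr_comp (epsMap ψ) (eps0 D) (χ := ψ.comp (eps0 B)) (eps0_epsMap ψ)
    (epsMap_ep ψ a α).symm (epsMap_ep ψ b β).symm (fst_ep (ψ a) (ψ α)).symm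
    (fst_ep (ψ b) (ψ β)).symm ea' eb'
  have h2 := warr_comp (eps0 B) ψ (χ := ψ.comp (eps0 B)) rfl ea eb (rfl : ψ a = ψ a)
    (rfl : ψ b = ψ b) ea' eb'
  exact h1.trans h2.symm

/-- Composition of compatible squares. -/
theorem asq {X1 X2 X3 X4 X5 : Scheme.{0}} {p : X1 ⟶ X2} {q : X2 ⟶ X3} {f : X3 ⟶ X4}
    {u : X1 ⟶ X5} {v : X5 ⟶ X3} {w : X5 ⟶ X4} (h1 : p ≫ q = u ≫ v) (h2 : v ≫ f = w) :
    p ≫ (q ≫ f) = u ≫ w := by
  rw [← Category.assoc, h1, Category.assoc, h2]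

theorem push {A B D : Type} [CommRing A] [CommRing B] [CommRing D] {φ : A →+* B} {C : Fam 1 A}
    (c : Ch φ C) (ψ : B →+* D) (d : Defo 1 C) (δ : B) (h : IsDelta c d δ) :
    IsDelta (c.push ψ) d (ψ δ) := by
  obtain ⟨α, β, f, hf, hδ⟩ := h
  refine ⟨ψ α, ψ β, castA (epsMap_comp φ ψ) (PBS.comp (rw' ψ c.a c.b α β) f), ?_, ?_⟩
  · rw [castA_f]
    have e2 : (rr c.a c.b α β).f ≫ f.f = c.e.f ≫ d.r.f := hf
    exact (asq (rr_rw ψ c.a c.b α β) e2).trans (Category.assoc _ _ _).symm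
  · rw [hδ]
    change _ = 2 * ψ c.a * ψ β - 3 * ψ c.b * ψ α
    rw [map_sub, map_mul, map_mul, map_mul, map_mul, map_ofNat, map_ofNat]

theorem iso {A B : Type} [CommRing A] [CommRing B] {φ : A →+* B} {C : Fam 1 A} (c : Ch φ C)
    (d d' : Defo 1 C) (f : Arrow (RingHom.id (Eps A)) d.y d'.y) (hf : d.r.f ≫ f.f = d'.r.f)
    (δ : B) (h : IsDelta c d δ) : IsDelta c d' δ := by
  obtain ⟨α, β, g, hg, hδ⟩ := h
  refine ⟨α, β, castA (RingHom.comp_id _) (PBS.comp g f), ?_, hδ⟩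
  rw [castA_f]
  change _ ≫ (g.f ≫ f.f) = _
  rw [← Category.assoc, hg, Category.assoc, hf]

theorem scale {A B : Type} [CommRing A] [CommRing B] {φ : A →+* B} {C : Fam 1 A} (c : Ch φ C)
    (s : A) (d : Defo 1 C) (δ : B) (h : IsDelta c d δ) : IsDelta c (scD s d) (φ s * δ) := by
  obtain ⟨α, β, f, hf, hδ⟩ := h
  have e : ∀ x y : B, ep x (φ s * y) = epsScale (φ s) (ep x y) := by
    intro x y
    refine TrivSqZeroExt.ext ?_ ?_
    · simp
    · simp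
  let f' : Arrow (epsMap φ) (Wei (WZ (ep c.a (φ s * α)) (ep c.b (φ s * β)))) (scD s d).y :=
    arrowLift (castA (epsMap_epsScale φ s).symm (PBS.comp (warr (epsScale (φ s))
      (e c.a α) (e c.b β)) f)) (PBS.bcArrow (epsScale s) d.y)
  have hf' : f'.f ≫ (PBS.bcArrow (epsScale s) d.y).f =
      (warr (epsScale (φ s)) (e c.a α) (e c.b β)).f ≫ f.f := arrowLift_f _ _
  refine ⟨φ s * α, φ s * β, f', ?_, ?_⟩
  · refine arrow_ext (PBS.comp (warr (eps0 B) (fst_ep c.a (φ s * α)).symm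
      (fst_ep c.b (φ s * β)).symm) f') (castA (eps0_epsMap φ).symm (PBS.comp c.e (scD s d).r))
      (PBS.bcArrow (epsScale s) d.y) ?_
    have e1 : (rr c.a c.b (φ s * α) (φ s * β)).f ≫ (warr (epsScale (φ s))
        (e c.a α) (e c.b β)).f = (rr c.a c.b α β).f :=
      warr_comp (epsScale (φ s)) (eps0 B) (χ := eps0 B) (eps0_epsScale (φ s)) _ _ _ _
        (fst_ep _ _).symm (fst_ep _ _).symm
    have e2 : (rr c.a c.b α β).f ≫ f.f = c.e.f ≫ d.r.f := hf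
    have e3 : (rr c.a c.b (φ s * α) (φ s * β)).f ≫ (f'.f ≫ (PBS.bcArrow (epsScale s) d.y).f) =
        c.e.f ≫ d.r.f := by
      rw [hf']
      refine (Category.assoc _ _ _).symm.trans ?_
      rw [e1]
      exact e2
    have e4 : (scD s d).r.f ≫ (PBS.bcArrow (epsScale s) d.y).f = d.r.f := scD_r s d
    refine (Category.assoc _ _ _).trans (e3.trans ?_)
    refine Eq.trans ?_ (Category.assoc _ _ _).symm
    exact congrArg (fun q => c.e.f ≫ q) e4.symm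
  · rw [hδ]
    ring

theorem change {A B B' D : Type} [CommRing A] [CommRing B] [CommRing B'] [CommRing D]
    {φ : A →+* B} {φ' : A →+* B'} {C : Fam 1 A} (c : Ch φ C) (c' : Ch φ' C) (ψ : B →+* D)
    (ψ' : B' →+* D) (u : D) (h : ψ.comp φ = ψ'.comp φ') (hr : Rel c c' ψ ψ' u) (d : Defo 1 C)
    (δ : B) (hd : IsDelta c d δ) : IsDelta (c'.push ψ') d (u ^ 10 * ψ δ) := by
  obtain ⟨α, β, f, hf, hδ⟩ := push c ψ d δ hd
  obtain ⟨v, huv, ha, hb, hr⟩ := hr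
  have huv' : (TrivSqZeroExt.inl u : Eps D) * TrivSqZeroExt.inl v = 1 := by
    rw [← TrivSqZeroExt.inl_mul, huv, TrivSqZeroExt.inl_one]
  have e : ∀ (k : ℕ) (x y : D), ep (u ^ k * x) (u ^ k * y) =
      (TrivSqZeroExt.inl u : Eps D) ^ k * ep x y := by
    intro k x y
    have hp : (TrivSqZeroExt.inl u : Eps D) ^ k = TrivSqZeroExt.inl (u ^ k) :=
      (map_pow (TrivSqZeroExt.inlHom D D) u k).symm
    rw [hp]
    refine TrivSqZeroExt.ext ?_ ?_
    · simp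
    · simp
  have ha' : ep (ψ' c'.a) (u ^ 4 * α) = (TrivSqZeroExt.inl u : Eps D) ^ 4 * ep (ψ c.a) α := by
    rw [ha, e]
  have hb' : ep (ψ' c'.b) (u ^ 6 * β) = (TrivSqZeroExt.inl u : Eps D) ^ 6 * ep (ψ c.b) β := by
    rw [hb, e]
  have hep : (RingHom.id (Eps D)).comp (epsMap (ψ.comp φ)) = epsMap (ψ'.comp φ') := by
    rw [RingHom.id_comp, h]
  have h3 := t_WSC.2.2 (eps0 D) huv' ha' hb' (c := ψ c.a) (d := ψ c.b) (c' := ψ' c'.a)
      (d' := ψ' c'.b) (w := u) (s := v) huv ha hb (fst_ep (ψ c.a) α).symm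
      (fst_ep (ψ c.b) β).symm (fst_ep (ψ' c'.a) _).symm (fst_ep (ψ' c'.b) _).symm
      (TrivSqZeroExt.fst_inl D u).symm
  refine ⟨u ^ 4 * α, u ^ 6 * β, castA hep (PBS.comp (scarr huv' ha' hb') f), ?_, ?_⟩
  · rw [castA_f]
    have hf' : WX.map (eps0 D) (fst_ep (ψ c.a) α).symm (fst_ep (ψ c.b) β).symm ≫ f.f =
      ((warr ψ (a := c.a) (b := c.b) rfl rfl).f ≫ c.e.f) ≫ d.r.f := hf
    refine (asq h3.symm hf').trans ?_
    refine ((Category.assoc _ _ _).symm.trans ?_)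
    exact congrArg (fun q => q ≫ d.r.f) hr
  · rw [hδ]
    change _ = 2 * ψ' c'.a * (u ^ 6 * β) - 3 * ψ' c'.b * (u ^ 4 * α)
    change u ^ 10 * (2 * ψ c.a * β - 3 * ψ c.b * α) = _
    rw [ha, hb]
    ring

theorem pull {A A' B B' : Type} [CommRing A] [CommRing A'] [CommRing B] [CommRing B']
    {φ : A →+* A'} {χ : A →+* B} {χ' : A' →+* B'} {C : Fam 1 A} {C' : Fam 1 A'}
    (g : Arrow φ C' C) (c : Ch χ C) (ω : B →+* B') (h : ω.comp χ = χ'.comp φ) (d : Defo 1 C)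
    (δ : B) (hd : IsDelta c d δ) : IsDelta (c.pull g ω h) (bcD g d) (ω δ) := by
  obtain ⟨α, β, f, hf, hδ⟩ := hd
  have hep : (epsMap ω).comp (epsMap χ) = (epsMap χ').comp (epsMap φ) := by
    rw [epsMap_comp, epsMap_comp, h]
  let f' : Arrow (epsMap χ') (Wei (WZ (ep (ω c.a) (ω α)) (ep (ω c.b) (ω β)))) (bcD g d).y :=
    arrowLift (castA hep (PBS.comp (warr (epsMap ω) (epsMap_ep ω c.a α).symm
      (epsMap_ep ω c.b β).symm) f)) (PBS.bcArrow (epsMap φ) d.y)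
  have hf' : f'.f ≫ (PBS.bcArrow (epsMap φ) d.y).f =
      (warr (epsMap ω) (epsMap_ep ω c.a α).symm (epsMap_ep ω c.b β).symm).f ≫ f.f :=
    arrowLift_f _ _
  have hp : (c.pull g ω h).e.f ≫ g.f = (warr ω (a := c.a) (b := c.b) rfl rfl).f ≫ c.e.f :=
    arrowLift_f _ _
  refine ⟨ω α, ω β, f', ?_, ?_⟩
  · refine arrow_ext (PBS.comp (warr (eps0 B') (fst_ep (ω c.a) (ω α)).symm
      (fst_ep (ω c.b) (ω β)).symm) f')
      (castA (eps0_epsMap χ').symm (PBS.comp (c.pull g ω h).e (bcD g d).r))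
      (PBS.bcArrow (epsMap φ) d.y) ?_
    have e2 : (rr c.a c.b α β).f ≫ f.f = c.e.f ≫ d.r.f := hf
    have e3 : (rr (ω c.a) (ω c.b) (ω α) (ω β)).f ≫ ((rw' ω c.a c.b α β).f ≫ f.f) =
        (warr ω (a := c.a) (b := c.b) rfl rfl).f ≫ (c.e.f ≫ d.r.f) :=
      asq (rr_rw ω c.a c.b α β) e2
    have e4 : (rr (ω c.a) (ω c.b) (ω α) (ω β)).f ≫ (f'.f ≫ (PBS.bcArrow (epsMap φ) d.y).f) =
        (warr ω (a := c.a) (b := c.b) rfl rfl).f ≫ (c.e.f ≫ d.r.f) := by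
      rw [hf']
      exact e3
    refine (Category.assoc _ _ _).trans (e4.trans ?_)
    refine Eq.trans ?_ (Category.assoc _ _ _).symm
    rw [bcD_r]
    refine (Category.assoc _ _ _).symm.trans (Eq.trans ?_ (Category.assoc _ _ _))
    exact congrArg (fun q => q ≫ d.r.f) hp.symm
  · rw [hδ]
    change _ = 2 * ω c.a * ω β - 3 * ω c.b * ω α
    rw [map_sub, map_mul, map_mul, map_mul, map_mul, map_ofNat, map_ofNat]

end DEC92

open DEC92 in
/-- DEC: functoriality of the class. -/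
theorem t_DEC (hDEA : Stmt_DEA) : Stmt_DEC := by
  refine ⟨fun c ψ d δ h => push c ψ d δ h, fun c d d' f hf δ h => iso c d d' f hf δ h,
    fun c s d δ h => scale c s d δ h, ?_, fun g c ω h d δ hd => pull g c ω h d δ hd⟩
  intro A B B' D _ _ _ _ φ φ' C c c' ψ ψ' u h6 h hr d δ δ' hd hd'
  exact (hDEA (c'.push ψ') h6 d).unique (push c' ψ' d δ' hd') (change c c' ψ ψ' u h hr d δ hd)

end Pool.Agent.MG.WL
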