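import Pool.Agent.MG.WL.StmtsX

/-!
# DEI: deformations with the same class in a chart become isomorphic
-/

open CategoryTheory CategoryTheory.Limits AlgebraicGeometry TensorProduct

namespace Pool.Agent.MG.WL

open Pool.Agent.MG.W Pool.Agent.MG.One

namespace DEI70

variable {B : Type} [CommRing B]

theorem pow_ep' (w : B) (k : ℕ) : (ep (1 : B) w) ^ k = ep 1 ((k : B) * w) := by
  induction k with
  | zero =>
    refine TrivSqZeroExt.ext ?_ ?_
    · rw [pow_zero, fst_ep, TrivSqZeroExt.fst_one]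
    · rw [pow_zero, snd_ep, TrivSqZeroExt.snd_one, Nat.cast_zero, zero_mul]
  | succ k ih =>
    rw [pow_succ, ih]
    refine TrivSqZeroExt.ext ?_ ?_
    · rw [fst_mul', fst_ep, fst_ep, fst_ep, one_mul]
    · rw [snd_mul', fst_ep, fst_ep, snd_ep, snd_ep, snd_ep, Nat.cast_succ]
      ring

theorem mul_ep (w x y : B) : ep (1 : B) w * ep x y = ep x (y + w * x) := by
  refine TrivSqZeroExt.ext ?_ ?_
  · rw [fst_mul', fst_ep, fst_ep, fst_ep, one_mul]
  · rw [snd_mul', fst_ep, fst_ep, snd_ep, snd_ep, snd_ep]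
    ring

theorem huv (w : B) : ep (1 : B) w * ep 1 (-w) = 1 := by
  rw [mul_ep]
  refine TrivSqZeroExt.ext ?_ ?_
  · rw [fst_ep, TrivSqZeroExt.fst_one]
  · rw [snd_ep, TrivSqZeroExt.snd_one]
    ring

/-- the scaling factor -/
theorem exists_w (h6 : IsUnit (6 : B)) {a b : B} (h : Ideal.span {a, b} = ⊤) {α β α' β' : B}
    (hk : 2 * a * β - 3 * b * α = 2 * a * β' - 3 * b * α') :
    ∃ w : B, α = α' + 4 * w * a ∧ β = β' + 6 * w * b := by
  obtain ⟨i6, hi⟩ := h6.exists_right_inv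
  rw [Ideal.eq_top_iff_one, Ideal.mem_span_pair] at h
  obtain ⟨r, s, hrs⟩ := h
  refine ⟨9 * i6 ^ 2 * r * (α - α') + i6 * s * (β - β'), ?_, ?_⟩
  · linear_combination (-(α - α')) * hrs - (r * a * (α - α') * (6 * i6 + 1)) * hi -
      (2 * i6 * s) * hk - (s * b * (α - α')) * hi
  · linear_combination (-(β - β')) * hrs - (r * a * (β - β') * (6 * i6 + 1)) * hi +
      (18 * i6 ^ 2 * r) * hk - (s * b * (β - β')) * hi

end DEI70

open DEI70 in
theorem t_DEI : Stmt_DEI := by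
  intro A B _ _ φ C c h6 d d' δ hd hd'
  obtain ⟨α, β, f, hf, hδ⟩ := hd
  obtain ⟨α', β', f', hf', hδ'⟩ := hd'
  obtain ⟨w, h1, h2⟩ := exists_w h6 c.h (hδ.symm.trans hδ')
  have ha : ep c.a α = ep (1 : B) w ^ 4 * ep c.a α' := by
    rw [pow_ep', mul_ep, h1]
    congr 1
  have hb : ep c.b β = ep (1 : B) w ^ 6 * ep c.b β' := by
    rw [pow_ep', mul_ep, h2]
    congr 1
  have h3 := t_WSC.2.2 (eps0 B) (huv w) ha hb (c := c.a) (d := c.b) (c' := c.a) (d' := c.b)
      (w := 1) (s := 1) (mul_one 1) (by ring) (by ring) (fst_ep c.a α').symm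
      (fst_ep c.b β').symm (fst_ep c.a α).symm (fst_ep c.b β).symm (fst_ep 1 w).symm
  rw [sc_one, Category.id_comp] at h3
  refine ⟨Wei (WZ (ep c.a α) (ep c.b β)),
    wst.1 _ (WZ_ok (isUnit6_map (algebraMap B (Eps B)) h6) (span_ep c.h α β)),
    warr (eps0 B) (fst_ep c.a α).symm (fst_ep c.b β).symm, f,
    castA (RingHom.id_comp _) (PBS.comp (scarr (huv w) ha hb) f'), hf, ?_⟩
  rw [castA_f]
  change (warr (eps0 B) (fst_ep c.a α).symm (fst_ep c.b β).symm).f ≫
    (WX.sc (huv w) ha hb ≫ f'.f) = _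
  rw [← hf', warr_f, warr_f, h3]
  exact (Category.assoc _ _ _).symm

end Pool.Agent.MG.WL
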