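import Pool.Agent.MG.WL.StmtsX

/-!
# DGL: compatible classes come from a deformation
-/

open CategoryTheory CategoryTheory.Limits AlgebraicGeometry TensorProduct

namespace Pool.Agent.MG.WL

open Pool.Agent.MG.W Pool.Agent.MG.One

namespace DGL

section

variable {A B B' D : Type} [CommRing A] [CommRing B] [CommRing B'] [CommRing D]

theorem map_id' {a b a' b' : B} (ha : a' = RingHom.id B a) (hb : b' = RingHom.id B b)
    (hab : a' = a ∧ b' = b) :
    WX.map (RingHom.id B) ha hb = eqToHom (by rw [hab.1, hab.2]) := by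
  obtain ⟨h1, h2⟩ := hab
  subst h1
  subst h2
  rw [eqToHom_refl]
  refine WX.ext' ?_ ?_
  · rw [WX.in1_map, Category.comp_id]
    have e : bc1 (RingHom.id B) ha hb = RingHom.id _ := by
      refine hom1_ext (fun c => ?_) ?_ ?_
      · rw [bc1_b]
        rfl
      · rw [bc1_x]
        rfl
      · rw [bc1_y]
        rfl
    rw [e, spMap_id, Category.id_comp]
  · rw [WX.in2_map, Category.comp_id]
    have e : bc2 (RingHom.id B) ha hb = RingHom.id _ := by
      refine hom2_ext (fun c => ?_) ?_ ?_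
      · rw [bc2_b]
        rfl
      · rw [bc2_z]
        rfl
      · rw [bc2_t]
        rfl
    rw [e, spMap_id, Category.id_comp]

/-- The scaling of the dual numbers. -/
theorem exU (h6 : IsUnit (6 : D)) {a b u v α β α' β' a' b' : D} (huv : u * v = 1)
    (ha : a' = u ^ 4 * a) (hb : b' = u ^ 6 * b) (hs : Ideal.span {a', b'} = ⊤)
    (h : 2 * a' * β' - 3 * b' * α' = u ^ 10 * (2 * a * β - 3 * b * α)) :
    ∃ U V : Eps D, U * V = 1 ∧ U.fst = u ∧ ep a' α' = U ^ 4 * ep a α ∧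
      ep b' β' = U ^ 6 * ep b β := by
  obtain ⟨i6, hi⟩ := h6.exists_right_inv
  rw [Ideal.eq_top_iff_one, Ideal.mem_span_pair] at hs
  obtain ⟨r, s, hrs⟩ := hs
  obtain ⟨X, hX⟩ : ∃ X, X = α' - u ^ 4 * α := ⟨_, rfl⟩
  obtain ⟨Z, hZ⟩ : ∃ Z, Z = β' - u ^ 6 * β := ⟨_, rfl⟩
  have hXZ : 2 * a' * Z = 3 * b' * X := by
    rw [hX, hZ]
    have e : u ^ 10 * (2 * a * β - 3 * b * α) =
        2 * (u ^ 4 * a) * (u ^ 6 * β) - 3 * (u ^ 6 * b) * (u ^ 4 * α) := by ring
    rw [e, ← ha, ← hb] at h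
    linear_combination h
  -- `w = r X / 4 + s Z / 6`
  obtain ⟨w, hw⟩ : ∃ w, w = r * X * (9 * i6 ^ 2) + s * Z * i6 := ⟨_, rfl⟩
  have h1 : 4 * w * a' = X := by
    have : X = (r * a' + s * b') * X := by rw [hrs, one_mul]
    rw [hw]
    linear_combination (-1 : D) * this + (r * X * a' * (6 * i6 + 1) - s * b' * X * 0) * hi +
      2 * s * i6 * hXZ + s * b' * X * hi
  have h2 : 6 * w * b' = Z := by
    have : Z = (r * a' + s * b') * Z := by rw [hrs, one_mul]
    rw [hw]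
    linear_combination (-1 : D) * this + s * Z * b' * hi - 18 * r * i6 ^ 2 * hXZ +
      r * a' * Z * (6 * i6 + 1) * hi
  have hpow : ∀ k : ℕ, (ep u (u * w)) ^ k = ep (u ^ k) (k * u ^ k * w) := by
    intro k
    induction k with
    | zero =>
      refine TrivSqZeroExt.ext ?_ ?_
      · rw [pow_zero, fst_ep, TrivSqZeroExt.fst_one, pow_zero]
      · rw [pow_zero, snd_ep, TrivSqZeroExt.snd_one, Nat.cast_zero]
        ring
    | succ k ih =>
      rw [pow_succ, ih]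
      refine TrivSqZeroExt.ext ?_ ?_
      · rw [fst_mul', fst_ep, fst_ep, fst_ep, pow_succ]
      · rw [snd_mul', fst_ep, fst_ep, snd_ep, snd_ep, snd_ep, Nat.cast_succ]
        ring
  refine ⟨ep u (u * w), ep v (-(v * w)), ?_, fst_ep _ _, ?_, ?_⟩
  · refine TrivSqZeroExt.ext ?_ ?_
    · rw [fst_mul', fst_ep, fst_ep, TrivSqZeroExt.fst_one, huv]
    · rw [snd_mul', fst_ep, fst_ep, snd_ep, snd_ep, TrivSqZeroExt.snd_one]
      ring
  · rw [hpow]
    refine TrivSqZeroExt.ext ?_ ?_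
    · rw [fst_mul', fst_ep, fst_ep, fst_ep, ha]
    · rw [snd_mul', fst_ep, fst_ep, snd_ep, snd_ep, snd_ep]
      push_cast
      rw [ha] at h1
      linear_combination (-1 : D) * h1 - hX
  · rw [hpow]
    refine TrivSqZeroExt.ext ?_ ?_
    · rw [fst_mul', fst_ep, fst_ep, fst_ep, hb]
    · rw [snd_mul', fst_ep, fst_ep, snd_ep, snd_ep, snd_ep]
      push_cast
      rw [hb] at h2
      linear_combination (-1 : D) * h2 - hZ

/-- Uniqueness of arrows of deformations with given restriction. -/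
theorem uniq (hRGD : Stmt_RGD) (ρ : B →+* D) (h6 : IsUnit (6 : D)) {x : Fam 1 D} (hx : LW x)
    {z : Fam 1 (Eps D)} (hz : IsStable 1 z) {y : Fam 1 (Eps B)} (hy : IsStable 1 y)
    (r : Arrow (eps0 D) x z) (g g' : Arrow (epsMap ρ) z y) (h : r.f ≫ g.f = r.f ≫ g'.f) :
    g.f = g'.f := by
  let b := PBS.bcArrow (epsMap ρ) y
  let G : Arrow (RingHom.id (Eps D)) z (PBS.bc (epsMap ρ) y) :=
    arrowLift (castA (RingHom.id_comp (epsMap ρ)).symm g) b
  let G' : Arrow (RingHom.id (Eps D)) z (PBS.bc (epsMap ρ) y) :=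
    arrowLift (castA (RingHom.id_comp (epsMap ρ)).symm g') b
  have hG : G.f ≫ b.f = g.f := arrowLift_f _ _
  have hG' : G'.f ≫ b.f = g'.f := arrowLift_f _ _
  have hr : r.f ≫ G.f = r.f ≫ G'.f := by
    refine arrow_ext (PBS.comp r G) (PBS.comp r G') b ?_
    change (r.f ≫ G.f) ≫ b.f = (r.f ≫ G'.f) ≫ b.f
    rw [Category.assoc, Category.assoc, hG, hG', h]
  have e := hRGD h6 hx z (PBS.bc (epsMap ρ) y) hz (PBS.bc_stable _ _ hy) r G G' hr
  rw [← hG, ← hG', e]

/-- The restriction of `a + ε α`, `b + ε β`. -/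
noncomputable def rr (a b α β : B) :
    Arrow (eps0 B) (Wei (WZ a b)) (Wei (WZ (ep a α) (ep b β))) :=
  warr (eps0 B) (fst_ep a α).symm (fst_ep b β).symm

/-- Base change of the deformation `a + ε α`, `b + ε β`. -/
noncomputable def rw' (ψ : B →+* D) (a b α β : B) :
    Arrow (epsMap ψ) (Wei (WZ (ep (ψ a) (ψ α)) (ep (ψ b) (ψ β)))) (Wei (WZ (ep a α) (ep b β))) :=
  warr (epsMap ψ) (epsMap_ep ψ a α).symm (epsMap_ep ψ b β).symm

theorem rr_rw (ψ : B →+* D) (a b α β : B) :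
    (rr (ψ a) (ψ b) (ψ α) (ψ β)).f ≫ (rw' ψ a b α β).f =
      (warr ψ (a := a) (b := b) rfl rfl).f ≫ (rr a b α β).f := by
  have ea : a = eps0 B (ep a α) := (fst_ep a α).symm
  have eb : b = eps0 B (ep b β) := (fst_ep b β).symm
  have ea' : ψ a = ψ.comp (eps0 B) (ep a α) := congrArg ψ ea
  have eb' : ψ b = ψ.comp (eps0 B) (ep b β) := congrArg ψ eb
  have h1 := warr_comp (epsMap ψ) (eps0 D) (χ := ψ.comp (eps0 B)) (eps0_epsMap ψ)
    (epsMap_ep ψ a α).symm (epsMap_ep ψ b β).symm (fst_ep (ψ a) (ψ α)).symm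
    (fst_ep (ψ b) (ψ β)).symm ea' eb'
  have h2 := warr_comp (eps0 B) ψ (χ := ψ.comp (eps0 B)) rfl ea eb (rfl : ψ a = ψ a)
    (rfl : ψ b = ψ b) ea' eb'
  exact h1.trans h2.symm

/-- Comparison of the deformations in two charts. -/
theorem key (hREL : Stmt_REL) (h6 : IsUnit (6 : D)) {φ : A →+* B} {φ' : A →+* B'} {C : Fam 1 A}
    (c : Ch φ C) (c' : Ch φ' C) (ψ : B →+* D) (ψ' : B' →+* D) (h : ψ.comp φ = ψ'.comp φ')
    (α β : B) (α' β' : B')
    (hδ : ∀ u, Rel c c' ψ ψ' u → ψ' (2 * c'.a * β' - 3 * c'.b * α') =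
      u ^ 10 * ψ (2 * c.a * β - 3 * c.b * α)) :
    ∃ (s : Arrow (RingHom.id D) (Wei (WZ (ψ' c'.a) (ψ' c'.b))) (Wei (WZ (ψ c.a) (ψ c.b))))
      (g : Arrow (RingHom.id (Eps D)) (Wei (WZ (ep (ψ' c'.a) (ψ' α')) (ep (ψ' c'.b) (ψ' β'))))
        (Wei (WZ (ep (ψ c.a) (ψ α)) (ep (ψ c.b) (ψ β))))),
      (rr (ψ' c'.a) (ψ' c'.b) (ψ' α') (ψ' β')).f ≫ g.f =
        s.f ≫ (rr (ψ c.a) (ψ c.b) (ψ α) (ψ β)).f ∧
      s.f ≫ (warr ψ (a := c.a) (b := c.b) rfl rfl).f ≫ c.e.f =
        (warr ψ' (a := c'.a) (b := c'.b) rfl rfl).f ≫ c'.e.f := by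
  obtain ⟨u, hu⟩ := hREL.1 c c' ψ ψ' h6 h
  have hd := hδ u hu
  obtain ⟨v, huv, ha, hb, hc⟩ := hu
  have hs : Ideal.span {ψ' c'.a, ψ' c'.b} = ⊤ := (c'.push ψ').h
  obtain ⟨U, V, hUV, hU, hA, hB⟩ := exU h6 (a := ψ c.a) (b := ψ c.b) (α := ψ α) (β := ψ β)
    (α' := ψ' α') (β' := ψ' β') huv ha hb hs (by
      have e := hd
      simp only [map_sub, map_mul, map_ofNat] at e
      exact e)
  refine ⟨scarr huv ha hb, scarr hUV hA hB, ?_, hc⟩
  exact (t_WSC.2.2 (eps0 D) hUV hA hB huv ha hb (fst_ep _ _).symm (fst_ep _ _).symm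
    (fst_ep _ _).symm (fst_ep _ _).symm hU.symm).symm

/-- The arrow `g` of deformations is compatible with the arrows to `C`. -/
def Good {φ : A →+* B} {φ' : A →+* D} {C : Fam 1 A} {x : Fam 1 B} {x' : Fam 1 D}
    {y : Fam 1 (Eps B)} {y' : Fam 1 (Eps D)} (r : Arrow (eps0 B) x y)
    (r' : Arrow (eps0 D) x' y') (e : Arrow φ x C) (e' : Arrow φ' x' C) (ρ : B →+* D)
    (g : Arrow (epsMap ρ) y' y) : Prop :=
  ∃ s : Arrow ρ x' x, r'.f ≫ g.f = s.f ≫ r.f ∧ s.f ≫ e.f = e'.f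

theorem Good.uniq {φ : A →+* B} {φ' : A →+* D} {C : Fam 1 A} {x : Fam 1 B} {x' : Fam 1 D}
    {y : Fam 1 (Eps B)} {y' : Fam 1 (Eps D)} {r : Arrow (eps0 B) x y}
    {r' : Arrow (eps0 D) x' y'} {e : Arrow φ x C} {e' : Arrow φ' x' C} {ρ : B →+* D}
    {g g' : Arrow (epsMap ρ) y' y} (hRGD : Stmt_RGD) (h6 : IsUnit (6 : D)) (hx : LW x')
    (hy' : IsStable 1 y') (hy : IsStable 1 y) (hg : Good r r' e e' ρ g)
    (hg' : Good r r' e e' ρ g') : g.f = g'.f := by
  obtain ⟨s, h1, h2⟩ := hg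
  obtain ⟨s', h1', h2'⟩ := hg'
  have hs : s.f = s'.f := arrow_ext s s' e (h2.trans h2'.symm)
  refine DGL.uniq hRGD ρ h6 hx hy' hy r' g g' ?_
  rw [h1, h1', hs]

theorem epsMap_id : epsMap (RingHom.id B) = RingHom.id (Eps B) :=
  RingHom.ext fun z => by
    refine TrivSqZeroExt.ext ?_ ?_ <;> simp [epsMap]

theorem Good.id {φ : A →+* B} {C : Fam 1 A} {x : Fam 1 B} {y : Fam 1 (Eps B)}
    (r : Arrow (eps0 B) x y) (e : Arrow φ x C) :
    Good r r e e (RingHom.id B) (castA epsMap_id.symm (idArr y)) := by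
  refine ⟨idArr x, ?_, ?_⟩
  · change r.f ≫ 𝟙 _ = 𝟙 _ ≫ r.f
    rw [Category.comp_id, Category.id_comp]
  · change 𝟙 _ ≫ e.f = e.f
    rw [Category.id_comp]

theorem Good.comp {φ : A →+* B} {φ' : A →+* D} {φ'' : A →+* B'} {C : Fam 1 A} {x : Fam 1 B}
    {x' : Fam 1 D} {x'' : Fam 1 B'} {y : Fam 1 (Eps B)} {y' : Fam 1 (Eps D)}
    {y'' : Fam 1 (Eps B')} {r : Arrow (eps0 B) x y}
    {r' : Arrow (eps0 D) x' y'} {r'' : Arrow (eps0 B') x'' y''} {e : Arrow φ x C}
    {e' : Arrow φ' x' C} {e'' : Arrow φ'' x'' C} {ρ : B →+* D} {ρ' : D →+* B'}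
    {g : Arrow (epsMap ρ) y' y} {g' : Arrow (epsMap ρ') y'' y'}
    (hg : Good r r' e e' ρ g) (hg' : Good r' r'' e' e'' ρ' g') :
    Good r r'' e e'' (ρ'.comp ρ) (castA (epsMap_comp ρ ρ') (PBS.comp g' g)) := by
  obtain ⟨s, h1, h2⟩ := hg
  obtain ⟨s', h1', h2'⟩ := hg'
  refine ⟨PBS.comp s' s, ?_, ?_⟩
  · change r''.f ≫ g'.f ≫ g.f = (s'.f ≫ s.f) ≫ r.f
    rw [reassoc_of% h1', h1, Category.assoc]
  · change (s'.f ≫ s.f) ≫ e.f = e''.f
    rw [Category.assoc, h2, h2']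

theorem Good.cast {φ : A →+* B} {φ' : A →+* D} {C : Fam 1 A} {x : Fam 1 B} {x' : Fam 1 D}
    {y : Fam 1 (Eps B)} {y' : Fam 1 (Eps D)} {r : Arrow (eps0 B) x y}
    {r' : Arrow (eps0 D) x' y'} {e : Arrow φ x C} {e' : Arrow φ' x' C} {ρ ρ' : B →+* D}
    (h : ρ = ρ') {g : Arrow (epsMap ρ) y' y} (hg : Good r r' e e' ρ g) :
    Good r r' e e' ρ' (castA (congrArg epsMap h) g) := by
  subst h
  exact hg

/-- Comparison of the deformations in two charts, over a ring extension. -/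
theorem key2 {B0 : Type} [CommRing B0] (hREL : Stmt_REL) (h6 : IsUnit (6 : D)) {φ : A →+* B}
    {φ' : A →+* B'} {C : Fam 1 A} (c : Ch φ C) (c' : Ch φ' C) (ψ : B →+* B0) (ρ : B0 →+* D)
    (ψ' : B' →+* D) (h : (ρ.comp ψ).comp φ = ψ'.comp φ') (α β : B) (α' β' : B')
    (hδ : ∀ u, Rel c c' (ρ.comp ψ) ψ' u → ψ' (2 * c'.a * β' - 3 * c'.b * α') =
      u ^ 10 * (ρ.comp ψ) (2 * c.a * β - 3 * c.b * α)) :
    ∃ g : Arrow (epsMap ρ) (Wei (WZ (ep (ψ' c'.a) (ψ' α')) (ep (ψ' c'.b) (ψ' β'))))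
        (Wei (WZ (ep (ψ c.a) (ψ α)) (ep (ψ c.b) (ψ β)))),
      Good (rr (ψ c.a) (ψ c.b) (ψ α) (ψ β)) (rr (ψ' c'.a) (ψ' c'.b) (ψ' α') (ψ' β'))
        (c.push ψ).e (c'.push ψ').e ρ g := by
  obtain ⟨s, g, h1, h2⟩ := key hREL h6 c c' (ρ.comp ψ) ψ' h α β α' β' hδ
  let w := rw' ρ (ψ c.a) (ψ c.b) (ψ α) (ψ β)
  have hw : (rr ((ρ.comp ψ) c.a) ((ρ.comp ψ) c.b) ((ρ.comp ψ) α) ((ρ.comp ψ) β)).f ≫ w.f =
      (warr ρ (a := ψ c.a) (b := ψ c.b) rfl rfl).f ≫
        (rr (ψ c.a) (ψ c.b) (ψ α) (ψ β)).f := rr_rw ρ (ψ c.a) (ψ c.b) (ψ α) (ψ β)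
  have hv : (warr ρ (a := ψ c.a) (b := ψ c.b) rfl rfl).f ≫
      (warr ψ (a := c.a) (b := c.b) rfl rfl).f =
      (warr (ρ.comp ψ) (a := c.a) (b := c.b) rfl rfl).f :=
    warr_comp ψ ρ rfl rfl rfl rfl rfl rfl rfl
  refine ⟨castA (RingHom.id_comp (epsMap ρ)) (PBS.comp g w),
    castA (RingHom.id_comp ρ) (PBS.comp s (warr ρ rfl rfl)), ?_, ?_⟩
  · change (rr (ψ' c'.a) (ψ' c'.b) (ψ' α') (ψ' β')).f ≫ g.f ≫ w.f =
      (s.f ≫ (warr ρ (a := ψ c.a) (b := ψ c.b) rfl rfl).f) ≫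
        (rr (ψ c.a) (ψ c.b) (ψ α) (ψ β)).f
    rw [reassoc_of% h1, Category.assoc, ← hw]
  · change (s.f ≫ (warr ρ (a := ψ c.a) (b := ψ c.b) rfl rfl).f) ≫
      (warr ψ (a := c.a) (b := c.b) rfl rfl).f ≫ c.e.f =
        (warr ψ' (a := c'.a) (b := c'.b) rfl rfl).f ≫ c'.e.f
    rw [Category.assoc, reassoc_of% hv, ← h2]

theorem factor2 {φ : A →+* B} {φ' : A →+* D} {C : Fam 1 A} {x : Fam 1 B} {x' : Fam 1 D}
    (e : Arrow φ x C) (e' : Arrow φ' x' C) {ρ : B →+* D} (s : Arrow ρ x' x)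
    (hs : s.f ≫ e.f = e'.f) (hm : Mono (spMap φ)) {Z : Scheme.{0}} (p : Z ⟶ x.X)
    (ζ : Z ⟶ x'.X) (hζ : ζ ≫ e'.f = p ≫ e.f) : ζ ≫ s.f = p := by
  refine e.cart.hom_ext ?_ ?_
  · rw [Category.assoc, hs, hζ]
  · rw [← cancel_mono (spMap φ), Category.assoc, Category.assoc, Category.assoc, ← e.cart.w,
      reassoc_of% hs, reassoc_of% hζ]

end

section

variable {A : Type} [CommRing A] {r : ℕ} (f : Fin r → A)

/-- The ring of the intersection of the `D(f i)`, `i ∈ S`. -/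
abbrev AS (S : {S : Finset (Fin r) // S.Nonempty}) : Type := Localization.Away (∏ i ∈ S.1, f i)

theorem unitAS {S T : Finset (Fin r)} (h : S ⊆ T) {R : Type} [CommRing R] [Algebra A R]
    (hR : IsUnit (algebraMap A R (∏ i ∈ T, f i))) :
    IsUnit (algebraMap A R (∏ i ∈ S, f i)) :=
  isUnit_of_dvd_unit (map_dvd _ (Finset.prod_dvd_prod_of_subset _ _ _ h)) hR

theorem unitAS1 {T : Finset (Fin r)} {i : Fin r} (h : i ∈ T) {R : Type} [CommRing R] [Algebra A R]
    (hR : IsUnit (algebraMap A R (∏ i ∈ T, f i))) :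
    IsUnit (algebraMap A R (f i)) :=
  isUnit_of_dvd_unit (map_dvd _ (Finset.dvd_prod_of_mem _ h)) hR

variable {f} {S T U : {S : Finset (Fin r) // S.Nonempty}}

/-- Restriction. -/
noncomputable def res (h : S ≤ T) : AS f S →+* AS f T :=
  IsLocalization.Away.lift (∏ i ∈ S.1, f i) (g := algebraMap A (AS f T))
    (unitAS f h (IsLocalization.Away.algebraMap_isUnit (S := AS f T) _))

/-- Restriction. -/
noncomputable def res1 {i : Fin r} (h : i ∈ T.1) : Localization.Away (f i) →+* AS f T :=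
  IsLocalization.Away.lift (f i) (g := algebraMap A (AS f T))
    (unitAS1 f h (IsLocalization.Away.algebraMap_isUnit (S := AS f T) _))

theorem res_comp (h : S ≤ T) : (res h).comp (algebraMap A (AS f S)) = algebraMap A (AS f T) :=
  IsLocalization.Away.lift_comp (∏ i ∈ S.1, f i) (g := algebraMap A (AS f T))
    (unitAS f h (IsLocalization.Away.algebraMap_isUnit (S := AS f T) _))

theorem res1_comp {i : Fin r} (h : i ∈ T.1) :
    (res1 h).comp (algebraMap A (Localization.Away (f i))) = algebraMap A (AS f T) :=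
  IsLocalization.Away.lift_comp (f i) (g := algebraMap A (AS f T))
    (unitAS1 f h (IsLocalization.Away.algebraMap_isUnit (S := AS f T) _))

theorem AS_ext {R : Type} [CommRing R] {g g' : AS f S →+* R}
    (h : g.comp (algebraMap A (AS f S)) = g'.comp (algebraMap A (AS f S))) : g = g' :=
  IsLocalization.ringHom_ext (Submonoid.powers (∏ i ∈ S.1, f i)) h

theorem res_self : res (le_refl S) = RingHom.id (AS f S) := by
  refine AS_ext ?_
  rw [res_comp, RingHom.id_comp]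

theorem res_res (h : S ≤ T) (h' : T ≤ U) : (res h').comp (res h) =
    (res (h.trans h') : AS f S →+* AS f U) := by
  refine AS_ext ?_
  rw [RingHom.comp_assoc, res_comp, res_comp, res_comp]

/-- The first element. -/
def mS (S : {S : Finset (Fin r) // S.Nonempty}) : Fin r := S.1.min' S.2

theorem mS_mem : mS S ∈ S.1 := Finset.min'_mem _ _

theorem open_sp (a : A) : IsOpenImmersion (spMap (algebraMap A (Localization.Away a))) :=
  inferInstance

theorem mono_sp (a : A) : Mono (spMap (algebraMap A (Localization.Away a))) := by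
  have := open_sp a
  infer_instance

theorem range_sp (a : A) : Set.range (spMap (algebraMap A (Localization.Away a))) =
    (PrimeSpectrum.basicOpen a : Set (PrimeSpectrum A)) :=
  PrimeSpectrum.localization_away_comap_range (Localization.Away a) a

theorem pt_mem (S S' T : Finset (Fin r)) (hT : T ⊆ S ∪ S') (w : PrimeSpectrum A)
    (h1 : w ∈ (PrimeSpectrum.basicOpen (∏ i ∈ S, f i) : Set (PrimeSpectrum A)))
    (h2 : w ∈ (PrimeSpectrum.basicOpen (∏ i ∈ S', f i) : Set (PrimeSpectrum A))) :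
    w ∈ (PrimeSpectrum.basicOpen (∏ i ∈ T, f i) : Set (PrimeSpectrum A)) := by
  rw [SetLike.mem_coe, PrimeSpectrum.mem_basicOpen, w.2.prod_mem_iff] at h1 h2 ⊢
  rintro ⟨i, hi, hf⟩
  rcases Finset.mem_union.1 (hT hi) with h' | h'
  · exact h1 ⟨i, h', hf⟩
  · exact h2 ⟨i, h', hf⟩

/-- Factorisation through the intersection. -/
theorem factor (S S' T : {S : Finset (Fin r) // S.Nonempty})
    (hT : T.1 ⊆ S.1 ∪ S'.1) {Z : Scheme.{0}} (p : Z ⟶ Sp (AS f S)) (q : Z ⟶ Sp (AS f S'))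
    (h : p ≫ spMap (algebraMap A (AS f S)) = q ≫ spMap (algebraMap A (AS f S'))) :
    ∃ t : Z ⟶ Sp (AS f T), t ≫ spMap (algebraMap A (AS f T)) =
      p ≫ spMap (algebraMap A (AS f S)) := by
  have := open_sp (∏ i ∈ T.1, f i)
  refine ⟨IsOpenImmersion.lift (spMap (algebraMap A (AS f T)))
    (p ≫ spMap (algebraMap A (AS f S))) ?_, IsOpenImmersion.lift_fac _ _ _⟩
  rintro _ ⟨z, rfl⟩
  have h1 : (p ≫ spMap (algebraMap A (AS f S))) z ∈
      (PrimeSpectrum.basicOpen (∏ i ∈ S.1, f i) : Set (PrimeSpectrum A)) := by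
    rw [← range_sp]
    exact ⟨p z, rfl⟩
  have h2 : (p ≫ spMap (algebraMap A (AS f S))) z ∈
      (PrimeSpectrum.basicOpen (∏ i ∈ S'.1, f i) : Set (PrimeSpectrum A)) := by
    rw [← range_sp, h]
    exact ⟨q z, rfl⟩
  rw [range_sp]
  exact pt_mem S.1 S'.1 T.1 hT _ h1 h2

theorem lw_Wei {B : Type} [CommRing B] {a b : B} (h : Ideal.span {a, b} = ⊤) :
    LW (Wei (WZ a b)) := by
  intro p
  refine ⟨1, fun h1 => p.2.ne_top ((Ideal.eq_top_iff_one _).2 h1), ⟨?_⟩⟩
  have h' : Ideal.span {algebraMap B (Localization.Away (1 : B)) a,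
      algebraMap B (Localization.Away (1 : B)) b} = ⊤ := by
    rw [Ideal.eq_top_iff_one, Ideal.mem_span_pair] at h ⊢
    obtain ⟨r, s, hrs⟩ := h
    exact ⟨algebraMap B _ r, algebraMap B _ s, by
      rw [← map_mul, ← map_mul, ← map_add, hrs, map_one]⟩
  exact ⟨_, _, h', warr (algebraMap B (Localization.Away (1 : B))) rfl rfl⟩

end

section

variable {A : Type} [CommRing A] {r : ℕ} {f : Fin r → A} {C : Fam 1 A}
  (c : ∀ i, Ch (algebraMap A (Localization.Away (f i))) C) (α β : ∀ i, Localization.Away (f i))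
  (S T : {S : Finset (Fin r) // S.Nonempty})

/-- The curve over the intersection. -/
noncomputable def xS : Fam 1 (AS f S) :=
  Wei (WZ (res1 (mS_mem (S := S)) (c (mS S)).a) (res1 (mS_mem (S := S)) (c (mS S)).b))

/-- The deformation over the intersection. -/
noncomputable def yS : Fam 1 (Eps (AS f S)) :=
  Wei (WZ (ep (res1 (mS_mem (S := S)) (c (mS S)).a) (res1 (mS_mem (S := S)) (α (mS S))))
    (ep (res1 (mS_mem (S := S)) (c (mS S)).b) (res1 (mS_mem (S := S)) (β (mS S)))))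

/-- The restriction. -/
noncomputable def rS : Arrow (eps0 (AS f S)) (xS c S) (yS c α β S) :=
  rr (res1 (mS_mem (S := S)) (c (mS S)).a) (res1 (mS_mem (S := S)) (c (mS S)).b)
    (res1 (mS_mem (S := S)) (α (mS S))) (res1 (mS_mem (S := S)) (β (mS S)))

/-- The chart. -/
noncomputable def eS : Arrow (algebraMap A (AS f S)) (xS c S) C :=
  castA (res1_comp (mS_mem (S := S))) ((c (mS S)).push (res1 (mS_mem (S := S)))).e

theorem lw_xS : LW (xS c S) := lw_Wei ((c (mS S)).push (res1 (mS_mem (S := S)))).h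

theorem st_yS (h6 : IsUnit (6 : A)) : IsStable 1 (yS c α β S) :=
  wst.1 _ (WZ_ok (isUnit6_map (algebraMap (AS f S) (Eps (AS f S)))
    (isUnit6_map (algebraMap A (AS f S)) h6))
    (span_ep ((c (mS S)).push (res1 (mS_mem (S := S)))).h _ _))

variable {S T c α β}

theorem exG (hREL : Stmt_REL) (h6 : IsUnit (6 : A)) {δ : ∀ i, Localization.Away (f i)}
    (hC : Cpt c δ) (hδ : ∀ i, δ i = 2 * (c i).a * β i - 3 * (c i).b * α i) (h : S ≤ T) :
    ∃ g : Arrow (epsMap (res h)) (yS c α β T) (yS c α β S),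
      Good (rS c α β S) (rS c α β T) (eS c S) (eS c T) (res h) g := by
  have hh : ((res h).comp (res1 (f := f) (mS_mem (S := S)))).comp (algebraMap A _) =
      (res1 (f := f) (mS_mem (S := T))).comp (algebraMap A _) := by
    rw [RingHom.comp_assoc, res1_comp, res_comp, res1_comp]
  obtain ⟨g, s, h1, h2⟩ := key2 hREL (isUnit6_map (algebraMap A (AS f T)) h6) (c (mS S))
    (c (mS T)) (res1 (mS_mem (S := S))) (res h) (res1 (mS_mem (S := T))) hh (α (mS S))
    (β (mS S)) (α (mS T)) (β (mS T)) (fun u hu => by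
      rw [← hδ, ← hδ]
      exact hC (mS S) (mS T) (AS f T) _ _ u hh hu)
  exact ⟨g, s, h1, h2⟩

theorem exAB (h6 : IsUnit (6 : A)) (δ : ∀ i, Localization.Away (f i))
    (c : ∀ i, Ch (algebraMap A (Localization.Away (f i))) C) :
    ∃ α β : ∀ i, Localization.Away (f i), ∀ i, δ i = 2 * (c i).a * β i - 3 * (c i).b * α i := by
  have h : ∀ i, ∃ x y : Localization.Away (f i), δ i = 2 * (c i).a * y - 3 * (c i).b * x := by
    intro i
    obtain ⟨i6, hi⟩ := (isUnit6_map (algebraMap A (Localization.Away (f i))) h6).exists_right_inv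
    have hs := (c i).h
    rw [Ideal.eq_top_iff_one, Ideal.mem_span_pair] at hs
    obtain ⟨p, q, hpq⟩ := hs
    refine ⟨-2 * i6 * q * δ i, 3 * i6 * p * δ i, ?_⟩
    linear_combination (-δ i) * hi - 6 * i6 * δ i * hpq
  choose α β h using h
  exact ⟨α, β, h⟩

/-- The overlap condition for the arrow to the glued curve. -/
theorem overlap {y : Fam 1 (Eps A)}
    (k : ∀ S : {S : Finset (Fin r) // S.Nonempty},
      Arrow (epsMap (algebraMap A (AS f S))) (yS c α β S) y)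
    (g : ∀ (S T : {S : Finset (Fin r) // S.Nonempty}) (h : S ≤ T),
      Arrow (epsMap (res (f := f) h)) (yS c α β T) (yS c α β S))
    (hg : ∀ S T h, Good (rS c α β S) (rS c α β T) (eS c S) (eS c T) (res (f := f) h) (g S T h))
    (hk : ∀ S T h, (g S T h).f ≫ (k S).f = (k T).f) {Z : Scheme.{0}} (p : Z ⟶ (xS c S).X)
    (q : Z ⟶ (xS c T).X) (h : p ≫ (eS c S).f = q ≫ (eS c T).f) :
    p ≫ (rS c α β S).f ≫ (k S).f = q ≫ (rS c α β T).f ≫ (k T).f := by
  let V : {S : Finset (Fin r) // S.Nonempty} := ⟨S.1 ∪ T.1, S.2.mono Finset.subset_union_left⟩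
  have hS : S ≤ V := Finset.subset_union_left
  have hT : T ≤ V := Finset.subset_union_right
  obtain ⟨t, ht⟩ := factor (f := f) S T V le_rfl (p ≫ (xS c S).π) (q ≫ (xS c T).π) (by
    rw [Category.assoc, Category.assoc, ← (eS c S).cart.w, ← (eS c T).cart.w, reassoc_of% h])
  obtain ⟨ζ, hζ⟩ : ∃ ζ : Z ⟶ (xS c V).X, ζ ≫ (eS c V).f = p ≫ (eS c S).f :=
    ⟨(eS c V).cart.lift (p ≫ (eS c S).f) t (by
      rw [ht, Category.assoc, Category.assoc, ← (eS c S).cart.w]), (eS c V).cart.lift_fst _ _ _⟩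
  obtain ⟨s, h1, h2⟩ := hg S V hS
  obtain ⟨s', h1', h2'⟩ := hg T V hT
  have e1 : ζ ≫ s.f = p := factor2 (eS c S) (eS c V) s h2 (mono_sp _) p ζ hζ
  have e2 : ζ ≫ s'.f = q := factor2 (eS c T) (eS c V) s' h2' (mono_sp _) q ζ (hζ.trans h)
  rw [← e1, ← e2, Category.assoc, Category.assoc, ← reassoc_of% h1, ← reassoc_of% h1', hk, hk]

/-- The map back to the localisation at one element. -/
noncomputable def bk (i : Fin r) : AS f ⟨{i}, Finset.singleton_nonempty i⟩ →+*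
    Localization.Away (f i) :=
  IsLocalization.Away.lift (∏ j ∈ {i}, f j) (g := algebraMap A (Localization.Away (f i))) (by
    rw [Finset.prod_singleton]
    exact IsLocalization.Away.algebraMap_isUnit (f i))

theorem bk_comp (i : Fin r) : (bk (f := f) i).comp (algebraMap A _) =
    algebraMap A (Localization.Away (f i)) :=
  IsLocalization.Away.lift_comp (∏ j ∈ {i}, f j) (g := algebraMap A (Localization.Away (f i))) (by
    rw [Finset.prod_singleton]
    exact IsLocalization.Away.algebraMap_isUnit (f i))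

theorem cat5 {X Y Z W V P : Scheme.{0}} {a : X ⟶ Y} {g : Y ⟶ Z} {s : X ⟶ W} {r : W ⟶ Z}
    {k : Z ⟶ V} {e : W ⟶ P} {dr : P ⟶ V} {ce : X ⟶ P} (h1 : a ≫ g = s ≫ r)
    (hk : r ≫ k = e ≫ dr) (h2 : s ≫ e = ce) : a ≫ g ≫ k = ce ≫ dr := by
  rw [reassoc_of% h1, hk, reassoc_of% h2]

/-- The class of the glued deformation. -/
theorem isD (hREL : Stmt_REL) (h6 : IsUnit (6 : A)) {δ : ∀ i, Localization.Away (f i)}
    (hC : Cpt c δ) (hδ : ∀ i, δ i = 2 * (c i).a * β i - 3 * (c i).b * α i) (i : Fin r)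
    (d : Defo 1 C)
    (k : Arrow (epsMap (algebraMap A (AS f ⟨{i}, Finset.singleton_nonempty i⟩)))
      (yS c α β ⟨{i}, Finset.singleton_nonempty i⟩) d.y)
    (hk : (rS c α β ⟨{i}, Finset.singleton_nonempty i⟩).f ≫ k.f =
      (eS c ⟨{i}, Finset.singleton_nonempty i⟩).f ≫ d.r.f) : IsDelta (c i) d (δ i) := by
  have hh : ((bk (f := f) i).comp (res1 (f := f) (mS_mem
      (S := ⟨{i}, Finset.singleton_nonempty i⟩)))).comp (algebraMap A _) =
      (RingHom.id (Localization.Away (f i))).comp (algebraMap A _) := by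
    rw [RingHom.comp_assoc, res1_comp, bk_comp, RingHom.id_comp]
  obtain ⟨g, s, h1, h2⟩ := key2 hREL (isUnit6_map (algebraMap A (Localization.Away (f i))) h6)
    (c (mS ⟨{i}, Finset.singleton_nonempty i⟩)) (c i)
    (res1 (mS_mem (S := ⟨{i}, Finset.singleton_nonempty i⟩))) (bk (f := f) i) (RingHom.id _) hh
    (α (mS ⟨{i}, Finset.singleton_nonempty i⟩))
    (β (mS ⟨{i}, Finset.singleton_nonempty i⟩)) (α i) (β i) (fun u hu => by
      rw [← hδ, ← hδ]
      exact hC _ i _ _ _ u hh hu)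
  have hid : (warr (RingHom.id (Localization.Away (f i))) (a := (c i).a) (b := (c i).b) rfl
      rfl).f = 𝟙 _ := map_id' rfl rfl ⟨rfl, rfl⟩
  refine ⟨α i, β i, castA ((epsMap_comp _ _).trans (congrArg epsMap (bk_comp i)))
    (PBS.comp g k), ?_, hδ i⟩
  change (rr (c i).a (c i).b (α i) (β i)).f ≫ g.f ≫ k.f = (c i).e.f ≫ d.r.f
  have h1' : (rr (c i).a (c i).b (α i) (β i)).f ≫ g.f = s.f ≫
    (rS c α β ⟨{i}, Finset.singleton_nonempty i⟩).f := h1
  have h2' : s.f ≫ (eS c ⟨{i}, Finset.singleton_nonempty i⟩).f = (c i).e.f := by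
    have h3 : s.f ≫ (eS c ⟨{i}, Finset.singleton_nonempty i⟩).f =
      (warr (RingHom.id (Localization.Away (f i))) (a := (c i).a) (b := (c i).b) rfl
      rfl).f ≫ (c i).e.f := h2
    rw [h3, hid]
    exact Category.id_comp _
  exact cat5 h1' hk h2'

theorem loc_congr {R : Type} [CommRing R] [Algebra A R] {x y : A} (h : x = y)
    (hx : IsLocalization.Away x R) : IsLocalization.Away y R := by
  subst h
  exact hx

end

end DGL

open DGL in
theorem t_DGL (hREL : Stmt_REL) (_ : Stmt_DEI) (hGLD : Stmt_GLD) (hGAR : Stmt_GAR)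
    (hSTL : Stmt_STL) (hRGD : Stmt_RGD) (hLOE : Stmt_LOE) : Stmt_DGL := by
  intro A _ h6 r f hf C c δ hC
  obtain ⟨α, β, hδ⟩ := exAB h6 δ c
  have hex := fun (S T : {S : Finset (Fin r) // S.Nonempty}) (h : S ≤ T) =>
    exG hREL h6 hC hδ h
  choose g hg using hex
  -- functoriality
  have hgid : ∀ S, (g S S le_rfl).f = 𝟙 _ := by
    intro S
    have h1 := (Good.id (rS c α β S) (eS c S)).cast (res_self (f := f) (S := S)).symm
    exact (hg S S le_rfl).uniq hRGD (isUnit6_map (algebraMap A _) h6) (lw_xS c S)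
      (st_yS c α β S h6) (st_yS c α β S h6) h1
  have hgcomp : ∀ S T U (h : S ≤ T) (h' : T ≤ U),
      (g T U h').f ≫ (g S T h).f = (g S U (h.trans h')).f := by
    intro S T U h h'
    have h1 := (Good.comp (hg S T h) (hg T U h')).cast (res_res h h')
    exact h1.uniq hRGD (isUnit6_map (algebraMap A _) h6) (lw_xS c U)
      (st_yS c α β U h6) (st_yS c α β S h6) (hg S U (h.trans h'))
  -- gluing
  let alg : ∀ S : {S : Finset (Fin r) // S.Nonempty}, Algebra (Eps A) (Eps (AS f S)) :=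
    fun S => (epsMap (algebraMap A (AS f S))).toAlgebra
  have hmap : ∀ S, algebraMap (Eps A) (Eps (AS f S)) = epsMap (algebraMap A (AS f S)) :=
    fun S => rfl
  have hprod : ∀ S : Finset (Fin r), (TrivSqZeroExt.inl (∏ i ∈ S, f i) : Eps A) =
      ∏ i ∈ S, (TrivSqZeroExt.inl (f i) : Eps A) := fun S =>
    map_prod (TrivSqZeroExt.inlHom A A) f S
  have hloc : ∀ S : {S : Finset (Fin r) // S.Nonempty},
      IsLocalization.Away (∏ i ∈ S.1, (TrivSqZeroExt.inl (f i) : Eps A)) (Eps (AS f S)) := by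
    intro S
    rw [← hprod]
    exact hLOE (B := AS f S) (∏ i ∈ S.1, f i)
  have hspan : Ideal.span (Set.range fun i => (TrivSqZeroExt.inl (f i) : Eps A)) = ⊤ := by
    have h1 := congrArg (Ideal.map (TrivSqZeroExt.inlHom A A)) hf
    rw [Ideal.map_span, Ideal.map_top, ← Set.range_comp] at h1
    exact h1
  let ρ : ∀ S T : {S : Finset (Fin r) // S.Nonempty}, S ≤ T →
      (Eps (AS f S) →ₐ[Eps A] Eps (AS f T)) := fun S T h =>
    { epsMap (res (f := f) h) with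
      commutes' := fun z => by
        change ((epsMap (res (f := f) h)).comp (epsMap (algebraMap A (AS f S)))) z =
          epsMap (algebraMap A (AS f T)) z
        rw [epsMap_comp, res_comp] }
  obtain ⟨y, k, hk⟩ := hGLD (n := 1) (E := Eps A) (fun i => TrivSqZeroExt.inl (f i)) hspan
    (fun S => Eps (AS f S)) ρ (fun S => yS c α β S) (fun S T h => g S T h) hgid hgcomp
  let T : Fin r → {S : Finset (Fin r) // S.Nonempty} := fun i => ⟨{i}, Finset.singleton_nonempty i⟩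
  let k' : ∀ S : {S : Finset (Fin r) // S.Nonempty},
      Arrow (epsMap (algebraMap A (AS f S))) (yS c α β S) y := fun S => k S
  have hk' : ∀ S T h, (g S T h).f ≫ (k' S).f = (k' T).f := hk
  have hst : IsStable 1 y := by
    have hl : ∀ i, IsLocalization.Away (TrivSqZeroExt.inl (f i) : Eps A) (Eps (AS f (T i))) := by
      intro i
      have h1 := hloc (T i)
      rw [Finset.prod_singleton] at h1
      exact h1
    exact hSTL (n := 1) (g := 1) (E := Eps A) (fun i => TrivSqZeroExt.inl (f i)) hspan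
      (fun i => Eps (AS f (T i))) y (fun i => yS c α β (T i)) (fun i => ⟨k (T i)⟩)
      (fun i => st_yS c α β (T i) h6)
  have hl : ∀ i, IsLocalization.Away (f i) (AS f (T i)) := by
    intro i
    exact loc_congr (Finset.prod_singleton f i) (inferInstanceAs
      (IsLocalization.Away (∏ j ∈ ({i} : Finset (Fin r)), f j) (AS f (T i))))
  obtain ⟨e, he⟩ := hGAR (eps0 A) (Y := y) (C := C) f hf (fun i => AS f (T i))
    (fun i => xS c (T i)) (fun i => eS c (T i))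
    (fun i => castA (eps0_epsMap (algebraMap A (AS f (T i))))
      (PBS.comp (rS c α β (T i)) (k' (T i))))
    (fun i j Z p q h => overlap k' g hg hk' p q h)
  refine ⟨⟨y, hst, e⟩, fun i => ?_⟩
  exact isD hREL h6 hC hδ i ⟨y, hst, e⟩ (k' (T i)) (he i).symm

end Pool.Agent.MG.WL
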