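import Pool.Agent.MG.WL.StmtsW
import Pool.Agent.MG.WL.Tools

/-!
# Descent of functions with prescribed poles
-/

open CategoryTheory CategoryTheory.Limits AlgebraicGeometry TensorProduct

namespace Pool.Agent.MG.WL

open Pool.Agent.MG.W Pool.Agent.MG.One Pool.Agent.MG.GLU

namespace DSC

section Alg

variable {A B RU RV RW : Type} [CommRing A] [CommRing B] [CommRing RU] [CommRing RV]
  [CommRing RW] [Algebra A B] [Algebra A RU] [Algebra A RV] [Algebra A RW]

/-- The map `(c, X, r) ↦ s X - c - u r`. -/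
noncomputable def Th (iU : RU →ₐ[A] RW) (iV : RV →ₐ[A] RW) (s u : RW) :
    (A × RU × RV) →ₗ[A] RW :=
  LinearMap.mulLeft A s ∘ₗ iU.toLinearMap ∘ₗ LinearMap.fst A RU RV ∘ₗ
      LinearMap.snd A A (RU × RV) -
    Algebra.linearMap A RW ∘ₗ LinearMap.fst A A (RU × RV) -
    LinearMap.mulLeft A u ∘ₗ iV.toLinearMap ∘ₗ LinearMap.snd A RU RV ∘ₗ
      LinearMap.snd A A (RU × RV)

theorem Th_apply (iU : RU →ₐ[A] RW) (iV : RV →ₐ[A] RW) (s u : RW) (c : A) (X : RU) (r : RV) :
    Th iU iV s u (c, X, r) = s * iU X - algebraMap A RW c - u * iV r := rfl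

theorem lT (i : RU →ₐ[A] RW) (s : RW) (x : B ⊗[A] RU) :
    (LinearMap.mulLeft A s ∘ₗ i.toLinearMap).lTensor B x =
      (1 ⊗ₜ[A] s) * Algebra.TensorProduct.map (AlgHom.id A B) i x := by
  induction x using TensorProduct.induction_on with
  | zero => rw [map_zero, map_zero, mul_zero]
  | tmul b r =>
    rw [LinearMap.lTensor_tmul, Algebra.TensorProduct.map_tmul,
      Algebra.TensorProduct.tmul_mul_tmul, one_mul]
    rfl
  | add x y hx hy => rw [map_add, map_add, mul_add, hx, hy]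

theorem alg [Module.Flat A B] (iU : RU →ₐ[A] RW) (iV : RV →ₐ[A] RW) (s u : RW) (I : Ideal A)
    (hI : ∀ c X r, s * iU X = algebraMap A RW c + u * iV r → c ∈ I)
    (X' : B ⊗[A] RU) (r' : B ⊗[A] RV)
    (h : (1 ⊗ₜ[A] s) * Algebra.TensorProduct.map (AlgHom.id A B) iU X' =
      1 + (1 ⊗ₜ[A] u) * Algebra.TensorProduct.map (AlgHom.id A B) iV r') :
    (1 : B) ∈ I.map (algebraMap A B) := by
  have hex : Function.Exact (LinearMap.ker (Th iU iV s u)).subtype (Th iU iV s u) :=
    LinearMap.exact_subtype_ker_map _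
  have hex' := Module.Flat.lTensor_exact B hex
  set J1 : RU →ₗ[A] (A × RU × RV) := LinearMap.inr A A (RU × RV) ∘ₗ LinearMap.inl A RU RV
    with hJ1
  set J2 : RV →ₗ[A] (A × RU × RV) := LinearMap.inr A A (RU × RV) ∘ₗ LinearMap.inr A RU RV
    with hJ2
  have e1 : Th iU iV s u ∘ₗ J1 = LinearMap.mulLeft A s ∘ₗ iU.toLinearMap := by
    ext X
    show Th iU iV s u (0, X, 0) = s * iU X
    rw [Th_apply, map_zero, map_zero, mul_zero, sub_zero, sub_zero]
  have e2 : Th iU iV s u ∘ₗ J2 = - (LinearMap.mulLeft A u ∘ₗ iV.toLinearMap) := by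
    ext r
    show Th iU iV s u (0, 0, r) = - (u * iV r)
    rw [Th_apply, map_zero, map_zero, mul_zero, sub_zero, zero_sub]
  have h0 : (Th iU iV s u).lTensor B
      ((1 : B) ⊗ₜ[A] ((1, 0, 0) : A × RU × RV) + J1.lTensor B X' + J2.lTensor B r') = 0 := by
    rw [map_add, map_add, ← LinearMap.comp_apply, ← LinearMap.comp_apply,
      ← LinearMap.lTensor_comp, ← LinearMap.lTensor_comp, e1, e2, LinearMap.lTensor_neg,
      LinearMap.neg_apply, lT, lT, h, LinearMap.lTensor_tmul, Th_apply, map_zero, map_zero,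
      mul_zero, mul_zero, map_one, zero_sub, sub_zero, TensorProduct.tmul_neg,
      ← Algebra.TensorProduct.one_def]
    ring
  obtain ⟨z, hz⟩ := (hex' _).1 h0
  set f : B ⊗[A] (A × RU × RV) →ₗ[A] B :=
    (TensorProduct.rid A B).toLinearMap ∘ₗ (LinearMap.fst A A (RU × RV)).lTensor B with hf
  have f1 : f ((1 : B) ⊗ₜ[A] ((1, 0, 0) : A × RU × RV) + J1.lTensor B X' +
      J2.lTensor B r') = 1 := by
    have g1 : (LinearMap.fst A A (RU × RV)) ∘ₗ J1 = 0 := by
      ext X
      rfl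
    have g2 : (LinearMap.fst A A (RU × RV)) ∘ₗ J2 = 0 := by
      ext X
      rfl
    rw [hf, map_add, map_add, LinearMap.comp_apply, LinearMap.comp_apply, LinearMap.comp_apply,
      ← LinearMap.comp_apply (LinearMap.lTensor B _) (LinearMap.lTensor B J1),
      ← LinearMap.comp_apply (LinearMap.lTensor B _) (LinearMap.lTensor B J2),
      ← LinearMap.lTensor_comp, ← LinearMap.lTensor_comp, g1, g2, LinearMap.lTensor_zero,
      LinearMap.lTensor_zero, LinearMap.zero_apply, LinearMap.zero_apply, map_zero, add_zero,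
      add_zero, LinearMap.lTensor_tmul]
    show (TensorProduct.rid A B) ((1 : B) ⊗ₜ[A] (1 : A)) = 1
    rw [TensorProduct.rid_tmul, one_smul]
  rw [← f1, ← hz]
  clear hz f1 h0 h
  induction z using TensorProduct.induction_on with
  | zero =>
    rw [map_zero, map_zero]
    exact Ideal.zero_mem _
  | tmul b k =>
    obtain ⟨⟨c, X, r⟩, hk⟩ := k
    rw [LinearMap.mem_ker, Th_apply, sub_sub, sub_eq_zero] at hk
    have hc := hI c X r hk
    rw [LinearMap.lTensor_tmul, hf, LinearMap.comp_apply, LinearMap.lTensor_tmul]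
    show (TensorProduct.rid A B) (b ⊗ₜ[A] c) ∈ _
    rw [TensorProduct.rid_tmul, Algebra.smul_def]
    exact Ideal.mul_mem_right _ _ (Ideal.mem_map_of_mem _ hc)
  | add x y hx hy =>
    rw [map_add, map_add]
    exact Ideal.add_mem _ hx hy

end Alg

section Geo

variable {n : ℕ} {A B : Type} [CommRing A] [CommRing B] {φ : A →+* B}
  {C : Fam n A} {y : Fam n B}

theorem rs_rs {X : Scheme.{0}} {U V W : X.Opens} (h : U ≤ V) (h' : V ≤ W) (a : Γ(X, W)) :
    rs X h (rs X h' a) = rs X (h.trans h') a := by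
  change (X.presheaf.map (homOfLE h').op ≫ X.presheaf.map (homOfLE h).op) a = _
  rw [← Functor.map_comp, ← op_comp]
  rfl

theorem appLE_rs (a : Arrow φ y C) {V V' : C.X.Opens} (h : V' ≤ V) (W W' : y.X.Opens)
    (hW : W ≤ a.f ⁻¹ᵁ V) (hW' : W' ≤ a.f ⁻¹ᵁ V') (hh : W' ≤ W) (r : Γ(C.X, V)) :
    (a.f.appLE V' W' hW').hom (rs C.X h r) = rs y.X hh ((a.f.appLE V W hW).hom r) := by
  change (C.X.presheaf.map (homOfLE h).op ≫ a.f.appLE V' W' hW') r =
    (a.f.appLE V W hW ≫ y.X.presheaf.map (homOfLE hh).op) r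
  rw [Scheme.Hom.map_appLE, Scheme.Hom.appLE_map]

theorem compactU (hC : IsProper C.π) (U V : C.X.Opens)
    (h1 : ∀ z : C.X, z ∉ V → z ∈ U) (h2 : IsAffineOpen (U ⊓ V)) :
    IsCompact (U : Set C.X) := by
  have hcs : CompactSpace C.X := by
    have := hC
    exact QuasiCompact.compactSpace_of_compactSpace C.π
  have e : (U : Set C.X) = (V : Set C.X)ᶜ ∪ ((U ⊓ V : C.X.Opens) : Set C.X) := by
    ext z
    constructor
    · intro hz
      by_cases hzV : z ∈ V
      · exact Or.inr ⟨hz, hzV⟩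
      · exact Or.inl hzV
    · rintro (hz | hz)
      · exact h1 z hz
      · exact hz.1
  rw [e]
  exact V.isOpen.isClosed_compl.isCompact.union h2.isCompact

end Geo

end DSC

/-- Descent of functions with prescribed poles. -/
theorem t_DSC : Stmt_DSC := by
  intro A B _ _ _ φ C y a hC L L' hb hφ p hp n hX
  obtain ⟨X', r', hX'⟩ := hX
  by_contra hcon
  push Not at hcon
  have hUV : IsAffineOpen (L.U ⊓ L.V) := by
    rw [← L.bas]
    exact L.aff.basicOpen L.t
  have hUc : IsCompact (L.U : Set C.X) := by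
    refine DSC.compactU hC L.U L.V (fun z hz => ?_) hUV
    rw [L.mU]
    rintro ⟨x, rfl⟩
    exact hz (L.le (show x ∈ (⊤ : (Sp A).Opens) from trivial))
  have hsep := sep_of_proper hC
  have hUs : IsQuasiSeparated (L.U : Set C.X) := IsQuasiSeparated.of_quasiSeparatedSpace _
  have tU := tp_flat a hφ hUc hUs
  have tV := tp_affine a L.aff
  have tW := tp_affine a hUV
  let _ := φ.toAlgebra
  let _ := (coef C.π L.U).toAlgebra
  let _ := (coef C.π L.V).toAlgebra
  let _ := (coef C.π (L.U ⊓ L.V)).toAlgebra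
  have hfl : Module.Flat A B := hφ
  obtain ⟨eU, heU⟩ := tU
  obtain ⟨eV, heV⟩ := tV
  obtain ⟨eW, heW⟩ := tW
  let iU : Γ(C.X, L.U) →ₐ[A] Γ(C.X, L.U ⊓ L.V) :=
    { rs C.X (inf_le_left : L.U ⊓ L.V ≤ L.U) with
      commutes' := fun c => coef_rs C.π _ c }
  let iV : Γ(C.X, L.V) →ₐ[A] Γ(C.X, L.U ⊓ L.V) :=
    { rs C.X (inf_le_right : L.U ⊓ L.V ≤ L.V) with
      commutes' := fun c => coef_rs C.π _ c }
  have hiU : ∀ r, iU r = rs C.X inf_le_left r := fun _ => rfl
  have hiV : ∀ r, iV r = rs C.X inf_le_right r := fun _ => rfl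
  have lU : a.f ⁻¹ᵁ (L.U ⊓ L.V) ≤ a.f ⁻¹ᵁ L.U := fun _ h => h.1
  have lV : a.f ⁻¹ᵁ (L.U ⊓ L.V) ≤ a.f ⁻¹ᵁ L.V := fun _ h => h.2
  have cU : ∀ x, eW (Algebra.TensorProduct.map (AlgHom.id A B) iU x) =
      rs y.X lU (eU x) := by
    intro x
    induction x using TensorProduct.induction_on with
    | zero => rw [map_zero, map_zero, map_zero, map_zero]
    | tmul b r =>
      rw [Algebra.TensorProduct.map_tmul, heW, heU, map_mul, coef_rs, AlgHom.id_apply, hiU,
        DSC.appLE_rs a inf_le_left (a.f ⁻¹ᵁ L.U) (a.f ⁻¹ᵁ (L.U ⊓ L.V)) le_rfl le_rfl lU]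
    | add x y hx hy => rw [map_add, map_add, map_add, map_add, hx, hy]
  have cV : ∀ x, eW (Algebra.TensorProduct.map (AlgHom.id A B) iV x) =
      rs y.X lV (eV x) := by
    intro x
    induction x using TensorProduct.induction_on with
    | zero => rw [map_zero, map_zero, map_zero, map_zero]
    | tmul b r =>
      rw [Algebra.TensorProduct.map_tmul, heW, heV, map_mul, coef_rs, AlgHom.id_apply, hiV,
        DSC.appLE_rs a inf_le_right (a.f ⁻¹ᵁ L.V) (a.f ⁻¹ᵁ (L.U ⊓ L.V)) le_rfl le_rfl lV]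
    | add x y hx hy => rw [map_add, map_add, map_add, map_add, hx, hy]
  have key := DSC.alg (B := B) iU iV (iV L.t ^ n) (iV L.t) p.asIdeal (by
    intro c X r hcXr
    by_contra hc
    refine hcon c hc X ⟨r, ?_⟩
    rw [map_add, map_mul, coef_rs]
    exact hcXr)
    (eU.symm (rs y.X hb.U.ge X')) (eV.symm (rs y.X hb.V.ge r')) (by
    apply eW.injective
    have hle : a.f ⁻¹ᵁ (L.U ⊓ L.V) ≤ L'.U ⊓ L'.V := by
      rw [hb.U, hb.V]
      exact le_rfl
    have h1 := congrArg (rs y.X hle) hX'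
    rw [map_mul, map_add, map_one, map_mul, cU, cV, RingEquiv.apply_symm_apply,
      RingEquiv.apply_symm_apply, heW, heW, map_one, one_mul, one_mul, map_pow, hiV]
    have ht : (a.f.appLE (L.U ⊓ L.V) (a.f ⁻¹ᵁ (L.U ⊓ L.V)) le_rfl).hom
        (rs C.X inf_le_right L.t) = rs y.X (hle.trans inf_le_right) L'.t := by
      rw [hb.t]
      exact DSC.appLE_rs a inf_le_right _ _ _ _ _ _
    rw [ht]
    simp only [map_mul, map_pow, map_add, map_one, DSC.rs_rs] at h1 ⊢
    exact h1)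
  have h2 : p.asIdeal.map (algebraMap A B) ≤ IsLocalRing.maximalIdeal B :=
    Ideal.map_le_iff_le_comap.2 hp.ge
  exact (Ideal.ne_top_iff_one _).1 (IsLocalRing.maximalIdeal.isMaximal B).ne_top (h2 key)

end Pool.Agent.MG.WL
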