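import Pool.Agent.MG.WL.StmtsX

/-!
# DSP: deformations with the same classes in a covering of charts are isomorphic
-/

open CategoryTheory CategoryTheory.Limits AlgebraicGeometry TensorProduct

namespace Pool.Agent.MG.WL

open Pool.Agent.MG.W Pool.Agent.MG.One

namespace DSPa

/-- Two morphisms from `C.X` which agree on the charts agree. -/
theorem hom_cov {n : ℕ} {A : Type} [CommRing A] {C : Fam n A} {r : ℕ} (f : Fin r → A)
    (hf : Ideal.span (Set.range f) = ⊤) (C' : ∀ i, Fam n (Localization.Away (f i)))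
    (k : ∀ i, Arrow (algebraMap A (Localization.Away (f i))) (C' i) C) {T : Scheme.{0}}
    (a b : C.X ⟶ T) (h : ∀ i, (k i).f ≫ a = (k i).f ≫ b) : a = b := by
  let U : (Sp A).OpenCover :=
    (Scheme.affineOpenCoverOfSpanRangeEqTop (R := CommRingCat.of A) f hf).openCover
  have key : ∀ i : Fin r, pullback.fst C.π
      (spMap (algebraMap A (Localization.Away (f i)))) ≫ a = pullback.fst C.π
      (spMap (algebraMap A (Localization.Away (f i)))) ≫ b := by
    intro i
    rw [← (k i).cart.isoPullback_inv_fst, Category.assoc, Category.assoc, h i]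
  exact Scheme.Cover.hom_ext (U.pullback₁ C.π) a b fun i => key i

section

variable {A B B' D : Type} [CommRing A] [CommRing B] [CommRing B'] [CommRing D]

/-- The curve of a chart is locally a Weierstrass curve. -/
theorem lw_wei {a b : D} (h : Ideal.span {a, b} = ⊤) : LW (Wei (WZ a b)) := by
  intro p
  refine ⟨1, fun h1 => p.2.ne_top ((Ideal.eq_top_iff_one _).2 h1), ⟨algebraMap D _ a, algebraMap D _ b, ?_,
    warr _ rfl rfl⟩⟩
  rw [Ideal.eq_top_iff_one, Ideal.mem_span_pair] at h ⊢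
  obtain ⟨r, s, hrs⟩ := h
  exact ⟨algebraMap D _ r, algebraMap D _ s, by rw [← map_mul, ← map_mul, ← map_add, hrs, map_one]⟩

/-- Agreement on the overlap of two charts: the two arrows. -/
theorem agree (hRGD : Stmt_RGD) (φ : A →+* B) (φ' : A →+* B') (ψ : B →+* D) (ψ' : B' →+* D)
    (hc : ψ.comp φ = ψ'.comp φ') (h6 : IsUnit (6 : D)) {C : Fam 1 A} (c : Ch φ C) (c' : Ch φ' C)
    (d d' : Defo 1 C) {z : Fam 1 (Eps B)} (hz : IsStable 1 z)
    (ρ : Arrow (eps0 B) (Wei (WZ c.a c.b)) z) (f : Arrow (epsMap φ) z d.y)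
    (g : Arrow (epsMap φ) z d'.y)
    (hf : ρ.f ≫ f.f = c.e.f ≫ d.r.f) (hg : ρ.f ≫ g.f = c.e.f ≫ d'.r.f)
    {z' : Fam 1 (Eps B')}
    (ρ' : Arrow (eps0 B') (Wei (WZ c'.a c'.b)) z')
    (f' : Arrow (epsMap φ') z' d.y) (g' : Arrow (epsMap φ') z' d'.y)
    (hf' : ρ'.f ≫ f'.f = c'.e.f ≫ d.r.f) (hg' : ρ'.f ≫ g'.f = c'.e.f ≫ d'.r.f)
    {w : Fam 1 (Eps D)} (F : Arrow (epsMap ψ) w z) (G : Arrow (epsMap ψ') w z')
    (hFG : F.f ≫ f.f = G.f ≫ f'.f) : F.f ≫ g.f = G.f ≫ g'.f := by
  have hw : IsStable 1 w := arrow_stable F hz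
  have e1 : (epsMap ψ).comp (epsMap φ) = (RingHom.id (Eps D)).comp (epsMap (ψ.comp φ)) := by
    rw [epsMap_comp]; rfl
  have e2 : (epsMap ψ').comp (epsMap φ') = (RingHom.id (Eps D)).comp (epsMap (ψ.comp φ)) := by
    rw [epsMap_comp, hc]; rfl
  let K := PBS.bcArrow (epsMap (ψ.comp φ)) d'.y
  let h : Arrow (RingHom.id (Eps D)) w (PBS.bc (epsMap (ψ.comp φ)) d'.y) :=
    arrowLift (castA e1 (PBS.comp F g)) K
  let h' : Arrow (RingHom.id (Eps D)) w (PBS.bc (epsMap (ψ.comp φ)) d'.y) :=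
    arrowLift (castA e2 (PBS.comp G g')) K
  have hh : h.f ≫ K.f = F.f ≫ g.f := arrowLift_f _ _
  have hh' : h'.f ≫ K.f = G.f ≫ g'.f := arrowLift_f _ _
  -- the special fibre
  let x : Fam 1 D := Wei (WZ (ψ c.a) (ψ c.b))
  let v : Arrow ψ x (Wei (WZ c.a c.b)) := warr ψ rfl rfl
  let r : Arrow (eps0 D) x w := arrowLift (castA (eps0_epsMap ψ).symm (PBS.comp v ρ)) F
  have hr : r.f ≫ F.f = v.f ≫ ρ.f := arrowLift_f _ _
  let m : Arrow ψ' x (Wei (WZ c'.a c'.b)) := arrowLift (castA hc (PBS.comp v c.e)) c'.e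
  have hm : m.f ≫ c'.e.f = v.f ≫ c.e.f := arrowLift_f _ _
  have hmr : r.f ≫ G.f = m.f ≫ ρ'.f := by
    refine arrow_ext (ψ := (eps0 D).comp (epsMap ψ')) (PBS.comp r G)
      (castA (eps0_epsMap ψ').symm (PBS.comp m ρ')) f' ?_
    change (r.f ≫ G.f) ≫ f'.f = (m.f ≫ ρ'.f) ≫ f'.f
    rw [Category.assoc, ← hFG, reassoc_of% hr, hf, Category.assoc, hf', reassoc_of% hm]
  have key : r.f ≫ h.f = r.f ≫ h'.f := by
    refine arrow_ext (ψ := (eps0 D).comp (RingHom.id (Eps D))) (PBS.comp r h) (PBS.comp r h') K ?_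
    change (r.f ≫ h.f) ≫ K.f = (r.f ≫ h'.f) ≫ K.f
    rw [Category.assoc, Category.assoc, hh, hh', reassoc_of% hr, hg, reassoc_of% hmr, hg',
      reassoc_of% hm]
  have hfin : h.f = h'.f :=
    hRGD h6 (lw_wei (c.push ψ).h) w _ hw (PBS.bc_stable _ _ d'.stable) r h h' key
  rw [← hh, ← hh', hfin]

/-- Agreement on the overlap of two charts. -/
theorem agree2 (hRGD : Stmt_RGD) (φ : A →+* B) (φ' : A →+* B') (ψ : B →+* D) (ψ' : B' →+* D)
    (hc : ψ.comp φ = ψ'.comp φ') (h6 : IsUnit (6 : D)) {C : Fam 1 A} (c : Ch φ C) (c' : Ch φ' C)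
    (d d' : Defo 1 C) {z : Fam 1 (Eps B)} (hz : IsStable 1 z)
    (ρ : Arrow (eps0 B) (Wei (WZ c.a c.b)) z) (f : Arrow (epsMap φ) z d.y)
    (g : Arrow (epsMap φ) z d'.y)
    (hf : ρ.f ≫ f.f = c.e.f ≫ d.r.f) (hg : ρ.f ≫ g.f = c.e.f ≫ d'.r.f)
    {z' : Fam 1 (Eps B')}
    (ρ' : Arrow (eps0 B') (Wei (WZ c'.a c'.b)) z')
    (f' : Arrow (epsMap φ') z' d.y) (g' : Arrow (epsMap φ') z' d'.y)
    (hf' : ρ'.f ≫ f'.f = c'.e.f ≫ d.r.f) (hg' : ρ'.f ≫ g'.f = c'.e.f ≫ d'.r.f)
    (hmo : Mono (spMap (epsMap φ))) (hmo' : Mono (spMap (epsMap φ')))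
    {Z : Scheme.{0}} (p : Z ⟶ z.X) (q : Z ⟶ z'.X) (hpq : p ≫ f.f = q ≫ f'.f)
    (s : Z ⟶ Sp (Eps D)) (hs : s ≫ spMap (epsMap (ψ.comp φ)) = p ≫ f.f ≫ d.y.π) :
    p ≫ g.f = q ≫ g'.f := by
  let F := PBS.bcArrow (epsMap ψ) z
  have e2 : (epsMap ψ).comp (epsMap φ) = (epsMap ψ').comp (epsMap φ') := by
    rw [epsMap_comp, epsMap_comp, hc]
  let G : Arrow (epsMap ψ') (PBS.bc (epsMap ψ) z) z' := arrowLift (castA e2 (PBS.comp F f)) f'
  have hG : G.f ≫ f'.f = F.f ≫ f.f := arrowLift_f _ _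
  have h1 := agree hRGD φ φ' ψ ψ' hc h6 c c' d d' hz ρ f g hf hg ρ' f' g' hf' hg' F G hG.symm
  have h2 : p ≫ z.π = s ≫ spMap (epsMap ψ) := by
    rw [← cancel_mono (spMap (epsMap φ)), Category.assoc, Category.assoc, ← PBS.spMap_comp,
      epsMap_comp, hs, f.cart.w]
  let p' := F.cart.lift p s h2
  have hp' : p' ≫ F.f = p := F.cart.lift_fst _ _ _
  have hmf' : Mono f'.f := f'.cart.mono_fst_of_mono
  have hq' : p' ≫ G.f = q := by
    rw [← cancel_mono f'.f, Category.assoc, hG, reassoc_of% hp', hpq]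
  rw [← hp', ← hq', Category.assoc, Category.assoc, h1]

end

end DSPa

theorem t_DSP (hDEI : Stmt_DEI) (hGAR : Stmt_GAR) (hRGD : Stmt_RGD) (hLOE : Stmt_LOE) :
    Stmt_DSP := by
  intro A _ h6 r f hf C c d d' δ hd hd'
  have h6' : ∀ i, IsUnit (6 : Localization.Away (f i)) := fun i =>
    isUnit6_map (algebraMap A (Localization.Away (f i))) h6
  choose z hz ρ k k' hk hk' using fun i => hDEI (c i) (h6' i) d d' (δ i) (hd i) (hd' i)
  let alg : ∀ i, Algebra (Eps A) (Eps (Localization.Away (f i))) := fun i =>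
    (epsMap (algebraMap A (Localization.Away (f i)))).toAlgebra
  have loc : ∀ i, IsLocalization.Away (TrivSqZeroExt.inl (f i) : Eps A)
      (Eps (Localization.Away (f i))) := fun i => hLOE (f i)
  have hmo : ∀ i, Mono (spMap (epsMap (algebraMap A (Localization.Away (f i))))) := by
    intro i
    have := IsOpenImmersion.of_isLocalization (R := Eps A) (S := Eps (Localization.Away (f i)))
      (TrivSqZeroExt.inl (f i) : Eps A)
    exact inferInstance
  have hspan : Ideal.span (Set.range fun i => (TrivSqZeroExt.inl (f i) : Eps A)) = ⊤ := by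
    have h1 := congrArg (Ideal.map (algebraMap A (Eps A))) hf
    rw [Ideal.map_span, Ideal.map_top, ← Set.range_comp] at h1
    exact h1
  obtain ⟨e, he⟩ := hGAR (RingHom.id (Eps A)) (Y := d'.y) (C := d.y)
    (fun i => (TrivSqZeroExt.inl (f i) : Eps A)) hspan
    (fun i => Eps (Localization.Away (f i))) z k
    (fun i => castA (RingHom.comp_id _).symm (k' i)) (by
      intro i j Z p q hpq
      have hu : IsUnit (algebraMap A (Localization.Away (f i * f j)) (f i * f j)) :=
        IsLocalization.Away.algebraMap_isUnit _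
      rw [map_mul] at hu
      obtain ⟨ψ, hψ⟩ : ∃ ψ : Localization.Away (f i) →+* Localization.Away (f i * f j),
          ψ.comp (algebraMap A (Localization.Away (f i))) =
            algebraMap A (Localization.Away (f i * f j)) :=
        ⟨IsLocalization.Away.lift (f i) (isUnit_of_mul_isUnit_left hu),
          IsLocalization.Away.lift_comp (f i) _⟩
      obtain ⟨ψ', hψ'⟩ : ∃ ψ : Localization.Away (f j) →+* Localization.Away (f i * f j),
          ψ.comp (algebraMap A (Localization.Away (f j))) =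
            algebraMap A (Localization.Away (f i * f j)) :=
        ⟨IsLocalization.Away.lift (f j) (isUnit_of_mul_isUnit_right hu),
          IsLocalization.Away.lift_comp (f j) _⟩
      -- the morphism to the spectrum of the overlap
      have hs : ∃ s : Z ⟶ Sp (Eps (Localization.Away (f i * f j))),
          s ≫ spMap (epsMap (algebraMap A (Localization.Away (f i * f j)))) =
            p ≫ (k i).f ≫ d.y.π := by
        let _ : Algebra (Eps A) (Eps (Localization.Away (f i * f j))) :=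
          (epsMap (algebraMap A (Localization.Away (f i * f j)))).toAlgebra
        have : IsLocalization.Away (TrivSqZeroExt.inl (f i * f j) : Eps A)
          (Eps (Localization.Away (f i * f j))) := hLOE (f i * f j)
        have hoi : IsOpenImmersion (spMap (epsMap (algebraMap A
            (Localization.Away (f i * f j))))) :=
          IsOpenImmersion.of_isLocalization (R := Eps A)
            (S := Eps (Localization.Away (f i * f j))) (TrivSqZeroExt.inl (f i * f j) : Eps A)
        have ho : Set.range (spMap (epsMap (algebraMap A (Localization.Away (f i * f j))))) =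
            (PrimeSpectrum.basicOpen (TrivSqZeroExt.inl (f i * f j) : Eps A) :
              Set (PrimeSpectrum (Eps A))) :=
          PrimeSpectrum.localization_away_comap_range (Eps (Localization.Away (f i * f j))) _
        have ho' : ∀ i, Set.range (spMap (epsMap (algebraMap A (Localization.Away (f i))))) =
            (PrimeSpectrum.basicOpen (TrivSqZeroExt.inl (f i) : Eps A) :
              Set (PrimeSpectrum (Eps A))) := fun i =>
          PrimeSpectrum.localization_away_comap_range (Eps (Localization.Away (f i))) _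
        refine ⟨IsOpenImmersion.lift (spMap (epsMap (algebraMap A
          (Localization.Away (f i * f j))))) (p ≫ (k i).f ≫ d.y.π) ?_,
          IsOpenImmersion.lift_fac _ _ _⟩
        rintro _ ⟨x, rfl⟩
        have h1 : (p ≫ (k i).f ≫ d.y.π) x ∈
            Set.range (spMap (epsMap (algebraMap A (Localization.Away (f i))))) := by
          rw [(k i).cart.w]
          exact ⟨z i |>.π (p x), by simp⟩
        have h2 : (p ≫ (k i).f ≫ d.y.π) x ∈
            Set.range (spMap (epsMap (algebraMap A (Localization.Away (f j))))) := by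
          have h3 : p ≫ (k i).f ≫ d.y.π = q ≫ (k j).f ≫ d.y.π := by
            rw [reassoc_of% hpq]
          rw [h3, (k j).cart.w]
          exact ⟨z j |>.π (q x), by simp⟩
        rw [ho'] at h1 h2
        rw [ho, TrivSqZeroExt.inl_mul, PrimeSpectrum.basicOpen_mul]
        exact ⟨h1, h2⟩
      obtain ⟨s, hs⟩ := hs
      exact DSPa.agree2 hRGD _ _ ψ ψ' (hψ.trans hψ'.symm)
        (isUnit6_map (algebraMap A (Localization.Away (f i * f j))) h6) (c i) (c j) d d' (hz i)
        (ρ i) (k i) (k' i) (hk i) (hk' i) (ρ j) (k j) (k' j) (hk j) (hk' j) (hmo i) (hmo j)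
        p q hpq s (by rw [hψ]; exact hs))
  refine ⟨e, ?_⟩
  refine DSPa.hom_cov f hf (fun i => Wei (WZ (c i).a (c i).b)) (fun i => (c i).e) _ _ fun i => ?_
  have he' : (k i).f ≫ e.f = (k' i).f := he i
  rw [← Category.assoc, ← hk i, Category.assoc, he', hk' i]

end Pool.Agent.MG.WL
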