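import Pool.Agent.MG.WL.StmtsX

/-!
# EX: every invariant polynomial is a regular function on `T^*M̄_{1,1}`
-/

open CategoryTheory CategoryTheory.Limits AlgebraicGeometry TensorProduct

namespace Pool.Agent.MG.WL

open Pool.Agent.MG.W Pool.Agent.MG.One Pool.Agent.MG.W.WCV

namespace EXX

/-- Weierstrass charts exist Zariski locally. -/
theorem lw_of (hWLF : Stmt_WLF) {A : Type} [CommRing A] [Algebra ℂ A] {C : Fam 1 A}
    (hC : IsStable 1 C) : LW C := by
  intro p
  obtain ⟨f, hf, a, b, h, ⟨e⟩⟩ := hWLF A C hC p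
  exact ⟨f, hf, ⟨⟨a, b, h, e⟩⟩⟩

/-- The elements with a chart span the unit ideal. -/
theorem span_chI {A : Type} [CommRing A] {C : Fam 1 A} (h : LW C) :
    Ideal.span (chI C) = ⊤ := by
  by_contra hne
  obtain ⟨m, hm, hle⟩ := Ideal.exists_le_maximal _ hne
  obtain ⟨f, hf, hc⟩ := h ⟨m, hm.isPrime⟩
  exact hf (hle (Ideal.subset_span hc))

/-- An element which vanishes in the localisations at elements which span the unit ideal. -/
theorem eq_zero_of_local {B : Type} [CommRing B] (s : Set B) (hs : Ideal.span s = ⊤) (w : B)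
    (h : ∀ g ∈ s, algebraMap B (Localization.Away g) w = 0) : w = 0 := by
  have h1 : s ⊆ (Ideal.radical (LinearMap.ker (LinearMap.toSpanSingleton B B w)) : Set B) := by
    intro g hg
    have h2 := h g hg
    rw [IsLocalization.map_eq_zero_iff (Submonoid.powers g)] at h2
    obtain ⟨⟨_, n, rfl⟩, hn⟩ := h2
    refine ⟨n, ?_⟩
    rw [LinearMap.mem_ker, LinearMap.toSpanSingleton_apply, smul_eq_mul]
    exact hn
  have h2 : (1 : B) ∈ Ideal.radical (LinearMap.ker (LinearMap.toSpanSingleton B B w)) := by
    have h3 := Ideal.span_le.2 h1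
    rw [hs] at h3
    exact h3 Submodule.mem_top
  obtain ⟨n, hn⟩ := h2
  rw [one_pow, LinearMap.mem_ker, LinearMap.toSpanSingleton_apply, one_smul] at hn
  exact hn

theorem aeval_map {A A' : Type} [CommRing A] [Algebra ℂ A] [CommRing A'] [Algebra ℂ A']
    (ω : A →+* A') (hω : ω.comp (algebraMap ℂ A) = algebraMap ℂ A') (a b τ : A)
    (P : MvPolynomial (Fin 3) ℂ) :
    ω (MvPolynomial.aeval ![a, b, τ] P) = MvPolynomial.aeval ![ω a, ω b, ω τ] P := by
  let ωA : A →ₐ[ℂ] A' := { ω with commutes' := fun z => RingHom.congr_fun hω z }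
  have h1 : ωA (MvPolynomial.aeval ![a, b, τ] P) =
      MvPolynomial.aeval (fun i => ωA (![a, b, τ] i)) P := MvPolynomial.comp_aeval_apply _ _ _
  have h2 : (fun i => ωA (![a, b, τ] i)) = ![ω a, ω b, ω τ] := by
    funext i
    fin_cases i <;> rfl
  rw [h2] at h1
  exact h1

theorem algebraMap_comp {A : Type} [CommRing A] [Algebra ℂ A] (f : A) :
    (algebraMap A (Localization.Away f)).comp (algebraMap ℂ A) =
      algebraMap ℂ (Localization.Away f) :=
  (IsScalarTower.algebraMap_eq ℂ A (Localization.Away f)).symm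

/-- Naturality of the value. -/
theorem value_nat (hTRL : Stmt_TRL) (hTAU : Stmt_TAU) {A B : Type} [CommRing A] [Algebra ℂ A]
    [CommRing B] [Algebra ℂ B] (φ : A →ₐ[ℂ] B) {x : Fam 1 A} {y : Fam 1 B} (hx : IsStable 1 x)
    (lx : LW x) (a : Arrow (φ : A →+* B) y x) (l : Cov 1 x)
    (l' : Cov 1 y) (hl : Compat a l' l) (P : MvPolynomial (Fin 3) ℂ) (v : A) (v' : B)
    (hv : IsVal P l v) (hv' : IsVal P l' v') : v' = φ v := by
  have h6 : IsUnit (6 : A) := six
  have hspan : Ideal.span ((φ : A →+* B) '' chI x) = ⊤ := by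
    rw [← Ideal.map_span, span_chI lx, Ideal.map_top]
  rw [← sub_eq_zero]
  refine eq_zero_of_local _ hspan _ ?_
  rintro _ ⟨f, ⟨c⟩, rfl⟩
  obtain ⟨τ, hτ, -⟩ := (hTAU h6 hx lx f c).2 l
  have hu : IsUnit (((algebraMap B (Localization.Away ((φ : A →+* B) f))).comp (φ : A →+* B)) f) :=
    IsLocalization.Away.algebraMap_isUnit ((φ : A →+* B) f)
  obtain ⟨ω, hω⟩ : ∃ ω : Localization.Away f →+* Localization.Away ((φ : A →+* B) f),
      ω.comp (algebraMap A (Localization.Away f)) =
        (algebraMap B (Localization.Away ((φ : A →+* B) f))).comp (φ : A →+* B) :=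
    ⟨IsLocalization.Away.lift f hu, IsLocalization.Away.lift_comp f hu⟩
  have h1 := hTRL.2 h6 (φ : A →+* B) hx lx a l l' hl f c τ hτ ω hω
  have h2 := hv' _ (c.pull a ω hω) (ω τ) h1
  have h3 := hv f c τ hτ
  have h4 : ω.comp (algebraMap ℂ (Localization.Away f)) =
      algebraMap ℂ (Localization.Away ((φ : A →+* B) f)) := by
    rw [← algebraMap_comp, ← RingHom.comp_assoc, hω, RingHom.comp_assoc, ← algebraMap_comp]
    congr 1
    exact φ.comp_algebraMap
  have h5 := aeval_map ω h4 c.a c.b τ P
  rw [← h3] at h5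
  have h6 : ω (algebraMap A (Localization.Away f) v) =
      algebraMap B (Localization.Away ((φ : A →+* B) f)) (φ v) := RingHom.congr_fun hω v
  rw [map_sub, h2, ← h6, h5]
  exact sub_self _

/-- The chart of a Weierstrass curve over a localisation. -/
noncomputable def wch {B : Type} [CommRing B] {a b : B} (h : Ideal.span {a, b} = ⊤) (f : B) :
    Ch (algebraMap B (Localization.Away f)) (Wei (WZ a b)) where
  a := algebraMap B _ a
  b := algebraMap B _ b
  h := by
    rw [Ideal.eq_top_iff_one, Ideal.mem_span_pair] at h ⊢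
    obtain ⟨r, s, hrs⟩ := h
    exact ⟨algebraMap B _ r, algebraMap B _ s, by
      rw [← map_mul, ← map_mul, ← map_add, hrs, map_one]⟩
  e := warr (algebraMap B _) rfl rfl

/-- The coefficient of `cov six a b τ` in the chart of the Weierstrass curve is `τ`. -/
theorem wch_tau (hDEA : Stmt_DEA) (hDEC : Stmt_DEC) {B : Type} [CommRing B] [Algebra ℂ B]
    {a b : B} (h : Ideal.span {a, b} = ⊤) (τ f : B) :
    IsTau (wch h f) (cov six a b τ) (algebraMap B _ τ) := by
  intro d δ hδ
  obtain ⟨α, β, g, hg⟩ := exists_dW six h d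
  have h1 := hDEC.2.1 (wch h f) d (dW six h α β) g hg δ hδ
  let ww : Arrow (epsMap (algebraMap B (Localization.Away f)))
      (Wei (WZ (ep (algebraMap B (Localization.Away f) a) (algebraMap B (Localization.Away f) α))
        (ep (algebraMap B (Localization.Away f) b) (algebraMap B (Localization.Away f) β))))
      (Wei (WZ (ep a α) (ep b β))) :=
    warr (epsMap (algebraMap B (Localization.Away f))) (a := ep a α) (b := ep b β)
      (epsMap_ep (algebraMap B (Localization.Away f)) a α).symm
      (epsMap_ep (algebraMap B (Localization.Away f)) b β).symm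
  have h2 : IsDelta (wch h f) (dW six h α β) (algebraMap B _ (2 * a * β - 3 * b * α)) := by
    refine ⟨algebraMap B _ α, algebraMap B _ β, ww, ?_, ?_⟩
    · have e1 := warr_comp (epsMap (algebraMap B (Localization.Away f))) (eps0 _)
        (eps0_epsMap (algebraMap B (Localization.Away f))) (a := ep a α) (b := ep b β)
        (epsMap_ep (algebraMap B (Localization.Away f)) a α).symm
        (epsMap_ep (algebraMap B (Localization.Away f)) b β).symm
        (a'' := algebraMap B _ a) (b'' := algebraMap B _ b)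
        (fst_ep _ _).symm (fst_ep _ _).symm
        (by rw [RingHom.comp_apply]; exact congrArg _ (fst_ep a α).symm)
        (by rw [RingHom.comp_apply]; exact congrArg _ (fst_ep b β).symm)
      have e2 := warr_comp (eps0 B) (algebraMap B (Localization.Away f)) rfl
        (a := ep a α) (b := ep b β) (a' := a) (b' := b) (fst_ep _ _).symm (fst_ep _ _).symm
        (a'' := algebraMap B _ a) (b'' := algebraMap B _ b) rfl rfl
        (by rw [RingHom.comp_apply]; exact congrArg _ (fst_ep a α).symm)
        (by rw [RingHom.comp_apply]; exact congrArg _ (fst_ep b β).symm)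
      exact e1.trans e2.symm
    · change _ = 2 * algebraMap B (Localization.Away f) a * _ -
        3 * algebraMap B (Localization.Away f) b * _
      simp only [map_sub, map_mul, map_ofNat]
  have h6 : IsUnit (6 : Localization.Away f) := six
  have h3 : δ = algebraMap B _ (2 * a * β - 3 * b * α) :=
    (hDEA (wch h f) h6 (dW six h α β)).unique h1 h2
  rw [h3, (cov six a b τ).iso _ _ g hg,
    cov_is six a b τ (dW six h α β) α β Fin.elim0 Fin.elim0 (wcls_dW six h α β), ← map_mul]
  congr 1
  simp only [WT, Finset.univ_eq_empty, Finset.sum_empty, add_zero]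
  ring

end EXX

open EXX in
/-- Existence of regular functions. -/
theorem t_EX (hWLF : Stmt_WLF) (hDEA : Stmt_DEA) (hDEC : Stmt_DEC) (hTAU : Stmt_TAU)
    (hTRL : Stmt_TRL) (hVAL : Stmt_VAL) : Stmt_EX := by
  intro P hP
  have hval : ∀ (A : Type) [CommRing A] [Algebra ℂ A] (x : Fam 1 A) (_ : IsStable 1 x)
      (l : Cov 1 x), ∃! v : A, IsVal P l v := fun A _ _ x hx l =>
    hVAL hx (lw_of hWLF hx) P hP l
  refine ⟨{ F := fun A _ _ x hx l => (hval A x hx l).choose
            nat := fun A B _ _ _ _ φ x y hx hy a l l' hl =>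
              value_nat hTRL hTAU φ hx (lw_of hWLF hx) a l l' hl P _ _
                (hval A x hx l).choose_spec.1 (hval B y hy l').choose_spec.1 }, ?_⟩
  intro B _ _ a b τ hs h
  have hv := (hval B (Wei (WZ a b)) hs (cov six a b τ)).choose_spec.1
  change (hval B (Wei (WZ a b)) hs (cov six a b τ)).choose = _
  generalize (hval B (Wei (WZ a b)) hs (cov six a b τ)).choose = v at hv
  have h1 := hv 1 (wch h 1) _ (wch_tau hDEA hDEC h τ 1)
  have h2 := aeval_map (algebraMap B (Localization.Away (1 : B))) (algebraMap_comp 1) a b τ P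
  have h3 : algebraMap B (Localization.Away (1 : B)) v =
      algebraMap B (Localization.Away (1 : B)) (MvPolynomial.aeval ![a, b, τ] P) :=
    h1.trans h2.symm
  rw [← sub_eq_zero]
  refine eq_zero_of_local {(1 : B)} (Ideal.span_singleton_one) _ ?_
  intro g hg
  rw [Set.mem_singleton_iff] at hg
  subst hg
  rw [map_sub, h3, sub_self]

end Pool.Agent.MG.WL
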