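import Pool.Agent.MG.WL.StmtsX
import Pool.Agent.MG.W.WRG
import Pool.Agent.MG.W.WUS
import Pool.Agent.MG.W.WUA

/-!
# EXA: isomorphisms of Weierstrass curves are scalings
-/

open CategoryTheory CategoryTheory.Limits AlgebraicGeometry TensorProduct

namespace Pool.Agent.MG.WL

open Pool.Agent.MG.W Pool.Agent.MG.One Pool.Agent.MG.W.WUS Pool.Agent.MG.W.WUA

namespace EXAh

section alg

variable {D : Type} [CommRing D] {a b : D}

/-- `z` is regular. -/
theorem z_reg (a b : D) : z2 D a b ∈ nonZeroDivisors (A2 D a b) := by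
  obtain ⟨-, -, W3, -⟩ := t_WRG D a b
  rw [mem_nonZeroDivisors_iff_right]
  intro v hv
  apply W3
  rw [map_zero]
  have h := congrArg (g2 D a b) hv
  rw [map_mul, ← zu_val, map_zero] at h
  exact (Units.mul_left_eq_zero _).1 h

theorem inf2_alg (a b c : D) : inf2 D a b (algebraMap D _ c) = c := lift2_b _ _ _ _ _

theorem inf2_z (a b : D) : inf2 D a b (z2 D a b) = 0 := lift2_z _ _ _ _

/-- The section at infinity. -/
noncomputable def s0 (a b : D) : Sp D ⟶ WX D a b := spMap (inf2 D a b) ≫ WX.in2 D a b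

/-- Points with `z = 0` lie on the section. -/
theorem mem_sec (q : Sp (A2 D a b)) (hq : z2 D a b ∈ q.asIdeal) :
    spMap (inf2 D a b) (spMap (algebraMap D (A2 D a b)) q) = q := by
  obtain ⟨-, W2, -⟩ := t_WRG D a b
  apply PrimeSpectrum.ext
  ext v
  change algebraMap D (A2 D a b) (inf2 D a b v) ∈ q.asIdeal ↔ v ∈ q.asIdeal
  have h1 : v - algebraMap D _ (inf2 D a b v) ∈ q.asIdeal :=
    (Ideal.span_singleton_le_iff_mem _).2 hq (W2 v)
  constructor
  · intro h
    have := q.asIdeal.add_mem h1 h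
    rwa [sub_add_cancel] at this
  · intro h
    have := q.asIdeal.sub_mem h h1
    rwa [sub_sub_cancel] at this

/-- The section at infinity does not meet the affine chart. -/
theorem sec_not_mem (s : Sp D) : s0 a b s ∉ Set.range (WX.in1 D a b) := by
  rintro ⟨p, hp⟩
  have hp' : pushout.inl (spMap (g1 D a b)) (spMap (g2 D a b)) p =
      pushout.inr (spMap (g1 D a b)) (spMap (g2 D a b)) (spMap (inf2 D a b) s) := by
    have h : (s0 a b) s = WX.in2 D a b (spMap (inf2 D a b) s) := Scheme.Hom.comp_apply _ _ _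
    rw [h] at hp
    exact hp
  obtain ⟨w, -, hw⟩ := glue2_eq _ _ _ _ hp'
  have h1 : z2 D a b ∈ (spMap (g2 D a b) w).asIdeal := by
    rw [hw]
    change inf2 D a b (z2 D a b) ∈ s.asIdeal
    rw [inf2_z]
    exact s.asIdeal.zero_mem
  have h2 : (zu D a b).val ∈ w.asIdeal := h1
  exact w.2.ne_top (Ideal.eq_top_of_isUnit_mem _ h2 (zu D a b).isUnit)

/-- The complement of the affine chart is the section at infinity. -/
theorem compl_sec (x : WX D a b) (hx : x ∉ Set.range (WX.in1 D a b)) :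
    ∃ s : Sp D, s0 a b s = x := by
  rcases glue2_surj (spMap (g1 D a b)) (spMap (g2 D a b)) x with h | ⟨q, hq⟩
  · exact absurd h hx
  · have hz : z2 D a b ∈ q.asIdeal := by
      by_contra hz
      apply hx
      have h1 : q ∈ Set.range (PrimeSpectrum.comap (algebraMap (A2 D a b) (A12 D a b))) := by
        rw [PrimeSpectrum.localization_away_comap_range (A12 D a b) (z2 D a b)]
        exact hz
      obtain ⟨w', hw⟩ := h1
      let w : Sp (A12 D a b) := w'
      have hw' : spMap (g2 D a b) w = q := hw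
      refine ⟨spMap (g1 D a b) w, ?_⟩
      rw [← hq, ← hw']
      change (WX.in1 D a b) (spMap (g1 D a b) w) = (WX.in2 D a b) (spMap (g2 D a b) w)
      rw [← Scheme.Hom.comp_apply, ← Scheme.Hom.comp_apply, in12]
    refine ⟨spMap (algebraMap D (A2 D a b)) q, ?_⟩
    rw [s0, Scheme.Hom.comp_apply, mem_sec q hz]
    exact hq

end alg

section morph

variable {D : Type} [CommRing D] {a b a' b' : D}

/-- Morphisms over the base respecting the section at infinity. -/
structure GoodM (g : WX D a' b' ⟶ WX D a b) : Prop where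
  iso : IsIso g
  pr : g ≫ WX.pr D a b = WX.pr D a' b'
  sec : s0 a' b' ≫ g = s0 a b

theorem GoodM.inv {g : WX D a' b' ⟶ WX D a b} (h : GoodM g) : haveI := h.iso; GoodM (inv g) := by
  have := h.iso
  refine ⟨inferInstance, ?_, ?_⟩
  · rw [IsIso.inv_comp_eq, h.pr]
  · rw [IsIso.comp_inv_eq, h.sec]

theorem GoodM.range {g : WX D a' b' ⟶ WX D a b} (h : GoodM g) :
    Set.range (WX.in1 D a' b' ≫ g) ⊆ Set.range (WX.in1 D a b) := by
  have := h.iso
  rintro _ ⟨p, rfl⟩
  by_contra hn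
  obtain ⟨s, hs⟩ := compl_sec _ hn
  rw [← h.sec, Scheme.Hom.comp_apply, Scheme.Hom.comp_apply] at hs
  have hinj : Function.Injective g := (Scheme.homeoOfIso (asIso g)).injective
  exact sec_not_mem s ⟨p, (hinj hs).symm⟩

/-- The homomorphism of the affine coordinate rings. -/
theorem GoodM.theta {g : WX D a' b' ⟶ WX D a b} (h : GoodM g) :
    ∃ θ : A1 D a b →+* A1 D a' b', spMap θ ≫ WX.in1 D a b = WX.in1 D a' b' ≫ g := by
  obtain ⟨θ, e⟩ := spMap_full (IsOpenImmersion.lift (WX.in1 D a b) (WX.in1 D a' b' ≫ g) h.range)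
  exact ⟨θ, by rw [e, IsOpenImmersion.lift_fac]⟩

theorem theta_alg {g : WX D a' b' ⟶ WX D a b} (h : GoodM g) {θ : A1 D a b →+* A1 D a' b'}
    (hθ : spMap θ ≫ WX.in1 D a b = WX.in1 D a' b' ≫ g) (c : D) :
    θ (algebraMap D _ c) = algebraMap D _ c := by
  have k : θ.comp (algebraMap D _) = algebraMap D _ := by
    apply spMap_inj
    rw [← spMap_comp', ← WX.in1_pr, ← Category.assoc, hθ, Category.assoc, h.pr, WX.in1_pr]
  exact congrArg (fun φ => φ c) k

/-- A neighbourhood of the section mapping to the chart at infinity. -/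
theorem GoodM.nbhd {g : WX D a' b' ⟶ WX D a b} (h : GoodM g) :
    ∃ t : A2 D a' b', (∃ c, t + c * z2 D a' b' = 1) ∧
      ∀ q : Sp (A2 D a' b'), t ∉ q.asIdeal →
        (WX.in2 D a' b' ≫ g) q ∈ Set.range (WX.in2 D a b) := by
  have ho : IsOpen {q : PrimeSpectrum (A2 D a' b') |
      (WX.in2 D a' b' ≫ g) q ∈ Set.range (WX.in2 D a b)} :=
    ((WX.in2 D a' b' ≫ g) ⁻¹ᵁ (WX.in2 D a b).opensRange).2
  obtain ⟨I, hI⟩ := (PrimeSpectrum.isClosed_iff_zeroLocus_ideal _).1 ho.isClosed_compl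
  have hsup : I ⊔ Ideal.span {z2 D a' b'} = ⊤ := by
    rw [← PrimeSpectrum.zeroLocus_empty_iff_eq_top, PrimeSpectrum.zeroLocus_sup,
      PrimeSpectrum.zeroLocus_span, ← hI]
    rw [Set.eq_empty_iff_forall_notMem]
    rintro q ⟨hq1, hq2⟩
    apply hq1
    have hz : z2 D a' b' ∈ q.asIdeal := hq2 rfl
    let q' : Sp (A2 D a' b') := q
    have e := mem_sec q' hz
    change (WX.in2 D a' b' ≫ g) q' ∈ Set.range (WX.in2 D a b)
    rw [← e]
    refine ⟨spMap (inf2 D a b) (spMap (algebraMap D (A2 D a' b')) q'), ?_⟩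
    have e2 : (s0 a' b' ≫ g) (spMap (algebraMap D (A2 D a' b')) q') =
        (s0 a b) (spMap (algebraMap D (A2 D a' b')) q') := by rw [h.sec]
    rw [s0, s0, Scheme.Hom.comp_apply, Scheme.Hom.comp_apply, Scheme.Hom.comp_apply] at e2
    rw [Scheme.Hom.comp_apply, e2]
  have h1 : (1 : A2 D a' b') ∈ I ⊔ Ideal.span {z2 D a' b'} := by rw [hsup]; trivial
  obtain ⟨t, ht, y, hy, e⟩ := Submodule.mem_sup.1 h1
  obtain ⟨c, rfl⟩ := Ideal.mem_span_singleton'.1 hy
  refine ⟨t, ⟨c, e⟩, fun q hq => ?_⟩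
  by_contra hn
  apply hq
  have : (q : PrimeSpectrum (A2 D a' b')) ∈ PrimeSpectrum.zeroLocus (I : Set (A2 D a' b')) := by
    rw [← hI]
    exact hn
  exact this ht

end morph

section loc

variable {D : Type} [CommRing D] {a b a' b' : D} (t : A2 D a' b')

/-- The neighbourhood of the section. -/
abbrev Rh : Type := Localization.Away t

/-- The punctured neighbourhood of the section. -/
abbrev Rz : Type := Localization.Away (algebraMap (A2 D a' b') (Rh t) (z2 D a' b'))

/-- `z` is regular near the section. -/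
theorem z_reg' : algebraMap (A2 D a' b') (Rh t) (z2 D a' b') ∈ nonZeroDivisors (Rh t) :=
  IsLocalization.map_nonZeroDivisors_le (Submonoid.powers t) (Rh t) ⟨_, z_reg a' b', rfl⟩

/-- Restriction to the punctured neighbourhood. -/
noncomputable def jh : Rh t →+* Rz t := algebraMap _ _

theorem jh_inj : Function.Injective (jh t) :=
  IsLocalization.injective (Rz t) (M := Submonoid.powers
    (algebraMap (A2 D a' b') (Rh t) (z2 D a' b'))) (by
      rw [Submonoid.powers_le]
      exact z_reg' t)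

/-- Restriction to the punctured neighbourhood. -/
noncomputable def j1 : A12 D a' b' →+* Rz t :=
  IsLocalization.Away.lift (z2 D a' b') (g := (jh t).comp (algebraMap (A2 D a' b') (Rh t)))
    (IsLocalization.Away.algebraMap_isUnit (S := Rz t)
      (algebraMap (A2 D a' b') (Rh t) (z2 D a' b')))

theorem j1_g2 (v : A2 D a' b') : j1 t (g2 D a' b' v) = jh t (algebraMap _ _ v) :=
  IsLocalization.Away.lift_eq _ _ _

variable {t}

/-- Extension of functions over the section. -/
theorem ext_sec {c : A2 D a' b'} (ht : t + c * z2 D a' b' = 1) (w : A12 D a' b') (ρ : Rh t)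
    (h : j1 t w = jh t ρ) : ∃ v : A2 D a' b', w = g2 D a' b' v := by
  obtain ⟨k, m, hm⟩ := IsLocalization.Away.surj (z2 D a' b') w
  obtain ⟨l, m', hm'⟩ := IsLocalization.Away.surj t ρ
  have e1 : ρ * algebraMap _ _ (z2 D a' b') ^ k = algebraMap (A2 D a' b') (Rh t) m := by
    apply jh_inj t
    rw [map_mul, ← h, map_pow, ← j1_g2, ← j1_g2, ← map_pow, ← map_mul]
    exact congrArg (j1 t) hm
  have e2 : algebraMap (A2 D a' b') (Rh t) (m' * z2 D a' b' ^ k) =
      algebraMap (A2 D a' b') (Rh t) (m * t ^ l) := by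
    rw [map_mul, map_mul, map_pow, map_pow, ← hm', ← e1]
    ring
  obtain ⟨j, hj⟩ := IsLocalization.Away.exists_of_eq t e2
  have hdvd : z2 D a' b' ^ k ∣ t ^ (j + l) * m := ⟨t ^ j * m', by
    rw [pow_add]
    linear_combination -hj⟩
  have hcop : IsCoprime (z2 D a' b' ^ k) (t ^ (j + l)) :=
    IsCoprime.pow ⟨c, 1, by rw [one_mul, add_comm]; exact ht⟩
  obtain ⟨v, hv⟩ := hcop.dvd_of_dvd_mul_left hdvd
  refine ⟨v, ?_⟩
  have hu : IsUnit ((zu D a' b').val ^ k) := (zu D a' b').isUnit.pow k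
  refine hu.mul_right_cancel ?_
  have hm2 : w * (zu D a' b').val ^ k = g2 D a' b' m := hm
  rw [hm2, hv, map_mul, map_pow, zu_val, mul_comm]

variable (t)

/-- The inclusion of the neighbourhood. -/
theorem eta_range {g : WX D a' b' ⟶ WX D a b}
    (hr : ∀ q : Sp (A2 D a' b'), t ∉ q.asIdeal →
        (WX.in2 D a' b' ≫ g) q ∈ Set.range (WX.in2 D a b)) :
    Set.range (spMap (algebraMap (A2 D a' b') (Rh t)) ≫ WX.in2 D a' b' ≫ g) ⊆
      Set.range (WX.in2 D a b) := by
  rintro _ ⟨q, rfl⟩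
  rw [Scheme.Hom.comp_apply]
  apply hr
  have h1 : PrimeSpectrum.comap (algebraMap (A2 D a' b') (Rh t)) q ∈
      Set.range (PrimeSpectrum.comap (algebraMap (A2 D a' b') (Rh t))) := ⟨q, rfl⟩
  rw [PrimeSpectrum.localization_away_comap_range (Rh t) t] at h1
  exact h1

theorem eta_ex {g : WX D a' b' ⟶ WX D a b}
    (hr : ∀ q : Sp (A2 D a' b'), t ∉ q.asIdeal →
        (WX.in2 D a' b' ≫ g) q ∈ Set.range (WX.in2 D a b)) :
    ∃ η : A2 D a b →+* Rh t, spMap η ≫ WX.in2 D a b =
      spMap (algebraMap (A2 D a' b') (Rh t)) ≫ WX.in2 D a' b' ≫ g := by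
  obtain ⟨η, e⟩ := spMap_full (IsOpenImmersion.lift (WX.in2 D a b)
    (spMap (algebraMap (A2 D a' b') (Rh t)) ≫ WX.in2 D a' b' ≫ g) (eta_range t hr))
  exact ⟨η, by rw [e, IsOpenImmersion.lift_fac]⟩

variable {t}

theorem eta_alg {g : WX D a' b' ⟶ WX D a b} (h : GoodM g) {η : A2 D a b →+* Rh t}
    (hη : spMap η ≫ WX.in2 D a b = spMap (algebraMap (A2 D a' b') (Rh t)) ≫ WX.in2 D a' b' ≫ g)
    (c : D) : η (algebraMap D _ c) = algebraMap (A2 D a' b') (Rh t) (algebraMap D _ c) := by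
  have k : η.comp (algebraMap D _) = (algebraMap (A2 D a' b') (Rh t)).comp (algebraMap D _) := by
    apply spMap_inj
    rw [← spMap_comp' (algebraMap D (A2 D a b)) η,
      ← spMap_comp' (algebraMap D (A2 D a' b')) (algebraMap (A2 D a' b') (Rh t)),
      ← WX.in2_pr, ← Category.assoc, hη, Category.assoc, Category.assoc, h.pr, WX.in2_pr]
  exact congrArg (fun φ => φ c) k

/-- The image of `z` generates the ideal of the section. -/
theorem eta_z {g : WX D a' b' ⟶ WX D a b} (h : GoodM g) {c : A2 D a' b'}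
    (ht : t + c * z2 D a' b' = 1) {η : A2 D a b →+* Rh t}
    (hη : spMap η ≫ WX.in2 D a b = spMap (algebraMap (A2 D a' b') (Rh t)) ≫ WX.in2 D a' b' ≫ g) :
    ∃ r : (Rh t)ˣ, η (z2 D a b) = r.val * algebraMap (A2 D a' b') (Rh t) (z2 D a' b') := by
  have := h.iso
  obtain ⟨-, W2, -⟩ := t_WRG D a b
  obtain ⟨-, W2', -⟩ := t_WRG D a' b'
  have ht1 : inf2 D a' b' t = 1 := by
    have e := congrArg (inf2 D a' b') ht
    rwa [map_add, map_mul, inf2_z, mul_zero, add_zero, map_one] at e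
  -- the image of z is a multiple of z
  let ih : Rh t →+* D := IsLocalization.Away.lift t (g := inf2 D a' b') (by
    rw [ht1]; exact isUnit_one)
  have hih : ∀ v, ih (algebraMap _ _ v) = inf2 D a' b' v := fun v =>
    IsLocalization.Away.lift_eq _ _ _
  have hih' : ih.comp (algebraMap (A2 D a' b') (Rh t)) = inf2 D a' b' := RingHom.ext hih
  have k1 : ih.comp η = inf2 D a b := by
    apply spMap_inj
    have hs := h.sec
    rw [s0, s0, Category.assoc] at hs
    rw [← cancel_mono (WX.in2 D a b), ← spMap_comp', Category.assoc, hη, ← Category.assoc,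
      spMap_comp', hih', hs]
  have k2 : ih (η (z2 D a b)) = 0 := by
    have e := congrArg (fun φ => φ (z2 D a b)) k1
    change ih (η (z2 D a b)) = inf2 D a b (z2 D a b) at e
    rw [e, inf2_z]
  have hut : IsUnit (algebraMap (A2 D a' b') (Rh t) t) := IsLocalization.Away.algebraMap_isUnit t
  have k3 : η (z2 D a b) ∈ Ideal.span {algebraMap (A2 D a' b') (Rh t) (z2 D a' b')} := by
    obtain ⟨l, m, hm⟩ := IsLocalization.Away.surj t (η (z2 D a b))
    have e0 : inf2 D a' b' m = 0 := by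
      rw [← hih, ← hm, map_mul, k2, zero_mul]
    have e1 := W2' m
    rw [e0, map_zero, sub_zero] at e1
    obtain ⟨n, hn⟩ := Ideal.mem_span_singleton'.1 e1
    have e2 : η (z2 D a b) * algebraMap (A2 D a' b') (Rh t) t ^ l ∈
        Ideal.span {algebraMap (A2 D a' b') (Rh t) (z2 D a' b')} := by
      rw [hm, ← hn, map_mul]
      exact Ideal.mul_mem_left _ _ (Ideal.subset_span rfl)
    exact (Ideal.mul_unit_mem_iff_mem _ (hut.pow l)).1 e2
  obtain ⟨r, hr⟩ := Ideal.mem_span_singleton'.1 k3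
  -- and conversely
  have k4 : algebraMap (A2 D a' b') (Rh t) (z2 D a' b') ∈ Ideal.span {η (z2 D a b)} := by
    let T := Rh t ⧸ Ideal.span {η (z2 D a b)}
    let π : Rh t →+* T := Ideal.Quotient.mk _
    let al : D →+* T := π.comp ((algebraMap (A2 D a' b') (Rh t)).comp (algebraMap D _))
    have e1 : π.comp η = al.comp (inf2 D a b) := by
      refine RingHom.ext fun v => ?_
      obtain ⟨n, hn⟩ := Ideal.mem_span_singleton'.1 (W2 v)
      have e2 : v = n * z2 D a b + algebraMap D _ (inf2 D a b v) := by rw [hn]; ring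
      have e3 : π (η (z2 D a b)) = 0 :=
        Ideal.Quotient.eq_zero_iff_mem.2 (Ideal.subset_span rfl)
      change π (η v) = π (algebraMap (A2 D a' b') (Rh t) (algebraMap D _ (inf2 D a b v)))
      rw [← eta_alg h hη]
      conv_lhs => rw [e2]
      rw [map_add, map_add, map_mul, map_mul, e3, mul_zero, zero_add]
    have e2 : π.comp (algebraMap (A2 D a' b') (Rh t)) = al.comp (inf2 D a' b') := by
      apply spMap_inj
      rw [← cancel_mono (WX.in2 D a' b'), ← cancel_mono g,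
        ← spMap_comp' (algebraMap (A2 D a' b') (Rh t)) π, ← spMap_comp' (inf2 D a' b') al,
        Category.assoc, Category.assoc, Category.assoc, Category.assoc, ← hη, ← Category.assoc,
        spMap_comp' η π, e1, ← spMap_comp' (inf2 D a b) al, Category.assoc]
      have hs := h.sec
      rw [s0, s0, Category.assoc] at hs
      rw [hs]
    have e3 := congrArg (fun φ => φ (z2 D a' b')) e2
    change π (algebraMap (A2 D a' b') (Rh t) (z2 D a' b')) = al (inf2 D a' b' (z2 D a' b')) at e3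
    rw [inf2_z, map_zero] at e3
    exact Ideal.Quotient.eq_zero_iff_mem.1 e3
  obtain ⟨r', hr'⟩ := Ideal.mem_span_singleton'.1 k4
  have k5 : r * r' = 1 := by
    have e : (r * r' - 1) * algebraMap (A2 D a' b') (Rh t) (z2 D a' b') = 0 := by
      rw [← hr] at hr'
      linear_combination hr'
    exact sub_eq_zero.1 ((mem_nonZeroDivisors_iff_right.1 (z_reg' t)) _ e)
  exact ⟨⟨r, r', k5, by rw [mul_comm]; exact k5⟩, hr.symm⟩

/-- The comparison on the punctured neighbourhood. -/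
theorem zeta_ex {g : WX D a' b' ⟶ WX D a b} {θ : A1 D a b →+* A1 D a' b'}
    (hθ : spMap θ ≫ WX.in1 D a b = WX.in1 D a' b' ≫ g) {η : A2 D a b →+* Rh t}
    (hη : spMap η ≫ WX.in2 D a b = spMap (algebraMap (A2 D a' b') (Rh t)) ≫ WX.in2 D a' b' ≫ g) :
    ∃ ζ : A12 D a b →+* Rz t, (∀ v, ζ (g1 D a b v) = j1 t (g1 D a' b' (θ v))) ∧
      ∀ v, ζ (g2 D a b v) = jh t (η v) := by
  have pb := glue2_isPullback (spMap (g1 D a b)) (spMap (g2 D a b))
  have hj : (j1 t).comp (g2 D a' b') = (jh t).comp (algebraMap (A2 D a' b') (Rh t)) :=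
    RingHom.ext fun v => j1_g2 t v
  have hw : (spMap (((j1 t).comp (g1 D a' b')).comp θ)) ≫ WX.in1 D a b =
      spMap ((jh t).comp η) ≫ WX.in2 D a b := by
    rw [← spMap_comp', ← spMap_comp', ← spMap_comp', Category.assoc, Category.assoc, Category.assoc,
      hθ, hη, ← Category.assoc (spMap (g1 D a' b')), in12, ← Category.assoc (spMap (jh t)),
      spMap_comp', ← hj, ← spMap_comp']
    simp only [Category.assoc]
  obtain ⟨ζ, hζ⟩ := spMap_full (pb.lift _ _ hw)
  refine ⟨ζ, fun v => ?_, fun v => ?_⟩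
  · have e : ζ.comp (g1 D a b) = ((j1 t).comp (g1 D a' b')).comp θ := by
      apply spMap_inj
      rw [← spMap_comp', hζ]
      exact pb.lift_fst _ _ hw
    exact congrArg (fun φ => φ v) e
  · have e : ζ.comp (g2 D a b) = (jh t).comp η := by
      apply spMap_inj
      rw [← spMap_comp', hζ]
      exact pb.lift_snd _ _ hw
    exact congrArg (fun φ => φ v) e

/-- The pole orders do not increase. -/
theorem pole {g : WX D a' b' ⟶ WX D a b} (h : GoodM g) {θ : A1 D a b →+* A1 D a' b'}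
    (hθ : spMap θ ≫ WX.in1 D a b = WX.in1 D a' b' ≫ g) (n : ℕ) (X : A1 D a b)
    (hX : g2 D a b (z2 D a b) ^ n * g2 D a b (t2 D a b) * g1 D a b X = 1) :
    ∃ v : A2 D a' b', (zu D a' b').val ^ n * g1 D a' b' (θ X) = g2 D a' b' v := by
  obtain ⟨t, ⟨c, ht⟩, hr⟩ := h.nbhd
  obtain ⟨η, hη⟩ := eta_ex t hr
  obtain ⟨ζ, h1, h2⟩ := zeta_ex hθ hη
  obtain ⟨r, hrz⟩ := eta_z h ht hη
  obtain ⟨s, hs⟩ := (t2_unit D a b).map η
  have e := congrArg ζ hX
  rw [map_mul, map_mul, map_pow, h1, h2, h2, hrz, map_one, ← hs, map_mul, ← j1_g2, ← zu_val] at e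
  refine ext_sec ht _ ((r⁻¹).val ^ n * (s⁻¹).val) ?_
  rw [map_mul, map_pow, map_mul, map_pow]
  have er : jh t r.val * jh t (r⁻¹).val = 1 := by rw [← map_mul, Units.mul_inv, map_one]
  have es : jh t s.val * jh t (s⁻¹).val = 1 := by rw [← map_mul, Units.mul_inv, map_one]
  generalize jh t r.val = R at *
  generalize jh t (r⁻¹).val = R' at *
  generalize jh t s.val = S at *
  generalize jh t (s⁻¹).val = S' at *
  generalize j1 t (zu D a' b').val = z at *
  generalize j1 t (g1 D a' b' (θ X)) = x at *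
  calc z ^ n * x = (R * R') ^ n * (S * S') * (z ^ n * x) := by rw [er, es]; ring
    _ = ((R * z) ^ n * S * x) * (R' ^ n * S') := by ring
    _ = _ := by rw [e, one_mul]

end loc

section fin

variable {D : Type} [CommRing D] {a b a' b' : D}

/-- The images of the coordinates. -/
theorem form {g : WX D a' b' ⟶ WX D a b} (h : GoodM g) {θ : A1 D a b →+* A1 D a' b'}
    (hθ : spMap θ ≫ WX.in1 D a b = WX.in1 D a' b' ≫ g) :
    (∃ c d : D, θ (x1 D a b) = algebraMap D _ c + algebraMap D _ d * x1 D a' b') ∧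
    ∃ c d e : D, θ (y1 D a b) = algebraMap D _ c + algebraMap D _ d * x1 D a' b' +
      algebraMap D _ e * y1 D a' b' := by
  obtain ⟨-, -, -, -, -, -, W7, W8⟩ := t_WRG D a' b'
  obtain ⟨v, hv⟩ := pole h hθ 2 (x1 D a b) (relx a b)
  obtain ⟨w, hw⟩ := pole h hθ 3 (y1 D a b) (rely a b)
  exact ⟨W7 _ _ hv, W8 _ _ hw⟩

/-- The leading coefficients are units. -/
theorem units {g : WX D a' b' ⟶ WX D a b} (h : GoodM g) {θ : A1 D a b →+* A1 D a' b'}
    (hθ : spMap θ ≫ WX.in1 D a b = WX.in1 D a' b' ≫ g) {c d c2 d2 e2 : D}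
    (hx : θ (x1 D a b) = algebraMap D _ c + algebraMap D _ d * x1 D a' b')
    (hy : θ (y1 D a b) = algebraMap D _ c2 + algebraMap D _ d2 * x1 D a' b' +
      algebraMap D _ e2 * y1 D a' b') : (∃ δ, d * δ = 1) ∧ ∃ ε, e2 * ε = 1 := by
  have := h.iso
  obtain ⟨W1, -⟩ := t_WRG D a b
  obtain ⟨θ', hθ'⟩ := h.inv.theta
  obtain ⟨⟨c', δ, hx'⟩, ⟨c3, d3, ε, hy'⟩⟩ := form h.inv hθ'
  have hid : θ'.comp θ = RingHom.id _ := by
    apply spMap_inj
    rw [← cancel_mono (WX.in1 D a b), ← spMap_comp' θ θ', Category.assoc, hθ, ← Category.assoc,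
      hθ', Category.assoc, IsIso.inv_hom_id, Category.comp_id]
    have h0 : spMap (RingHom.id (A1 D a b)) = 𝟙 _ := Spec.map_id _
    rw [h0, Category.id_comp]
  have ha' := theta_alg h.inv hθ'
  have ex : θ' (θ (x1 D a b)) = x1 D a b := congrArg (fun φ => φ (x1 D a b)) hid
  have ey : θ' (θ (y1 D a b)) = y1 D a b := congrArg (fun φ => φ (y1 D a b)) hid
  rw [hx, map_add, map_mul, ha', ha', hx'] at ex
  rw [hy, map_add, map_add, map_mul, map_mul, ha', ha', ha', hx', hy'] at ey
  have h1 := uni a b W1 (P := Polynomial.C (c + d * c') + Polynomial.C (d * δ) * Polynomial.X)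
    (Q := 0) (P' := Polynomial.X) (Q' := 0) (by
      simp only [map_add, map_mul, Polynomial.aeval_C, Polynomial.aeval_X, map_zero]
      linear_combination ex)
  have h2 := uni a b W1 (P := Polynomial.C (c2 + d2 * c' + e2 * c3) +
    Polynomial.C (d2 * δ + e2 * d3) * Polynomial.X)
    (Q := Polynomial.C (e2 * ε)) (P' := 0) (Q' := 1) (by
      simp only [map_add, map_mul, Polynomial.aeval_C, Polynomial.aeval_X, map_zero, map_one]
      linear_combination ey)
  have f1 := congrArg (fun q => Polynomial.coeff q 1) h1.1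
  have f2 := congrArg (fun q => Polynomial.coeff q 0) h2.2
  simp [Polynomial.coeff_C] at f1 f2
  exact ⟨⟨δ, f1⟩, ⟨ε, f2⟩⟩

/-- The homomorphism of the affine coordinate rings is a scaling. -/
theorem theta_sc (h6 : IsUnit (6 : D)) {g : WX D a' b' ⟶ WX D a b} (h : GoodM g)
    {θ : A1 D a b →+* A1 D a' b'} (hθ : spMap θ ≫ WX.in1 D a b = WX.in1 D a' b' ≫ g) :
    ∃ (u v : D) (huv : u * v = 1) (ha : a' = u ^ 4 * a) (hb : b' = u ^ 6 * b),
      θ = sc1 huv ha hb := by
  obtain ⟨W1, -⟩ := t_WRG D a' b'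
  obtain ⟨⟨c, d, hx⟩, ⟨c2, d2, e2, hy⟩⟩ := form h hθ
  obtain ⟨⟨δ, hδ⟩, ⟨ε, hε⟩⟩ := units h hθ hx hy
  have hal := theta_alg h hθ
  have hrel := congrArg θ (rel1 D a b)
  rw [map_pow, map_add, map_add, map_pow, map_mul, hal, hal, hx, hy] at hrel
  have hy2 := rel1 D a' b'
  have h := uni a' b' W1
    (P := Polynomial.C (e2 ^ 2) * Polynomial.X ^ 3 + Polynomial.C (d2 ^ 2) * Polynomial.X ^ 2 +
      Polynomial.C (e2 ^ 2 * a' + 2 * c2 * d2) * Polynomial.X +
      Polynomial.C (e2 ^ 2 * b' + c2 ^ 2))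
    (Q := Polynomial.C (2 * e2 * d2) * Polynomial.X + Polynomial.C (2 * e2 * c2))
    (P' := Polynomial.C (d ^ 3) * Polynomial.X ^ 3 + Polynomial.C (3 * c * d ^ 2) *
      Polynomial.X ^ 2 + Polynomial.C (3 * c ^ 2 * d + a * d) * Polynomial.X +
      Polynomial.C (c ^ 3 + a * c + b))
    (Q' := 0) (by
      simp only [map_add, map_mul, Polynomial.aeval_C, Polynomial.aeval_X, map_zero, map_pow,
        map_ofNat]
      generalize algebraMap D (A1 D a' b') c = c_ at *
      generalize algebraMap D (A1 D a' b') d = d_ at *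
      generalize algebraMap D (A1 D a' b') c2 = c2_ at *
      generalize algebraMap D (A1 D a' b') d2 = d2_ at *
      generalize algebraMap D (A1 D a' b') e2 = e2_ at *
      generalize algebraMap D (A1 D a' b') a' = a1 at *
      generalize algebraMap D (A1 D a' b') b' = b1 at *
      generalize algebraMap D (A1 D a' b') a = a0 at *
      generalize algebraMap D (A1 D a' b') b = b0 at *
      generalize x1 D a' b' = x at *
      generalize y1 D a' b' = y at *
      linear_combination hrel - e2_ ^ 2 * hy2)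
  have e3 := congrArg (fun q => Polynomial.coeff q 3) h.1
  have e2' := congrArg (fun q => Polynomial.coeff q 2) h.1
  have e1 := congrArg (fun q => Polynomial.coeff q 1) h.1
  have e0 := congrArg (fun q => Polynomial.coeff q 0) h.1
  have q1 := congrArg (fun q => Polynomial.coeff q 1) h.2
  have q0 := congrArg (fun q => Polynomial.coeff q 0) h.2
  simp only [Polynomial.coeff_add, Polynomial.coeff_C_mul, Polynomial.coeff_X_pow,
    Polynomial.coeff_C, Polynomial.coeff_X, Polynomial.coeff_zero] at e3 e2' e1 e0 q1 q0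
  norm_num at e3 e2' e1 e0 q1 q0
  obtain ⟨s, hs⟩ := h6.exists_right_inv
  have hd2 : d2 = 0 := by
    calc d2 = d2 * (6 * s) * (e2 * ε) := by rw [hs, hε]; ring
      _ = 3 * s * ε * (2 * e2 * d2) := by ring
      _ = 0 := by rw [q1, mul_zero]
  have hc2 : c2 = 0 := by
    calc c2 = c2 * (6 * s) * (e2 * ε) := by rw [hs, hε]; ring
      _ = 3 * s * ε * (2 * e2 * c2) := by ring
      _ = 0 := by rw [q0, mul_zero]
  rw [hd2] at e2'
  have hc : c = 0 := by
    calc c = c * (6 * s) * (d * δ) ^ 2 := by rw [hs, hδ]; ring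
      _ = 2 * s * δ ^ 2 * (3 * c * d ^ 2) := by ring
      _ = 0 := by rw [← e2']; ring
  subst hd2 hc2 hc
  have e1' : e2 ^ 2 * a' = a * d := by linear_combination e1
  have e0' : e2 ^ 2 * b' = b := by linear_combination e0
  have hv2 : (e2 * δ) ^ 2 = d := by
    calc (e2 * δ) ^ 2 = e2 ^ 2 * δ ^ 2 := by ring
      _ = d * (d * δ) ^ 2 := by rw [e3]; ring
      _ = d := by rw [hδ]; ring
  have hv3 : (e2 * δ) ^ 3 = e2 := by
    calc (e2 * δ) ^ 3 = e2 ^ 2 * δ ^ 3 * e2 := by ring
      _ = (d * δ) ^ 3 * e2 := by rw [e3]; ring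
      _ = e2 := by rw [hδ]; ring
  have huv : (d * ε) * (e2 * δ) = 1 := by
    calc (d * ε) * (e2 * δ) = (d * δ) * (e2 * ε) := by ring
      _ = 1 := by rw [hδ, hε, mul_one]
  have ha : a' = (d * ε) ^ 4 * a := by
    calc a' = a' * (e2 * ε) ^ 4 * (d * δ) ^ 1 := by rw [hδ, hε]; ring
      _ = (e2 ^ 2 * a') * e2 ^ 2 * ε ^ 4 * (d * δ) := by ring
      _ = (d * ε) ^ 4 * a * (d * δ) := by rw [e1', e3]; ring
      _ = _ := by rw [hδ, mul_one]
  have hb : b' = (d * ε) ^ 6 * b := by
    calc b' = b' * (e2 * ε) ^ 6 := by rw [hε]; ring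
      _ = (e2 ^ 2 * b') * e2 ^ 2 * e2 ^ 2 * ε ^ 6 := by ring
      _ = _ := by rw [e0', e3]; ring
  refine ⟨d * ε, e2 * δ, huv, ha, hb, hom1_ext (fun c => ?_) ?_ ?_⟩
  · rw [hal, sc1_b]
  · rw [hx, sc1_x, ← map_pow, hv2, map_zero, zero_add]
  · rw [hy, sc1_y, ← map_pow, hv3, map_zero, zero_mul, zero_add, zero_add]

theorem ext_open {X Y Z : Scheme.{0}} (k : Z ⟶ X) [IsOpenImmersion k] {f f' : X ⟶ Y}
    (e : k ≫ f = k ≫ f') : k.opensRange.ι ≫ f = k.opensRange.ι ≫ f' := by
  rw [← cancel_epi k.isoOpensRange.hom, Scheme.Hom.isoOpensRange_hom_ι_assoc,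
    Scheme.Hom.isoOpensRange_hom_ι_assoc, e]

/-- Morphisms with the same affine part are equal. -/
theorem good_eq {g g' : WX D a' b' ⟶ WX D a b} (h : GoodM g) {σ : A2 D a b →+* A2 D a' b'}
    (hσ : WX.in2 D a' b' ≫ g' = spMap σ ≫ WX.in2 D a b)
    (e1 : WX.in1 D a' b' ≫ g = WX.in1 D a' b' ≫ g') : g = g' := by
  obtain ⟨t, ⟨c, ht⟩, hr⟩ := h.nbhd
  obtain ⟨η, hη⟩ := eta_ex t hr
  have k2 : spMap (g2 D a' b') ≫ WX.in2 D a' b' ≫ g = spMap (g2 D a' b') ≫ WX.in2 D a' b' ≫ g' := by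
    rw [← Category.assoc, ← in12, Category.assoc, e1, ← Category.assoc, in12, Category.assoc]
  have hj : (j1 t).comp (g2 D a' b') = (jh t).comp (algebraMap (A2 D a' b') (Rh t)) :=
    RingHom.ext fun v => j1_g2 t v
  have hη2 : η = (algebraMap (A2 D a' b') (Rh t)).comp σ := by
    have e : (jh t).comp η = (jh t).comp ((algebraMap (A2 D a' b') (Rh t)).comp σ) := by
      apply spMap_inj
      rw [← cancel_mono (WX.in2 D a b), ← spMap_comp' η (jh t),
        ← spMap_comp' ((algebraMap (A2 D a' b') (Rh t)).comp σ) (jh t),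
        ← spMap_comp' σ (algebraMap (A2 D a' b') (Rh t)), Category.assoc, Category.assoc,
        Category.assoc, hη, ← hσ, ← Category.assoc, ← Category.assoc (spMap (jh t)),
        spMap_comp' (algebraMap (A2 D a' b') (Rh t)) (jh t), ← hj,
        ← spMap_comp' (g2 D a' b') (j1 t), Category.assoc, Category.assoc, k2]
    exact RingHom.ext fun v => jh_inj t (congrArg (fun φ => φ v) e)
  have k3 : spMap (algebraMap (A2 D a' b') (Rh t)) ≫ WX.in2 D a' b' ≫ g =
      spMap (algebraMap (A2 D a' b') (Rh t)) ≫ WX.in2 D a' b' ≫ g' := by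
    rw [← hη, hσ, hη2, ← spMap_comp' σ (algebraMap (A2 D a' b') (Rh t)), Category.assoc]
  have io : IsOpenImmersion (spMap (algebraMap (A2 D a' b') (Rh t))) := by
    infer_instance
  refine WX.ext' e1 (Scheme.hom_ext_of_forall _ _ fun q => ?_)
  by_cases hz : z2 D a' b' ∈ q.asIdeal
  · have hq : t ∉ q.asIdeal := by
      intro hq
      apply q.2.ne_top
      rw [Ideal.eq_top_iff_one, ← ht]
      exact q.asIdeal.add_mem hq (q.asIdeal.mul_mem_left c hz)
    refine ⟨(spMap (algebraMap (A2 D a' b') (Rh t))).opensRange, ?_, ext_open _ k3⟩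
    have h1 : (q : PrimeSpectrum (A2 D a' b')) ∈
        Set.range (PrimeSpectrum.comap (algebraMap (A2 D a' b') (Rh t))) := by
      rw [PrimeSpectrum.localization_away_comap_range (Rh t) t]
      exact hq
    exact h1
  · refine ⟨(spMap (g2 D a' b')).opensRange, ?_, ext_open _ k2⟩
    have h1 : (q : PrimeSpectrum (A2 D a' b')) ∈
        Set.range (PrimeSpectrum.comap (algebraMap (A2 D a' b') (A12 D a' b'))) := by
      rw [PrimeSpectrum.localization_away_comap_range (A12 D a' b') (z2 D a' b')]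
      exact hz
    exact h1

end fin

end EXAh

open EXAh in
/-- EXA: isomorphisms of Weierstrass curves are scalings. -/
theorem t_EXA : Stmt_EXA := by
  refine ⟨?_, ?_⟩
  · intro D _ h6 a b a' b' e
    have hid : spMap (RingHom.id D) = 𝟙 (Sp D) := Spec.map_id _
    have hiso := arrow_id_iso e
    obtain ⟨g, cart, sec⟩ := e
    change WX D a' b' ⟶ WX D a b at g
    have hg : GoodM g := by
      refine ⟨hiso, ?_, ?_⟩
      · have h := cart.w
        change g ≫ WX.pr D a b = WX.pr D a' b' ≫ spMap (RingHom.id D) at h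
        rw [h, hid, Category.comp_id]
      · have h := sec 0
        change (spMap (inf2 D a' b') ≫ WX.in2 D a' b') ≫ g =
          spMap (RingHom.id D) ≫ spMap (inf2 D a b) ≫ WX.in2 D a b at h
        rw [hid, Category.id_comp] at h
        exact h
    obtain ⟨θ, hθ⟩ := hg.theta
    obtain ⟨u, v, huv, ha, hb, hsc⟩ := theta_sc h6 hg hθ
    refine ⟨u, v, huv, ha, hb, ?_⟩
    have e1 : WX.in1 D a' b' ≫ g = WX.in1 D a' b' ≫ WX.sc huv ha hb := by
      rw [← hθ, hsc, WX.in1_sc]
    exact good_eq hg (WX.in2_sc huv ha hb) e1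
  · intro D _ a b a' b' u v u' v' huv ha hb huv' ha' hb' he
    have e1 : sc2 ha hb = sc2 ha' hb' := by
      apply spMap_inj
      rw [← cancel_mono (WX.in2 D a b), ← WX.in2_sc huv ha hb, ← WX.in2_sc huv' ha' hb', he]
    have e2 := congrArg (fun φ => φ (z2 D a b)) e1
    change sc2 ha hb (z2 D a b) = sc2 ha' hb' (z2 D a b) at e2
    rw [sc2_z, sc2_z, ← sub_eq_zero, ← sub_mul] at e2
    have e3 := (mem_nonZeroDivisors_iff_right.1 (z_reg a' b')) _ e2
    have e4 := congrArg (inf2 D a' b') e3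
    rw [map_sub, inf2_alg, inf2_alg, map_zero, sub_eq_zero] at e4
    exact e4

end Pool.Agent.MG.WL
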