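import Pool.Agent.MG.WL.StmtsX

/-!
# Extension of compatible classes after multiplication by a power (module EXT)
-/

open CategoryTheory CategoryTheory.Limits AlgebraicGeometry TensorProduct

namespace Pool.Agent.MG.WL

open Pool.Agent.MG.W Pool.Agent.MG.One

namespace EXT

section alg

variable {A : Type} [CommRing A]

theorem away_ext {x : A} {D : Type} [CommRing D] {ψ ψ' : Localization.Away x →+* D}
    (h : ψ.comp (algebraMap A _) = ψ'.comp (algebraMap A _)) : ψ = ψ' :=
  IsLocalization.ringHom_ext (Submonoid.powers x) h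

theorem unit_of {x : A} {D : Type} [CommRing D] (ψ : Localization.Away x →+* D) :
    IsUnit (ψ (algebraMap A _ x)) :=
  (IsLocalization.Away.algebraMap_isUnit x).map ψ

theorem six_map {D : Type} [CommRing D] (θ : A →+* D) (h6 : IsUnit (6 : A)) : IsUnit (6 : D) := by
  have h := h6.map θ
  rwa [map_ofNat] at h

theorem away_eq {x : A} {a b : A}
    (h : algebraMap A (Localization.Away x) a = algebraMap A (Localization.Away x) b) :
    ∃ n : ℕ, x ^ n * a = x ^ n * b := by
  obtain ⟨⟨_, ⟨n, rfl⟩⟩, h1⟩ := (IsLocalization.eq_iff_exists (Submonoid.powers x) _).1 h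
  exact ⟨n, h1⟩

end alg

section rel

variable {A : Type} [CommRing A] {r : ℕ} {f : Fin r → A} {C : Fam 1 A}
  (c : ∀ i, Ch (algebraMap A (Localization.Away (f i))) C) (i₀ : Fin r)

theorem rel_one (hREL : Stmt_REL) (i : Fin r) {D : Type} [CommRing D]
    (ψ : Localization.Away (f i) →+* D) (u : D) (hu : Rel (c i) (c i) ψ ψ u) : u = 1 := by
  obtain ⟨R1, R2, R3, R4⟩ := hREL
  have h1 := R3 (c i) (c i) (c i) ψ ψ ψ u u hu hu
  have h2 := R2 (c i) (c i) ψ ψ _ _ rfl h1 hu
  obtain ⟨v, huv, -⟩ := hu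
  calc u = (u * u) * v := by rw [mul_assoc, huv, mul_one]
    _ = u * v := by rw [h2]
    _ = 1 := huv

/-- Compatibility where `f i₀` is invertible. -/
def Cpg (δ : ∀ i, Localization.Away (f i)) : Prop :=
  ∀ (i j : Fin r) (D : Type) [CommRing D] (ψ : Localization.Away (f i) →+* D)
    (ψ' : Localization.Away (f j) →+* D) (u : D),
    ψ.comp (algebraMap A (Localization.Away (f i))) =
      ψ'.comp (algebraMap A (Localization.Away (f j))) →
    IsUnit (ψ (algebraMap A _ (f i₀))) →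
    Rel (c i) (c j) ψ ψ' u → ψ' (δ j) = u ^ 10 * ψ (δ i)

/-- The second step. -/
theorem step2 (hREL : Stmt_REL) (h6 : IsUnit (6 : A)) (δ : ∀ i, Localization.Away (f i))
    (hδ : Cpg c i₀ δ) : ∃ M : ℕ, Cpt c fun i => algebraMap A _ (f i₀) ^ M * δ i := by
  obtain ⟨R1, R2, -, R4⟩ := hREL
  have key : ∀ p : Fin r × Fin r, ∃ M : ℕ, ∀ (D : Type) [CommRing D]
      (ψ : Localization.Away (f p.1) →+* D) (ψ' : Localization.Away (f p.2) →+* D) (u : D),
      ψ.comp (algebraMap A (Localization.Away (f p.1))) =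
        ψ'.comp (algebraMap A (Localization.Away (f p.2))) →
      Rel (c p.1) (c p.2) ψ ψ' u →
      ψ (algebraMap A _ (f i₀)) ^ M * ψ' (δ p.2) =
        ψ (algebraMap A _ (f i₀)) ^ M * (u ^ 10 * ψ (δ p.1)) := by
    rintro ⟨i, j⟩
    let D₀ := Localization.Away (f i * f j)
    have hu : IsUnit (algebraMap A D₀ (f i * f j)) := IsLocalization.Away.algebraMap_isUnit _
    rw [map_mul] at hu
    let ψ₀ : Localization.Away (f i) →+* D₀ :=
      IsLocalization.Away.lift (f i) (isUnit_of_mul_isUnit_left hu)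
    let ψ₀' : Localization.Away (f j) →+* D₀ :=
      IsLocalization.Away.lift (f j) (isUnit_of_mul_isUnit_right hu)
    have hψ₀ : ψ₀.comp (algebraMap A _) = algebraMap A D₀ := IsLocalization.Away.lift_comp _ _
    have hψ₀' : ψ₀'.comp (algebraMap A _) = algebraMap A D₀ := IsLocalization.Away.lift_comp _ _
    have hc : ψ₀.comp (algebraMap A _) = ψ₀'.comp (algebraMap A _) := hψ₀.trans hψ₀'.symm
    obtain ⟨u₀, hu₀⟩ := R1 (c i) (c j) ψ₀ ψ₀' (six_map (algebraMap A D₀) h6) hc
    let E := Localization.Away (algebraMap A D₀ (f i₀))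
    let χ : D₀ →+* E := algebraMap D₀ E
    have h1 := hδ i j E (χ.comp ψ₀) (χ.comp ψ₀') (χ u₀)
      (by rw [RingHom.comp_assoc, RingHom.comp_assoc, hc])
      (by
        have : (χ.comp ψ₀) (algebraMap A _ (f i₀)) = χ (algebraMap A D₀ (f i₀)) :=
          congrArg χ (RingHom.congr_fun hψ₀ (f i₀))
        rw [this]
        exact IsLocalization.Away.algebraMap_isUnit _)
      (R4 (c i) (c j) ψ₀ ψ₀' χ u₀ hu₀)
    have h2 : χ (ψ₀' (δ j)) = χ (u₀ ^ 10 * ψ₀ (δ i)) := by
      rw [map_mul, map_pow]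
      exact h1
    obtain ⟨M, hM⟩ := away_eq h2
    refine ⟨M, ?_⟩
    intro D _ ψ ψ' u hψ hu'
    have e1 : IsUnit (ψ (algebraMap A _ (f i))) := unit_of ψ
    have e2 : IsUnit (ψ (algebraMap A _ (f j))) := by
      have h := unit_of ψ'
      have h3 : ψ' (algebraMap A _ (f j)) = ψ (algebraMap A _ (f j)) :=
        (RingHom.congr_fun hψ (f j)).symm
      rwa [h3] at h
    let μ : D₀ →+* D := IsLocalization.Away.lift (f i * f j)
      (g := ψ.comp (algebraMap A (Localization.Away (f i)))) (by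
        rw [map_mul]
        exact e1.mul e2)
    have hμ : μ.comp (algebraMap A D₀) = ψ.comp (algebraMap A _) :=
      IsLocalization.Away.lift_comp _ _
    have e3 : μ.comp ψ₀ = ψ := by
      refine away_ext ?_
      rw [RingHom.comp_assoc, hψ₀, hμ]
    have e4 : μ.comp ψ₀' = ψ' := by
      refine away_ext ?_
      rw [RingHom.comp_assoc, hψ₀', hμ, hψ]
    have e5 : μ u₀ = u := by
      refine R2 (c i) (c j) ψ ψ' _ _ hψ ?_ hu'
      have := R4 (c i) (c j) ψ₀ ψ₀' μ u₀ hu₀
      rwa [e3, e4] at this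
    have h3 := congrArg μ hM
    rw [map_mul, map_mul, map_pow, map_mul, map_pow, e5] at h3
    have e6 : μ (algebraMap A D₀ (f i₀)) = ψ (algebraMap A _ (f i₀)) :=
      RingHom.congr_fun hμ (f i₀)
    have e7 : μ (ψ₀' (δ j)) = ψ' (δ j) := RingHom.congr_fun e4 _
    have e8 : μ (ψ₀ (δ i)) = ψ (δ i) := RingHom.congr_fun e3 _
    rw [e6, e7, e8] at h3
    exact h3
  choose M hM using key
  refine ⟨∑ p, M p, ?_⟩
  intro i j D _ ψ ψ' u hψ hu
  have h1 := hM (i, j) D ψ ψ' u hψ hu
  obtain ⟨m, hm⟩ : ∃ m, ∑ p, M p = m + M (i, j) := by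
    refine ⟨∑ p, M p - M (i, j), (Nat.sub_add_cancel ?_).symm⟩
    exact Finset.single_le_sum (fun _ _ => Nat.zero_le _) (Finset.mem_univ (i, j))
  have h2 : ψ' (algebraMap A _ (f i₀)) = ψ (algebraMap A _ (f i₀)) :=
    (RingHom.congr_fun hψ (f i₀)).symm
  rw [map_mul, map_mul, map_pow, map_pow, h2, hm, pow_add, mul_assoc, h1]
  ring

/-- The first step. -/
theorem step1 (hREL : Stmt_REL) (h6 : IsUnit (6 : A)) (s : Localization.Away (f i₀)) :
    ∃ (N : ℕ) (δ : ∀ i, Localization.Away (f i)),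
      δ i₀ = algebraMap A _ (f i₀) ^ N * s ∧ Cpg c i₀ δ := by
  have hREL' := hREL
  obtain ⟨R1, R2, R3, R4⟩ := hREL'
  let q' : ∀ i, Localization.Away (f i) →+*
      Localization.Away (algebraMap A (Localization.Away (f i)) (f i₀)) := fun i =>
    algebraMap _ _
  have hq' : ∀ i, IsUnit (((q' i).comp (algebraMap A (Localization.Away (f i)))) (f i₀)) :=
    fun i => IsLocalization.Away.algebraMap_isUnit
      (algebraMap A (Localization.Away (f i)) (f i₀))
  let q : ∀ i, Localization.Away (f i₀) →+*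
      Localization.Away (algebraMap A (Localization.Away (f i)) (f i₀)) := fun i =>
    IsLocalization.Away.lift (f i₀) (hq' i)
  have hq : ∀ i, (q i).comp (algebraMap A _) = (q' i).comp (algebraMap A _) := fun i =>
    IsLocalization.Away.lift_comp _ _
  have h1 : ∀ i, ∃ u, Rel (c i₀) (c i) (q i) (q' i) u := fun i =>
    R1 (c i₀) (c i) (q i) (q' i) (six_map ((q' i).comp (algebraMap A _)) h6) (hq i)
  choose u hu using h1
  have h2 : ∀ i, ∃ (n : ℕ) (x : Localization.Away (f i)),
      q' i (algebraMap A _ (f i₀)) ^ n * (u i ^ 10 * q i s) = q' i x := by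
    intro i
    obtain ⟨n, x, hx⟩ := IsLocalization.Away.surj (algebraMap A (Localization.Away (f i)) (f i₀))
      (u i ^ 10 * q i s)
    refine ⟨n, x, ?_⟩
    rw [mul_comm]
    exact hx
  choose n x hx using h2
  let N := ∑ i, n i
  let δ : ∀ i, Localization.Away (f i) := fun i =>
    algebraMap A _ (f i₀) ^ (N - n i) * x i
  have hδ : ∀ i, q' i (δ i) = q' i (algebraMap A _ (f i₀)) ^ N * (u i ^ 10 * q i s) := by
    intro i
    have h3 : n i ≤ N := Finset.single_le_sum (fun _ _ => Nat.zero_le _) (Finset.mem_univ i)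
    change q' i (algebraMap A _ (f i₀) ^ (N - n i) * x i) = _
    rw [map_mul, map_pow, ← hx i, ← mul_assoc, ← pow_add, Nat.sub_add_cancel h3]
  clear_value δ
  refine ⟨N, δ, ?_, ?_⟩
  · have e1 : q i₀ = q' i₀ := away_ext (hq i₀)
    have e2 : u i₀ = 1 := rel_one c hREL i₀ (q' i₀) (u i₀) (by
      have := hu i₀
      rwa [e1] at this)
    have e3 := hδ i₀
    rw [e1, e2, one_pow, one_mul, ← map_pow, ← map_mul] at e3
    obtain ⟨m, hm⟩ := away_eq e3
    have e4 : IsUnit (algebraMap A (Localization.Away (f i₀)) (f i₀) ^ m) :=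
      (IsLocalization.Away.algebraMap_isUnit _).pow m
    exact e4.mul_left_cancel hm
  · intro i j D _ ψ ψ' v hψ hg hv
    have hg' : IsUnit (ψ' (algebraMap A _ (f i₀))) := by
      have h3 : ψ (algebraMap A _ (f i₀)) = ψ' (algebraMap A _ (f i₀)) :=
        RingHom.congr_fun hψ (f i₀)
      rwa [h3] at hg
    let μ : Localization.Away (algebraMap A (Localization.Away (f i)) (f i₀)) →+* D :=
      IsLocalization.Away.lift (algebraMap A (Localization.Away (f i)) (f i₀)) hg
    let μ' : Localization.Away (algebraMap A (Localization.Away (f j)) (f i₀)) →+* D :=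
      IsLocalization.Away.lift (algebraMap A (Localization.Away (f j)) (f i₀)) hg'
    have hμ : μ.comp (q' i) = ψ := IsLocalization.Away.lift_comp _ _
    have hμ' : μ'.comp (q' j) = ψ' := IsLocalization.Away.lift_comp _ _
    have e1 : μ.comp (q i) = μ'.comp (q j) := by
      refine away_ext ?_
      rw [RingHom.comp_assoc, RingHom.comp_assoc, hq, hq, ← RingHom.comp_assoc,
        ← RingHom.comp_assoc, hμ, hμ', hψ]
    have e2 : Rel (c i₀) (c i) (μ.comp (q i)) ψ (μ (u i)) := by
      have := R4 (c i₀) (c i) (q i) (q' i) μ (u i) (hu i)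
      rwa [hμ] at this
    have e3 : Rel (c i₀) (c j) (μ.comp (q i)) ψ' (μ' (u j)) := by
      have := R4 (c i₀) (c j) (q j) (q' j) μ' (u j) (hu j)
      rwa [hμ', ← e1] at this
    have e4 : (μ.comp (q i)).comp (algebraMap A _) = ψ'.comp (algebraMap A _) := by
      rw [RingHom.comp_assoc, hq, ← RingHom.comp_assoc, hμ, hψ]
    have e5 : v * μ (u i) = μ' (u j) :=
      R2 (c i₀) (c j) _ _ _ _ e4 (R3 (c i₀) (c i) (c j) _ ψ ψ' _ _ e2 hv) e3
    have e6 : ψ (δ i) = ψ (algebraMap A _ (f i₀)) ^ N * (μ (u i) ^ 10 * μ (q i s)) := by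
      have := congrArg μ (hδ i)
      rw [map_mul, map_mul, map_pow, map_pow] at this
      rw [← hμ]
      exact this
    have e7 : ψ' (δ j) = ψ' (algebraMap A _ (f i₀)) ^ N * (μ' (u j) ^ 10 * μ' (q j s)) := by
      have := congrArg μ' (hδ j)
      rw [map_mul, map_mul, map_pow, map_pow] at this
      rw [← hμ']
      exact this
    have e8 : μ (q i s) = μ' (q j s) := RingHom.congr_fun e1 s
    have e9 : ψ (algebraMap A _ (f i₀)) = ψ' (algebraMap A _ (f i₀)) :=
      RingHom.congr_fun hψ (f i₀)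
    rw [e6, e7, ← e5, e8, e9]
    ring

theorem part2 (hREL : Stmt_REL) (h6 : IsUnit (6 : A)) (δ δ' : ∀ i, Localization.Away (f i))
    (h : Cpt c δ) (h' : Cpt c δ') (he : δ i₀ = δ' i₀) :
    ∃ K : ℕ, ∀ i, algebraMap A _ (f i₀) ^ K * δ i = algebraMap A _ (f i₀) ^ K * δ' i := by
  obtain ⟨R1, -, -, -⟩ := hREL
  have key : ∀ i, ∃ K : ℕ,
      algebraMap A _ (f i₀) ^ K * δ i = algebraMap A _ (f i₀) ^ K * δ' i := by
    intro i
    let D := Localization.Away (algebraMap A (Localization.Away (f i)) (f i₀))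
    let q' : Localization.Away (f i) →+* D := algebraMap _ _
    have hq' : IsUnit ((q'.comp (algebraMap A (Localization.Away (f i)))) (f i₀)) :=
      IsLocalization.Away.algebraMap_isUnit (algebraMap A (Localization.Away (f i)) (f i₀))
    let q : Localization.Away (f i₀) →+* D := IsLocalization.Away.lift (f i₀) hq'
    have hq : q.comp (algebraMap A _) = q'.comp (algebraMap A _) :=
      IsLocalization.Away.lift_comp _ _
    obtain ⟨u, hu⟩ := R1 (c i₀) (c i) q q' (six_map (q'.comp (algebraMap A _)) h6) hq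
    have e1 := h i₀ i D q q' u hq hu
    have e2 := h' i₀ i D q q' u hq hu
    rw [he, ← e2] at e1
    exact away_eq e1
  choose K hK using key
  refine ⟨∑ i, K i, fun i => ?_⟩
  obtain ⟨m, hm⟩ : ∃ m, ∑ p, K p = m + K i := by
    refine ⟨∑ p, K p - K i, (Nat.sub_add_cancel ?_).symm⟩
    exact Finset.single_le_sum (fun _ _ => Nat.zero_le _) (Finset.mem_univ i)
  rw [hm, pow_add, mul_assoc, mul_assoc, hK]

end rel

end EXT

/-- Section EXT. -/
theorem t_EXT (hREL : Stmt_REL) : Stmt_EXT := by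
  refine ⟨?_, ?_⟩
  · intro A _ h6 r f C c i₀ s
    obtain ⟨N, δ, h1, h2⟩ := EXT.step1 c i₀ hREL h6 s
    obtain ⟨M, hM⟩ := EXT.step2 c i₀ hREL h6 δ h2
    refine ⟨M + N, _, ?_, hM⟩
    rw [h1, pow_add, mul_assoc]
  · intro A _ h6 r f C c i₀ δ δ' h h' he
    exact EXT.part2 c i₀ hREL h6 δ δ' h h' he

end Pool.Agent.MG.WL
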