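import Pool.Agent.MG.WL.StmtsW
import Pool.Agent.MG.WL.Tools

/-!
# Base change of local coordinates
-/

open CategoryTheory CategoryTheory.Limits AlgebraicGeometry TensorProduct

namespace Pool.Agent.MG.WL

open Pool.Agent.MG.W Pool.Agent.MG.One Pool.Agent.MG.GLU

namespace LCB

variable {A B : Type} [CommRing A] [CommRing B] {φ : A →+* B} {C : Fam 1 A} {y : Fam 1 B}

/-- The square of the sections is cartesian. -/
theorem sec_cart (a : Arrow φ y C) : IsPullback (spMap φ) (y.σ 0) (C.σ 0) a.f := by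
  refine IsPullback.of_bot ?_ (a.sec 0).symm a.cart
  rw [y.sec, C.sec]
  exact IsPullback.of_vert_isIso ⟨by simp⟩

/-- The section of the base change is the preimage of the section. -/
theorem mem_range (a : Arrow φ y C) (z : y.X) :
    z ∈ Set.range (y.σ 0) ↔ a.f z ∈ Set.range (C.σ 0) := by
  constructor
  · rintro ⟨p, rfl⟩
    refine ⟨spMap φ p, ?_⟩
    rw [← Scheme.Hom.comp_apply, ← Scheme.Hom.comp_apply, a.sec]
  · rintro ⟨p, hp⟩
    obtain ⟨q, -, hq⟩ := Scheme.exists_preimage_of_isPullback (sec_cart a) p z hp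
    exact ⟨q, hq⟩

/-- The section of the base change lies in the preimage. -/
theorem le_pre (a : Arrow φ y C) {V : C.X.Opens} (h : ⊤ ≤ (C.σ 0) ⁻¹ᵁ V) :
    ⊤ ≤ (y.σ 0) ⁻¹ᵁ (a.f ⁻¹ᵁ V) := by
  intro p _
  have h1 : (C.σ 0) (spMap φ p) ∈ V := h (Set.mem_univ (spMap φ p))
  have h2 : a.f (y.σ 0 p) = (C.σ 0) (spMap φ p) := by
    rw [← Scheme.Hom.comp_apply, ← Scheme.Hom.comp_apply, a.sec]
  change a.f (y.σ 0 p) ∈ V
  rw [h2]
  exact h1

/-- The pull back of functions. -/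
noncomputable abbrev pb (a : Arrow φ y C) (V : C.X.Opens) : Γ(C.X, V) →+* Γ(y.X, a.f ⁻¹ᵁ V) :=
  (a.f.appLE V (a.f ⁻¹ᵁ V) le_rfl).hom

theorem coef_pb (a : Arrow φ y C) (V : C.X.Opens) (c : A) :
    pb a V (coef C.π V c) = coef y.π (a.f ⁻¹ᵁ V) (φ c) :=
  coef_arrow a.cart.w V (a.f ⁻¹ᵁ V) le_rfl c

theorem basic (a : Arrow φ y C) (V : C.X.Opens) (t : Γ(C.X, V)) :
    y.X.basicOpen (pb a V t) = a.f ⁻¹ᵁ C.X.basicOpen t := by
  rw [Scheme.preimage_basicOpen]
  have : a.f.appLE V (a.f ⁻¹ᵁ V) le_rfl = a.f.app V := Scheme.Hom.appLE_eq_app _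
  change y.X.basicOpen ((a.f.appLE V (a.f ⁻¹ᵁ V) le_rfl).hom t) = _
  rw [this]

/-- Every function is the sum of a constant and of a multiple of the coordinate. -/
theorem split (L : LC C) (r : Γ(C.X, L.V)) :
    ∃ s, r = coef C.π L.V (gm (C.σ 0) L.V L.le r) + L.t * s := by
  have h := gm_coef (C.σ 0) C.π (RingHom.id A)
    (by rw [C.sec]; exact (Spec.map_id _).symm) L.V L.le
    (gm (C.σ 0) L.V L.le r)
  obtain ⟨s, hs⟩ := (L.ker (r - coef C.π L.V (gm (C.σ 0) L.V L.le r))).1 (by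
    rw [map_sub, h, RingHom.id_apply, sub_self])
  exact ⟨s, by rw [← hs]; ring⟩

/-- The same for the base change. -/
theorem split' (a : Arrow φ y C) (L : LC C) (r : Γ(y.X, a.f ⁻¹ᵁ L.V)) :
    ∃ b s, r = coef y.π (a.f ⁻¹ᵁ L.V) b + pb a L.V L.t * s := by
  obtain ⟨e, he⟩ := tp_affine a L.aff
  let _ := φ.toAlgebra
  let _ := (coef C.π L.V).toAlgebra
  obtain ⟨x, rfl⟩ := e.surjective r
  induction x using TensorProduct.induction_on with
  | zero => exact ⟨0, 0, by rw [map_zero, map_zero, mul_zero, add_zero]⟩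
  | tmul b r =>
    obtain ⟨s, hs⟩ := split L r
    refine ⟨b * φ (gm (C.σ 0) L.V L.le r), coef y.π (a.f ⁻¹ᵁ L.V) b * pb a L.V s, ?_⟩
    rw [he]
    change coef y.π (a.f ⁻¹ᵁ L.V) b * pb a L.V r = _
    conv_lhs => rw [hs]
    rw [map_add, map_mul, coef_pb, map_mul]
    ring
  | add x x' h h' =>
    obtain ⟨b, s, hs⟩ := h
    obtain ⟨b', s', hs'⟩ := h'
    exact ⟨b + b', s + s', by rw [map_add, hs, hs', map_add]; ring⟩

theorem kernel (a : Arrow φ y C) (L : LC C) (r : Γ(y.X, a.f ⁻¹ᵁ L.V)) :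
    gm (y.σ 0) (a.f ⁻¹ᵁ L.V) (le_pre a L.le) r = 0 ↔ ∃ s, r = pb a L.V L.t * s := by
  have ht : gm (y.σ 0) (a.f ⁻¹ᵁ L.V) (le_pre a L.le) (pb a L.V L.t) = 0 := by
    have h1 := gm_nat a.f (C.σ 0) (y.σ 0) φ (a.sec 0) L.V (a.f ⁻¹ᵁ L.V) L.le (le_pre a L.le)
      le_rfl L.t
    rw [h1, (L.ker L.t).2 ⟨1, (mul_one _).symm⟩, map_zero]
  constructor
  · intro h
    obtain ⟨b, s, rfl⟩ := split' a L r
    have hb := gm_coef (y.σ 0) y.π (RingHom.id B)
      (by rw [y.sec]; exact (Spec.map_id _).symm) (a.f ⁻¹ᵁ L.V) (le_pre a L.le) b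
    rw [map_add, map_mul, ht, zero_mul, add_zero, hb, RingHom.id_apply] at h
    exact ⟨s, by rw [h, map_zero, zero_add]⟩
  · rintro ⟨s, rfl⟩
    rw [map_mul, ht, zero_mul]

theorem flat (a : Arrow φ y C) {V : C.X.Opens} (hV : IsAffineOpen V) (t : Γ(C.X, V))
    (h : (Polynomial.eval₂RingHom (coef C.π V) t).Flat) :
    (Polynomial.eval₂RingHom (coef y.π (a.f ⁻¹ᵁ V)) (pb a V t)).Flat := by
  have h1 := arrow_push a V (isIso_pushoutSection_of_isAffineOpen _ _ _ _ (isAffineOpen_top _)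
    (isAffineOpen_top _) hV)
  have h2 : IsPushout (CommRingCat.ofHom (Polynomial.C : A →+* Polynomial A))
      (CommRingCat.ofHom φ) (CommRingCat.ofHom (Polynomial.mapRingHom φ))
      (CommRingCat.ofHom (Polynomial.C : B →+* Polynomial B)) := by
    let _ := φ.toAlgebra
    let _ : Algebra (Polynomial A) (Polynomial B) := Polynomial.algebra A B
    exact (CommRingCat.isPushout_of_isPushout A B (Polynomial A) (Polynomial B)).flip
  have e1 : CommRingCat.ofHom (Polynomial.C : A →+* Polynomial A) ≫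
      CommRingCat.ofHom (Polynomial.eval₂RingHom (coef C.π V) t) =
        CommRingCat.ofHom (coef C.π V) := by
    ext c
    exact Polynomial.eval₂_C _ _
  have e2 : CommRingCat.ofHom (Polynomial.C : B →+* Polynomial B) ≫
      CommRingCat.ofHom (Polynomial.eval₂RingHom (coef y.π (a.f ⁻¹ᵁ V)) (pb a V t)) =
        CommRingCat.ofHom (coef y.π (a.f ⁻¹ᵁ V)) := by
    ext c
    exact Polynomial.eval₂_C _ _
  rw [← e1, ← e2] at h1
  have h3 := IsPushout.of_left h1 (by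
    apply CommRingCat.hom_ext
    refine Polynomial.ringHom_ext (fun c => ?_) ?_
    · change pb a V (Polynomial.eval₂RingHom (coef C.π V) t (Polynomial.C c)) =
        Polynomial.eval₂RingHom (coef y.π (a.f ⁻¹ᵁ V)) (pb a V t)
          (Polynomial.mapRingHom φ (Polynomial.C c))
      simp only [Polynomial.coe_eval₂RingHom, Polynomial.eval₂_C, Polynomial.coe_mapRingHom,
        Polynomial.map_C]
      exact coef_pb a V c
    · change pb a V (Polynomial.eval₂RingHom (coef C.π V) t Polynomial.X) =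
        Polynomial.eval₂RingHom (coef y.π (a.f ⁻¹ᵁ V)) (pb a V t)
          (Polynomial.mapRingHom φ Polynomial.X)
      simp only [Polynomial.coe_eval₂RingHom, Polynomial.eval₂_X, Polynomial.coe_mapRingHom,
        Polynomial.map_X]) h2
  exact MorphismProperty.of_isPushout (P := CommRingCat.flat) h3.flip
    ((CommRingCat.flat_ofHom_iff _).2 h)

end LCB

open LCB in
theorem t_LCB : Stmt_LCB := by
  intro A B _ _ φ C y a L
  refine ⟨⟨a.f ⁻¹ᵁ L.U, ?_, a.f ⁻¹ᵁ L.V, pre_affine a L.aff, le_pre a L.le, pb a L.V L.t, ?_,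
    kernel a L, flat a L.aff L.t L.flat⟩, ⟨rfl, rfl, rfl⟩⟩
  · intro z
    rw [mem_range a z, ← L.mU]
    rfl
  · rw [basic, L.bas]
    rfl

end Pool.Agent.MG.WL
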