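import Pool.Agent.MG.WL.StmtsX

/-!
# Gluing of arrows over a Zariski covering of the base
-/

open CategoryTheory CategoryTheory.Limits AlgebraicGeometry TensorProduct

namespace Pool.Agent.MG.WL

open Pool.Agent.MG.W Pool.Agent.MG.One

namespace GAR

/-- The covering of the base. -/
noncomputable def cov {A : Type} [CommRing A] {r : ℕ} (f : Fin r → A)
    (hf : Ideal.span (Set.range f) = ⊤) (B : Fin r → Type)
    [∀ i, CommRing (B i)] [∀ i, Algebra A (B i)] [∀ i, IsLocalization.Away (f i) (B i)] :
    (Sp A).OpenCover :=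
  Scheme.Cover.mkOfCovers (Fin r) (fun i => Sp (B i)) (fun i => spMap (algebraMap A (B i)))
    (fun x => by
      have : ∃ i, f i ∉ x.asIdeal := by
        by_contra hc
        push Not at hc
        apply x.2.ne_top
        rwa [← top_le_iff, ← hf, Ideal.span_le, Set.range_subset_iff]
      obtain ⟨i, hi⟩ := this
      have h1 := PrimeSpectrum.localization_away_comap_range (B i) (f i)
      have h2 : (x : PrimeSpectrum A) ∈ Set.range (PrimeSpectrum.comap (algebraMap A (B i))) := by
        rw [h1]
        exact hi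
      obtain ⟨y, hy⟩ := h2
      exact ⟨i, y, hy⟩)
    (fun i => IsOpenImmersion.of_isLocalization (f i))

end GAR

theorem t_GAR : Stmt_GAR := by
  intro n E A _ _ φ Y C r f hf B _ _ _ C' k ρ hag
  let U := GAR.cov f hf B
  have hUf : ∀ i, U.f i = spMap (algebraMap A (B i)) := fun i => rfl
  -- the isomorphisms of the members of the pull back cover
  let V := U.pullback₁ C.π
  let t : ∀ i : Fin r, V.X i ≅ (C' i).X := fun i => (k i).cart.isoPullback.symm
  have t1 : ∀ i, (t i).hom ≫ (k i).f = V.f i := fun i => (k i).cart.isoPullback_inv_fst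
  have t2 : ∀ i, (t i).hom ≫ (C' i).π = pullback.snd C.π (U.f i) :=
    fun i => (k i).cart.isoPullback_inv_snd
  let e : C.X ⟶ Y.X := Scheme.Cover.glueMorphisms V (fun i => (t i).hom ≫ (ρ i).f) (fun i j => by
    rw [← Category.assoc, ← Category.assoc]
    refine hag i j _ _ _ ?_
    rw [Category.assoc, Category.assoc, t1, t1]
    exact pullback.condition)
  have he : ∀ i, V.f i ≫ e = (t i).hom ≫ (ρ i).f := fun i => Scheme.Cover.ι_glueMorphisms V _ _ i
  have hk : ∀ i, (k i).f ≫ e = (ρ i).f := by
    intro i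
    have h1 := he i
    rw [← t1 i, Category.assoc] at h1
    exact (cancel_epi (t i).hom).1 h1
  have hc : ∀ i, spMap ((algebraMap A (B i)).comp φ) = spMap (algebraMap A (B i)) ≫ spMap φ := by
    intro i
    rw [spMap, spMap, spMap, ← Spec.map_comp]
    rfl
  have key : ∀ i : Fin r, IsPullback (pullback.snd C.π (spMap (algebraMap A (B i))))
      (pullback.fst C.π (spMap (algebraMap A (B i))) ≫ e)
      (spMap (algebraMap A (B i)) ≫ spMap φ) Y.π := by
    intro i
    have h0 := (ρ i).cart.flip
    rw [hc i] at h0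
    have e1 : (k i).cart.isoPullback.inv ≫ (C' i).π =
        pullback.snd C.π (spMap (algebraMap A (B i))) := (k i).cart.isoPullback_inv_snd
    have e2 : (k i).cart.isoPullback.inv ≫ (ρ i).f =
        pullback.fst C.π (spMap (algebraMap A (B i))) ≫ e := (he i).symm
    refine h0.of_iso (k i).cart.isoPullback (Iso.refl _) (Iso.refl _) (Iso.refl _) ?_ ?_ ?_ ?_
    · rw [Iso.refl_hom, Category.comp_id, ← e1, Iso.hom_inv_id_assoc]
    · rw [Iso.refl_hom, Category.comp_id, ← e2, Iso.hom_inv_id_assoc]
    · rw [Iso.refl_hom, Iso.refl_hom, Category.comp_id, Category.id_comp]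
    · rw [Iso.refl_hom, Iso.refl_hom, Category.comp_id, Category.id_comp]
  have hpb : IsPullback C.π e (spMap φ) Y.π :=
    Scheme.isPullback_of_openCover _ _ _ _ U key
  refine ⟨⟨e, hpb.flip, fun i => ?_⟩, hk⟩
  refine Scheme.Cover.hom_ext U _ _ fun j => ?_
  show spMap (algebraMap A (B j)) ≫ C.σ i ≫ e = spMap (algebraMap A (B j)) ≫ spMap φ ≫ Y.σ i
  rw [← Category.assoc, ← (k j).sec i, Category.assoc, hk j, (ρ j).sec i, hc j, Category.assoc]

end Pool.Agent.MG.WL
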