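import Pool.Agent.MG.WL.LPI

/-!
# GEO: quasi-finite closed subschemes of a proper scheme over an affine base
-/

open CategoryTheory CategoryTheory.Limits AlgebraicGeometry TopologicalSpace

namespace Pool.Agent.MG.WL

namespace GEO

/-- Gluing of functions over a star shaped cover. -/
theorem glue {Z : Scheme.{0}} {ι : Type} (W : Z.Opens) (V : ι → Z.Opens)
    (cov : ∀ z : Z, z ∈ W ∨ ∃ i, z ∈ V i) (dis : ∀ i j, i ≠ j → V i ⊓ V j ≤ W)
    (r : Γ(Z, W)) (q : ∀ i, Γ(Z, V i))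
    (h : ∀ i, rs Z (inf_le_left : W ⊓ V i ≤ W) r = rs Z (inf_le_right : W ⊓ V i ≤ V i) (q i)) :
    ∃ z : Γ(Z, ⊤), rs Z le_top z = r ∧ ∀ i, rs Z le_top z = q i := by
  classical
  have key : ∀ (i : ι) (U : Z.Opens) (h1 : U ≤ W) (h2 : U ≤ V i), rs Z h1 r = rs Z h2 (q i) := by
    intro i U h1 h2
    have := congrArg (rs Z (le_inf h1 h2)) (h i)
    rwa [CEC.rr_rr, CEC.rr_rr] at this
  let U : Option ι → Z.Opens := fun o => o.elim W V
  let sf : ∀ o : Option ι, Γ(Z, U o) := fun o => match o with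
    | none => r
    | some i => q i
  have hc : TopCat.Presheaf.IsCompatible Z.presheaf U sf := by
    rintro (_ | i) (_ | j)
    · rfl
    · exact key j _ inf_le_left inf_le_right
    · exact (key i _ inf_le_right inf_le_left).symm
    · rcases eq_or_ne i j with rfl | hij
      · rfl
      · exact (key i (V i ⊓ V j) (dis i j hij) inf_le_left).symm.trans
          (key j (V i ⊓ V j) (dis i j hij) inf_le_right)
  obtain ⟨z, hz, -⟩ := Z.sheaf.existsUnique_gluing' U ⊤ (fun o => homOfLE le_top) (by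
    intro x _
    rcases cov x with hx | ⟨i, hx⟩
    · exact Opens.mem_iSup.2 ⟨none, hx⟩
    · exact Opens.mem_iSup.2 ⟨some i, hx⟩) sf hc
  exact ⟨z, hz none, fun i => hz (some i)⟩

theorem qf_of {P R T : Type} [CommRing P] [CommRing R] [CommRing T] (φ : R →+* T)
    (hφ : Function.Surjective φ) (I : Ideal R) (hI : RingHom.ker φ = I) (c : P →+* R)
    (h : ((Ideal.Quotient.mk I).comp c).QuasiFinite) : (φ.comp c).QuasiFinite := by
  subst hI
  let e := RingHom.quotientKerEquivOfSurjective hφ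
  have h1 : φ.comp c = (e : _ →+* T).comp ((Ideal.Quotient.mk (RingHom.ker φ)).comp c) := by
    ext x
    rfl
  rw [h1]
  exact (RingHom.QuasiFinite.of_finite e.finite).comp h

variable {P : Type} [CommRing P] {X Z : Scheme.{0}} (π : X ⟶ Sp P) (j : Z ⟶ X)

theorem qf_appLE [IsClosedImmersion j] (U : X.Opens) (hU : IsAffineOpen U) (I : Ideal Γ(X, U))
    (hI : RingHom.ker (j.app U).hom = I)
    (h : ((Ideal.Quotient.mk I).comp (coef π U)).QuasiFinite) :
    ((j ≫ π).appLE ⊤ (j ⁻¹ᵁ U) le_top).hom.QuasiFinite := by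
  have h1 : (((j ≫ π).appLE ⊤ (j ⁻¹ᵁ U) le_top).hom.comp
      (Scheme.ΓSpecIso (CommRingCat.of P)).inv.hom).QuasiFinite := by
    have h2 : ((j ≫ π).appLE ⊤ (j ⁻¹ᵁ U) le_top).hom.comp
        (Scheme.ΓSpecIso (CommRingCat.of P)).inv.hom = (j.app U).hom.comp (coef π U) := by
      ext a
      have h3 := coef_comp π j U (j ⁻¹ᵁ U) le_rfl a
      rw [coef_eq (j ≫ π)] at h3
      exact h3.symm.trans (by rw [Scheme.Hom.appLE_eq_app]; rfl)
    rw [h2]
    exact qf_of _ (j.app_surjective U hU) I hI _ h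
  exact h1.of_comp

theorem locQF [IsClosedImmersion j] {ι : Type} (W : X.Opens) (V : ι → X.Opens)
    (hW : IsAffineOpen W) (hV : ∀ i, IsAffineOpen (V i)) (cov : ∀ z : X, z ∈ W ∨ ∃ i, z ∈ V i)
    (f : Γ(X, W)) (g : ∀ i, Γ(X, V i)) (hf : RingHom.ker (j.app W).hom = Ideal.span {f})
    (hg : ∀ i, RingHom.ker (j.app (V i)).hom = Ideal.span {g i})
    (h1 : ((Ideal.Quotient.mk (Ideal.span {f})).comp (coef π W)).QuasiFinite)
    (h2 : ∀ i, ((Ideal.Quotient.mk (Ideal.span {g i})).comp (coef π (V i))).QuasiFinite) :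
    LocallyQuasiFinite (j ≫ π) := by
  refine HasRingHomProperty.of_iSup_eq_top (P := @LocallyQuasiFinite)
    (fun o : Option ι => match o with
      | none => ⟨j ⁻¹ᵁ W, hW.preimage j⟩
      | some i => ⟨j ⁻¹ᵁ V i, (hV i).preimage j⟩) ?_ ?_
  · rw [eq_top_iff]
    intro x _
    rcases cov (j x) with hx | ⟨i, hx⟩
    · exact Opens.mem_iSup.2 ⟨none, hx⟩
    · exact Opens.mem_iSup.2 ⟨some i, hx⟩
  · rintro (_ | i)
    · exact qf_appLE π j W hW _ hf h1
    · exact qf_appLE π j (V i) (hV i) _ (hg i) (h2 i)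

/-- Generators of the global functions. -/
theorem gens [IsFinite (j ≫ π)] : ∃ (m : ℕ) (ε : Fin m → Γ(Z, ⊤)), ∀ z, ∃ c : Fin m → P,
    z = ∑ l, coef (j ≫ π) ⊤ (c l) * ε l := by
  have h1 : (coef (j ≫ π) ⊤).Finite := by
    have h2 : (coef (j ≫ π) ⊤) = ((j ≫ π).appTop).hom.comp
        (Scheme.ΓSpecIso (CommRingCat.of P)).inv.hom := by
      have h3 : (j ≫ π).appLE ⊤ ⊤ le_top = (j ≫ π).appTop := Scheme.Hom.appLE_eq_app _
      rw [coef_eq, h3]
      rfl
    rw [h2]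
    refine ((j ≫ π).finite_appTop).comp (RingHom.Finite.of_surjective _ ?_)
    exact (ConcreteCategory.bijective_of_isIso _).2
  let A : Algebra P Γ(Z, ⊤) := (coef (j ≫ π) ⊤).toAlgebra
  have : Module.Finite P Γ(Z, ⊤) := h1
  obtain ⟨m, ε, hε⟩ := Module.Finite.exists_fin (R := P) (M := Γ(Z, ⊤))
  refine ⟨m, ε, fun z => ?_⟩
  have hz : z ∈ Submodule.span P (Set.range ε) := by rw [hε]; trivial
  rw [Submodule.mem_span_range_iff_exists_fun] at hz
  obtain ⟨c, hc⟩ := hz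
  exact ⟨c, hc.symm⟩

/-- The pull back of functions, as a function. -/
noncomputable def pl (U : X.Opens) : Γ(X, U) →+* Γ(Z, j ⁻¹ᵁ U) := (j.app U).hom

theorem pl_rs {U V : X.Opens} (h : U ≤ V) (h' : j ⁻¹ᵁ U ≤ j ⁻¹ᵁ V) (a : Γ(X, V)) :
    pl j U (rs X h a) = rs Z h' (pl j V a) := by
  change (X.presheaf.map (homOfLE h).op ≫ j.app U) a = _
  rw [Scheme.Hom.naturality]
  rfl

theorem pl_coef (U : X.Opens) (a : P) : pl j U (coef π U a) = coef (j ≫ π) (j ⁻¹ᵁ U) a := by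
  have h3 := coef_comp π j U (j ⁻¹ᵁ U) le_rfl a
  rw [← h3, Scheme.Hom.appLE_eq_app]
  rfl

theorem ker_res [IsClosedImmersion j] {U V : X.Opens} (hU : IsAffineOpen U)
    (hV : IsAffineOpen V) (h : U ≤ V) (f : Γ(X, V)) (hf : RingHom.ker (j.app V).hom = Ideal.span {f}) :
    RingHom.ker (j.app U).hom = Ideal.span {rs X h f} := by
  have h1 := (j.ker).map_ideal (U := ⟨U, hU⟩) (V := ⟨V, hV⟩) h
  rw [Scheme.Hom.ker_apply, Scheme.Hom.ker_apply] at h1
  rw [← h1, hf, Ideal.map_span, Set.image_singleton]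
  rfl

end GEO

theorem t_GEO (hLPI : Stmt_LPI) : Stmt_GEO := by
  intro P _ X π _ ι _ W V hW hV cov dis f g h qf qg
  have hWV : ∀ i, IsAffineOpen (W ⊓ V i) := fun i =>
    isAffineHom_diagonal_iff (f := π).1 inferInstance ⊤ (isAffineOpen_top _) W le_top (V i) le_top
      hW (hV i)
  obtain ⟨Z, j, hj, kW, kV⟩ := hLPI W V hW hV hWV cov dis f g h
  have hqf : LocallyQuasiFinite (j ≫ π) := GEO.locQF π j W V hW hV cov f g kW kV qf qg
  have hfin : IsFinite (j ≫ π) := IsFinite.of_isProper_of_locallyQuasiFinite _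
  have hZ : IsAffine Z := isAffine_of_isAffineHom (j ≫ π)
  have kWV : ∀ i, RingHom.ker (j.app (W ⊓ V i)).hom = Ideal.span {rs X inf_le_left f} :=
    fun i => GEO.ker_res j (hWV i) hW inf_le_left f kW
  have covZ : ∀ z : Z, z ∈ j ⁻¹ᵁ W ∨ ∃ i, z ∈ j ⁻¹ᵁ V i := fun z => cov (j z)
  have disZ : ∀ i i', i ≠ i' → j ⁻¹ᵁ V i ⊓ j ⁻¹ᵁ V i' ≤ j ⁻¹ᵁ W := fun i i' hii' x hx =>
    dis i i' hii' hx
  refine ⟨?_, fun s => ?_⟩
  · obtain ⟨m, ε, hε⟩ := GEO.gens π j
    have h1 : ∀ l, ∃ e : Γ(X, W), GEO.pl j W e = rs Z le_top (ε l) := fun l =>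
      j.app_surjective W hW _
    have h2 : ∀ l i, ∃ e : Γ(X, V i), GEO.pl j (V i) e = rs Z le_top (ε l) := fun l i =>
      j.app_surjective (V i) (hV i) _
    choose e he using h1
    choose e' he' using h2
    refine ⟨m, e, e', fun l i => ?_, fun r q hrq => ?_⟩
    · rw [← kWV, RingHom.mem_ker, map_sub, sub_eq_zero]
      change GEO.pl j _ (rs X _ (e l)) = GEO.pl j _ (rs X _ (e' l i))
      rw [GEO.pl_rs j inf_le_left (fun x hx => hx.1), GEO.pl_rs j inf_le_right (fun x hx => hx.2),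
        he, he', CEC.rr_rr, CEC.rr_rr]
    · obtain ⟨z, hz1, hz2⟩ := GEO.glue (j ⁻¹ᵁ W) (fun i => j ⁻¹ᵁ V i) covZ disZ
        (GEO.pl j W r) (fun i => GEO.pl j (V i) (q i)) (fun i => by
          have h3 := hrq i
          rw [← kWV, RingHom.mem_ker, map_sub, sub_eq_zero] at h3
          change GEO.pl j _ (rs X _ r) = GEO.pl j _ (rs X _ (q i)) at h3
          rw [GEO.pl_rs j inf_le_left (fun x hx => hx.1),
            GEO.pl_rs j inf_le_right (fun x hx => hx.2)] at h3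
          exact h3)
      obtain ⟨c, hc⟩ := hε z
      refine ⟨c, ?_, fun i => ?_⟩
      · rw [← kW, RingHom.mem_ker, map_sub, sub_eq_zero, map_sum]
        change GEO.pl j W r = ∑ l, GEO.pl j W (coef π W (c l) * e l)
        rw [← hz1, hc, map_sum]
        refine Finset.sum_congr rfl fun l _ => ?_
        rw [map_mul, map_mul, he, GEO.pl_coef, coef_rs]
      · rw [← kV, RingHom.mem_ker, map_sub, sub_eq_zero, map_sum]
        change GEO.pl j (V i) (q i) = ∑ l, GEO.pl j (V i) (coef π (V i) (c l) * e' l i)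
        rw [← hz2, hc, map_sum]
        refine Finset.sum_congr rfl fun l _ => ?_
        rw [map_mul, map_mul, he', GEO.pl_coef, coef_rs]
  · obtain ⟨r, q, hrq⟩ := CEC.cech (isAffineOpen_top Z) (ι := ι) (W := j ⁻¹ᵁ W)
      (E := fun i => j ⁻¹ᵁ V i) le_top (hW.preimage j) (fun _ => le_top)
      (fun i => (hV i).preimage j) (fun x _ => covZ x) disZ (fun i => GEO.pl j (W ⊓ V i) (s i))
    obtain ⟨r', hr'⟩ := j.app_surjective W hW r
    have h2 : ∀ i, ∃ q' : Γ(X, V i), GEO.pl j (V i) q' = q i := fun i =>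
      j.app_surjective (V i) (hV i) _
    choose q' hq' using h2
    have hr'' : GEO.pl j W r' = r := hr'
    refine ⟨r', q', fun i => ?_⟩
    rw [← kWV, RingHom.mem_ker, map_sub, map_sub, sub_sub, sub_eq_zero]
    change GEO.pl j _ (s i) = GEO.pl j _ (rs X _ r') + GEO.pl j _ (rs X _ (q' i))
    rw [GEO.pl_rs j inf_le_left (fun x hx => hx.1), GEO.pl_rs j inf_le_right (fun x hx => hx.2),
      hr'', hq']
    exact hrq i

end Pool.Agent.MG.WL
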