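import Pool.Agent.MG.WL.StmtsX
import Mathlib.AlgebraicGeometry.RelativeGluing

/-!
# GLD: families can be glued along a Zariski covering of the base
-/

open CategoryTheory CategoryTheory.Limits AlgebraicGeometry TensorProduct

namespace Pool.Agent.MG.WL

open Pool.Agent.MG.W Pool.Agent.MG.One

namespace GLD

/-- Nonempty finite sets of indices. -/
abbrev NF (r : ℕ) : Type := {S : Finset (Fin r) // S.Nonempty}

/-- The index category: the opposite order. -/
abbrev Idx (r : ℕ) : Type := (NF r)ᵒᵈ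

section

variable {E : Type} [CommRing E] {r : ℕ} (f : Fin r → E)
  (E' : NF r → Type) [∀ S, CommRing (E' S)]
  [∀ S, Algebra E (E' S)] [∀ S, IsLocalization.Away (∏ i ∈ S.1, f i) (E' S)]

include f in
theorem open_sp (S : NF r) : IsOpenImmersion (spMap (algebraMap E (E' S))) :=
  IsOpenImmersion.of_isLocalization (S := E' S) (∏ i ∈ S.1, f i)

include f in
theorem range_sp (S : NF r) (p : (Sp E : Scheme.{0})) :
    p ∈ Set.range (spMap (algebraMap E (E' S))) ↔ ∀ i ∈ S.1, f i ∉ p.asIdeal := by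
  have h : p ∈ Set.range (spMap (algebraMap E (E' S))) ↔
      p ∈ PrimeSpectrum.basicOpen (∏ i ∈ S.1, f i) := by
    have h1 := PrimeSpectrum.localization_away_comap_range (E' S) (∏ i ∈ S.1, f i)
    change p ∈ Set.range (PrimeSpectrum.comap (algebraMap E (E' S))) ↔ _
    rw [h1]
    rfl
  rw [h]
  change ¬ (∏ i ∈ S.1, f i ∈ p.asIdeal) ↔ _
  have h0 : p.asIdeal.IsPrime := p.2
  have h2 : (∏ i ∈ S.1, f i ∈ p.asIdeal) ↔ ∃ i ∈ S.1, f i ∈ p.asIdeal :=
    h0.prod_mem_iff
  rw [h2]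
  constructor
  · intro h3 i hi h4
    exact h3 ⟨i, hi, h4⟩
  · rintro h3 ⟨i, hi, h4⟩
    exact h3 i hi h4

theorem covers (hf : Ideal.span (Set.range f) = ⊤) (p : (Sp E : Scheme.{0})) :
    ∃ (S : Idx r) (y : Sp (E' (OrderDual.ofDual S))),
      spMap (algebraMap E (E' (OrderDual.ofDual S))) y = p := by
  have h : ∃ i, f i ∉ p.asIdeal := by
    by_contra hc
    have hc : ∀ i, f i ∈ p.asIdeal := fun i => by
      by_contra h
      exact hc ⟨i, h⟩
    refine p.2.ne_top (top_le_iff.mp ?_)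
    rw [← hf, Ideal.span_le]
    rintro _ ⟨i, rfl⟩
    exact hc i
  obtain ⟨i, hi⟩ := h
  refine ⟨OrderDual.toDual ⟨{i}, Finset.singleton_nonempty i⟩, ?_⟩
  exact (range_sp f E' ⟨{i}, Finset.singleton_nonempty i⟩ p).mpr (by
    intro j hj
    rw [Finset.mem_singleton] at hj
    rw [hj]
    exact hi)

/-- The covering. -/
noncomputable def cov (hf : Ideal.span (Set.range f) = ⊤) : (Sp E).OpenCover :=
  Scheme.Cover.mkOfCovers (P := @IsOpenImmersion) (Idx r)
    (fun S => Sp (E' (OrderDual.ofDual S)))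
    (fun S => spMap (algebraMap E (E' (OrderDual.ofDual S))))
    (covers f E' hf)
    (fun S => open_sp f E' (OrderDual.ofDual S))

noncomputable instance (hf : Ideal.span (Set.range f) = ⊤) : Category (cov f E' hf).I₀ :=
  inferInstanceAs (Category (Idx r))

instance (hf : Ideal.span (Set.range f) = ⊤) : Quiver.IsThin (cov f E' hf).I₀ :=
  inferInstanceAs (Quiver.IsThin (Idx r))

instance (hf : Ideal.span (Set.range f) = ⊤) : Small.{0} (cov f E' hf).I₀ :=
  inferInstanceAs (Small.{0} (Idx r))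

variable (ρ : ∀ S T, S ≤ T → (E' S →ₐ[E] E' T))

include f in
theorem alg_sub (S T : NF r) (a b : E' S →ₐ[E] E' T) : a = b := by
  apply AlgHom.coe_ringHom_injective
  exact IsLocalization.ringHom_ext (Submonoid.powers (∏ i ∈ S.1, f i))
    (by rw [AlgHom.comp_algebraMap, AlgHom.comp_algebraMap])

include f in
theorem tr_id (S : NF r) : spMap (ρ S S le_rfl : E' S →+* E' S) = 𝟙 _ := by
  rw [alg_sub f E' S S (ρ S S le_rfl) (AlgHom.id E (E' S))]
  exact Spec.map_id _

include f in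
theorem tr_comp (S T U : NF r) (h : S ≤ T) (h' : T ≤ U) :
    spMap (ρ T U h' : E' T →+* E' U) ≫ spMap (ρ S T h : E' S →+* E' T) =
      spMap (ρ S U (h.trans h') : E' S →+* E' U) := by
  rw [alg_sub f E' S U (ρ S U (h.trans h')) ((ρ T U h').comp (ρ S T h))]
  exact (Spec.map_comp (CommRingCat.ofHom (ρ S T h : E' S →+* E' T))
    (CommRingCat.ofHom (ρ T U h' : E' T →+* E' U))).symm

theorem tr_w (S T : NF r) (h : S ≤ T) :
    spMap (ρ S T h : E' S →+* E' T) ≫ spMap (algebraMap E (E' S)) =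
      spMap (algebraMap E (E' T)) := by
  have h1 : (ρ S T h : E' S →+* E' T).comp (algebraMap E (E' S)) = algebraMap E (E' T) :=
    (ρ S T h).comp_algebraMap
  rw [← h1]
  exact (Spec.map_comp (CommRingCat.ofHom (algebraMap E (E' S)))
    (CommRingCat.ofHom (ρ S T h : E' S →+* E' T))).symm

include f in
theorem tr_open (S T : NF r) (h : S ≤ T) : IsOpenImmersion (spMap (ρ S T h : E' S →+* E' T)) := by
  have h1 := open_sp f E' S
  have h2 := open_sp f E' T
  rw [← tr_w E' ρ S T h] at h2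
  exact IsOpenImmersion.of_comp _ (spMap (algebraMap E (E' S)))

include f in
theorem dirl (S T : NF r)
    (x : (pullback (spMap (algebraMap E (E' S))) (spMap (algebraMap E (E' T))) : Scheme.{0})) :
    ∃ (U : NF r) (h : S ≤ U) (h' : T ≤ U) (y : Sp (E' U)),
      pullback.lift (spMap (ρ S U h : E' S →+* E' U)) (spMap (ρ T U h' : E' T →+* E' U))
        (by rw [tr_w, tr_w]) y = x := by
  have h1 := open_sp f E' S
  have h2 := open_sp f E' T
  let U : NF r := ⟨S.1 ∪ T.1, S.2.mono Finset.subset_union_left⟩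
  have hS : S ≤ U := Finset.subset_union_left (s₁ := S.1) (s₂ := T.1)
  have hT : T ≤ U := Finset.subset_union_right (s₁ := S.1) (s₂ := T.1)
  let q := pullback.fst (spMap (algebraMap E (E' S))) (spMap (algebraMap E (E' T))) ≫
    spMap (algebraMap E (E' S))
  have hq1 : q x ∈ Set.range (spMap (algebraMap E (E' S))) := by
    refine ⟨pullback.fst (spMap (algebraMap E (E' S))) (spMap (algebraMap E (E' T))) x, ?_⟩
    rw [← Scheme.Hom.comp_apply]
  have hq2 : q x ∈ Set.range (spMap (algebraMap E (E' T))) := by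
    refine ⟨pullback.snd (spMap (algebraMap E (E' S))) (spMap (algebraMap E (E' T))) x, ?_⟩
    rw [← Scheme.Hom.comp_apply, ← pullback.condition]
  rw [range_sp f E'] at hq1 hq2
  have hq3 : q x ∈ Set.range (spMap (algebraMap E (E' U))) := by
    rw [range_sp f E']
    intro i hi
    rcases Finset.mem_union.mp hi with h | h
    · exact hq1 i h
    · exact hq2 i h
  obtain ⟨y, hy⟩ := hq3
  refine ⟨U, hS, hT, y, ?_⟩
  have hi : IsOpenImmersion q := inferInstance
  apply q.isOpenEmbedding.injective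
  rw [← Scheme.Hom.comp_apply, ← hy]
  congr 2
  rw [pullback.lift_fst_assoc, tr_w]

/-- The covering is locally directed. -/
@[reducible] noncomputable def ldir (hf : Ideal.span (Set.range f) = ⊤) :
    Scheme.Cover.LocallyDirected (cov f E' hf) where
  trans {i j} hij := spMap (ρ (OrderDual.ofDual j) (OrderDual.ofDual i)
    (OrderDual.ofDual_le_ofDual.mpr (leOfHom hij)) : _ →+* _)
  trans_id i := tr_id f E' ρ (OrderDual.ofDual i)
  trans_comp {i j k} hij hjk := (tr_comp f E' ρ (OrderDual.ofDual k) (OrderDual.ofDual j)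
    (OrderDual.ofDual i) (OrderDual.ofDual_le_ofDual.mpr (leOfHom hjk))
    (OrderDual.ofDual_le_ofDual.mpr (leOfHom hij))).symm
  w {i j} hij := tr_w E' ρ (OrderDual.ofDual j) (OrderDual.ofDual i)
    (OrderDual.ofDual_le_ofDual.mpr (leOfHom hij))
  directed {i j} x := by
    obtain ⟨U, h, h', y, hy⟩ := dirl f E' ρ (OrderDual.ofDual i) (OrderDual.ofDual j) x
    exact ⟨(OrderDual.toDual U : Idx r), homOfLE (X := Idx r) (OrderDual.ofDual_le_ofDual.mp h),
      homOfLE (X := Idx r) (OrderDual.ofDual_le_ofDual.mp h'), y, hy⟩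
  property_trans {i j} hij := tr_open f E' ρ (OrderDual.ofDual j) (OrderDual.ofDual i)
    (OrderDual.ofDual_le_ofDual.mpr (leOfHom hij))

end

section

variable {n : ℕ} {E : Type} [CommRing E] {r : ℕ} (f : Fin r → E)
  (hf : Ideal.span (Set.range f) = ⊤)
  (E' : NF r → Type) [∀ S, CommRing (E' S)]
  [∀ S, Algebra E (E' S)] [∀ S, IsLocalization.Away (∏ i ∈ S.1, f i) (E' S)]
  (ρ : ∀ S T, S ≤ T → (E' S →ₐ[E] E' T)) (Y : ∀ S, Fam n (E' S))
  (g : ∀ S T (h : S ≤ T), Arrow (ρ S T h : E' S →+* E' T) (Y T) (Y S))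
  (hg1 : ∀ S, (g S S le_rfl).f = 𝟙 _)
  (hg2 : ∀ S T U (h : S ≤ T) (h' : T ≤ U),
    (g T U h').f ≫ (g S T h).f = (g S U (h.trans h')).f)

/-- The gluing datum. -/
noncomputable def gd :
    letI := ldir f E' ρ hf
    Scheme.Cover.RelativeGluingData (cov f E' hf) :=
  letI := ldir f E' ρ hf
  { functor :=
      { obj := fun i => (Y (OrderDual.ofDual i)).X
        map := fun {i j} hij => (g (OrderDual.ofDual j) (OrderDual.ofDual i)
          (OrderDual.ofDual_le_ofDual.mpr (leOfHom hij))).f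
        map_id := fun _ => hg1 _
        map_comp := fun _ _ => (hg2 _ _ _ _ _).symm }
    natTrans :=
      { app := fun i => (Y (OrderDual.ofDual i)).π
        naturality := fun i j hij => (g (OrderDual.ofDual j) (OrderDual.ofDual i)
          (OrderDual.ofDual_le_ofDual.mpr (leOfHom hij))).cart.w }
    equifibered := fun i j hij => (g (OrderDual.ofDual j) (OrderDual.ofDual i)
          (OrderDual.ofDual_le_ofDual.mpr (leOfHom hij))).cart }

/-- The glued scheme. -/
noncomputable def glX : Scheme.{0} :=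
  letI := ldir f E' ρ hf
  (gd f hf E' ρ Y g hg1 hg2).glued

/-- The projection. -/
noncomputable def glπ : glX f hf E' ρ Y g hg1 hg2 ⟶ Sp E :=
  letI := ldir f E' ρ hf
  (gd f hf E' ρ Y g hg1 hg2).toBase

/-- The inclusions. -/
noncomputable def glι (S : NF r) : (Y S).X ⟶ glX f hf E' ρ Y g hg1 hg2 :=
  letI := ldir f E' ρ hf
  colimit.ι (gd f hf E' ρ Y g hg1 hg2).functor (OrderDual.toDual S)

theorem glw (S T : NF r) (h : S ≤ T) :
    (g S T h).f ≫ glι f hf E' ρ Y g hg1 hg2 S = glι f hf E' ρ Y g hg1 hg2 T :=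
  letI := ldir f E' ρ hf
  colimit.w (gd f hf E' ρ Y g hg1 hg2).functor
    (homOfLE (X := Idx r) (OrderDual.toDual_le_toDual.mpr h))

theorem glp (S : NF r) : IsPullback (glι f hf E' ρ Y g hg1 hg2 S) (Y S).π
    (glπ f hf E' ρ Y g hg1 hg2) (spMap (algebraMap E (E' S))) :=
  letI := ldir f E' ρ hf
  ((gd f hf E' ρ Y g hg1 hg2).isPullback_natTrans_ι_toBase (OrderDual.toDual S)).flip

include f hf in
/-- Morphisms can be glued. -/
theorem glm {Z : Scheme.{0}} (m : ∀ S : NF r, Sp (E' S) ⟶ Z)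
    (hm : ∀ S T (h : S ≤ T), spMap (ρ S T h : E' S →+* E' T) ≫ m S = m T) :
    ∃ a : Sp E ⟶ Z, ∀ S, spMap (algebraMap E (E' S)) ≫ a = m S :=
  letI := ldir f E' ρ hf
  ⟨(cov f E' hf).glueMorphismsOfLocallyDirected (fun S => m (OrderDual.ofDual S))
      (fun {S T} hST => hm (OrderDual.ofDual T) (OrderDual.ofDual S)
        (OrderDual.ofDual_le_ofDual.mpr (leOfHom hST))), fun S =>
    Scheme.OpenCover.map_glueMorphismsOfLocallyDirected (cov f E' hf)
      (fun S => m (OrderDual.ofDual S))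
      (fun {S T} hST => hm (OrderDual.ofDual T) (OrderDual.ofDual S)
        (OrderDual.ofDual_le_ofDual.mpr (leOfHom hST))) (OrderDual.toDual S)⟩

include f hf in
theorem hom_ext {Z : Scheme.{0}} (a b : Sp E ⟶ Z)
    (h : ∀ S, spMap (algebraMap E (E' S)) ≫ a = spMap (algebraMap E (E' S)) ≫ b) : a = b :=
  (cov f E' hf).hom_ext _ _ (fun S => h (OrderDual.ofDual S))

end

end GLD

theorem t_GLD : Stmt_GLD := by
  intro n E _ r f hf E' _ _ _ ρ Y g hg1 hg2
  have hσ : ∀ i, ∃ a : Sp E ⟶ GLD.glX f hf E' ρ Y g hg1 hg2,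
      ∀ S, spMap (algebraMap E (E' S)) ≫ a = (Y S).σ i ≫ GLD.glι f hf E' ρ Y g hg1 hg2 S := by
    intro i
    apply GLD.glm f hf E' ρ
    intro S T h
    rw [← GLD.glw f hf E' ρ Y g hg1 hg2 S T h, ← Category.assoc, ← Category.assoc,
      (g S T h).sec i]
  choose σ hσ using hσ
  let y : Fam n E := ⟨GLD.glX f hf E' ρ Y g hg1 hg2, GLD.glπ f hf E' ρ Y g hg1 hg2, σ, by
    intro i
    apply GLD.hom_ext f hf E'
    intro S
    rw [← Category.assoc, hσ, Category.assoc, (GLD.glp f hf E' ρ Y g hg1 hg2 S).w,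
      ← Category.assoc, (Y S).sec, Category.id_comp, Category.comp_id]⟩
  exact ⟨y, fun S => ⟨GLD.glι f hf E' ρ Y g hg1 hg2 S, GLD.glp f hf E' ρ Y g hg1 hg2 S,
    fun i => (hσ i S).symm⟩, GLD.glw f hf E' ρ Y g hg1 hg2⟩

end Pool.Agent.MG.WL
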