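import Pool.Agent.MG.DER

/-!
# Local coordinates at a section: algebra
-/

open TensorProduct Algebra KaehlerDifferential
open scoped Polynomial

namespace Pool.Agent.MG.WL.LCEx

/-- Etale coordinates from a basis of the differentials. -/
theorem formallyEtale_of_basis {A S : Type} [CommRing A] [CommRing S] [Algebra A S] (t : S)
    [Algebra A[X] S] [IsScalarTower A A[X] S] (ht : algebraMap A[X] S Polynomial.X = t)
    [Subsingleton (H1Cotangent A S)] {κ : Type} [Unique κ] (b : Module.Basis κ S Ω[S⁄A])
    (hb : b default = D A S t) : FormallyEtale A[X] S := by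
  -- surjectivity and injectivity of the base change map
  have hX : ∀ x : Ω[A[X]⁄A], ∃ P : A[X], x = P • D A A[X] Polynomial.X := by
    intro x
    have h1 : Submodule.span A[X] {D A A[X] Polynomial.X} = ⊤ := by
      rw [_root_.eq_top_iff, ← span_range_derivation, Submodule.span_le]
      rintro _ ⟨P, rfl⟩
      rw [SetLike.mem_coe, Submodule.mem_span_singleton]
      refine ⟨Polynomial.derivative P, ?_⟩
      have h2 : (D A A[X]) = (Polynomial.mkDerivation A (D A A[X] Polynomial.X)) := by
        apply Polynomial.derivation_ext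
        rw [Polynomial.mkDerivation_X]
      conv_rhs => rw [h2]
      rw [Polynomial.mkDerivation_apply]
    have h2 : x ∈ Submodule.span A[X] {D A A[X] Polynomial.X} := h1 ▸ Submodule.mem_top
    obtain ⟨P, hP⟩ := Submodule.mem_span_singleton.1 h2
    exact ⟨P, hP.symm⟩
  have hT : ∀ x : S ⊗[A[X]] Ω[A[X]⁄A], ∃ r : S, x = r ⊗ₜ D A A[X] Polynomial.X := by
    intro x
    induction x with
    | zero => exact ⟨0, (TensorProduct.zero_tmul _ _).symm⟩
    | tmul r y =>
      obtain ⟨P, rfl⟩ := hX y
      exact ⟨P • r, by rw [TensorProduct.tmul_smul, TensorProduct.smul_tmul']⟩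
    | add x y hx hy =>
      obtain ⟨r, rfl⟩ := hx
      obtain ⟨r', rfl⟩ := hy
      exact ⟨r + r', by rw [TensorProduct.add_tmul]⟩
  have hmap : ∀ r : S, mapBaseChange A A[X] S (r ⊗ₜ D A A[X] Polynomial.X) = r • b default := by
    intro r
    rw [mapBaseChange_tmul, map_D, ht, hb]
  have hinj : ∀ x, mapBaseChange A A[X] S x = 0 → x = 0 := by
    intro x hx
    obtain ⟨r, rfl⟩ := hT x
    rw [hmap] at hx
    have h1 : r = 0 := by
      have := congrArg (fun z => b.repr z default) hx
      simpa using this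
    rw [h1, TensorProduct.zero_tmul]
  have hsurj : ∀ y, ∃ x, mapBaseChange A A[X] S x = y := by
    intro y
    refine ⟨(b.repr y default) ⊗ₜ D A A[X] Polynomial.X, ?_⟩
    rw [hmap]
    conv_rhs => rw [← b.sum_repr y]
    simp
  have hΩ : Subsingleton Ω[S⁄A[X]] := by
    rw [subsingleton_iff_forall_eq 0]
    intro y
    obtain ⟨z, rfl⟩ := KaehlerDifferential.map_surjective A A[X] S y
    obtain ⟨x, rfl⟩ := hsurj z
    exact (exact_mapBaseChange_map A A[X] S _).2 ⟨x, rfl⟩
  have hH : Subsingleton (H1Cotangent A[X] S) := by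
    rw [subsingleton_iff_forall_eq 0]
    intro y
    have h1 : H1Cotangent.δ A A[X] S y = 0 :=
      hinj _ ((H1Cotangent.exact_δ_mapBaseChange A A[X] S _).2 ⟨y, rfl⟩)
    obtain ⟨z, rfl⟩ := (H1Cotangent.exact_map_δ A A[X] S y).1 h1
    rw [Subsingleton.elim z 0, map_zero]
  exact (formallyEtale_iff _ _).2 ⟨hΩ, hH⟩

section coord

variable {A R : Type} [CommRing A] [CommRing R] [Algebra A R] (s : R →ₐ[A] A) (q : Ideal R)
  [q.IsPrime]

/-- The differentials at a smooth point with a section have a basis consisting of differentials of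
elements of the kernel. -/
theorem exists_basis [FinitePresentation A R] [IsSmoothAt A q] :
    ∃ (κ : Type) (a : κ → RingHom.ker s) (b : Module.Basis κ (Localization.AtPrime q)
      Ω[Localization.AtPrime q⁄A]), ∀ i, b i = D A (Localization.AtPrime q)
        (algebraMap R (Localization.AtPrime q) (a i)) := by
  have h1 : EssFiniteType R (Localization.AtPrime q) := .of_isLocalization _ q.primeCompl
  have h2 : EssFiniteType A (Localization.AtPrime q) := .comp _ R _
  have h3 : Module.FinitePresentation (Localization.AtPrime q) Ω[Localization.AtPrime q⁄A] :=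
    Module.finitePresentation_of_projective _ _
  apply Module.exists_basis_of_span_of_flat
    (fun i : RingHom.ker s => D A (Localization.AtPrime q)
      (algebraMap R (Localization.AtPrime q) (i : R)))
  rw [_root_.eq_top_iff, ← span_range_map_derivation_of_isLocalization A R
    (Localization.AtPrime q) q.primeCompl, Submodule.span_le]
  rintro _ ⟨r, rfl⟩
  apply Submodule.subset_span
  refine ⟨⟨r - algebraMap A R (s r), ?_⟩, ?_⟩
  · rw [RingHom.mem_ker, map_sub]
    exact sub_eq_zero.2 (s.commutes (s r)).symm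
  · show D A (Localization.AtPrime q) (algebraMap R (Localization.AtPrime q)
      (r - algebraMap A R (s r))) = map A A R (Localization.AtPrime q) (D A R r)
    rw [map_sub, map_sub, ← IsScalarTower.algebraMap_apply, Derivation.map_algebraMap, sub_zero,
      map_D]

/-- The coordinate generates the kernel locally. -/
theorem exists_mul_mem [FinitePresentation A R] (t : R) (ht : s t = 0) (hq : RingHom.ker s ≤ q)
    (hΩ : ∀ ω : Ω[Localization.AtPrime q⁄A], ∃ c : Localization.AtPrime q,
      ω = c • D A (Localization.AtPrime q) (algebraMap R (Localization.AtPrime q) t)) :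
    ∃ g ∉ q, ∀ r, s r = 0 → ∃ u, g * r = t * u := by
  have hs : Function.Surjective s := fun a => ⟨algebraMap A R a, s.commutes a⟩
  have hfg : (RingHom.ker s).FG := FinitePresentation.ker_fG_of_surjective s hs
  let I : Ideal R := RingHom.ker s
  let J : Ideal R := Ideal.span {t} ⊔ I * I
  let L := Localization.AtPrime q
  have hmul : ∀ x y : R, x ∈ I → y ∈ I → x * y ∈ J := fun x y hx hy =>
    Ideal.mem_sup_right (Ideal.mul_mem_mul hx hy)
  have hsub : ∀ r : R, r - algebraMap A R (s r) ∈ I := by
    intro r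
    rw [RingHom.mem_ker, map_sub]
    exact sub_eq_zero.2 (s.commutes (s r)).symm
  let JL : Ideal L := J.map (algebraMap R L)
  have hmkR : ∀ (x : R) (z : L), x • (Ideal.Quotient.mk JL z) =
      Ideal.Quotient.mk JL (algebraMap R L x * z) := by
    intro x z
    rw [← Algebra.smul_def]
    rfl
  have hmkA : ∀ (x : A) (z : L), x • (Ideal.Quotient.mk JL z) =
      Ideal.Quotient.mk JL (algebraMap A L x * z) := by
    intro x z
    rw [← Algebra.smul_def]
    rfl
  let mk : R →ₗ[A] L ⧸ JL :=
    { toFun := fun r => Ideal.Quotient.mk JL (algebraMap R L (r - algebraMap A R (s r)))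
      map_add' := fun x y => by
        rw [← map_add, ← map_add]
        congr 2
        rw [map_add, map_add]
        ring
      map_smul' := fun a x => by
        rw [RingHom.id_apply, hmkA, IsScalarTower.algebraMap_apply A R L, ← map_mul,
          Algebra.smul_def, map_mul, AlgHom.commutes, Algebra.algebraMap_self, RingHom.id_apply,
          map_mul, mul_sub] }
  have hJL : ∀ x ∈ J, Ideal.Quotient.mk JL (algebraMap R L x) = 0 := fun x hx =>
    Ideal.Quotient.eq_zero_iff_mem.2 (Ideal.mem_map_of_mem _ hx)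
  let δ : Derivation A R (L ⧸ JL) :=
    Derivation.mk' mk (fun x y => by
      have h1 := hJL _ (hmul _ _ (hsub x) (hsub y))
      have h2 : x * y - algebraMap A R (s (x * y)) =
          x * (y - algebraMap A R (s y)) + y * (x - algebraMap A R (s x)) -
            (x - algebraMap A R (s x)) * (y - algebraMap A R (s y)) := by
        rw [map_mul, map_mul]
        ring
      show Ideal.Quotient.mk JL (algebraMap R L (x * y - algebraMap A R (s (x * y)))) =
        x • Ideal.Quotient.mk JL (algebraMap R L (y - algebraMap A R (s y))) +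
          y • Ideal.Quotient.mk JL (algebraMap R L (x - algebraMap A R (s x)))
      rw [h2, map_sub, map_sub, h1, sub_zero, map_add, map_add, hmkR, hmkR, ← map_mul,
        ← map_mul])
  have hδ : ∀ x, s x = 0 → δ x = Ideal.Quotient.mk JL (algebraMap R L x) := by
    intro x hx
    show Ideal.Quotient.mk JL (algebraMap R L (x - algebraMap A R (s x))) = _
    rw [hx, map_zero, sub_zero]
  have he : FormallyEtale R L := .of_isLocalization q.primeCompl
  obtain ⟨E, hE⟩ := _root_.MG.exists_derivation_of_formallyEtale (R := A) (S := R) (T := L) δ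
  have hEt : E (algebraMap R L t) = 0 := by
    rw [hE, hδ t ht]
    exact hJL _ (Ideal.mem_sup_left (Ideal.mem_span_singleton_self t))
  have hE0 : ∀ x, E x = 0 := by
    intro x
    obtain ⟨c, hc⟩ := hΩ (D A L x)
    rw [← E.liftKaehlerDifferential_comp_D x, hc, map_smul, E.liftKaehlerDifferential_comp_D, hEt,
      smul_zero]
  have hle : I.map (algebraMap R L) ≤ Ideal.span {algebraMap R L t} ⊔
      I.map (algebraMap R L) • I.map (algebraMap R L) := by
    rw [Ideal.map_le_iff_le_comap]
    intro x hx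
    have h1 : algebraMap R L x ∈ JL := by
      rw [← Ideal.Quotient.eq_zero_iff_mem, ← hδ x hx, ← hE, hE0]
    have h2 : JL = Ideal.span {algebraMap R L t} ⊔
        I.map (algebraMap R L) • I.map (algebraMap R L) := by
      show (Ideal.span {t} ⊔ I * I).map (algebraMap R L) = _
      rw [Ideal.map_sup, Ideal.map_span, Set.image_singleton, Ideal.map_mul, smul_eq_mul]
    rw [Ideal.mem_comap, ← h2]
    exact h1
  have hjac : I.map (algebraMap R L) ≤ Ideal.jacobson ⊥ := by
    rw [IsLocalRing.jacobson_eq_maximalIdeal ⊥ bot_ne_top, Ideal.map_le_iff_le_comap]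
    intro x hx
    rw [Ideal.mem_comap]
    exact (IsLocalization.AtPrime.to_map_mem_maximal_iff L q x).2 (hq hx)
  have hNak : I.map (algebraMap R L) ≤ Ideal.span {algebraMap R L t} :=
    Submodule.le_of_le_smul_of_le_jacobson_bot (hfg.map _) hjac hle
  have hx : ∀ x ∈ I, ∃ w ∉ q, t ∣ w * x := by
    intro x hx
    have h1 := hNak (Ideal.mem_map_of_mem (algebraMap R L) hx)
    obtain ⟨c, hc⟩ := Ideal.mem_span_singleton'.1 h1
    obtain ⟨⟨u, w⟩, hu⟩ := IsLocalization.surj q.primeCompl c
    have h2 : algebraMap R L (w * x) = algebraMap R L (u * t) := by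
      rw [map_mul, map_mul, ← hc, ← hu]
      ring
    obtain ⟨v, hv⟩ := (IsLocalization.eq_iff_exists q.primeCompl L).1 h2
    refine ⟨v * w, q.primeCompl.mul_mem v.2 w.2, ⟨v * u, ?_⟩⟩
    rw [mul_assoc, hv]
    ring
  obtain ⟨S, hS⟩ := hfg
  classical
  have hS' : ∀ x, x ∈ Ideal.span (S : Set R) → x ∈ I := fun x h => hS.le h
  have hx' : ∀ x : S, ∃ w ∉ q, t ∣ w * x := fun x => hx x (hS' _ (Ideal.subset_span x.2))
  choose w hw hdvd using hx'
  refine ⟨∏ x, w x, fun h => ?_, fun r hr => ?_⟩
  · rw [Ideal.IsPrime.prod_mem_iff] at h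
    obtain ⟨x, -, h⟩ := h
    exact hw x h
  · have h1 : r ∈ Ideal.span (S : Set R) := by
      rw [hS]
      exact hr
    suffices h : t ∣ (∏ x, w x) * r from h
    clear hr
    induction h1 using Submodule.span_induction with
    | mem x hx =>
      obtain ⟨u, hu⟩ := hdvd ⟨x, hx⟩
      rw [← Finset.mul_prod_erase Finset.univ w (Finset.mem_univ ⟨x, hx⟩)]
      refine ⟨u * (Finset.univ.erase ⟨x, hx⟩).prod w, ?_⟩
      rw [mul_right_comm, hu]
      ring
    | zero => rw [mul_zero]; exact dvd_zero _
    | add x y hx hy h1 h2 =>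
      rw [mul_add]
      exact dvd_add h1 h2
    | smul a x hx h1 =>
      rw [smul_eq_mul, mul_left_comm]
      exact Dvd.dvd.mul_left h1 a

/-- Etale coordinates at the section. -/
theorem exists_coord [FinitePresentation A R] [IsSmoothAt A q] (hq : RingHom.ker s ≤ q)
    (hr : ∀ (κ : Type) (_ : Module.Basis κ (Localization.AtPrime q)
      Ω[Localization.AtPrime q⁄A]), Nonempty (Unique κ)) :
    ∃ t g : R, s t = 0 ∧ g ∉ q ∧ (∀ r, s r = 0 → ∃ u, g * r = t * u) ∧
      ((algebraMap R (Localization.Away g)).comp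
        (Polynomial.aeval t : A[X] →ₐ[A] R).toRingHom).Flat := by
  obtain ⟨κ, a, b, hb⟩ := exists_basis s q
  obtain ⟨hu⟩ := hr κ b
  let t : R := a default
  have ht : s t = 0 := (a default).2
  let _ : Algebra A[X] R := (Polynomial.aeval t : A[X] →ₐ[A] R).toRingHom.toAlgebra
  have hst : IsScalarTower A A[X] R := .of_algebraMap_eq fun x => by
    rw [RingHom.algebraMap_toAlgebra]
    exact ((Polynomial.aeval t : A[X] →ₐ[A] R).commutes x).symm
  have hX : algebraMap A[X] R Polynomial.X = t := Polynomial.aeval_X t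
  have h1 : IsEtaleAt A[X] q := by
    refine formallyEtale_of_basis (algebraMap R (Localization.AtPrime q) t) ?_ b (hb default)
    rw [IsScalarTower.algebraMap_apply A[X] R (Localization.AtPrime q), hX]
  have hfp : FinitePresentation A[X] R := .of_restrict_scalars_finitePresentation A A[X] R
  obtain ⟨g1, hg1, hg1'⟩ := exists_etale_of_isEtaleAt (R := A[X]) q
  obtain ⟨g2, hg2, hg2'⟩ := exists_mul_mem s q t ht hq (fun ω => by
    refine ⟨b.repr ω default, ?_⟩
    rw [← hb default]
    conv_lhs => rw [← b.sum_repr ω]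
    simp)
  refine ⟨t, g1 * g2, ht, q.primeCompl.mul_mem hg1 hg2, fun r hr => ?_, ?_⟩
  · obtain ⟨u, hu⟩ := hg2' r hr
    exact ⟨g1 * u, by rw [mul_assoc, hu]; ring⟩
  · have h2 : (PrimeSpectrum.basicOpen (g1 * g2) : Set (PrimeSpectrum R)) ⊆
        etaleLocus A[X] R := by
      refine subset_trans ?_ (basicOpen_subset_etaleLocus_iff_etale.2 hg1')
      exact PrimeSpectrum.basicOpen_mul_le_left g1 g2
    have h3 : Etale A[X] (Localization.Away (g1 * g2)) := basicOpen_subset_etaleLocus_iff_etale.1 h2
    have h4 : (algebraMap A[X] (Localization.Away (g1 * g2))).Flat :=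
      RingHom.flat_algebraMap_iff.2 inferInstance
    exact h4

attribute [local instance] Algebra.TensorProduct.rightAlgebra in
/-- The rank of the differentials can be computed on a geometric fibre. -/
theorem unique_of_relDim (k : Type) [Field k] [Algebra A k] (g : R) (hg : g ∉ q)
    (S : Type) [CommRing S] [Algebra R S] [Algebra A S] [IsScalarTower A R S]
    [IsLocalization.Away g S] [hss : IsStandardSmooth A S]
    (T' : Type) [CommRing T'] [Algebra k T'] [Nontrivial T']
    [IsStandardSmoothOfRelativeDimension 1 k T'] (e : T' ≃ₐ[k] k ⊗[A] S)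
    (κ : Type) (b : Module.Basis κ (Localization.AtPrime q) Ω[Localization.AtPrime q⁄A]) :
    Nonempty (Unique κ) := by
  let T := k ⊗[A] S
  have hnt : Nontrivial T := e.symm.toEquiv.nontrivial
  have hrd : IsStandardSmoothOfRelativeDimension 1 k T := .of_algEquiv 1 e
  let L := Localization.AtPrime q
  obtain ⟨-, I, c, -⟩ := IsStandardSmooth.iff_exists_basis_kaehlerDifferential.mp hss
  let c1 : Module.Basis I T (T ⊗[S] Ω[S⁄A]) := c.baseChange T
  let c2 : Module.Basis I T Ω[T⁄k] := c1.map (tensorKaehlerEquiv A k S T)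
  have hrk := IsStandardSmoothOfRelativeDimension.rank_kaehlerDifferential (R := k) (S := T) 1
  have hI : Cardinal.mk I = 1 := by
    rw [c2.mk_eq_rank'', hrk, Nat.cast_one]
  obtain ⟨hI1, hI2⟩ := Cardinal.eq_one_iff_unique.1 hI
  -- the map to the local ring
  have hunit : ∀ y : Submonoid.powers g, IsUnit (algebraMap R L y) := by
    rintro ⟨_, n, rfl⟩
    rw [map_pow]
    exact (IsLocalization.map_units L (⟨g, hg⟩ : q.primeCompl)).pow n
  let _ : Algebra S L := (IsLocalization.lift (M := Submonoid.powers g) hunit).toAlgebra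
  have h1 : IsScalarTower R S L := .of_algebraMap_eq fun x => by
    rw [RingHom.algebraMap_toAlgebra, IsLocalization.lift_eq]
  have h2 : IsScalarTower A S L := .of_algebraMap_eq fun x => by
    rw [IsScalarTower.algebraMap_apply A R L, IsScalarTower.algebraMap_apply R S L,
      ← IsScalarTower.algebraMap_apply A R S]
  have h3 : FormallyEtale R L := .of_isLocalization q.primeCompl
  have h4 : FormallyEtale R S := .of_isLocalization (Submonoid.powers g)
  have h5 : FormallyEtale S L := .of_restrictScalars (R := R) (A := S) (B := L)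
  let c3 : Module.Basis I L (L ⊗[S] Ω[S⁄A]) := c.baseChange L
  let c4 : Module.Basis I L Ω[L⁄A] := c3.map (tensorKaehlerEquivOfFormallyEtale A S L)
  let e : κ ≃ I := b.indexEquiv c4
  obtain ⟨i⟩ := hI2
  refine ⟨⟨⟨e.symm i⟩, fun a => ?_⟩⟩
  apply e.injective
  exact Subsingleton.elim _ _

end coord

section fibre

variable {A R : Type} [CommRing A] [CommRing R] [Algebra A R] (s : R →ₐ[A] A)

/-- The value at the section of a function on a base change. -/
noncomputable def ev (k : Type) [CommRing k] [Algebra A k] : k ⊗[A] R →ₐ[k] k :=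
  Algebra.TensorProduct.lift (AlgHom.id k k) ((Algebra.ofId A k).comp s)
    (fun _ _ => Commute.all _ _)

theorem ev_tmul (k : Type) [CommRing k] [Algebra A k] (x : k) (r : R) :
    ev s k (x ⊗ₜ r) = x * algebraMap A k (s r) :=
  Algebra.TensorProduct.lift_tmul _ _ _ _ _

/-- The kernel of the value is generated by the kernel of the section. -/
theorem mem_of_ev (k : Type) [CommRing k] [Algebra A k] (J : Ideal (k ⊗[A] R))
    (hJ : ∀ r, s r = 0 → (1 : k) ⊗ₜ[A] r ∈ J) (x : k ⊗[A] R) : x - ev s k x ⊗ₜ 1 ∈ J := by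
  induction x with
  | zero => rw [map_zero, TensorProduct.zero_tmul, sub_zero]; exact J.zero_mem
  | tmul a r =>
    have h1 : a ⊗ₜ[A] r - ev s k (a ⊗ₜ r) ⊗ₜ 1 =
        (a ⊗ₜ[A] 1) * ((1 : k) ⊗ₜ[A] (r - algebraMap A R (s r))) := by
      rw [ev_tmul, Algebra.TensorProduct.tmul_mul_tmul, mul_one, one_mul, TensorProduct.tmul_sub,
        Algebra.algebraMap_eq_smul_one (A := R), TensorProduct.tmul_smul, TensorProduct.smul_tmul',
        Algebra.smul_def, mul_comm a]
    rw [h1]
    refine J.mul_mem_left _ (hJ _ ?_)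
    rw [map_sub]
    exact sub_eq_zero.2 (s.commutes (s r)).symm
  | add x y hx hy =>
    rw [map_add, TensorProduct.add_tmul]
    have h1 : x + y - (ev s k x ⊗ₜ[A] 1 + ev s k y ⊗ₜ[A] 1) =
        (x - ev s k x ⊗ₜ[A] 1) + (y - ev s k y ⊗ₜ[A] 1) := by ring
    rw [h1]
    exact J.add_mem hx hy

theorem isSmoothAt (p : Ideal A) [p.IsPrime] (q : Ideal R) [q.IsPrime] (hqp : q = p.comap s)
    (k : Type) [Field k] [Algebra A k] [Algebra p.ResidueField k]
    [IsScalarTower A p.ResidueField k] [Algebra.IsAlgebraic p.ResidueField k]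
    [FinitePresentation A R] [Module.Flat A R] (h : k ⊗[A] R) (hh : ev s k h ≠ 0)
    (hs : Smooth k (Localization.Away h)) : IsSmoothAt A q := by
  let K := p.ResidueField
  let B := K ⊗[A] R
  let T := k ⊗[A] R
  let e : k ⊗[K] B ≃ₐ[k] T := Algebra.TensorProduct.cancelBaseChange A K k k R
  let j : B →+* T := (e : k ⊗[K] B →+* T).comp
    (Algebra.TensorProduct.includeRight : B →ₐ[K] k ⊗[K] B).toRingHom
  have hj : ∀ (x : K) (r : R), j (x ⊗ₜ r) = algebraMap K k x ⊗ₜ r := by
    intro x r
    show e (1 ⊗ₜ (x ⊗ₜ r)) = _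
    rw [Algebra.TensorProduct.cancelBaseChange_tmul, Algebra.smul_def, mul_one]
  have hint : j.IsIntegral := by
    let e2 : B ⊗[K] k ≃ₐ[K] k ⊗[K] B := Algebra.TensorProduct.comm K B k
    have h1 : j = ((e : k ⊗[K] B →+* T).comp (e2 : B ⊗[K] k →+* k ⊗[K] B)).comp
        (algebraMap B (B ⊗[K] k)) := by
      refine RingHom.ext fun x => ?_
      show e (1 ⊗ₜ x) = e (e2 (x ⊗ₜ 1))
      rw [Algebra.TensorProduct.comm_tmul]
    rw [h1]
    refine RingHom.IsIntegral.trans _ _ ?_ ?_
    · exact algebraMap_isIntegral_iff.2 inferInstance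
    · apply RingHom.isIntegral_of_surjective
      exact e.surjective.comp e2.surjective
  -- the point of the section in the fibre
  let evB : B →ₐ[K] K := ev s K
  let q0 : PrimeSpectrum B := ⟨RingHom.ker evB, RingHom.ker_isPrime _⟩
  let Z : Set (PrimeSpectrum B) := PrimeSpectrum.comap j '' PrimeSpectrum.zeroLocus {h}
  have hZ : IsClosed Z := PrimeSpectrum.isClosedMap_comap_of_isIntegral j hint _
    (PrimeSpectrum.isClosed_zeroLocus _)
  have hq0 : q0 ∉ Z := by
    rintro ⟨P, hP, hP'⟩
    have h1 : h ∈ P.asIdeal := hP rfl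
    have h2 := mem_of_ev s k P.asIdeal (fun r hr => by
      have h3 : (1 : K) ⊗ₜ[A] r ∈ q0.asIdeal := by
        show evB (1 ⊗ₜ r) = 0
        rw [ev_tmul, hr, map_zero, mul_zero]
      rw [← hP'] at h3
      have h4 : j (1 ⊗ₜ r) ∈ P.asIdeal := h3
      rw [hj, map_one] at h4
      exact h4) h
    have h3 : ev s k h ⊗ₜ[A] (1 : R) ∈ P.asIdeal := by
      have h4 := P.asIdeal.sub_mem h1 h2
      rwa [sub_sub_cancel] at h4
    apply P.isPrime.ne_top
    rw [Ideal.eq_top_iff_one]
    have h4 := P.asIdeal.mul_mem_left ((ev s k h)⁻¹ ⊗ₜ[A] (1 : R)) h3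
    rwa [Algebra.TensorProduct.tmul_mul_tmul, inv_mul_cancel₀ hh, mul_one] at h4
  obtain ⟨_, ⟨_, ⟨b, rfl⟩, rfl⟩, hb, hbZ⟩ :=
    PrimeSpectrum.isBasis_basic_opens.exists_subset_of_mem_open
      (show q0 ∈ Zᶜ from hq0) hZ.isOpen_compl
  obtain ⟨r, hr, c, hc⟩ := Ideal.Fiber.exists_smul_eq_one_tmul p b
  have hcq : c ∉ q := by
    intro h1
    rw [hqp, Ideal.mem_comap] at h1
    have h2 : evB (r • b) = 0 := by
      rw [hc, ev_tmul, one_mul]
      exact (Ideal.algebraMap_residueField_eq_zero).2 h1
    rw [Algebra.smul_def, map_mul] at h2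
    have h3 : evB (algebraMap A B r) = algebraMap A K r := by
      rw [IsScalarTower.algebraMap_apply A K B, AlgHom.commutes]
      rfl
    rcases mul_eq_zero.1 h2 with h4 | h4
    · rw [h3] at h4
      exact hr (Ideal.algebraMap_residueField_eq_zero.1 h4)
    · exact hb h4
  -- the geometric fibre of the localisation is smooth
  have hD : (PrimeSpectrum.basicOpen ((1 : k) ⊗ₜ[A] c) : Set (PrimeSpectrum T)) ⊆
      smoothLocus k T := by
    refine subset_trans (fun P hP => ?_) (basicOpen_subset_smoothLocus_iff_smooth.2 hs)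
    intro h1
    apply hP
    have h2 : PrimeSpectrum.comap j P ∈ Z := ⟨P, by rintro _ rfl; exact h1, rfl⟩
    have h3 : b ∈ (PrimeSpectrum.comap j P).asIdeal := by
      by_contra h3
      exact hbZ h3 h2
    have h4 : r • b ∈ (PrimeSpectrum.comap j P).asIdeal := by
      rw [Algebra.smul_def]
      exact Ideal.mul_mem_left _ _ h3
    rw [hc] at h4
    have h5 : j (1 ⊗ₜ c) ∈ P.asIdeal := h4
    rwa [hj, map_one] at h5
  have hsm : Smooth k (Localization.Away ((1 : k) ⊗ₜ[A] c)) :=
    basicOpen_subset_smoothLocus_iff_smooth.1 hD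
  let Rc := Localization.Away c
  have hsm2 : Smooth k (k ⊗[A] Rc) :=
    .of_equiv (IsLocalization.Away.tensorProductEquivTMulRight A k c Rc).symm
  have hsm3 : Smooth k (k ⊗[K] (K ⊗[A] Rc)) :=
    .of_equiv (Algebra.TensorProduct.cancelBaseChange A K k k Rc).symm
  have hsm4 : Smooth K (K ⊗[A] Rc) := .of_smooth_tensorProduct_of_faithfullyFlat k
  have hsm5 : FormallySmooth p.ResidueField (p.Fiber Rc) := hsm4.formallySmooth
  -- back to the local ring
  have hfl : Module.Flat A Rc := .trans A R Rc
  have hfp : FinitePresentation A Rc := .trans A R Rc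
  have hdis : Disjoint (Submonoid.powers c : Set R) q :=
    (Ideal.disjoint_powers_iff_notMem_of_isPrime c).2 hcq
  have hpr : (q.map (algebraMap R Rc)).IsPrime :=
    IsLocalization.isPrime_of_isPrime_disjoint (.powers c) _ _ ‹_› hdis
  have hcm : (q.map (algebraMap R Rc)).comap (algebraMap R Rc) = q :=
    IsLocalization.under_map_of_isPrime_disjoint (.powers c) _ ‹_› hdis
  have hlo : (q.map (algebraMap R Rc)).LiesOver p := ⟨by
    rw [Ideal.under_def, IsScalarTower.algebraMap_eq A R Rc, ← Ideal.comap_comap, hcm, hqp]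
    ext a
    rw [Ideal.mem_comap, Ideal.mem_comap, AlgHom.commutes]
    rfl⟩
  have h1 : IsSmoothAt A (q.map (algebraMap R Rc)) := .of_formallySmooth_fiber p _
  have h2 : (⟨q.map (algebraMap R Rc), hpr⟩ : PrimeSpectrum Rc) ∈ smoothLocus A Rc := h1
  rw [← smoothLocus_comap_of_isLocalization c] at h2
  have h3 : PrimeSpectrum.comap (algebraMap R Rc) ⟨q.map (algebraMap R Rc), hpr⟩ =
      ⟨q, ‹_›⟩ := PrimeSpectrum.ext hcm
  have h4 : PrimeSpectrum.comap (algebraMap R Rc) ⟨q.map (algebraMap R Rc), hpr⟩ ∈
    smoothLocus A R := h2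
  rw [h3] at h4
  exact h4

end fibre

attribute [local instance] Polynomial.algebra Polynomial.isLocalization in
/-- Flatness over the affine line over a localisation. -/
theorem flat_of_localization {A A' M : Type} [CommRing A] [CommRing A'] [CommRing M]
    [Algebra A A'] (S : Submonoid A) [IsLocalization S A'] (c : A' →+* M) (t : M)
    (h : (Polynomial.eval₂RingHom (c.comp (algebraMap A A')) t).Flat) :
    (Polynomial.eval₂RingHom c t).Flat := by
  let _ : Algebra A'[X] M := (Polynomial.eval₂RingHom c t).toAlgebra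
  let _ : Algebra A[X] M := (Polynomial.eval₂RingHom (c.comp (algebraMap A A')) t).toAlgebra
  have hst : IsScalarTower A[X] A'[X] M := .of_algebraMap_eq' (by
    apply Polynomial.ringHom_ext
    · intro a
      simp [RingHom.algebraMap_toAlgebra]
    · simp [RingHom.algebraMap_toAlgebra])
  exact (Module.flat_iff_of_isLocalization A'[X] (S.map Polynomial.C) M).2 h

end Pool.Agent.MG.WL.LCEx
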