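import Pool.Agent.MG.WL.StmtsW
import Pool.Agent.MG.WL.Tools
import Pool.Agent.MG.WL.LCEa
import Pool.Agent.MG.SmNod

/-!
# Local coordinates at the section
-/

open CategoryTheory CategoryTheory.Limits AlgebraicGeometry TensorProduct

namespace Pool.Agent.MG.WL

open Pool.Agent.MG.GLU

namespace LCEx

section coefs

variable {A : Type} [CommRing A] {X : Scheme.{0}} (π : X ⟶ Sp A) {V : X.Opens}
  (hV : IsAffineOpen V)

include hV

theorem coef_flat [Flat π] : (coef π V).Flat :=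
  (HasRingHomProperty.Spec_iff (P := @Flat) (φ := CommRingCat.ofHom (coef π V))).1 (by
    show Flat (spMap (coef π V))
    rw [← NOD.fromSpec_coef π hV]
    infer_instance)

theorem coef_fp [LocallyOfFinitePresentation π] : (coef π V).FinitePresentation :=
  (HasRingHomProperty.Spec_iff (P := @LocallyOfFinitePresentation)
    (φ := CommRingCat.ofHom (coef π V))).1 (by
    show LocallyOfFinitePresentation (spMap (coef π V))
    rw [← NOD.fromSpec_coef π hV]
    infer_instance)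

theorem coef_smooth {U : X.Opens} (hU : Smooth (U.ι ≫ π)) (h : V ≤ U) : (coef π V).Smooth :=
  (HasRingHomProperty.Spec_iff (P := @Smooth) (φ := CommRingCat.ofHom (coef π V))).1 (by
    show Smooth (spMap (coef π V))
    rw [← NOD.fromSpec_coef π hV]
    have h1 : hV.fromSpec ≫ π = hV.isoSpec.inv ≫ X.homOfLE h ≫ U.ι ≫ π := by
      rw [X.homOfLE_ι_assoc]
      rfl
    rw [h1]
    infer_instance)

end coefs

section points

theorem mem_basicOpen_gm {A : Type} [CommRing A] {X : Scheme.{0}} (i : Sp A ⟶ X) (W : X.Opens)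
    (h : ⊤ ≤ i ⁻¹ᵁ W) (v : Γ(X, W)) (x : Sp A) :
    i x ∈ X.basicOpen v ↔ gm i W h v ∉ x.asIdeal := by
  have h1 : x ∈ i ⁻¹ᵁ (X.basicOpen v) ↔ x ∈ (Sp A).basicOpen (i.appLE W ⊤ h v) := by
    rw [Scheme.basicOpen_appLE, top_inf_eq]
  rw [basicOpen_eq_of_affine'] at h1
  exact h1

variable {A : Type} [CommRing A] {C : Fam 1 A} (V : C.X.Opens) (le : ⊤ ≤ (C.σ 0) ⁻¹ᵁ V)
  {B : Type} [CommRing B] {φ : A →+* B} {y : Fam 1 B} (a : Arrow φ y C)

include le

theorem le_pre : ⊤ ≤ (y.σ 0) ⁻¹ᵁ (a.f ⁻¹ᵁ V) := by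
  intro x _
  show a.f (y.σ 0 x) ∈ V
  rw [← Scheme.Hom.comp_apply, a.sec 0, Scheme.Hom.comp_apply]
  exact le (show spMap φ x ∈ (⊤ : (Sp A).Opens) from trivial)

theorem gm_pre (r : Γ(C.X, V)) : gm (y.σ 0) (a.f ⁻¹ᵁ V) (le_pre V le a)
    ((a.f.appLE V (a.f ⁻¹ᵁ V) le_rfl).hom r) = φ (gm (C.σ 0) V le r) :=
  gm_nat a.f (C.σ 0) (y.σ 0) φ (a.sec 0) V _ le _ le_rfl r

end points

section fibre

variable {A : Type} [CommRing A] {C : Fam 1 A} {V : C.X.Opens} (hV : IsAffineOpen V)
  (le : ⊤ ≤ (C.σ 0) ⁻¹ᵁ V)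

/-- Evaluation at the section. -/
noncomputable def secAlg :
    letI := (coef C.π V).toAlgebra
    Γ(C.X, V) →ₐ[A] A :=
  letI := (coef C.π V).toAlgebra
  { gm (C.σ 0) V le with
    commutes' := fun x => gm_coef (C.σ 0) C.π (RingHom.id A) (by
      rw [C.sec]
      exact (Spec.map_id _).symm) V le x }

include hV in
theorem exists_smooth {k : Type} [Field k] {ψ : A →+* k} {z : Fam 1 k} (a : Arrow ψ z C)
    (hz : StableCurve 1 z) :
    letI := ψ.toAlgebra
    letI := (coef C.π V).toAlgebra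
    ∃ h : k ⊗[A] Γ(C.X, V), ev (secAlg le) k h ≠ 0 ∧ Algebra.Smooth k (Localization.Away h) := by
  let _ : Algebra A k := ψ.toAlgebra
  let _ : Algebra A Γ(C.X, V) := (coef C.π V).toAlgebra
  obtain ⟨e, he⟩ := tp_affine a hV
  have hVz : IsAffineOpen (a.f ⁻¹ᵁ V) := pre_affine a hV
  let lez := le_pre V le a
  let pt : Sp k := IsLocalRing.closedPoint k
  obtain ⟨U, hU, hsm⟩ := hz.smooth 0 pt
  obtain ⟨h0, h1, h2⟩ := hVz.exists_basicOpen_le (V := U) ⟨z.σ 0 pt, hU⟩ (lez trivial)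
  have hev : ∀ w, gm (z.σ 0) (a.f ⁻¹ᵁ V) lez (e w) = ev (secAlg le) k w := by
    intro w
    induction w with
    | zero => rw [map_zero, map_zero, map_zero]
    | tmul b r =>
      rw [he, map_mul, ev_tmul]
      congr 1
      · exact gm_coef (z.σ 0) z.π (RingHom.id k) (by
          rw [z.sec]
          exact (Spec.map_id _).symm) _ lez b
      · exact gm_pre V le a r
    | add x y hx hy => rw [map_add, map_add, map_add, hx, hy]
  refine ⟨e.symm h0, ?_, ?_⟩
  · rw [← hev, RingEquiv.apply_symm_apply]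
    intro h3
    have h4 := (mem_basicOpen_gm (z.σ 0) (a.f ⁻¹ᵁ V) lez h0 pt).1 h2
    rw [h3] at h4
    exact h4 (Ideal.zero_mem _)
  · have h3 : (coef z.π (z.X.basicOpen h0)).Smooth :=
      coef_smooth z.π (hVz.basicOpen h0) hsm h1
    have h4 : IsLocalization.Away h0 Γ(z.X, z.X.basicOpen h0) := hVz.isLocalization_basicOpen h0
    let E : Localization.Away (e.symm h0) ≃+* Γ(z.X, z.X.basicOpen h0) :=
      IsLocalization.ringEquivOfRingEquiv (M := Submonoid.powers (e.symm h0))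
        (T := Submonoid.powers h0) _ _ e (by
          rw [Submonoid.map_powers]
          congr 1
          exact e.apply_symm_apply h0)
    let _ : Algebra k Γ(z.X, z.X.basicOpen h0) := (coef z.π (z.X.basicOpen h0)).toAlgebra
    have h5 : Algebra.Smooth k Γ(z.X, z.X.basicOpen h0) := h3
    let E' : Localization.Away (e.symm h0) ≃ₐ[k] Γ(z.X, z.X.basicOpen h0) :=
      AlgEquiv.ofRingEquiv (f := E) (fun c => by
        rw [IsScalarTower.algebraMap_apply k (k ⊗[A] Γ(C.X, V)),
          IsLocalization.ringEquivOfRingEquiv_eq, Algebra.TensorProduct.algebraMap_apply, he,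
          map_one, mul_one]
        exact coef_rs z.π _ c)
    exact .of_equiv E'.symm

/-- A smooth affine open set of a nodal curve has relative dimension one. -/
theorem relDim_one {k : Type} [Field k] {X : Scheme.{0}} (π : X ⟶ Sp k) (hnod : Nodal π)
    {W : X.Opens} (hW : IsAffineOpen W) {x : X} (hx : x ∈ W)
    (hss : (coef π W).IsStandardSmooth) : (coef π W).IsStandardSmoothOfRelativeDimension 1 := by
  obtain ⟨Y, f, h, hf, hh, hcomm, y, hy⟩ := hnod x
  have hyV : y ∈ f ⁻¹ᵁ W := by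
    show f y ∈ W
    rw [hy]; exact hx
  obtain ⟨_, ⟨W', hW', rfl⟩, hyW, hWV⟩ :=
    Y.isBasis_affineOpens.exists_subset_of_mem_open hyV (f ⁻¹ᵁ W).isOpen
  have hle : W' ≤ f ⁻¹ᵁ W := hWV
  have hWne : Nonempty W' := ⟨⟨y, hyW⟩⟩
  have hnt : Nontrivial Γ(Y, W') := inferInstance
  let _ : Algebra k Γ(X, W) := (coef π W).toAlgebra
  let _ : Algebra Γ(X, W) Γ(Y, W') := (f.appLE W W' hle).hom.toAlgebra
  let _ : Algebra k Γ(Y, W') := (coef (f ≫ π) W').toAlgebra
  have hst : IsScalarTower k Γ(X, W) Γ(Y, W') := .of_algebraMap_eq' (by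
    ext c
    exact (coef_comp π f W W' hle c).symm)
  have het : Algebra.Etale Γ(X, W) Γ(Y, W') := f.etale_appLE hW hW' hle
  have hss' : Algebra.IsStandardSmooth k Γ(X, W) := hss
  let β : NodeRing k →+* Γ(Y, W') := coef h W'
  have hβ : β.Etale := by
    have h1 : (h.appLE ⊤ W' (fun _ _ => trivial)).hom.Etale :=
      h.etale_appLE (isAffineOpen_top _) hW' _
    exact RingHom.Etale.respectsIso.2 (h.appLE ⊤ W' (fun _ _ => trivial)).hom
      (Scheme.ΓSpecIso (.of (NodeRing k))).symm.commRingCatIsoToRingEquiv h1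
  have hβK : ∀ c, β (algebraMap k (NodeRing k) c) = algebraMap k Γ(Y, W') c := by
    intro c
    show coef h W' (algebraMap k (NodeRing k) c) = coef (f ≫ π) W' c
    rw [hcomm, coef_spMap]
  exact SmNod.relDim β hβ hβK

theorem exists_geo (p : PrimeSpectrum A) (hC : IsStable 1 C) (hV : IsAffineOpen V) :
    ∃ t g : Γ(C.X, V), gm (C.σ 0) V le t = 0 ∧ gm (C.σ 0) V le g ∉ p.asIdeal ∧
      (∀ r, gm (C.σ 0) V le r = 0 → ∃ u, g * r = t * u) ∧
      (Polynomial.eval₂RingHom (coef C.π (C.X.basicOpen g))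
        (rs C.X (C.X.basicOpen_le g) t)).Flat := by
  let _ : Algebra A Γ(C.X, V) := (coef C.π V).toAlgebra
  have := hC.flat
  have := hC.fp
  have hfl : Module.Flat A Γ(C.X, V) := coef_flat C.π hV
  have hfp : Algebra.FinitePresentation A Γ(C.X, V) := coef_fp C.π hV
  let s : Γ(C.X, V) →ₐ[A] A := secAlg le
  let P : Ideal A := p.asIdeal
  have hP : P.IsPrime := p.isPrime
  let q : Ideal Γ(C.X, V) := P.comap s
  have hq : q.IsPrime := Ideal.IsPrime.comap _
  obtain ⟨k, _, _, _, hka⟩ : ∃ (k : Type) (_ : Field k) (_ : IsAlgClosed k)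
      (_ : Algebra P.ResidueField k), Algebra.IsAlgebraic P.ResidueField k :=
    ⟨AlgebraicClosure P.ResidueField, inferInstance, inferInstance, inferInstance, inferInstance⟩
  let ψ : A →+* k := (algebraMap P.ResidueField k).comp (algebraMap A P.ResidueField)
  let _ : Algebra A k := ψ.toAlgebra
  have hst : IsScalarTower A P.ResidueField k := .of_algebraMap_eq' rfl
  let z : Fam 1 k := PBS.bc ψ C
  let a : Arrow ψ z C := PBS.bcArrow ψ C
  have hz : StableCurve 1 z := hC.fib k ψ z ⟨a⟩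
  obtain ⟨h, hh, hsm⟩ := exists_smooth hV le a hz
  have hsq : Algebra.IsSmoothAt A q := isSmoothAt s P q rfl k h hh hsm
  obtain ⟨g0, hg0, hss⟩ := Algebra.IsSmoothAt.exists_notMem_isStandardSmooth A q
  -- the rank
  let W := C.X.basicOpen g0
  have hW : IsAffineOpen W := hV.basicOpen g0
  have hWl : IsLocalization.Away g0 Γ(C.X, W) := hV.isLocalization_basicOpen g0
  let _ : Algebra A Γ(C.X, W) := (coef C.π W).toAlgebra
  have hst2 : IsScalarTower A Γ(C.X, V) Γ(C.X, W) := .of_algebraMap_eq fun c =>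
    (coef_rs C.π (C.X.basicOpen_le g0) c).symm
  have hss2 : Algebra.IsStandardSmooth A Γ(C.X, W) :=
    .of_algEquiv ((IsLocalization.algEquiv (Submonoid.powers g0) (Localization.Away g0)
      Γ(C.X, W)).restrictScalars A)
  obtain ⟨e, he⟩ := tp_affine a hW
  let _ : Algebra k Γ(z.X, a.f ⁻¹ᵁ W) := (coef z.π (a.f ⁻¹ᵁ W)).toAlgebra
  let e' : k ⊗[A] Γ(C.X, W) ≃ₐ[k] Γ(z.X, a.f ⁻¹ᵁ W) := AlgEquiv.ofRingEquiv (f := e) (fun c => by
    rw [Algebra.TensorProduct.algebraMap_apply, he, map_one, mul_one]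
    rfl)
  have hss3 : Algebra.IsStandardSmooth k Γ(z.X, a.f ⁻¹ᵁ W) := .of_algEquiv e'
  let pt : Sp k := IsLocalRing.closedPoint k
  have hpt : z.σ 0 pt ∈ a.f ⁻¹ᵁ W := by
    show a.f (z.σ 0 pt) ∈ C.X.basicOpen g0
    rw [← Scheme.Hom.comp_apply, a.sec 0, Scheme.Hom.comp_apply,
      mem_basicOpen_gm (C.σ 0) V le g0]
    intro h1
    have h2 : ψ (gm (C.σ 0) V le g0) ∈ IsLocalRing.maximalIdeal k := h1
    rw [IsLocalRing.mem_maximalIdeal, mem_nonunits_iff, isUnit_iff_ne_zero, not_not] at h2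
    have h3 : algebraMap A P.ResidueField (gm (C.σ 0) V le g0) = 0 :=
      (algebraMap P.ResidueField k).injective (by rw [map_zero]; exact h2)
    have h4 : gm (C.σ 0) V le g0 ∈ P := Ideal.algebraMap_residueField_eq_zero.1 h3
    exact hg0 h4
  have hrd : Algebra.IsStandardSmoothOfRelativeDimension 1 k Γ(z.X, a.f ⁻¹ᵁ W) :=
    relDim_one z.π hz.nodal (pre_affine a hW) hpt hss3
  have hne : Nonempty (a.f ⁻¹ᵁ W : z.X.Opens) := ⟨⟨_, hpt⟩⟩
  have hnt : Nontrivial Γ(z.X, a.f ⁻¹ᵁ W) := inferInstance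
  obtain ⟨t, g, ht, hg, hmul, hflat⟩ := exists_coord s q
    (fun x hx => by
      show s x ∈ P
      rw [show s x = 0 from hx]
      exact P.zero_mem)
    (unique_of_relDim q k g0 hg0 Γ(C.X, W) Γ(z.X, a.f ⁻¹ᵁ W) e'.symm)
  refine ⟨t, g, ht, hg, hmul, ?_⟩
  have hgl : IsLocalization.Away g Γ(C.X, C.X.basicOpen g) := hV.isLocalization_basicOpen g
  let E : Localization.Away g ≃ₐ[Γ(C.X, V)] Γ(C.X, C.X.basicOpen g) :=
    IsLocalization.algEquiv (Submonoid.powers g) _ _
  have hE : (E : Localization.Away g →+* Γ(C.X, C.X.basicOpen g)).Flat :=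
    RingHom.Flat.of_bijective E.bijective
  have h1 := hflat.comp hE
  have h2 : (Polynomial.eval₂RingHom (coef C.π (C.X.basicOpen g))
        (rs C.X (C.X.basicOpen_le g) t)) = (E : Localization.Away g →+* Γ(C.X, C.X.basicOpen g)).comp
        ((algebraMap Γ(C.X, V) (Localization.Away g)).comp
          (Polynomial.aeval t : Polynomial A →ₐ[A] Γ(C.X, V)).toRingHom) := by
    apply Polynomial.ringHom_ext
    · intro c
      rw [Polynomial.coe_eval₂RingHom, Polynomial.eval₂_C]
      show _ = E (algebraMap _ _ (Polynomial.aeval t (Polynomial.C c)))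
      rw [Polynomial.aeval_C, AlgEquiv.commutes]
      exact (coef_rs C.π (C.X.basicOpen_le g) c).symm
    · rw [Polynomial.coe_eval₂RingHom, Polynomial.eval₂_X]
      show _ = E (algebraMap _ _ (Polynomial.aeval t Polynomial.X))
      rw [Polynomial.aeval_X, AlgEquiv.commutes]
      rfl
  rw [h2]
  exact h1

end fibre

section final

variable {A : Type} [CommRing A] {C : Fam 1 A} {V : C.X.Opens} (hV : IsAffineOpen V)
  (le : ⊤ ≤ (C.σ 0) ⁻¹ᵁ V) (t g : Γ(C.X, V)) (ht : gm (C.σ 0) V le t = 0)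
  (hmul : ∀ r, gm (C.σ 0) V le r = 0 → ∃ u, g * r = t * u)
  {B : Type} [CommRing B] {φ : A →+* B} {y : Fam 1 B} (b : Arrow φ y C)

include hV hmul in
theorem dvd_of_gm (r : Γ(y.X, b.f ⁻¹ᵁ V))
    (hr : gm (y.σ 0) (b.f ⁻¹ᵁ V) (le_pre V le b) r = 0) :
    (b.f.appLE V (b.f ⁻¹ᵁ V) le_rfl).hom t ∣ (b.f.appLE V (b.f ⁻¹ᵁ V) le_rfl).hom g * r := by
  let α := (b.f.appLE V (b.f ⁻¹ᵁ V) le_rfl).hom
  let _ : Algebra A B := φ.toAlgebra
  let _ : Algebra A Γ(C.X, V) := (coef C.π V).toAlgebra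
  obtain ⟨e, he⟩ := tp_affine b hV
  let s : Γ(C.X, V) →ₐ[A] A := secAlg le
  let J : Ideal (B ⊗[A] Γ(C.X, V)) :=
    { carrier := {w | α t ∣ α g * e w}
      add_mem' := fun {x y} hx hy => by
        show α t ∣ α g * e (x + y)
        rw [map_add, mul_add]
        exact dvd_add hx hy
      zero_mem' := by
        show α t ∣ α g * e 0
        rw [map_zero, mul_zero]
        exact dvd_zero _
      smul_mem' := fun c x hx => by
        show α t ∣ α g * e (c * x)
        rw [map_mul, mul_left_comm]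
        exact Dvd.dvd.mul_left hx _ }
  have hev : ∀ w, gm (y.σ 0) (b.f ⁻¹ᵁ V) (le_pre V le b) (e w) = ev s B w := by
    intro w
    induction w with
    | zero => rw [map_zero, map_zero, map_zero]
    | tmul c r =>
      rw [he, map_mul, ev_tmul]
      congr 1
      · exact gm_coef (y.σ 0) y.π (RingHom.id B) (by
          rw [y.sec]
          exact (Spec.map_id _).symm) _ _ c
      · exact gm_pre V le b r
    | add x y hx hy => rw [map_add, map_add, map_add, hx, hy]
  have h1 := mem_of_ev s B J (fun r hr => by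
    show α t ∣ α g * e (1 ⊗ₜ r)
    rw [he, map_one, one_mul]
    obtain ⟨u, hu⟩ := hmul r hr
    refine ⟨α u, ?_⟩
    show α g * α r = α t * α u
    rw [← map_mul, hu, map_mul]) (e.symm r)
  rw [← hev, RingEquiv.apply_symm_apply, hr, TensorProduct.zero_tmul, sub_zero] at h1
  have h2 : α t ∣ α g * e (e.symm r) := h1
  rwa [RingEquiv.apply_symm_apply] at h2

theorem gm_res {X : Scheme.{0}} (i : Sp B ⟶ X) {W W' : X.Opens} (hW : W' ≤ W)
    (h : ⊤ ≤ i ⁻¹ᵁ W) (h' : ⊤ ≤ i ⁻¹ᵁ W') (v : Γ(X, W)) :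
    gm i W' h' (rs X hW v) = gm i W h v :=
  gm_rs i (RingHom.id B) i (by
    have : spMap (RingHom.id B) = 𝟙 _ := Spec.map_id _
    rw [this, Category.id_comp]) hW h h' v

include hV ht hmul b in
theorem exists_lc (hy : IsStable 1 y)
    (hflat : (Polynomial.eval₂RingHom (coef C.π (C.X.basicOpen g))
        (rs C.X (C.X.basicOpen_le g) t)).Flat)
    (hloc : letI := φ.toAlgebra; IsLocalization.Away (gm (C.σ 0) V le g) B) :
    Nonempty (LC y) := by
  let _ : Algebra A B := φ.toAlgebra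
  have hloc' : IsLocalization.Away (gm (C.σ 0) V le g) B := hloc
  let α : Γ(C.X, V) →+* Γ(y.X, b.f ⁻¹ᵁ V) := (b.f.appLE V (b.f ⁻¹ᵁ V) le_rfl).hom
  have hV' : IsAffineOpen (b.f ⁻¹ᵁ V) := pre_affine b hV
  let le' := le_pre V le b
  have hα : ∀ r, gm (y.σ 0) (b.f ⁻¹ᵁ V) le' (α r) = φ (gm (C.σ 0) V le r) := gm_pre V le b
  let W : y.X.Opens := y.X.basicOpen (α g)
  have hW : IsAffineOpen W := hV'.basicOpen (α g)
  have hWl : IsLocalization.Away (α g) Γ(y.X, W) := hV'.isLocalization_basicOpen (α g)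
  have hWle : W ≤ b.f ⁻¹ᵁ V := y.X.basicOpen_le _
  have hu : IsUnit (gm (y.σ 0) (b.f ⁻¹ᵁ V) le' (α g)) := by
    rw [hα]
    exact IsLocalization.Away.algebraMap_isUnit (gm (C.σ 0) V le g)
  have leW : ⊤ ≤ (y.σ 0) ⁻¹ᵁ W := by
    intro x _
    show y.σ 0 x ∈ y.X.basicOpen (α g)
    rw [mem_basicOpen_gm (y.σ 0) (b.f ⁻¹ᵁ V) le']
    intro h1
    exact x.isPrime.ne_top (Ideal.eq_top_of_isUnit_mem _ h1 hu)
  let tW : Γ(y.X, W) := rs y.X hWle (α t)
  have hgm : ∀ v, gm (y.σ 0) W leW (rs y.X hWle v) = gm (y.σ 0) (b.f ⁻¹ᵁ V) le' v :=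
    gm_res (y.σ 0) hWle le' leW
  have htW : gm (y.σ 0) W leW tW = 0 := by
    rw [hgm, hα, ht, map_zero]
  have hker : ∀ r : Γ(y.X, W), gm (y.σ 0) W leW r = 0 ↔ ∃ s, r = tW * s := by
    intro r
    constructor
    · intro hr
      obtain ⟨n, r', hr'⟩ := IsLocalization.Away.surj (α g) r
      have h1 : gm (y.σ 0) (b.f ⁻¹ᵁ V) le' r' = 0 := by
        rw [← hgm]
        have h2 : rs y.X hWle r' = r * algebraMap _ Γ(y.X, W) (α g) ^ n := hr'.symm
        rw [h2, map_mul, hr, zero_mul]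
      obtain ⟨u, hu'⟩ := dvd_of_gm hV le t g hmul b r' h1
      have h3 : IsUnit (algebraMap _ Γ(y.X, W) (α g) ^ (n + 1)) :=
        (IsLocalization.Away.algebraMap_isUnit (α g)).pow _
      obtain ⟨w, hw⟩ := h3.exists_right_inv
      refine ⟨rs y.X hWle u * w, ?_⟩
      have h4 : algebraMap _ Γ(y.X, W) (α g) * rs y.X hWle r' = tW * rs y.X hWle u := by
        show rs y.X hWle (α g) * rs y.X hWle r' = rs y.X hWle (α t) * rs y.X hWle u
        rw [← map_mul, ← map_mul]
        exact congrArg _ hu'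
      have h5 : rs y.X hWle r' = r * algebraMap _ Γ(y.X, W) (α g) ^ n := hr'.symm
      calc r = r * (algebraMap _ Γ(y.X, W) (α g) ^ (n + 1) * w) := by rw [hw, mul_one]
        _ = (algebraMap _ Γ(y.X, W) (α g) * (r * algebraMap _ Γ(y.X, W) (α g) ^ n)) * w := by
          ring
        _ = tW * (rs y.X hWle u * w) := by rw [← h5, h4]; ring
    · rintro ⟨s, rfl⟩
      rw [map_mul, htW, zero_mul]
  have hprop := hy.proper
  have hsep : IsSeparated y.π := inferInstance
  have hcl : IsClosedImmersion (y.σ 0) := by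
    have h1 : IsClosedImmersion (y.σ 0 ≫ y.π) := by
      rw [y.sec]
      infer_instance
    exact IsClosedImmersion.of_comp (y.σ 0) y.π
  have hclosed : IsClosed (Set.range (y.σ 0)) := (y.σ 0).isClosedEmbedding.isClosed_range
  have hsurj : Function.Surjective (gm (y.σ 0) W leW) := by
    intro c
    refine ⟨coef y.π W c, ?_⟩
    exact gm_coef (y.σ 0) y.π (RingHom.id B) (by
      rw [y.sec]
      exact (Spec.map_id _).symm) W leW c
  have hflatW : (Polynomial.eval₂RingHom (coef y.π W) tW).Flat := by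
    apply flat_of_localization (A := A) (Submonoid.powers (gm (C.σ 0) V le g))
    have hfl : Flat b.f := by
      have h1 : Flat (spMap φ) := Flat.SpecMap_iff.2
        (IsLocalization.flat B (Submonoid.powers (gm (C.σ 0) V le g)))
      exact MorphismProperty.of_isPullback (P := @Flat) b.cart.flip h1
    have hle : W ≤ b.f ⁻¹ᵁ (C.X.basicOpen g) := by
      have h1 := Scheme.basicOpen_appLE b.f (b.f ⁻¹ᵁ V) V le_rfl g
      have h2 : W = b.f ⁻¹ᵁ V ⊓ b.f ⁻¹ᵁ (C.X.basicOpen g) := h1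
      rw [h2]
      exact inf_le_right
    have h1 : (b.f.appLE (C.X.basicOpen g) W hle).hom.Flat :=
      b.f.flat_appLE (hV.basicOpen g) hW hle
    have h2 := hflat.comp h1
    have h3 : (Polynomial.eval₂RingHom ((coef y.π W).comp (algebraMap A B)) tW) =
        (b.f.appLE (C.X.basicOpen g) W hle).hom.comp
          (Polynomial.eval₂RingHom (coef C.π (C.X.basicOpen g))
            (rs C.X (C.X.basicOpen_le g) t)) := by
      apply Polynomial.ringHom_ext
      · intro c
        rw [RingHom.comp_apply, Polynomial.coe_eval₂RingHom, Polynomial.coe_eval₂RingHom,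
          Polynomial.eval₂_C, Polynomial.eval₂_C, coef_comp, b.cart.w, coef_spMap]
        rfl
      · rw [RingHom.comp_apply, Polynomial.coe_eval₂RingHom, Polynomial.coe_eval₂RingHom,
          Polynomial.eval₂_X, Polynomial.eval₂_X]
        show ((b.f.appLE V (b.f ⁻¹ᵁ V) le_rfl) ≫ y.X.presheaf.map (homOfLE hWle).op) t =
          (C.X.presheaf.map (homOfLE (C.X.basicOpen_le g)).op ≫
            b.f.appLE (C.X.basicOpen g) W hle) t
        rw [Scheme.Hom.map_appLE, Scheme.Hom.appLE_map]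
    rw [h3]
    exact h2
  refine ⟨{ U := ⟨(Set.range (y.σ 0))ᶜ, hclosed.isOpen_compl⟩
            mU := fun z => Iff.rfl
            V := W
            aff := hW
            le := leW
            t := tW
            bas := ?_
            ker := hker
            flat := hflatW }⟩
  ext z
  constructor
  · intro hz
    refine ⟨?_, y.X.basicOpen_le _ hz⟩
    rintro ⟨x, rfl⟩
    have h1 := (mem_basicOpen_gm (y.σ 0) W leW tW x).1 hz
    rw [htW] at h1
    exact h1 (Ideal.zero_mem _)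
  · rintro ⟨hz, hzW⟩
    by_contra h1
    apply hz
    obtain ⟨Q, rfl⟩ : z ∈ Set.range hW.fromSpec := by
      rw [hW.range_fromSpec]
      exact hzW
    have h2 : tW ∈ Q.asIdeal := by
      by_contra h3
      apply h1
      have h4 : Q ∈ hW.fromSpec ⁻¹ᵁ (y.X.basicOpen tW) := by
        rw [hW.fromSpec_preimage_basicOpen]
        exact h3
      exact h4
    have h3 : Q ∈ Set.range (PrimeSpectrum.comap (gm (y.σ 0) W leW)) := by
      rw [range_comap_of_surjective _ _ hsurj]
      intro r hr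
      obtain ⟨s, rfl⟩ := (hker r).1 hr
      exact Q.asIdeal.mul_mem_right _ h2
    obtain ⟨x, rfl⟩ := h3
    refine ⟨x, ?_⟩
    conv_lhs => rw [eq_fromSpec (y.σ 0) W hW leW]
    exact Scheme.Hom.comp_apply _ _ _

end final

section fibre

end fibre

/-- Local coordinates exist near `p` if the section is contained in the affine open set `V`. -/
theorem exists_lc_near {A : Type} [CommRing A] {C : Fam 1 A} {V : C.X.Opens}
    (hV : IsAffineOpen V) (le : ⊤ ≤ (C.σ 0) ⁻¹ᵁ V) (p : PrimeSpectrum A) (hC : IsStable 1 C) :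
    ∃ f : A, f ∉ p.asIdeal ∧
      Nonempty (LC (PBS.bc (algebraMap A (Localization.Away f)) C)) := by
  obtain ⟨t, g, ht, hg, hmul, hflat⟩ := exists_geo le p hC hV
  refine ⟨gm (C.σ 0) V le g, hg, ?_⟩
  refine exists_lc hV le t g ht hmul (PBS.bcArrow _ C) (PBS.bc_stable _ C hC) hflat ?_
  have h1 : (algebraMap A (Localization.Away (gm (C.σ 0) V le g))).toAlgebra =
      (inferInstance : Algebra A (Localization.Away (gm (C.σ 0) V le g))) := by
    apply Algebra.algebra_ext
    intro r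
    rfl
  rw [h1]
  infer_instance

end LCEx

open LCEx in
theorem t_LCE (hB : Stmt_LCB) : Stmt_LCE := by
  intro A _ _ C hC p
  -- an affine neighbourhood of the point of the section over `p`
  obtain ⟨_, ⟨V, hV, rfl⟩, hpV, -⟩ :=
    C.X.isBasis_affineOpens.exists_subset_of_mem_open (Set.mem_univ (C.σ 0 p)) isOpen_univ
  obtain ⟨_, ⟨_, ⟨f1, rfl⟩, rfl⟩, hpf, hfV⟩ :=
    PrimeSpectrum.isBasis_basic_opens.exists_subset_of_mem_open
      (show p ∈ ((C.σ 0) ⁻¹ᵁ V : (Sp A).Opens) from hpV) ((C.σ 0) ⁻¹ᵁ V).isOpen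
  let B := Localization.Away f1
  let φ : A →+* B := algebraMap A B
  let C1 : Fam 1 B := PBS.bc φ C
  let a1 : Arrow φ C1 C := PBS.bcArrow φ C
  have hC1 : IsStable 1 C1 := PBS.bc_stable φ C hC
  have hV1 : IsAffineOpen (a1.f ⁻¹ᵁ V) := pre_affine a1 hV
  have le1 : ⊤ ≤ (C1.σ 0) ⁻¹ᵁ (a1.f ⁻¹ᵁ V) := by
    intro x _
    show a1.f (C1.σ 0 x) ∈ V
    rw [← Scheme.Hom.comp_apply, a1.sec 0, Scheme.Hom.comp_apply]
    apply hfV
    show f1 ∉ (spMap φ x).asIdeal
    intro h1
    exact x.isPrime.ne_top (Ideal.eq_top_of_isUnit_mem _ h1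
      (IsLocalization.Away.algebraMap_isUnit f1))
  -- the prime ideal
  obtain ⟨p1, hp1⟩ : p ∈ Set.range (PrimeSpectrum.comap φ) := by
    rw [PrimeSpectrum.localization_away_comap_range B f1]
    exact hpf
  obtain ⟨g, hg, ⟨L⟩⟩ := exists_lc_near hV1 le1 p1 hC1
  -- clear denominators
  obtain ⟨n, g', hg'⟩ := IsLocalization.Away.surj f1 g
  let f : A := f1 * g'
  have hf : f ∉ p.asIdeal := by
    intro h1
    rcases p.isPrime.mem_or_mem h1 with h2 | h2
    · exact hpf h2
    · rw [← hp1] at h2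
      have h3 : φ g' ∈ p1.asIdeal := h2
      rw [← hg'] at h3
      rcases p1.isPrime.mem_or_mem h3 with h4 | h4
      · exact hg h4
      · exact p1.isPrime.ne_top (Ideal.eq_top_of_isUnit_mem _ h4
          ((IsLocalization.Away.algebraMap_isUnit f1).pow n))
  refine ⟨f, hf, ?_⟩
  let D := Localization.Away f
  have hfu : IsUnit (algebraMap A D f) := IsLocalization.Away.algebraMap_isUnit f
  have hf1 : IsUnit (algebraMap A D f1) := by
    rw [map_mul] at hfu
    exact isUnit_of_mul_isUnit_left hfu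
  have hg1 : IsUnit (algebraMap A D g') := by
    rw [map_mul] at hfu
    exact isUnit_of_mul_isUnit_right hfu
  let u1 : B →+* D := IsLocalization.Away.lift f1 hf1
  have hu1 : u1.comp φ = algebraMap A D := IsLocalization.Away.lift_comp f1 hf1
  have hgu : IsUnit (u1 g) := by
    have h1 : u1 (g * algebraMap A B f1 ^ n) = algebraMap A D g' := by
      rw [hg']
      exact RingHom.congr_fun hu1 g'
    rw [map_mul] at h1
    rw [← h1] at hg1
    exact isUnit_of_mul_isUnit_left hg1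
  let u2 : Localization.Away g →+* D := IsLocalization.Away.lift g hgu
  have hu2 : u2.comp (algebraMap B (Localization.Away g)) = u1 := IsLocalization.Away.lift_comp g hgu
  let a2 : Arrow (algebraMap B (Localization.Away g)) (PBS.bc (algebraMap B (Localization.Away g)) C1)
    C1 := PBS.bcArrow _ C1
  let a12 : Arrow ((algebraMap B (Localization.Away g)).comp φ)
    (PBS.bc (algebraMap B (Localization.Away g)) C1) C := PBS.comp a2 a1
  have hu3 : u2.comp ((algebraMap B (Localization.Away g)).comp φ) = algebraMap A D := by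
    rw [← RingHom.comp_assoc, hu2, hu1]
  let z : Fam 1 D := PBS.bc (algebraMap A D) C
  have hz : Nonempty (Arrow (u2.comp ((algebraMap B (Localization.Away g)).comp φ)) z C) := by
    rw [hu3]
    exact ⟨PBS.bcArrow _ C⟩
  obtain ⟨e⟩ := hz
  obtain ⟨L', -⟩ := hB (arrowLift e a12) L
  exact ⟨L'⟩

end Pool.Agent.MG.WL
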