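import Pool.Agent.MG.WL.StmtsW
import Pool.Agent.MG.WL.Tools

/-!
# LFB: functions with prescribed poles over local rings with nice covers
-/

open CategoryTheory CategoryTheory.Limits AlgebraicGeometry TensorProduct TopologicalSpace

namespace Pool.Agent.MG.WL

open Pool.Agent.MG.W Pool.Agent.MG.One Pool.Agent.MG.GLU

namespace LFB

/-- Nakayama's lemma for a quotient. -/
theorem nak {B M : Type} [CommRing B] [IsLocalRing B] [AddCommGroup M] [Module B M]
    (T : Submodule B M) {m : ℕ} (e : Fin m → M)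
    (h1 : ∀ s : M, ∃ c : Fin m → B, s - ∑ j, c j • e j ∈ T)
    (h2 : ∀ s : M, ∃ (m' : ℕ) (c : Fin m' → B) (_ : ∀ j, c j ∈ IsLocalRing.maximalIdeal B)
      (e' : Fin m' → M), s - ∑ j, c j • e' j ∈ T) (s : M) : s ∈ T := by
  have hfg : (⊤ : Submodule B (M ⧸ T)).FG := by
    have h3 : Submodule.span B (Set.range fun j => T.mkQ (e j)) = ⊤ := by
      rw [eq_top_iff]
      intro x _
      obtain ⟨x, rfl⟩ := T.mkQ_surjective x
      obtain ⟨c, hc⟩ := h1 x
      have h4 : T.mkQ x = ∑ j, c j • T.mkQ (e j) := by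
        have h5 : T.mkQ (x - ∑ j, c j • e j) = 0 := (Submodule.Quotient.mk_eq_zero T).2 hc
        rw [map_sub, sub_eq_zero] at h5
        rw [h5, map_sum]
        exact Finset.sum_congr rfl fun j _ => map_smul _ _ _
      rw [h4]
      exact Submodule.sum_mem _ fun j _ =>
        Submodule.smul_mem _ _ (Submodule.subset_span ⟨j, rfl⟩)
    rw [← h3]
    exact Submodule.fg_span (Set.finite_range _)
  have hle : (⊤ : Submodule B (M ⧸ T)) ≤ IsLocalRing.maximalIdeal B • ⊤ := by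
    intro x _
    obtain ⟨x, rfl⟩ := T.mkQ_surjective x
    obtain ⟨m', c, hc, e', h5⟩ := h2 x
    have h4 : T.mkQ x = ∑ j, c j • T.mkQ (e' j) := by
      have h6 : T.mkQ (x - ∑ j, c j • e' j) = 0 := (Submodule.Quotient.mk_eq_zero T).2 h5
      rw [map_sub, sub_eq_zero] at h6
      rw [h6, map_sum]
      exact Finset.sum_congr rfl fun j _ => map_smul _ _ _
    rw [h4]
    exact Submodule.sum_mem _ fun j _ =>
      Submodule.smul_mem_smul (hc j) Submodule.mem_top
  have hbot := Submodule.eq_bot_of_le_smul_of_le_jacobson_bot (IsLocalRing.maximalIdeal B) ⊤ hfg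
    hle (IsLocalRing.maximalIdeal_le_jacobson ⊥)
  have h6 : T.mkQ s ∈ (⊤ : Submodule B (M ⧸ T)) := Submodule.mem_top
  rw [hbot, Submodule.mem_bot] at h6
  exact (Submodule.Quotient.mk_eq_zero T).1 h6

section

variable {X : Scheme.{0}}

theorem rr {U V W : X.Opens} (h : U ≤ V) (k : V ≤ W) (a : Γ(X, W)) :
    rs X h (rs X k a) = rs X (h.trans k) a := by
  change ((X.presheaf.map (homOfLE k).op ≫ X.presheaf.map (homOfLE h).op).hom) a = _
  rw [← X.presheaf.map_comp]
  rfl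

theorem unit_res {U O : X.Opens} (f : Γ(X, U)) (h : O ≤ U) (hO : O ≤ X.basicOpen f) :
    IsUnit (rs X h f) := by
  have h1 : IsUnit (rs X (X.basicOpen_le f) f) := RingedSpace.isUnit_res_basicOpen _ f
  have h2 := h1.map (rs X hO)
  rwa [rr] at h2

/-- Gluing of functions on a star shaped cover. -/
theorem glue_star {ι : Type} {T W : X.Opens} (E : ι → X.Opens) (hW : W ≤ T) (hE : ∀ i, E i ≤ T)
    (cov : ∀ x ∈ T, x ∈ W ∨ ∃ i, x ∈ E i) (dis : ∀ i j, i ≠ j → E i ⊓ E j ≤ W)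
    (r : Γ(X, W)) (q : ∀ i, Γ(X, E i))
    (h : ∀ i, rs X (inf_le_left : W ⊓ E i ≤ W) r = rs X inf_le_right (q i)) :
    ∃ c : Γ(X, T), rs X hW c = r ∧ ∀ i, rs X (hE i) c = q i := by
  let F : Option ι → X.Opens := fun o => match o with
    | none => W
    | some i => E i
  let sf : ∀ o, Γ(X, F o) := fun o => match o with
    | none => r
    | some i => q i
  have hF : ∀ o, F o ≤ T := fun o => match o with
    | none => hW
    | some i => hE i
  have k1 : ∀ (i : ι) (Z : X.Opens) (z1 : Z ≤ W) (z2 : Z ≤ E i), rs X z1 r = rs X z2 (q i) := by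
    intro i Z z1 z2
    have h1 := congrArg (rs X (le_inf z1 z2)) (h i)
    rwa [rr, rr] at h1
  have key : ∀ (a b : Option ι) (Z : X.Opens) (z1 : Z ≤ F a) (z2 : Z ≤ F b),
      rs X z1 (sf a) = rs X z2 (sf b) := by
    intro a b Z z1 z2
    rcases a with _ | i <;> rcases b with _ | j
    · rfl
    · exact k1 j Z z1 z2
    · exact (k1 i Z z2 z1).symm
    · by_cases hij : i = j
      · subst hij
        rfl
      · have z3 : Z ≤ W := (le_inf z1 z2).trans (dis i j hij)
        exact (k1 i Z z3 z1).symm.trans (k1 j Z z3 z2)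
  obtain ⟨c, hc, -⟩ := X.sheaf.existsUnique_gluing' F T (fun o => homOfLE (hF o))
    (by
      intro x hx
      rw [Opens.mem_iSup]
      rcases cov x hx with h1 | ⟨i, h1⟩
      · exact ⟨none, h1⟩
      · exact ⟨some i, h1⟩)
    sf (fun a b => key a b _ _ _)
  exact ⟨c, hc none, fun i => hc (some i)⟩

end

section

variable {B : Type} [CommRing B] {y : Fam 1 B} {L : LC y} (N : NC L)

theorem tr_add {s s' : ∀ i, Γ(y.X, N.W ⊓ N.V i)} (h : N.Tr s) (h' : N.Tr s') : N.Tr (s + s') := by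
  obtain ⟨r, q, h1, h2⟩ := h
  obtain ⟨r', q', h1', h2'⟩ := h'
  refine ⟨r + r', fun i => q i + q' i, fun i hi => ?_, ?_⟩
  · rw [Pi.add_apply, h1 i hi, h1' i hi, map_add, map_add]
    ring
  · rw [Pi.add_apply, map_add, map_add, ← h2, ← h2']
    ring

theorem tr_zero : N.Tr (0 : ∀ i, Γ(y.X, N.W ⊓ N.V i)) :=
  ⟨0, fun _ => 0, fun i _ => by simp, by simp⟩

theorem tr_smul (b : B) {s : ∀ i, Γ(y.X, N.W ⊓ N.V i)} (h : N.Tr s) :
    N.Tr (fun i => coef y.π _ b * s i) := by
  obtain ⟨r, q, h1, h2⟩ := h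
  refine ⟨coef y.π _ b * r, fun i => coef y.π _ b * q i, fun i hi => ?_, ?_⟩
  · beta_reduce
    rw [h1 i hi, map_mul, map_mul, coef_rs, coef_rs]
    ring
  · beta_reduce
    rw [map_mul, map_mul, coef_rs, coef_rs, ← h2]
    ring

theorem tr_rq (r : Γ(y.X, N.W)) (q : ∀ i, Γ(y.X, N.V i)) :
    N.Tr (fun i => rs y.X inf_le_left r + rs y.X inf_le_right (q i)) := by
  refine ⟨r, Function.update q N.i₀ (rs y.X N.le₀ L.t * q N.i₀), fun i hi => ?_, ?_⟩
  · rw [Function.update_of_ne hi]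
  · rw [Function.update_self, map_mul, rr]
    ring

/-- All families are trivial up to a simple pole. -/
theorem tr_all [IsLocalRing B] [Algebra ℂ B] (hFG : Stmt_FG) (hVAN : Stmt_VAN)
    (hy : IsStable 1 y) (s : ∀ i, Γ(y.X, N.W ⊓ N.V i)) : N.Tr s := by
  let _ : ∀ i, Module B Γ(y.X, N.W ⊓ N.V i) := fun i =>
    Module.compHom Γ(y.X, N.W ⊓ N.V i) (coef y.π (N.W ⊓ N.V i))
  have hsm : ∀ (b : B) (e : ∀ i, Γ(y.X, N.W ⊓ N.V i)) (i : N.ι),
      (b • e) i = coef y.π _ b * e i := fun b e i => rfl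
  let T : Submodule B (∀ i, Γ(y.X, N.W ⊓ N.V i)) :=
    { carrier := {s | N.Tr s}
      add_mem' := fun h h' => tr_add N h h'
      zero_mem' := tr_zero N
      smul_mem' := fun b s h => tr_smul N b h }
  obtain ⟨m, e, he⟩ := hFG B y hy L N
  refine nak T e (fun s => ?_) (fun s => ?_) s
  · obtain ⟨c, r, q, h⟩ := he s
    refine ⟨c, ?_⟩
    have h1 : s - ∑ j, c j • e j = fun i => rs y.X inf_le_left r + rs y.X inf_le_right (q i) := by
      funext i
      rw [Pi.sub_apply, Finset.sum_apply, h i]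
      simp only [hsm]
      ring
    rw [h1]
    exact tr_rq N r q
  · obtain ⟨m', c, hc, e', h⟩ := hVAN B y hy L N s
    refine ⟨m', c, hc, e', ?_⟩
    have h1 : s - ∑ j, c j • e' j = fun i => s i - ∑ j, coef y.π _ (c j) * e' j i := by
      funext i
      rw [Pi.sub_apply, Finset.sum_apply]
      simp only [hsm]
    rw [h1]
    exact h

theorem unit_t (L : LC y) {O : y.X.Opens} (h1 : O ≤ L.U) (h2 : O ≤ L.V) :
    IsUnit (rs y.X h2 L.t) :=
  unit_res L.t h2 (by rw [L.bas]; exact le_inf h1 h2)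

/-- The complement of the section and `V i₀` cover `L.V`. -/
theorem cov_V (x : y.X) : x ∈ L.U ∨ x ∈ N.V N.i₀ := by
  by_cases hx : x ∈ L.U
  · exact Or.inl hx
  · right
    have h1 : x ∈ Set.range (y.σ 0) := by
      by_contra h2
      exact hx ((L.mU x).2 h2)
    obtain ⟨z, rfl⟩ := h1
    exact N.sec (Opens.mem_top z)

include N in
theorem main [IsLocalRing B] [Algebra ℂ B] (hFG : Stmt_FG) (hVAN : Stmt_VAN)
    (hy : IsStable 1 y) (k : ℕ) : ∃ X : Γ(y.X, L.U), L.Pole (k + 2) 1 X := by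
  -- the inverse of the coordinate on `V i₀ ∩ U`
  have hOV : N.V N.i₀ ⊓ L.U ≤ L.V := inf_le_left.trans N.le₀
  obtain ⟨τ, hτ⟩ := (unit_t L (inf_le_right : N.V N.i₀ ⊓ L.U ≤ L.U) hOV).exists_right_inv
  have hWV : N.W ⊓ N.V N.i₀ ≤ N.V N.i₀ ⊓ L.U := le_inf inf_le_right (inf_le_left.trans N.leW)
  obtain ⟨r, q, h1, h2⟩ := tr_all N hFG hVAN hy
    (Function.update (0 : ∀ i, Γ(y.X, N.W ⊓ N.V i)) N.i₀ (rs y.X hWV (τ ^ (k + 2))))
  rw [Function.update_self] at h2
  -- the functions on the pieces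
  let E : N.ι → y.X.Opens := fun i => N.V i ⊓ L.U
  let Q : ∀ i, Γ(y.X, E i) := Function.update (fun i => - rs y.X inf_le_left (q i)) N.i₀
    (τ ^ (k + 2) - τ * rs y.X inf_le_left (q N.i₀))
  obtain ⟨X, hXW, hXE⟩ := glue_star (T := L.U) (W := N.W) E N.leW (fun i => inf_le_right)
    (fun x hx => by
      rcases N.cov x with h | ⟨i, h⟩
      · exact Or.inl h
      · exact Or.inr ⟨i, h, hx⟩)
    (fun i j hij x hx => N.dis i j hij ⟨hx.1.1, hx.2.1⟩) r Q (fun i => by
      by_cases hi : i = N.i₀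
      · subst hi
        have hZ : N.W ⊓ E N.i₀ ≤ N.W ⊓ N.V N.i₀ := inf_le_inf_left _ inf_le_left
        have hZ' : N.W ⊓ E N.i₀ ≤ N.V N.i₀ ⊓ L.U := inf_le_right
        have h3 := congrArg (rs y.X hZ) h2
        have h4 := congrArg (rs y.X hZ') hτ
        rw [map_mul, map_sub, rr, rr, rr, rr, map_pow] at h3
        rw [map_mul, map_one, rr] at h4
        change _ = rs y.X inf_le_right (Q N.i₀)
        rw [show Q N.i₀ = τ ^ (k + 2) - τ * rs y.X inf_le_left (q N.i₀) from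
          Function.update_self _ _ _]
        rw [map_sub, map_mul, map_pow, rr]
        have h5 : rs y.X (inf_le_right : N.W ⊓ E N.i₀ ≤ E N.i₀) τ = rs y.X hZ' τ := rfl
        rw [h5, ← h3]
        linear_combination (rs y.X hZ' τ ^ (k + 2) -
          rs y.X (inf_le_left : N.W ⊓ E N.i₀ ≤ N.W) r) * h4
      · have hZ : N.W ⊓ E i ≤ N.W ⊓ N.V i := inf_le_inf_left _ inf_le_left
        have h3 := congrArg (rs y.X hZ) (h1 i hi)
        rw [Function.update_of_ne hi, Pi.zero_apply, map_zero, map_add, rr, rr] at h3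
        change _ = rs y.X inf_le_right (Q i)
        rw [show Q i = - rs y.X inf_le_left (q i) from Function.update_of_ne hi _ _,
          map_neg, rr]
        exact eq_neg_of_add_eq_zero_left h3.symm)
  have hX0 : rs y.X (inf_le_right : N.V N.i₀ ⊓ L.U ≤ L.U) X =
      τ ^ (k + 2) - τ * rs y.X inf_le_left (q N.i₀) := by
    have h3 := hXE N.i₀
    rw [show Q N.i₀ = τ ^ (k + 2) - τ * rs y.X inf_le_left (q N.i₀) from
      Function.update_self _ _ _] at h3
    exact h3
  -- the inverse of the coordinate on `U ∩ V`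
  obtain ⟨σ, hσ⟩ := (unit_t L (inf_le_left : L.U ⊓ L.V ≤ L.U)
    (inf_le_right : L.U ⊓ L.V ≤ L.V)).exists_right_inv
  obtain ⟨R, hR1, -⟩ := glue_star (T := L.V) (W := L.U ⊓ L.V) (fun _ : Unit => N.V N.i₀)
    inf_le_right (fun _ => N.le₀)
    (fun x hx => by
      rcases cov_V N x with h | h
      · exact Or.inl ⟨h, hx⟩
      · exact Or.inr ⟨(), h⟩)
    (fun i j hij => absurd (Subsingleton.elim i j) hij)
    (σ * (rs y.X inf_le_right L.t ^ (k + 2) * rs y.X inf_le_left X - 1))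
    (fun _ => - (rs y.X N.le₀ L.t ^ k * q N.i₀)) (fun _ => by
      have hZ : (L.U ⊓ L.V) ⊓ N.V N.i₀ ≤ N.V N.i₀ ⊓ L.U :=
        le_inf inf_le_right (inf_le_left.trans inf_le_left)
      have h3 := congrArg (rs y.X hZ) hτ
      have h4 := congrArg (rs y.X (inf_le_left : (L.U ⊓ L.V) ⊓ N.V N.i₀ ≤ L.U ⊓ L.V)) hσ
      have h5 := congrArg (rs y.X hZ) hX0
      rw [map_mul, map_one, rr] at h3 h4
      rw [map_sub, map_mul, map_pow, rr, rr] at h5
      rw [map_mul, map_sub, map_mul, map_pow, map_one, rr, rr, map_neg, map_mul, map_pow, rr, h5]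
      generalize rs y.X _ L.t = t at h3 h4 ⊢
      generalize rs y.X _ τ = a at h3 h4 ⊢
      generalize rs y.X _ σ = b at h3 h4 ⊢
      generalize rs y.X _ (q N.i₀) = c at h3 h4 ⊢
      have h6 : b = a := by
        linear_combination a * h4 - b * h3
      rw [h6]
      have h7 : t ^ (k + 2) * a ^ (k + 2) = 1 := by
        rw [← mul_pow, h3, one_pow]
      linear_combination a * h7 - t ^ k * c * (t * a + 1) * h3)
  refine ⟨X, R, ?_⟩
  rw [map_add, map_one, map_one, map_mul, hR1]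
  linear_combination - (rs y.X inf_le_right L.t ^ (k + 2) * rs y.X inf_le_left X - 1) * hσ

end

end LFB

theorem t_LFB (hFG : Stmt_FG) (hVAN : Stmt_VAN) : Stmt_LFB := by
  intro B _ _ _ y hy L ⟨N⟩ n hn
  obtain ⟨k, rfl⟩ := Nat.exists_eq_add_of_le' hn
  exact LFB.main N hFG hVAN hy k

end Pool.Agent.MG.WL
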