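import Pool.Agent.MG.WL.StmtsW
import Pool.Agent.MG.WL.Tools

/-!
# LIFT: functions with prescribed poles near a point of the base
-/

open CategoryTheory CategoryTheory.Limits AlgebraicGeometry TensorProduct

namespace Pool.Agent.MG.WL

open Pool.Agent.MG.W Pool.Agent.MG.One Pool.Agent.MG.GLU

theorem t_LIFT (hNCE : Stmt_NCE) (hLFB : Stmt_LFB) (hDSC : Stmt_DSC) : Stmt_LIFT := by
  intro A _ _ C hC L p n hn
  obtain ⟨B, _, _, φ, y, a, L', hφ, hp, hbc, hN⟩ := hNCE A C hC L p
  let _ : Algebra ℂ B := (φ.comp (algebraMap ℂ A)).toAlgebra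
  have hy : IsStable 1 y := arrow_stable a hC
  exact hDSC a hC.proper L L' hbc hφ p hp n (hLFB B y hy L' hN n hn)

end Pool.Agent.MG.WL
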