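import Pool.Agent.MG.WL.StmtsX

/-!
# LOE: localisations of the dual numbers
-/

open CategoryTheory CategoryTheory.Limits AlgebraicGeometry TensorProduct

namespace Pool.Agent.MG.WL

namespace LOEx

variable {A B : Type} [CommRing A] [CommRing B]

theorem fst_map (φ : A →+* B) (z : Eps A) : (epsMap φ z).fst = φ z.fst := by
  simp [epsMap]

theorem snd_map (φ : A →+* B) (z : Eps A) : (epsMap φ z).snd = φ z.snd := by
  simp [epsMap]

theorem inl_pow (f : A) (n : ℕ) :
    (TrivSqZeroExt.inl f : Eps A) ^ n = TrivSqZeroExt.inl (f ^ n) :=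
  TrivSqZeroExt.inl_pow f n

theorem fst_mul_inl (z : Eps A) (f : A) : (z * TrivSqZeroExt.inl f).fst = z.fst * f := by
  simp

theorem snd_mul_inl (z : Eps A) (f : A) : (z * TrivSqZeroExt.inl f).snd = z.snd * f := by
  simp [mul_comm]

theorem map_inl (φ : A →+* B) (f : A) :
    epsMap φ (TrivSqZeroExt.inl f) = TrivSqZeroExt.inl (φ f) := by
  refine TrivSqZeroExt.ext ?_ ?_
  · rw [fst_map, TrivSqZeroExt.fst_inl, TrivSqZeroExt.fst_inl]
  · rw [snd_map, TrivSqZeroExt.snd_inl, TrivSqZeroExt.snd_inl, map_zero]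

theorem main [Algebra A B] (f : A) [IsLocalization.Away f B] :
    (∀ n : ℕ, IsUnit (epsMap (algebraMap A B) ((TrivSqZeroExt.inl f : Eps A) ^ n))) ∧
    (∀ z : Eps B, ∃ (x : Eps A) (n : ℕ),
      z * epsMap (algebraMap A B) ((TrivSqZeroExt.inl f : Eps A) ^ n) =
        epsMap (algebraMap A B) x) ∧
    ∀ x y : Eps A, epsMap (algebraMap A B) x = epsMap (algebraMap A B) y →
      ∃ n : ℕ, (TrivSqZeroExt.inl f : Eps A) ^ n * x = (TrivSqZeroExt.inl f : Eps A) ^ n * y := by
  have hu : IsUnit (algebraMap A B f) := IsLocalization.Away.algebraMap_isUnit f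
  refine ⟨fun n => ?_, fun z => ?_, fun x y h => ?_⟩
  · rw [map_pow, map_inl]
    exact (hu.map (TrivSqZeroExt.inlHom B B)).pow n
  · obtain ⟨n, a, ha⟩ := IsLocalization.Away.surj f z.fst
    obtain ⟨m, b, hb⟩ := IsLocalization.Away.surj f z.snd
    refine ⟨TrivSqZeroExt.inl (a * f ^ m) + TrivSqZeroExt.inr (b * f ^ n), n + m, ?_⟩
    rw [inl_pow, map_inl]
    refine TrivSqZeroExt.ext ?_ ?_
    · rw [fst_mul_inl, fst_map, TrivSqZeroExt.fst_add, TrivSqZeroExt.fst_inl,
        TrivSqZeroExt.fst_inr, add_zero, map_mul, ← ha, map_pow, map_pow, pow_add]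
      ring
    · rw [snd_mul_inl, snd_map, TrivSqZeroExt.snd_add, TrivSqZeroExt.snd_inl,
        TrivSqZeroExt.snd_inr, zero_add, map_mul, ← hb, map_pow, map_pow, pow_add]
      ring
  · have h1 : algebraMap A B x.fst = algebraMap A B y.fst := by
      rw [← fst_map, ← fst_map, h]
    have h2 : algebraMap A B x.snd = algebraMap A B y.snd := by
      rw [← snd_map, ← snd_map, h]
    obtain ⟨⟨_, n, rfl⟩, hn⟩ := IsLocalization.exists_of_eq (M := Submonoid.powers f) h1
    obtain ⟨⟨_, m, rfl⟩, hm⟩ := IsLocalization.exists_of_eq (M := Submonoid.powers f) h2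
    simp only at hn hm
    refine ⟨n + m, ?_⟩
    rw [inl_pow, mul_comm _ x, mul_comm _ y]
    refine TrivSqZeroExt.ext ?_ ?_
    · rw [fst_mul_inl, fst_mul_inl, pow_add]
      linear_combination f ^ m * hn
    · rw [snd_mul_inl, snd_mul_inl, pow_add]
      linear_combination f ^ n * hm

end LOEx

/-- LOE -/
theorem t_LOE : Stmt_LOE := by
  intro A B _ _ _ f _
  let _ := (epsMap (algebraMap A B)).toAlgebra
  obtain ⟨h1, h2, h3⟩ := LOEx.main (B := B) f
  change IsLocalization (Submonoid.powers (TrivSqZeroExt.inl f : Eps A)) (Eps B)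
  rw [isLocalization_iff]
  refine ⟨?_, ?_, ?_⟩
  · rintro ⟨_, n, rfl⟩
    exact h1 n
  · intro z
    obtain ⟨x, n, h⟩ := h2 z
    exact ⟨⟨x, ⟨_, n, rfl⟩⟩, h⟩
  · intro x y h
    obtain ⟨n, hn⟩ := h3 x y h
    exact ⟨⟨_, n, rfl⟩, hn⟩

end Pool.Agent.MG.WL
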