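import Pool.Agent.MG.WL.CEC

/-!
# LPI: closed subschemes with one equation on every chart of a star shaped cover
-/

open CategoryTheory CategoryTheory.Limits AlgebraicGeometry TopologicalSpace

namespace Pool.Agent.MG.WL

namespace LPI

variable {X : Scheme.{0}}

/-- The closed subscheme of the affine open `V` defined by the ideal `a`. -/
noncomputable abbrev ZZ {V : X.Opens} (a : Ideal Γ(X, V)) : Scheme.{0} :=
  Spec (CommRingCat.of (Γ(X, V) ⧸ a))

/-- The closed subscheme of the affine open `V` defined by the ideal `a`, as a scheme over `X`. -/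
noncomputable def kk {V : X.Opens} (hV : IsAffineOpen V) (a : Ideal Γ(X, V)) : ZZ a ⟶ X :=
  Spec.map (CommRingCat.ofHom (Ideal.Quotient.mk a)) ≫ hV.fromSpec

section

variable {V : X.Opens} (hV : IsAffineOpen V) (a : Ideal Γ(X, V))

theorem kk_pre : (kk hV a) ⁻¹ᵁ V = ⊤ := by
  rw [kk, Scheme.Hom.comp_preimage, hV.fromSpec_preimage_self]
  rfl

theorem kk_appLE : (kk hV a).appLE V ⊤ (kk_pre hV a).ge =
    CommRingCat.ofHom (Ideal.Quotient.mk a) ≫ (Scheme.ΓSpecIso _).inv := by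
  have h1 : (kk hV a).appLE V ⊤ (kk_pre hV a).ge =
      hV.fromSpec.appLE V ⊤ hV.fromSpec_preimage_self.ge ≫
      (Spec.map (CommRingCat.ofHom (Ideal.Quotient.mk a))).appLE ⊤ ⊤ le_top := by
    rw [Scheme.Hom.appLE_comp_appLE]
    rfl
  have h2 : hV.fromSpec.appLE V ⊤ hV.fromSpec_preimage_self.ge = (Scheme.ΓSpecIso Γ(X, V)).inv := by
    rw [Scheme.Hom.appLE, hV.fromSpec_app_self, Category.assoc, ← Functor.map_comp]
    have : (eqToHom hV.fromSpec_preimage_self).op ≫
        (homOfLE hV.fromSpec_preimage_self.ge).op = 𝟙 _ := rfl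
    rw [this, CategoryTheory.Functor.map_id, Category.comp_id]
  have h3 : (Spec.map (CommRingCat.ofHom (Ideal.Quotient.mk a))).appLE ⊤ ⊤ le_top =
      (Spec.map (CommRingCat.ofHom (Ideal.Quotient.mk a))).appTop := Scheme.Hom.appLE_eq_app _
  rw [h1, h2, h3]
  exact (Scheme.ΓSpecIso_inv_naturality (CommRingCat.ofHom (Ideal.Quotient.mk a))).symm

theorem ker_kk : RingHom.ker ((kk hV a).app V).hom = a := by
  ext s
  have h1 : ((kk hV a).app V).hom s = 0 ↔ ((kk hV a).appLE V ⊤ (kk_pre hV a).ge).hom s = 0 := by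
    constructor
    · intro h
      change (ZZ a).presheaf.map _ (((kk hV a).app V).hom s) = 0
      rw [h, map_zero]
    · intro h
      have h2 : (kk hV a).app V = (kk hV a).appLE V ⊤ (kk_pre hV a).ge ≫
          (ZZ a).presheaf.map (homOfLE le_top).op := by
        rw [Scheme.Hom.appLE_map, Scheme.Hom.appLE_eq_app]
      rw [h2]
      change (ZZ a).presheaf.map _ (((kk hV a).appLE V ⊤ (kk_pre hV a).ge).hom s) = 0
      rw [h, map_zero]
  rw [RingHom.mem_ker, h1, kk_appLE]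
  change (Scheme.ΓSpecIso (CommRingCat.of (Γ(X, V) ⧸ a))).inv (Ideal.Quotient.mk a s) = 0 ↔ _
  rw [← Ideal.Quotient.eq_zero_iff_mem]
  constructor
  · intro h
    have h3 := congrArg (Scheme.ΓSpecIso (CommRingCat.of (Γ(X, V) ⧸ a))).hom h
    rw [map_zero] at h3
    rw [← h3]
    exact (ConcreteCategory.congr_hom
      (Scheme.ΓSpecIso (CommRingCat.of (Γ(X, V) ⧸ a))).inv_hom_id (Ideal.Quotient.mk a s)).symm
  · intro h
    rw [h, map_zero]

theorem qc (hc : ∀ x : X, ∃ U : X.Opens, x ∈ U ∧ IsAffineOpen U ∧ IsAffineOpen (V ⊓ U)) :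
    QuasiCompact (kk hV a) := by
  have h1 : QuasiCompact hV.fromSpec := by
    choose U hxU hU hVU using hc
    rw [HasAffineProperty.iff_of_iSup_eq_top (P := @QuasiCompact) (fun x => ⟨U x, hU x⟩)
      (by
        rw [eq_top_iff]
        intro x _
        exact Opens.mem_iSup.2 ⟨x, hxU x⟩)]
    intro x
    have h2 : hV.fromSpec ⁻¹ᵁ (U x) = hV.fromSpec ⁻¹ᵁ (V ⊓ U x) := by
      rw [Scheme.Hom.preimage_inf, hV.fromSpec_preimage_self, top_inf_eq]
    have h3 : IsAffineOpen (hV.fromSpec ⁻¹ᵁ (U x)) := by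
      rw [h2]
      exact (hVU x).preimage_of_isOpenImmersion _ (by
        rw [hV.opensRange_fromSpec]; exact inf_le_left)
    exact isCompact_iff_compactSpace.1 h3.isCompact
  have : QuasiCompact hV.fromSpec := h1
  unfold kk
  infer_instance

/-- Functions on `U` which are in the ideal generated by `a` on `V ∩ U` vanish on `kk`. -/
theorem kk_zero (U : X.Opens) (s : Γ(X, U))
    (hs : rs X (inf_le_right : V ⊓ U ≤ U) s ∈ Ideal.map (rs X (inf_le_left : V ⊓ U ≤ V)) a) :
    ((kk hV a).app U).hom s = 0 := by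
  have e1 : (kk hV a) ⁻¹ᵁ U = (kk hV a) ⁻¹ᵁ (V ⊓ U) := by
    rw [Scheme.Hom.preimage_inf, kk_pre, top_inf_eq]
  have h1 : (kk hV a).app U = X.presheaf.map (homOfLE (inf_le_right : V ⊓ U ≤ U)).op ≫
      (kk hV a).appLE (V ⊓ U) ((kk hV a) ⁻¹ᵁ U) e1.le := by
    rw [Scheme.Hom.map_appLE, Scheme.Hom.appLE_eq_app]
  rw [h1]
  change ((kk hV a).appLE (V ⊓ U) ((kk hV a) ⁻¹ᵁ U) e1.le).hom (rs X inf_le_right s) = 0
  have h2 : Ideal.map (rs X (inf_le_left : V ⊓ U ≤ V)) a ≤
      RingHom.ker ((kk hV a).appLE (V ⊓ U) ((kk hV a) ⁻¹ᵁ U) e1.le).hom := by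
    rw [Ideal.map_le_iff_le_comap]
    intro t ht
    rw [Ideal.mem_comap, RingHom.mem_ker]
    have h3 : X.presheaf.map (homOfLE (inf_le_left : V ⊓ U ≤ V)).op ≫
        (kk hV a).appLE (V ⊓ U) ((kk hV a) ⁻¹ᵁ U) e1.le = (kk hV a).app V ≫
        (ZZ a).presheaf.map (homOfLE (by rw [kk_pre]; exact le_top)).op := by
      rw [Scheme.Hom.map_appLE]
      rfl
    have h4 := congrArg (fun φ => (φ.hom t)) h3
    refine Eq.trans h4 ?_
    have h5 : ((kk hV a).app V).hom t = 0 := by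
      rw [← RingHom.mem_ker, ker_kk]
      exact ht
    change (ZZ a).presheaf.map _ (((kk hV a).app V).hom t) = 0
    rw [h5, map_zero]
  exact h2 hs

end

theorem glue {κ : Type} [Finite κ] (O : κ → X.affineOpens) (cov : ∀ x : X, ∃ o, x ∈ (O o).1)
    (aff : ∀ o o', IsAffineOpen ((O o).1 ⊓ (O o').1)) (a : ∀ o, Ideal Γ(X, (O o).1))
    (ha : ∀ o o', Ideal.map (rs X (inf_le_right : (O o').1 ⊓ (O o).1 ≤ (O o).1)) (a o) ≤
      Ideal.map (rs X (inf_le_left : (O o').1 ⊓ (O o).1 ≤ (O o').1)) (a o')) :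
    ∃ I : X.IdealSheafData, ∀ o, I.ideal (O o) = a o := by
  have hq : ∀ o, QuasiCompact (kk (O o).2 (a o)) := fun o => qc _ _ fun x => by
    obtain ⟨o', ho'⟩ := cov x
    exact ⟨_, ho', (O o').2, aff _ _⟩
  refine ⟨⨅ o, (kk (O o).2 (a o)).ker, fun o => ?_⟩
  rw [Scheme.IdealSheafData.ideal_iInf, iInf_apply]
  apply le_antisymm
  · refine (iInf_le _ o).trans ?_
    rw [Scheme.Hom.ker_apply, ker_kk]
  · refine le_iInf fun o' => ?_
    rw [Scheme.Hom.ker_apply]
    intro s hs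
    rw [RingHom.mem_ker]
    exact kk_zero _ _ _ _ (ha o o' (Ideal.mem_map_of_mem _ hs))

variable {ι : Type} (W : X.Opens) (V : ι → X.Opens)

/-- The charts. -/
def O (hW : IsAffineOpen W) (hV : ∀ i, IsAffineOpen (V i)) : Option ι → X.affineOpens
  | none => ⟨W, hW⟩
  | some i => ⟨V i, hV i⟩

/-- The equations. -/
def eqs (hW : IsAffineOpen W) (hV : ∀ i, IsAffineOpen (V i)) (f : Γ(X, W))
    (g : ∀ i, Γ(X, V i)) : ∀ o : Option ι, Γ(X, (O W V hW hV o).1)
  | none => f
  | some i => g i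

theorem span_res {W V : X.Opens} {f : Γ(X, W)} {g : Γ(X, V)}
    (h : Ideal.span {rs X (inf_le_left : W ⊓ V ≤ W) f} =
      Ideal.span {rs X (inf_le_right : W ⊓ V ≤ V) g}) (U : X.Opens) (h1 : U ≤ W) (h2 : U ≤ V) :
    Ideal.span {rs X h1 f} = Ideal.span {rs X h2 g} := by
  have h3 := congrArg (Ideal.map (rs X (le_inf h1 h2))) h
  rw [Ideal.map_span, Ideal.map_span, Set.image_singleton, Set.image_singleton, CEC.rr_rr,
    CEC.rr_rr] at h3
  exact h3

variable {W V}

theorem main [Finite ι] (hW : IsAffineOpen W) (hV : ∀ i, IsAffineOpen (V i))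
    (hWV : ∀ i, IsAffineOpen (W ⊓ V i)) (cov : ∀ z : X, z ∈ W ∨ ∃ i, z ∈ V i)
    (dis : ∀ i j, i ≠ j → V i ⊓ V j ≤ W) (f : Γ(X, W)) (g : ∀ i, Γ(X, V i))
    (h : ∀ i, Ideal.span {rs X (inf_le_left : W ⊓ V i ≤ W) f} =
      Ideal.span {rs X (inf_le_right : W ⊓ V i ≤ V i) (g i)}) :
    ∃ I : X.IdealSheafData, I.ideal ⟨W, hW⟩ = Ideal.span {f} ∧
      ∀ i, I.ideal ⟨V i, hV i⟩ = Ideal.span {g i} := by
  classical
  have key : ∀ (o o' : Option ι) (U : X.Opens) (h1 : U ≤ (O W V hW hV o).1)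
      (h2 : U ≤ (O W V hW hV o').1), Ideal.span {rs X h1 (eqs W V hW hV f g o)} =
        Ideal.span {rs X h2 (eqs W V hW hV f g o')} := by
    rintro (_ | i) (_ | j) U h1 h2
    · rfl
    · exact span_res (h j) U h1 h2
    · exact (span_res (h i) U h2 h1).symm
    · rcases eq_or_ne i j with rfl | hij
      · rfl
      · have hU : U ≤ W := (le_inf h1 h2).trans (dis i j hij)
        exact (span_res (h i) U hU h1).symm.trans (span_res (h j) U hU h2)
  obtain ⟨I, hI⟩ := glue (O W V hW hV) (fun x => by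
      rcases cov x with hx | ⟨i, hx⟩
      · exact ⟨none, hx⟩
      · exact ⟨some i, hx⟩)
    (by
      rintro (_ | i) (_ | j)
      · change IsAffineOpen (W ⊓ W)
        rwa [inf_idem]
      · exact hWV j
      · change IsAffineOpen (V i ⊓ W)
        rw [inf_comm]
        exact hWV i
      · change IsAffineOpen (V i ⊓ V j)
        rcases eq_or_ne i j with rfl | hij
        · rw [inf_idem]
          exact hV i
        · have h1 : V i ⊓ V j = (W ⊓ V i) ⊓ (W ⊓ V j) := by
            rw [inf_inf_inf_comm, inf_idem]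
            exact (inf_eq_right.2 (dis i j hij)).symm
          rw [h1]
          exact CEC.aff_inf hW (hWV i) (hWV j) inf_le_left inf_le_left)
    (fun o => Ideal.span {eqs W V hW hV f g o}) (fun o o' => by
      rw [Ideal.map_span, Ideal.map_span, Set.image_singleton, Set.image_singleton]
      exact (key o o' _ _ _).le)
  exact ⟨I, hI none, fun i => hI (some i)⟩

end LPI

theorem t_LPI : Stmt_LPI := by
  intro X ι _ W V hW hV hWV cov dis f g h
  obtain ⟨I, h1, h2⟩ := LPI.main hW hV hWV cov dis f g h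
  refine ⟨I.subscheme, I.subschemeι, inferInstance, ?_, fun i => ?_⟩
  · rw [← h1]
    exact I.ker_subschemeι_app ⟨W, hW⟩
  · rw [← h2]
    exact I.ker_subschemeι_app ⟨V i, hV i⟩

end Pool.Agent.MG.WL
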