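import Pool.Agent.MG.WL.StmtsW
import Pool.Agent.MG.WL.Tools

/-!
# Module NCB: base change of nice covers
-/

open CategoryTheory CategoryTheory.Limits AlgebraicGeometry TensorProduct

namespace Pool.Agent.MG.WL

open Pool.Agent.MG.W Pool.Agent.MG.One Pool.Agent.MG.GLU

namespace NCBm

/-- Base change of finite ring maps, in elements. -/
theorem finite_of {A B R R' S S' : Type} [CommRing A] [CommRing B] [CommRing R] [CommRing R']
    [CommRing S] [CommRing S'] (c : A →+* R) (φ : A →+* B) (c' : B →+* R') (f : R →+* R')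
    (hf : ∀ a, f (c a) = c' (φ a))
    (hR' : ∀ M : AddSubgroup R', (∀ b r, c' b * f r ∈ M) → ∀ x, x ∈ M)
    (q : R →+* S) (q' : R' →+* S') (hq' : Function.Surjective q')
    (g : S →+* S') (hg : ∀ r, g (q r) = q' (f r)) (h : (q.comp c).Finite) :
    (q'.comp c').Finite := by
  let _ := (q.comp c).toAlgebra
  let _ := (q'.comp c').toAlgebra
  have h1 : Module.Finite A S := h
  obtain ⟨s, hs⟩ := h1.fg_top
  have key : ∀ x : S, g x ∈ Submodule.span B (g '' (s : Set S)) := by
    intro x
    have hx : x ∈ Submodule.span A (s : Set S) := by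
      rw [hs]
      exact Submodule.mem_top
    induction hx using Submodule.span_induction with
    | mem x hx => exact Submodule.subset_span ⟨x, hx, rfl⟩
    | zero =>
      rw [map_zero]
      exact Submodule.zero_mem _
    | add x y _ _ hx hy =>
      rw [map_add]
      exact Submodule.add_mem _ hx hy
    | smul a x _ hx =>
      have e1 : a • x = q (c a) * x := rfl
      have e2 : g (a • x) = φ a • g x := by
        rw [e1, map_mul, hg, hf]
        rfl
      rw [e2]
      exact Submodule.smul_mem _ _ hx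
  have h2 : Module.Finite B S' := by
    classical
    refine ⟨⟨s.image g, ?_⟩⟩
    rw [eq_top_iff]
    rintro x -
    rw [Finset.coe_image]
    obtain ⟨z, rfl⟩ := hq' x
    refine hR' ((Submodule.span B (g '' (s : Set S))).toAddSubgroup.comap q'.toAddMonoidHom)
      ?_ z
    intro b r
    change q' (c' b * f r) ∈ Submodule.span B (g '' (s : Set S))
    have e : q' (c' b * f r) = b • g (q r) := by
      rw [map_mul, hg]
      rfl
    rw [e]
    exact Submodule.smul_mem _ _ (key _)
  exact h2

variable {n : ℕ} {A B : Type} [CommRing A] [CommRing B] {φ : A →+* B}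
  {C : Fam n A} {y : Fam n B}

theorem finite_pre (a : Arrow φ y C) {V : C.X.Opens} (hV : IsAffineOpen V) (β : Γ(C.X, V))
    (h : ((Ideal.Quotient.mk (Ideal.span {β})).comp (coef C.π V)).Finite) :
    ((Ideal.Quotient.mk (Ideal.span {(a.f.appLE V (a.f ⁻¹ᵁ V) le_rfl).hom β})).comp
      (coef y.π (a.f ⁻¹ᵁ V))).Finite := by
  have ht := tp_affine a hV
  let _ := φ.toAlgebra
  let _ := (coef C.π V).toAlgebra
  obtain ⟨e, he⟩ := ht
  have hf : ∀ x, (a.f.appLE V (a.f ⁻¹ᵁ V) le_rfl).hom (coef C.π V x) =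
      coef y.π (a.f ⁻¹ᵁ V) (φ x) := by
    intro x
    have h1 := he 1 (coef C.π V x)
    have h2 := he (φ x) 1
    rw [map_one, one_mul] at h1
    rw [map_one, mul_one] at h2
    rw [← h1, ← h2]
    congr 1
    have e1 : (coef C.π V x : Γ(C.X, V)) = x • (1 : Γ(C.X, V)) := by
      rw [Algebra.smul_def, mul_one]
      rfl
    have e2 : (φ x : B) = x • (1 : B) := by
      rw [Algebra.smul_def, mul_one]
      rfl
    rw [e1, e2, TensorProduct.tmul_smul, TensorProduct.smul_tmul']
  refine finite_of (coef C.π V) φ (coef y.π (a.f ⁻¹ᵁ V))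
    (a.f.appLE V (a.f ⁻¹ᵁ V) le_rfl).hom hf ?_ (Ideal.Quotient.mk (Ideal.span {β})) _
    Ideal.Quotient.mk_surjective (Ideal.quotientMap _
      (a.f.appLE V (a.f ⁻¹ᵁ V) le_rfl).hom ?_) ?_ h
  · intro M hM x
    obtain ⟨z, rfl⟩ := e.surjective x
    induction z using TensorProduct.induction_on with
    | zero =>
      rw [map_zero]
      exact M.zero_mem
    | tmul b r =>
      rw [he]
      exact hM b r
    | add u w hu hw =>
      rw [map_add]
      exact M.add_mem hu hw
  · rw [Ideal.span_le, Set.singleton_subset_iff]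
    exact Ideal.subset_span rfl
  · intro r
    exact Ideal.quotientMap_mk

theorem pre_mono (f : y.X ⟶ C.X) {U V : C.X.Opens} (h : U ≤ V) : f ⁻¹ᵁ U ≤ f ⁻¹ᵁ V :=
  fun _ hz => h hz

end NCBm

open NCBm in
theorem t_NCB : Stmt_NCB := by
  intro A B _ _ φ C y a L L' hL N
  have hU := hL.U
  have hV := hL.V
  let N' : NC L' :=
    { W := a.f ⁻¹ᵁ N.W
      aW := pre_affine a N.aW
      leW := by
        rw [hU]
        exact pre_mono a.f N.leW
      ι := N.ι
      V := fun i => a.f ⁻¹ᵁ N.V i
      aV := fun i => pre_affine a (N.aV i)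
      β := fun i => (a.f.appLE (N.V i) (a.f ⁻¹ᵁ N.V i) le_rfl).hom (N.β i)
      bas := fun i => by
        have h1 : a.f ⁻¹ᵁ (C.X.basicOpen (N.β i)) =
            y.X.basicOpen ((a.f.app (N.V i)).hom (N.β i)) := Scheme.preimage_basicOpen a.f _
        have h2 : (a.f.appLE (N.V i) (a.f ⁻¹ᵁ N.V i) le_rfl).hom (N.β i) =
            (a.f.app (N.V i)).hom (N.β i) := by
          rw [Scheme.Hom.appLE_eq_app]
        rw [h2, ← h1, N.bas i]
        rfl
      dis := fun i j hij => pre_mono a.f (N.dis i j hij)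
      cov := fun z => N.cov (a.f z)
      finite := fun i => finite_pre a (N.aV i) (N.β i) (N.finite i)
      i₀ := N.i₀
      le₀ := by
        rw [hV]
        exact pre_mono a.f N.le₀
      sec := by
        have h1 : (y.σ 0) ⁻¹ᵁ (a.f ⁻¹ᵁ N.V N.i₀) = (y.σ 0 ≫ a.f) ⁻¹ᵁ N.V N.i₀ := rfl
        rw [h1, a.sec 0]
        intro z _
        exact N.sec (Set.mem_univ (spMap φ z))
      ne := fun i hi => by
        rw [hU]
        exact pre_mono a.f (N.ne i hi) }
  exact ⟨N', Equiv.refl _, rfl, fun _ => rfl, rfl⟩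

end Pool.Agent.MG.WL
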