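import Pool.Agent.MG.WL.StmtsW
import Pool.Agent.MG.WL.Tools

/-!
# NCE: nice covers exist over a flat local extension of the local ring of a point
-/

open CategoryTheory CategoryTheory.Limits AlgebraicGeometry TensorProduct

namespace Pool.Agent.MG.WL

open Pool.Agent.MG.W Pool.Agent.MG.One Pool.Agent.MG.GLU

namespace NCEx

/-- Base changes of local coordinates compose. -/
theorem bc_comp {A B D : Type} [CommRing A] [CommRing B] [CommRing D] {φ : A →+* B}
    {ψ : B →+* D} {C : Fam 1 A} {y : Fam 1 B} {z : Fam 1 D} {L : LC C} {L' : LC y} {L'' : LC z}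
    {a : Arrow φ y C} {b : Arrow ψ z y} (h : L.Bc a L') (h' : L'.Bc b L'') :
    L.Bc (PBS.comp b a) L'' := by
  have hU : L''.U = (PBS.comp b a).f ⁻¹ᵁ L.U := by
    rw [h'.U, h.U]; rfl
  have hV : L''.V = (PBS.comp b a).f ⁻¹ᵁ L.V := by
    rw [h'.V, h.V]; rfl
  refine ⟨hU, hV, ?_⟩
  rw [h'.t, h.t]
  have e := Scheme.Hom.appLE_comp_appLE b.f a.f L.V L'.V L''.V h.V.le h'.V.le
  exact ConcreteCategory.congr_hom e L.t

/-- The induction. -/
theorem step (hSPL : Stmt_SPL) (hGNC : Stmt_GNC) {A : Type} [CommRing A] {C : Fam 1 A}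
    (hC : IsStable 1 C) (L : LC C) (p : PrimeSpectrum A) (n : ℕ) :
    ∀ (B : Type) [CommRing B] [IsLocalRing B] (φ : A →+* B) (y : Fam 1 B) (a : Arrow φ y C)
      (L' : LC y), φ.Flat → Ideal.comap φ (IsLocalRing.maximalIdeal B) = p.asIdeal →
      L.Bc a L' → ∀ P : PNC L', Nat.card {i : P.ι // ¬ P.Good i} ≤ n →
      ∃ (B : Type) (_ : CommRing B) (_ : IsLocalRing B) (φ : A →+* B)
      (y : Fam 1 B) (a : Arrow φ y C) (L' : LC y), φ.Flat ∧
        Ideal.comap φ (IsLocalRing.maximalIdeal B) = p.asIdeal ∧ L.Bc a L' ∧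
          Nonempty (NC L') := by
  induction n with
  | zero =>
    intro B _ _ φ y a L' hf hp hb P hn
    have hst := arrow_stable a hC
    have hg : ∀ i, P.Good i := by
      intro i
      by_contra hi
      have h0 : Nat.card {i : P.ι // ¬ P.Good i} = 0 := by omega
      rw [Nat.card_eq_zero] at h0
      rcases h0 with h0 | h0
      · exact h0.elim ⟨i, hi⟩
      · exact not_finite {i : P.ι // ¬ P.Good i}
    exact ⟨B, inferInstance, inferInstance, φ, y, a, L', hf, hp, hb, hGNC B y hst L' P hg⟩
  | succ n ih =>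
    intro B _ _ φ y a L' hf hp hb P hn
    have hst := arrow_stable a hC
    by_cases hg : ∀ i, P.Good i
    · exact ⟨B, inferInstance, inferInstance, φ, y, a, L', hf, hp, hb, hGNC B y hst L' P hg⟩
    · push Not at hg
      obtain ⟨i, hi⟩ := hg
      obtain ⟨B', hc, hl, ψ, hψ, y', a', L'', P', e, hflat, hb', hgi, hgj⟩ :=
        hSPL B y hst L' P i
      refine ih B' (ψ.comp φ) y' (PBS.comp a' a) L'' (hf.comp hflat) ?_ (bc_comp hb hb') P' ?_
      · rw [← Ideal.comap_comap, ← hp]
        congr 1
        exact ((IsLocalRing.local_hom_TFAE ψ).out 0 4).1 hψ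
      · have hlt : Nat.card {j : P'.ι // ¬ P'.Good j} < Nat.card {j : P.ι // ¬ P.Good j} := by
          classical
          let f : {j : P'.ι // ¬ P'.Good j} → {j : P.ι // ¬ P.Good j} := fun j =>
            ⟨e.symm j.1, fun h => j.2 (by have := hgj _ h; rwa [Equiv.apply_symm_apply] at this)⟩
          have hinj : Function.Injective f := by
            intro j j' hjj
            have := congrArg Subtype.val hjj
            exact Subtype.ext (e.symm.injective this)
          have hnot : ¬ Function.Surjective f := by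
            intro hs
            obtain ⟨j, hj⟩ := hs ⟨i, hi⟩
            have h1 : e.symm j.1 = i := congrArg Subtype.val hj
            have h2 : j.1 = e i := by rw [← h1, Equiv.apply_symm_apply]
            exact j.2 (h2 ▸ hgi)
          haveI : Finite {j : P.ι // ¬ P.Good j} := inferInstance
          haveI : Fintype {j : P.ι // ¬ P.Good j} := Fintype.ofFinite _
          haveI : Fintype {j : P'.ι // ¬ P'.Good j} := Fintype.ofFinite _
          rw [Nat.card_eq_fintype_card, Nat.card_eq_fintype_card]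
          exact Fintype.card_lt_of_injective_not_surjective f hinj hnot
        omega

end NCEx

theorem t_NCE (hLCB : Stmt_LCB) (hPNE : Stmt_PNE) (hSPL : Stmt_SPL) (hGNC : Stmt_GNC) :
    Stmt_NCE := by
  intro A _ _ C hC L p
  let B := Localization.AtPrime p.asIdeal
  let φ : A →+* B := algebraMap A B
  let _ : Algebra ℂ B := (φ.comp (algebraMap ℂ A)).toAlgebra
  let y := PBS.bc φ C
  let a : Arrow φ y C := PBS.bcArrow φ C
  obtain ⟨L', hL'⟩ := hLCB a L
  have hst : IsStable 1 y := arrow_stable a hC
  obtain ⟨P⟩ := hPNE B y hst L'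
  have hflat : φ.Flat := by
    rw [RingHom.flat_algebraMap_iff]
    exact IsLocalization.flat B p.asIdeal.primeCompl
  have hcomap : Ideal.comap φ (IsLocalRing.maximalIdeal B) = p.asIdeal :=
    Localization.AtPrime.comap_maximalIdeal
  exact NCEx.step hSPL hGNC hC L p _ B φ y a L' hflat hcomap hL' P le_rfl

end Pool.Agent.MG.WL
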