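import Pool.Agent.MG.WL.StmtsW
import Pool.Agent.MG.WL.Tools
import Pool.Agent.MG.W.WDM
import Pool.Agent.MG.W.WRG

/-!
# Preliminary nice covers over local rings
-/

open CategoryTheory CategoryTheory.Limits AlgebraicGeometry TensorProduct

namespace Pool.Agent.MG.WL

open Pool.Agent.MG.W Pool.Agent.MG.One Pool.Agent.MG.GLU

namespace PNE

/-! ### The topology of a Weierstrass curve over a field -/

section WXtop

variable (K : Type) [Field K] (a b : K)

/-- Nonzero primes of the ring of the affine curve are maximal. -/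
theorem max1 (P : Ideal (A1 K a b)) (hP : P.IsPrime) (h0 : P ≠ ⊥) : P.IsMaximal := by
  have hdom := WDM.dom1 K a b
  obtain ⟨w1, -⟩ := t_WRG K a b
  let _ : Algebra (Polynomial K) (A1 K a b) := (Polynomial.aeval (x1 K a b)).toRingHom.toAlgebra
  have halg : ∀ p : Polynomial K, algebraMap (Polynomial K) (A1 K a b) p =
      Polynomial.aeval (x1 K a b) p := fun _ => rfl
  have hfin : Module.Finite (Polynomial K) (A1 K a b) := by
    classical
    refine ⟨⟨{1, y1 K a b}, ?_⟩⟩
    rw [Submodule.eq_top_iff']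
    intro v
    obtain ⟨⟨p, q⟩, hpq, -⟩ := w1 v
    rw [Finset.coe_insert, Finset.coe_singleton, Submodule.mem_span_pair]
    refine ⟨p, q, ?_⟩
    rw [Algebra.smul_def, Algebra.smul_def, halg, halg, mul_one]
    exact hpq.symm
  have hint : Algebra.IsIntegral (Polynomial K) (A1 K a b) := Algebra.IsIntegral.of_finite _ _
  obtain ⟨v, hv, hv0⟩ := Submodule.exists_mem_ne_zero_of_ne_bot h0
  have h1 : P.comap (algebraMap (Polynomial K) (A1 K a b)) ≠ ⊥ :=
    Ideal.comap_ne_bot_of_integral_mem hv0 hv (Algebra.IsIntegral.isIntegral v)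
  have h2 : (P.comap (algebraMap (Polynomial K) (A1 K a b))).IsPrime := hP.comap _
  have h3 : (P.comap (algebraMap (Polynomial K) (A1 K a b))).IsMaximal := h2.isMaximal h1
  exact Ideal.isMaximal_of_isIntegral_of_isMaximal_comap P h3

/-- A closed set of the affine curve which does not contain the generic point is finite. -/
theorem fin1 [IsDomain (A1 K a b)] (Z : Set (PrimeSpectrum (A1 K a b))) (hZ : IsClosed Z)
    (h : (⊥ : PrimeSpectrum (A1 K a b)) ∉ Z) : Z.Finite := by
  obtain ⟨I, rfl⟩ := (PrimeSpectrum.isClosed_iff_zeroLocus_ideal Z).mp hZ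
  have hI : I ≠ ⊥ := by
    rintro rfl
    apply h
    exact le_refl (⊥ : Ideal (A1 K a b))
  have h1 := Ideal.finite_minimalPrimes_of_isNoetherianRing (A1 K a b) I
  refine Set.Finite.of_finite_image (f := PrimeSpectrum.asIdeal) (h1.subset ?_)
    (fun x _ y _ hxy => PrimeSpectrum.ext hxy)
  rintro _ ⟨p, hp, rfl⟩
  have hp' : I ≤ p.asIdeal := hp
  have := p.isPrime
  obtain ⟨q, hq, hqp⟩ := Ideal.exists_minimalPrimes_le hp'
  have hq0 : q ≠ ⊥ := by
    rintro rfl
    exact hI (le_bot_iff.mp hq.1.2)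
  have hm := max1 K a b q hq.1.1 hq0
  have h2 : q = p.asIdeal := hm.eq_of_le p.isPrime.ne_top hqp
  rw [← h2]
  exact hq

/-- The points of the second chart which do not lie in the first one. -/
theorem two2 (p : PrimeSpectrum (A2 K a b)) (hp : z2 K a b ∈ p.asIdeal) :
    p.asIdeal = Ideal.span {z2 K a b} := by
  obtain ⟨-, w2, -⟩ := t_WRG K a b
  apply le_antisymm
  · intro v hv
    have h1 := w2 v
    have h2 : algebraMap K (A2 K a b) (inf2 K a b v) ∈ p.asIdeal := by
      have h3 : v - algebraMap K (A2 K a b) (inf2 K a b v) ∈ p.asIdeal := by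
        refine (Ideal.span_le.mpr ?_) h1
        rw [Set.singleton_subset_iff]
        exact hp
      have h4 := p.asIdeal.sub_mem hv h3
      rwa [sub_sub_cancel] at h4
    have h5 : inf2 K a b v = 0 := by
      by_contra hne
      have h6 : IsUnit (algebraMap K (A2 K a b) (inf2 K a b v)) :=
        (IsUnit.mk0 _ hne).map (algebraMap K (A2 K a b))
      exact p.isPrime.ne_top (Ideal.eq_top_of_isUnit_mem _ h2 h6)
    rw [h5, map_zero, sub_zero] at h1
    exact h1
  · rw [Ideal.span_le, Set.singleton_subset_iff]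
    exact hp

theorem cond_pt (q : Sp (A12 K a b)) :
    WX.in1 K a b (spMap (g1 K a b) q) = WX.in2 K a b (spMap (g2 K a b) q) := by
  have hcond : spMap (g1 K a b) ≫ WX.in1 K a b = spMap (g2 K a b) ≫ WX.in2 K a b :=
    pushout.condition
  rw [← Scheme.Hom.comp_apply, hcond, Scheme.Hom.comp_apply]

theorem wx_cover (x : WX K a b) : (∃ p, WX.in1 K a b p = x) ∨
    ∃ p : PrimeSpectrum (A2 K a b), z2 K a b ∈ p.asIdeal ∧ WX.in2 K a b p = x := by
  have h0 : x ∈ Set.range (WX.in1 K a b) ∪ Set.range (WX.in2 K a b) :=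
    glue2_surj (spMap (g1 K a b)) (spMap (g2 K a b)) x
  rcases h0 with ⟨p, hp⟩ | ⟨p, hp⟩
  · exact Or.inl ⟨p, hp⟩
  · by_cases hz : z2 K a b ∈ (p : PrimeSpectrum (A2 K a b)).asIdeal
    · exact Or.inr ⟨p, hz, hp⟩
    · left
      have h1 : (p : PrimeSpectrum (A2 K a b)) ∈
          Set.range (PrimeSpectrum.comap (algebraMap (A2 K a b) (A12 K a b))) := by
        rw [PrimeSpectrum.localization_away_comap_range (A12 K a b) (z2 K a b)]
        exact hz
      obtain ⟨p', hp'⟩ := h1
      exact ⟨spMap (g1 K a b) p', (cond_pt K a b p').trans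
        ((congrArg (WX.in2 K a b) hp').trans hp)⟩

/-- The generic point. -/
noncomputable def eta [IsDomain (A1 K a b)] : WX K a b :=
  WX.in1 K a b (⊥ : PrimeSpectrum (A1 K a b))

theorem eta_eq [IsDomain (A1 K a b)] [IsDomain (A2 K a b)] :
    eta K a b = WX.in2 K a b (⊥ : PrimeSpectrum (A2 K a b)) := by
  have := WDM.dom12 K a b
  obtain ⟨-, -, w3, w4, -⟩ := t_WRG K a b
  have e1 : spMap (g1 K a b) (⊥ : PrimeSpectrum (A12 K a b)) =
      (⊥ : PrimeSpectrum (A1 K a b)) := by
    apply PrimeSpectrum.ext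
    change Ideal.comap (g1 K a b) ⊥ = ⊥
    exact Ideal.comap_bot_of_injective _ w4
  have e2 : spMap (g2 K a b) (⊥ : PrimeSpectrum (A12 K a b)) =
      (⊥ : PrimeSpectrum (A2 K a b)) := by
    apply PrimeSpectrum.ext
    change Ideal.comap (g2 K a b) ⊥ = ⊥
    exact Ideal.comap_bot_of_injective _ w3
  exact (congrArg (WX.in1 K a b) e1.symm).trans
    ((cond_pt K a b (⊥ : PrimeSpectrum (A12 K a b))).trans (congrArg (WX.in2 K a b) e2))

theorem eta_spec [IsDomain (A1 K a b)] [IsDomain (A2 K a b)] (x : WX K a b) :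
    eta K a b ⤳ x := by
  rcases wx_cover K a b x with ⟨p, rfl⟩ | ⟨p, -, rfl⟩
  · exact Specializes.map ((PrimeSpectrum.le_iff_specializes _ _).mp bot_le)
      (WX.in1 K a b).continuous
  · rw [eta_eq]
    exact Specializes.map ((PrimeSpectrum.le_iff_specializes _ _).mp bot_le)
      (WX.in2 K a b).continuous

/-- A closed set of the curve which does not contain the generic point is finite. -/
theorem eta_fin [IsDomain (A1 K a b)] (Z : Set (WX K a b)) (hZ : IsClosed Z)
    (h : eta K a b ∉ Z) : Z.Finite := by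
  have h1 : ((WX.in1 K a b) ⁻¹' Z).Finite :=
    fin1 K a b _ (hZ.preimage (WX.in1 K a b).continuous) h
  have h2 : {p : PrimeSpectrum (A2 K a b) | z2 K a b ∈ p.asIdeal}.Finite := by
    refine Set.Subsingleton.finite fun p hp p' hp' => ?_
    apply PrimeSpectrum.ext
    rw [two2 K a b p hp, two2 K a b p' hp']
  refine ((h1.image (WX.in1 K a b)).union (h2.image (WX.in2 K a b))).subset ?_
  intro x hx
  rcases wx_cover K a b x with ⟨p, rfl⟩ | ⟨p, hp, rfl⟩
  · exact Or.inl ⟨p, hx, rfl⟩
  · exact Or.inr ⟨p, hp, rfl⟩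

/-- The point at infinity is not the generic point. -/
theorem inf_ne [IsDomain (A1 K a b)] [IsDomain (A2 K a b)] (s : Sp K) :
    WX.in2 K a b (spMap (inf2 K a b) s) ≠ eta K a b := by
  rw [eta_eq]
  intro h
  have h1 := (WX.in2 K a b).isOpenEmbedding.injective h
  have h2 : z2 K a b ∈ ((⊥ : PrimeSpectrum (A2 K a b))).asIdeal := by
    rw [← h1]
    change inf2 K a b (z2 K a b) ∈ (s : PrimeSpectrum K).asIdeal
    have h3 : inf2 K a b (z2 K a b) = 0 := lift2_z _ _ _ _
    rw [h3]
    exact Ideal.zero_mem _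
  have h3 : z2 K a b = 0 := h2
  have h4 : IsUnit (g2 K a b (z2 K a b)) :=
    IsLocalization.Away.algebraMap_isUnit (S := A12 K a b) (z2 K a b)
  have := WDM.dom12 K a b
  have h5 : g2 K a b (z2 K a b) = 0 := (congrArg (g2 K a b) h3).trans (map_zero _)
  rw [h5] at h4
  exact not_isUnit_zero h4

end WXtop

/-! ### The closed fibre -/

section closedFibre

variable (B : Type) [CommRing B] [IsLocalRing B]

/-- An algebraic closure of the residue field. -/
abbrev kb : Type := AlgebraicClosure (IsLocalRing.ResidueField B)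

/-- The geometric point over the closed point. -/
noncomputable def sb : B →+* kb B :=
  (algebraMap (IsLocalRing.ResidueField B) (kb B)).comp (IsLocalRing.residue B)

theorem sb_int : (sb B).IsIntegral := by
  refine RingHom.IsIntegral.trans _ _ ?_ ?_
  · exact RingHom.isIntegral_of_surjective _ Ideal.Quotient.mk_surjective
  · intro x
    exact Algebra.IsIntegral.isIntegral (R := IsLocalRing.ResidueField B) x

theorem sb_pt (s : Sp (kb B)) : spMap (sb B) s = IsLocalRing.closedPoint B := by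
  apply PrimeSpectrum.ext
  change Ideal.comap (sb B) (s : PrimeSpectrum (kb B)).asIdeal = IsLocalRing.maximalIdeal B
  have h1 : (s : PrimeSpectrum (kb B)).asIdeal = ⊥ :=
    (Ideal.eq_bot_or_top _).resolve_right (s : PrimeSpectrum (kb B)).isPrime.ne_top
  rw [h1]
  ext x
  rw [Ideal.mem_comap, Ideal.mem_bot]
  change algebraMap _ (kb B) (IsLocalRing.residue B x) = 0 ↔ _
  rw [map_eq_zero_iff _ (algebraMap (IsLocalRing.ResidueField B) (kb B)).injective,
    IsLocalRing.residue_eq_zero_iff]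

theorem kb_char [Algebra ℂ B] : CharZero (kb B) :=
  charZero_of_injective_ringHom ((sb B).comp (algebraMap ℂ B)).injective

variable {B}

/-- The square of the sections of an arrow is cartesian. -/
theorem sec_cart {n : ℕ} {A A' : Type} [CommRing A] [CommRing A'] {φ : A →+* A'} {C : Fam n A}
    {y : Fam n A'} (a : Arrow φ y C) (i : Fin n) :
    IsPullback (spMap φ) (y.σ i) (C.σ i) a.f := by
  refine IsPullback.of_bot ?_ (a.sec i).symm a.cart
  rw [y.sec, C.sec]
  exact IsPullback.of_vert_isIso ⟨by rw [Category.comp_id, Category.id_comp]⟩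

theorem sec_pt {n : ℕ} {A : Type} [CommRing A] (C : Fam n A) (i : Fin n) (s : Sp A) :
    C.π (C.σ i s) = s := by
  rw [← Scheme.Hom.comp_apply, C.sec]
  rfl

/-- The topology of the closed fibre: it has a generic point `η`, it is not the point of the
section, closed subsets which do not contain `η` are finite, and the other points are closed. -/
theorem fibre [Algebra ℂ B] (hCL : Stmt_CL) (y : Fam 1 B) (hy : IsStable 1 y) :
    ∃ η : y.X, y.π η = IsLocalRing.closedPoint B ∧ η ∉ Set.range (y.σ 0) ∧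
      (∀ x : y.X, y.π x = IsLocalRing.closedPoint B → η ⤳ x) ∧
      (∀ Z : Set y.X, IsClosed Z → η ∉ Z →
        (Z ∩ {x | y.π x = IsLocalRing.closedPoint B}).Finite) ∧
      ∀ x : y.X, y.π x = IsLocalRing.closedPoint B → x ≠ η → IsClosed {x} := by
  have hchar := kb_char B
  obtain ⟨a, b, -, f, hf⟩ := hCL (PBS.bc (sb B) y) (PBS.bc_stable _ _ hy)
  have hst := PBS.bc_stable (sb B) y hy
  have hd1 : IsDomain (A1 (kb B) a b) := WDM.dom1 (kb B) a b
  have hd2 : IsDomain (A2 (kb B) a b) := WDM.dom2 (kb B) a b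
  let ar : Arrow (sb B) (PBS.bc (sb B) y) y := PBS.bcArrow (sb B) y
  let F : (PBS.bc (sb B) y).X ⟶ WX (kb B) a b := f.f
  have hF : IsIso F := hf
  let G : WX (kb B) a b ⟶ y.X := inv F ≫ ar.f
  have hint : IsIntegralHom ar.f := by
    have h0 : IsIntegralHom (spMap (sb B)) := IsIntegralHom.SpecMap_iff.mpr (sb_int B)
    exact MorphismProperty.of_isPullback (P := @IsIntegralHom) ar.cart.flip h0
  have hGint : IsIntegralHom G := inferInstance
  have hGclosed : IsClosedMap G := G.isClosedMap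
  have hGπ : ∀ w, y.π (G w) = IsLocalRing.closedPoint B := by
    intro w
    have e : G ≫ y.π = (inv F ≫ (PBS.bc (sb B) y).π) ≫ spMap (sb B) := by
      rw [Category.assoc, Category.assoc, ar.cart.w]
    rw [← Scheme.Hom.comp_apply, e, Scheme.Hom.comp_apply, sb_pt]
  have hGsurj : ∀ x : y.X, y.π x = IsLocalRing.closedPoint B → ∃ w, G w = x := by
    intro x hx
    obtain ⟨z, hz, -⟩ := Scheme.exists_preimage_of_isPullback ar.cart x
      (IsLocalRing.closedPoint (kb B) : PrimeSpectrum (kb B))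
      (by
        refine hx.trans ?_
        exact (sb_pt B _).symm)
    refine ⟨F z, ?_⟩
    rw [← Scheme.Hom.comp_apply, IsIso.hom_inv_id_assoc]
    exact hz
  have hJ : JacobsonSpace (WX (kb B) a b) := by
    have h0 : LocallyOfFinitePresentation (PBS.bc (sb B) y).π := hst.fp
    have h1 : LocallyOfFiniteType (inv F ≫ (PBS.bc (sb B) y).π) := inferInstance
    exact LocallyOfFiniteType.jacobsonSpace (inv F ≫ (PBS.bc (sb B) y).π)
  have hcl : ∀ w : WX (kb B) a b, w ≠ eta (kb B) a b → IsClosed {w} := by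
    intro w hw
    have h1 : eta (kb B) a b ∉ closure {w} := by
      intro h
      have h2 : w ⤳ eta (kb B) a b := specializes_iff_mem_closure.mpr h
      exact hw (h2.antisymm (eta_spec (kb B) a b w)).eq
    have h2 : (closure {w} : Set (WX (kb B) a b)).Finite :=
      eta_fin (kb B) a b _ isClosed_closure h1
    have h3 : closure (closure {w} ∩ closedPoints (WX (kb B) a b)) = closure {w} :=
      closure_inter_closedPoints isClosed_closure
    have h4 : IsClosed (closure {w} ∩ closedPoints (WX (kb B) a b)) := by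
      have h5 : (closure {w} ∩ closedPoints (WX (kb B) a b)).Finite :=
        h2.subset Set.inter_subset_left
      rw [← Set.biUnion_of_singleton (closure {w} ∩ closedPoints (WX (kb B) a b))]
      exact h5.isClosed_biUnion fun x hx => hx.2
    rw [h4.closure_eq] at h3
    have h6 : w ∈ closure {w} ∩ closedPoints (WX (kb B) a b) := by
      rw [h3]
      exact subset_closure rfl
    exact h6.2
  refine ⟨G (eta (kb B) a b), hGπ _, ?_, ?_, ?_, ?_⟩
  · rintro ⟨s, hs⟩
    obtain ⟨t, -, ht⟩ := Scheme.exists_preimage_of_isPullback (sec_cart ar 0) s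
      ((inv F) (eta (kb B) a b)) (by
        refine hs.trans ?_
        exact Scheme.Hom.comp_apply _ _ _)
    have h1 : F ((PBS.bc (sb B) y).σ 0 t) = eta (kb B) a b := by
      have h2 : (PBS.bc (sb B) y).σ 0 t = (inv F) (eta (kb B) a b) := ht
      rw [h2, ← Scheme.Hom.comp_apply, IsIso.inv_hom_id]
      rfl
    have h2 : (Wei (WZ a b)).σ 0 (spMap (RingHom.id (kb B)) t) = eta (kb B) a b := by
      rw [← h1, ← Scheme.Hom.comp_apply, ← Scheme.Hom.comp_apply]
      exact congrArg (fun q => (q : Sp (kb B) ⟶ WX (kb B) a b) t) (f.sec 0).symm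
    exact inf_ne (kb B) a b (spMap (RingHom.id (kb B)) t) h2
  · intro x hx
    obtain ⟨w, rfl⟩ := hGsurj x hx
    exact (eta_spec (kb B) a b w).map G.continuous
  · intro Z hZ hη
    have h1 : (G ⁻¹' Z).Finite := eta_fin (kb B) a b _ (hZ.preimage G.continuous) hη
    refine (h1.image G).subset ?_
    rintro x ⟨hx, hx'⟩
    obtain ⟨w, rfl⟩ := hGsurj x hx'
    exact ⟨w, hx, rfl⟩
  · intro x hx hne
    obtain ⟨w, rfl⟩ := hGsurj x hx
    have h1 : w ≠ eta (kb B) a b := by
      rintro rfl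
      exact hne rfl
    have h2 := hGclosed _ (hcl w h1)
    rwa [Set.image_singleton] at h2

/-- The chart at a point of the closed fibre outside `W`. -/
theorem chart (y : Fam 1 B) (η : y.X)
    (h3 : ∀ x : y.X, y.π x = IsLocalRing.closedPoint B → η ⤳ x)
    (h4 : ∀ Z : Set y.X, IsClosed Z → η ∉ Z →
        (Z ∩ {x | y.π x = IsLocalRing.closedPoint B}).Finite)
    (h5 : ∀ x : y.X, y.π x = IsLocalRing.closedPoint B → x ≠ η → IsClosed {x})
    (W : y.X.Opens) (hη : η ∈ W) (T : y.X.Opens) (x : y.X) (hx : x ∈ T)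
    (hπ : y.π x = IsLocalRing.closedPoint B) :
    ∃ V : y.X.Opens, IsAffineOpen V ∧ V ≤ T ∧ x ∈ V ∧ ∃ β : Γ(y.X, V), y.X.basicOpen β ≤ W ∧
      ∀ x' : y.X, x' ∈ V → y.π x' = IsLocalRing.closedPoint B → x' ∉ y.X.basicOpen β → x' = x := by
  obtain ⟨V', aV', xV', leV'⟩ := exists_isAffineOpen_mem_and_subset hx
  have ηV' : η ∈ V' := (h3 x hπ).mem_open V'.isOpen xV'
  obtain ⟨β', hβ', ηβ'⟩ := aV'.exists_basicOpen_le (V := W) ⟨η, hη⟩ ηV'
  let N : Set y.X := {x' | y.π x' = IsLocalRing.closedPoint B ∧ x' ∉ y.X.basicOpen β' ∧ x' ≠ x}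
  have hN : N.Finite := by
    refine (h4 ((y.X.basicOpen β' : Set y.X)ᶜ) (y.X.basicOpen β').isOpen.isClosed_compl
      (fun h => h ηβ')).subset ?_
    rintro x' ⟨h, h', -⟩
    exact ⟨h', h⟩
  have hNc : IsClosed N := by
    rw [← Set.biUnion_of_singleton N]
    refine hN.isClosed_biUnion fun x' hx' => h5 x' hx'.1 ?_
    rintro rfl
    exact hx'.2.1 ηβ'
  obtain ⟨g, hg, xg⟩ := aV'.exists_basicOpen_le (V := (⟨Nᶜ, hNc.isOpen_compl⟩ : y.X.Opens))
    ⟨x, fun h => h.2.2 rfl⟩ xV'
  refine ⟨y.X.basicOpen g, aV'.basicOpen g, (y.X.basicOpen_le g).trans leV', xg,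
    rs y.X (y.X.basicOpen_le g) β', ?_, ?_⟩
  · rw [Scheme.basicOpen_res]
    exact inf_le_right.trans hβ'
  · intro x' hx' hx'π hx'β
    rw [Scheme.basicOpen_res] at hx'β
    by_contra hne
    exact hg hx' ⟨hx'π, fun h => hx'β ⟨hx', h⟩, hne⟩

end closedFibre

end PNE

/-- Preliminary nice covers exist over local rings. -/
theorem t_PNE (hCL : Stmt_CL) : Stmt_PNE := by
  intro B _ _ _ y hy L
  obtain ⟨η, h1, h2, h3, h4, h5⟩ := PNE.fibre hCL y hy
  obtain ⟨W, aW, ηW, leW⟩ := exists_isAffineOpen_mem_and_subset ((L.mU η).mpr h2)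
  let ι : Type := {x : y.X // y.π x = IsLocalRing.closedPoint B ∧ x ∉ W}
  have hfin : Finite ι := by
    have h := h4 ((W : Set y.X)ᶜ) W.isOpen.isClosed_compl (fun h => h ηW)
    refine (h.subset (t := {x : y.X | y.π x = IsLocalRing.closedPoint B ∧ x ∉ W}) ?_).to_subtype
    rintro x ⟨h, h'⟩
    exact ⟨h', h⟩
  have hπ0 : y.π (y.σ 0 (IsLocalRing.closedPoint B)) = IsLocalRing.closedPoint B :=
    PNE.sec_pt y 0 (IsLocalRing.closedPoint B)
  let i₀ : ι := ⟨y.σ 0 (IsLocalRing.closedPoint B), hπ0,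
    fun h => (L.mU _).mp (leW h) ⟨_, rfl⟩⟩
  have key : ∀ i : ι, ∃ V : y.X.Opens, IsAffineOpen V ∧ (i = i₀ → V ≤ L.V) ∧ i.1 ∈ V ∧
      ∃ β : Γ(y.X, V), y.X.basicOpen β ≤ W ∧
        ∀ x' : y.X, x' ∈ V → y.π x' = IsLocalRing.closedPoint B → x' ∉ y.X.basicOpen β →
          x' = i.1 := by
    intro i
    by_cases hi : i = i₀
    · have hiV : i.1 ∈ L.V := by
        rw [hi]
        exact L.le (Set.mem_univ (IsLocalRing.closedPoint B : PrimeSpectrum B))
      obtain ⟨V, aV, leV, mV, β, hβ, hu⟩ := PNE.chart y η h3 h4 h5 W ηW L.V i.1 hiV i.2.1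
      exact ⟨V, aV, fun _ => leV, mV, β, hβ, hu⟩
    · obtain ⟨V, aV, leV, mV, β, hβ, hu⟩ :=
        PNE.chart y η h3 h4 h5 W ηW ⊤ i.1 (Set.mem_univ _) i.2.1
      exact ⟨V, aV, fun h => absurd h hi, mV, β, hβ, hu⟩
  choose V aV leV mV β hβ hu using key
  refine ⟨?_⟩
  exact {
    W := W
    aW := aW
    leW := leW
    ι := ι
    fin := Fintype.ofFinite ι
    dec := Classical.decEq ι
    V := V
    aV := aV
    β := β
    bas := hβ
    z := fun i => i.1
    zc := fun i => i.2.1
    inj := Subtype.val_injective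
    mem := mV
    nW := fun i => i.2.2
    uniq := fun i x hx hx' hx'' => hu i x hx hx' hx''
    cov := fun x hx => by
      by_cases hxW : x ∈ W
      · exact Or.inl hxW
      · exact Or.inr ⟨⟨x, hx, hxW⟩, rfl⟩
    i₀ := i₀
    le₀ := leV i₀ rfl
    sec := rfl }

end Pool.Agent.MG.WL
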