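import Pool.Agent.MG.WL.StmtsW

/-!
# QFV: quasi-finiteness of the charts of the graph
-/

namespace Pool.Agent.MG.WL

namespace QFV

open Polynomial

/-- Quasi-finiteness of `P → T` from quasi-finiteness on `V(t)` and on `D(t)`. -/
theorem of_parts {P T T2 : Type} [CommRing P] [CommRing T] [CommRing T2]
    (c : P →+* T) (hc : c.FiniteType) (t : T)
    (h1 : ((Ideal.Quotient.mk (Ideal.span {t})).comp c).QuasiFinite) (ψ : T →+* T2)
    (h2 : (ψ.comp c).QuasiFinite)
    (hψ : ∀ q : PrimeSpectrum T, t ∉ q.asIdeal → q ∈ Set.range (PrimeSpectrum.comap ψ)) :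
    c.QuasiFinite := by
  have f1 : ∀ x, (PrimeSpectrum.comap ((Ideal.Quotient.mk (Ideal.span {t})).comp c) ⁻¹'
      {x}).Finite := by
    intro x
    algebraize [(Ideal.Quotient.mk (Ideal.span {t})).comp c]
    exact Algebra.QuasiFinite.finite_comap_preimage_singleton (R := P)
      (S := T ⧸ Ideal.span {t}) x
  have f2 : ∀ x, (PrimeSpectrum.comap (ψ.comp c) ⁻¹' {x}).Finite := by
    intro x
    algebraize [ψ.comp c]
    exact Algebra.QuasiFinite.finite_comap_preimage_singleton (R := P) (S := T2) x
  algebraize [c]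
  have h3 : ∀ x, (PrimeSpectrum.comap (algebraMap P T) ⁻¹' {x}).Finite := by
    intro x
    refine (((f1 x).image (PrimeSpectrum.comap (Ideal.Quotient.mk (Ideal.span {t})))).union
      ((f2 x).image (PrimeSpectrum.comap ψ))).subset ?_
    intro q hq
    by_cases ht : t ∈ q.asIdeal
    · left
      have h4 : q ∈ Set.range (PrimeSpectrum.comap (Ideal.Quotient.mk (Ideal.span {t}))) := by
        rw [range_comap_of_surjective _ _ Ideal.Quotient.mk_surjective, Ideal.mk_ker]
        exact (Ideal.span_singleton_le_iff_mem _).2 ht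
      obtain ⟨q', rfl⟩ := h4
      exact ⟨q', hq, rfl⟩
    · right
      obtain ⟨q', rfl⟩ := hψ q ht
      exact ⟨q', hq, rfl⟩
  exact Algebra.QuasiFinite.iff_finite_comap_preimage_singleton.2 h3

attribute [local instance] Polynomial.algebra in
theorem finite_map {B Q : Type} [CommRing B] [CommRing Q] (c : B →+* Q) (hc : c.Finite) :
    (mapRingHom c).Finite := by
  algebraize [c]
  exact RingHom.finite_isStableUnderBaseChange B Q B[X] Q[X] (RingHom.finite_algebraMap.2 hc)

theorem finiteType_map {B Q : Type} [CommRing B] [CommRing Q] (c : B →+* Q)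
    (hc : c.FiniteType) : (mapRingHom c).FiniteType := by
  have h1 : ((mapRingHom c).comp C).FiniteType := by
    rw [mapRingHom_comp_C]
    exact RingHom.FiniteType.comp (by
      have : Algebra.FiniteType Q Q[X] := inferInstance
      exact (RingHom.finiteType_algebraMap (A := Q) (B := Q[X])).2 this) hc
  exact h1.of_comp_finiteType

/-- Quotients of `R[X]/β` are finite over `B[X]`. -/
theorem finite_part {B R T : Type} [CommRing B] [CommRing R] [CommRing T] (c : B →+* R) (β : R)
    (hf : ((Ideal.Quotient.mk (Ideal.span {β})).comp c).Finite) (κ : R[X] →+* T)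
    (hκ : Function.Surjective κ) (h0 : κ (C β) = 0) : (κ.comp (mapRingHom c)).Finite := by
  let k0 : R ⧸ Ideal.span {β} →+* T := Ideal.Quotient.lift (Ideal.span {β}) (κ.comp C) (by
    intro a ha
    rw [Ideal.mem_span_singleton] at ha
    obtain ⟨b, rfl⟩ := ha
    rw [RingHom.comp_apply, map_mul, map_mul, h0, zero_mul])
  let κ' : (R ⧸ Ideal.span {β})[X] →+* T := eval₂RingHom k0 (κ X)
  have h1 : κ = κ'.comp (mapRingHom (Ideal.Quotient.mk (Ideal.span {β}))) := by
    refine ringHom_ext (fun a => ?_) ?_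
    · simp [κ', k0]
    · simp [κ']
  have h2 : Function.Surjective κ' := by
    intro y
    obtain ⟨x, rfl⟩ := hκ y
    exact ⟨_, (congrArg (fun φ => φ x) h1).symm⟩
  have h3 : κ.comp (mapRingHom c) =
      κ'.comp (mapRingHom ((Ideal.Quotient.mk (Ideal.span {β})).comp c)) := by
    conv_lhs => rw [h1]
    rw [RingHom.comp_assoc, mapRingHom_comp]
  rw [h3]
  exact (RingHom.Finite.of_surjective _ h2).comp (finite_map _ hf)

/-- Primes of `T` outside `V(s)` from primes of `S`. -/
theorem primes {R T S : Type} [CommRing R] [CommRing T] [CommRing S] (ι : R →+* T)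
    (ψ : T →+* S) (s : R) (hs : IsUnit (ψ (ι s)))
    (hS : ∀ p : PrimeSpectrum R, s ∉ p.asIdeal → p ∈ Set.range (PrimeSpectrum.comap (ψ.comp ι)))
    (hT : ∀ x : T, ∃ (k : ℕ) (r : R), ι s ^ k * x = ι r) (q : PrimeSpectrum T)
    (hq : ι s ∉ q.asIdeal) : q ∈ Set.range (PrimeSpectrum.comap ψ) := by
  obtain ⟨q', hq'⟩ := hS (PrimeSpectrum.comap ι q) hq
  refine ⟨q', ?_⟩
  ext x
  obtain ⟨k, r, hr⟩ := hT x
  have h1 : x ∈ q.asIdeal ↔ r ∈ (PrimeSpectrum.comap ι q).asIdeal := by
    constructor
    · intro hx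
      change ι r ∈ q.asIdeal
      rw [← hr]
      exact q.asIdeal.mul_mem_left _ hx
    · intro hx
      change ι r ∈ q.asIdeal at hx
      rw [← hr] at hx
      rcases q.isPrime.mem_or_mem hx with h | h
      · exact (hq (q.isPrime.mem_of_pow_mem _ h)).elim
      · exact h
  rw [h1, ← hq']
  change ψ x ∈ q'.asIdeal ↔ ψ (ι r) ∈ q'.asIdeal
  rw [← hr, map_mul, map_pow]
  constructor
  · intro hx
    exact q'.asIdeal.mul_mem_left _ hx
  · intro hx
    rcases q'.isPrime.mem_or_mem hx with h | h
    · exact (q'.isPrime.ne_top (Ideal.eq_top_of_isUnit_mem _ (q'.isPrime.mem_of_pow_mem _ h)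
        hs)).elim
    · exact h

/-- Elements of `R[X]/(a X - b)`. -/
theorem clear {R T : Type} [CommRing R] [CommRing T] (κ : R[X] →+* T)
    (hκ : Function.Surjective κ) (a b s : R) (hs : ∃ d, s = a * d)
    (h0 : κ (C a) * κ X = κ (C b)) (x : T) :
    ∃ (k : ℕ) (r : R), κ (C s) ^ k * x = κ (C r) := by
  obtain ⟨p, rfl⟩ := hκ x
  induction p using Polynomial.induction_on' with
  | add p q hp hq =>
    obtain ⟨k, r, hk⟩ := hp
    obtain ⟨l, r', hl⟩ := hq
    refine ⟨k + l, s ^ l * r + s ^ k * r', ?_⟩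
    rw [map_add, pow_add, C_add, map_add, C_mul, C_mul, map_mul, map_mul, ← hk, ← hl, C_pow,
      C_pow, map_pow, map_pow]
    ring
  | monomial k r =>
    obtain ⟨d, rfl⟩ := hs
    refine ⟨k, d ^ k * (r * b ^ k), ?_⟩
    rw [← C_mul_X_pow_eq_monomial, map_mul κ, map_pow κ, C_mul, map_mul, mul_pow, C_mul, C_mul,
      map_mul, map_mul, C_pow, map_pow, C_pow, map_pow, ← h0, mul_pow]
    ring

section

variable {B R S T : Type} [CommRing B] [CommRing R] [CommRing S] [CommRing T] (c : B →+* R)
  (j : R →+* S) (β : R) (h : S) (α : R) (N : ℕ) (hc : c.FiniteType)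
  (hfin : ((Ideal.Quotient.mk (Ideal.span {β})).comp c).Finite)
  (hu : IsUnit (j β))
  (hS : ∀ p : PrimeSpectrum R, β ∉ p.asIdeal → p ∈ Set.range (PrimeSpectrum.comap j))
  (hh : j β ^ N * h = j α) (hqf : (eval₂RingHom (j.comp c) h).QuasiFinite)
  (κ : R[X] →+* T) (hκ : Function.Surjective κ)

include hc hfin hκ

theorem common {T2 : Type} [CommRing T2] (ψ : T →+* T2)
    (h2 : (ψ.comp (κ.comp (mapRingHom c))).QuasiFinite)
    (hψ : ∀ q : PrimeSpectrum T, κ (C β) ∉ q.asIdeal → q ∈ Set.range (PrimeSpectrum.comap ψ)) :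
    (κ.comp (mapRingHom c)).QuasiFinite := by
  refine of_parts (κ.comp (mapRingHom c)) ?_ (κ (C β)) ?_ ψ h2 hψ
  · exact (RingHom.FiniteType.of_surjective _ hκ).comp (finiteType_map c hc)
  · rw [← RingHom.comp_assoc]
    exact RingHom.QuasiFinite.of_finite (finite_part c β hfin _
      (Ideal.Quotient.mk_surjective.comp hκ)
      (Ideal.Quotient.eq_zero_iff_mem.2 (Ideal.mem_span_singleton_self _)))

include hu hS hqf

theorem first (h0 : κ (C (β ^ N)) * κ X = κ (C α)) (ψ : T →+* S)
    (hψκ : ψ.comp κ = eval₂RingHom j h) : (κ.comp (mapRingHom c)).QuasiFinite := by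
  refine common c β hc hfin κ hκ ψ ?_ ?_
  · have h1 : ψ.comp (κ.comp (mapRingHom c)) = eval₂RingHom (j.comp c) h := by
      rw [← RingHom.comp_assoc, hψκ]
      refine ringHom_ext (fun a => ?_) ?_
      · simp
      · simp
    rw [h1]
    exact hqf
  · intro q hq
    have h3 : ψ.comp (κ.comp C) = j := by
      rw [← RingHom.comp_assoc, hψκ]
      ext a
      simp
    refine primes (κ.comp C) ψ β ?_ ?_ (fun x => ?_) q hq
    · have h4 := congrArg (fun f => f β) h3
      change ψ (κ (C β)) = j β at h4
      change IsUnit (ψ (κ (C β)))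
      rw [h4]
      exact hu
    · rw [h3]
      exact hS
    · obtain ⟨k, r, hk⟩ := clear κ hκ (β ^ N) α (β ^ N) ⟨1, (mul_one _).symm⟩ h0 x
      refine ⟨N * k, r, ?_⟩
      rw [pow_mul]
      change (κ (C β) ^ N) ^ k * x = κ (C r)
      rw [← map_pow, ← C_pow]
      exact hk

include hh

theorem second (h0 : κ (C α) * κ X = κ (C (β ^ N))) {S' : Type} [CommRing S'] [Algebra S S']
    [IsLocalization.Away h S'] (w : S'ˣ) (hw : (w : S') = algebraMap S S' h) (ψ : T →+* S')
    (hψκ : ψ.comp κ = eval₂RingHom ((algebraMap S S').comp j) (w⁻¹ : S'ˣ)) :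
    (κ.comp (mapRingHom c)).QuasiFinite := by
  let a : S →+* S' := algebraMap S S'
  have hua : IsUnit (a h) := IsLocalization.Away.algebraMap_isUnit (S := S') h
  refine common c β hc hfin κ hκ ψ ?_ ?_
  · -- inversion of the coordinate
    let v : LaurentPolynomial B →+* S' := LaurentPolynomial.eval₂ ((a.comp j).comp c) w
    have h1 : (v.comp (toLaurent : B[X] →+* LaurentPolynomial B)).QuasiFinite := by
      have h2 : v.comp (toLaurent : B[X] →+* LaurentPolynomial B) =
          a.comp (eval₂RingHom (j.comp c) h) := by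
        refine ringHom_ext (fun x => ?_) ?_
        · simp [v]
        · simp [v, hw, a]
      rw [h2]
      refine RingHom.QuasiFinite.comp ?_ hqf
      exact RingHom.quasiFinite_algebraMap.2
        (Algebra.QuasiFinite.of_isLocalization (.powers h))
    have h2 : v.QuasiFinite := h1.of_comp
    have h3 : (toLaurent : B[X] →+* LaurentPolynomial B).QuasiFinite :=
      RingHom.quasiFinite_algebraMap.2
        (Algebra.QuasiFinite.of_isLocalization (S := B[X]) (.powers (X : B[X])))
    have h4 : ψ.comp (κ.comp (mapRingHom c)) = (v.comp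
        (LaurentPolynomial.invert (R := B) : LaurentPolynomial B →+* LaurentPolynomial B)).comp
          (toLaurent : B[X] →+* LaurentPolynomial B) := by
      rw [← RingHom.comp_assoc, hψκ]
      refine ringHom_ext (fun x => ?_) ?_
      · simp [v, a]
      · simp [v]
    rw [h4]
    exact (h2.comp (RingHom.QuasiFinite.of_finite (LaurentPolynomial.invert
      (R := B)).toRingEquiv.finite)).comp h3
  · intro q hq
    have h3 : ψ.comp (κ.comp C) = a.comp j := by
      rw [← RingHom.comp_assoc, hψκ]
      ext x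
      simp [a]
    have hαβ : (κ.comp C) (α * β) ∉ q.asIdeal := by
      intro hx
      rw [map_mul] at hx
      rcases q.isPrime.mem_or_mem hx with h5 | h5
      · have h6 : κ (C β) ^ N ∈ q.asIdeal := by
          rw [← map_pow, ← C_pow, ← h0]
          exact q.asIdeal.mul_mem_right _ h5
        exact hq (q.isPrime.mem_of_pow_mem _ h6)
      · exact hq h5
    refine primes (κ.comp C) ψ (α * β) ?_ ?_ (fun x => ?_) q hαβ
    · have h4 := congrArg (fun f => f (α * β)) h3
      change ψ ((κ.comp C) (α * β)) = a (j (α * β)) at h4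
      rw [h4, map_mul, ← hh, map_mul, map_mul]
      refine (IsUnit.mul ?_ hua).mul (hu.map a)
      rw [map_pow]
      exact (hu.map a).pow N
    · rw [h3]
      intro p hp
      have hβ : β ∉ p.asIdeal := fun h => hp (p.asIdeal.mul_mem_left _ h)
      have hα : α ∉ p.asIdeal := fun h => hp (p.asIdeal.mul_mem_right _ h)
      obtain ⟨p', hp'⟩ := hS p hβ
      have hh' : h ∉ p'.asIdeal := by
        intro h7
        apply hα
        rw [← hp']
        change j α ∈ p'.asIdeal
        rw [← hh]
        exact p'.asIdeal.mul_mem_left _ h7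
      have h8 : p' ∈ Set.range (PrimeSpectrum.comap a) := by
        change p' ∈ Set.range (PrimeSpectrum.comap (algebraMap S S'))
        rw [PrimeSpectrum.localization_away_comap_range S' h]
        exact hh'
      obtain ⟨p'', rfl⟩ := h8
      exact ⟨p'', hp'⟩
    · exact clear κ hκ α (β ^ N) (α * β) ⟨β, rfl⟩ h0 x

end

end QFV

open Polynomial in
theorem t_QFV : Stmt_QFV := by
  intro B R S _ _ _ c j β h α N hc hfin hloc hh hqf
  let A : Algebra R S := j.toAlgebra
  have hloc' : IsLocalization.Away β S := hloc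
  have hj : algebraMap R S = j := rfl
  have hu : IsUnit (j β) := IsLocalization.Away.algebraMap_isUnit (S := S) β
  have hS : ∀ p : PrimeSpectrum R, β ∉ p.asIdeal → p ∈ Set.range (PrimeSpectrum.comap j) := by
    intro p hp
    rw [← hj, PrimeSpectrum.localization_away_comap_range S β]
    exact hp
  constructor
  · refine QFV.first c j β h α N hc hfin hu hS hqf
      (Ideal.Quotient.mk (Ideal.span {(C (β ^ N) * X - C α : R[X])}))
      Ideal.Quotient.mk_surjective ?_ (Ideal.Quotient.lift _ (eval₂RingHom j h) (by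
        intro a ha
        rw [Ideal.mem_span_singleton] at ha
        obtain ⟨b, rfl⟩ := ha
        rw [map_mul, coe_eval₂RingHom, eval₂_sub, eval₂_mul, eval₂_C, eval₂_X, eval₂_C,
          map_pow, hh, sub_self, zero_mul])) (Ideal.Quotient.lift_comp_mk _ _ _)
    rw [← map_mul, ← sub_eq_zero, ← map_sub]
    exact Ideal.Quotient.eq_zero_iff_mem.2 (Ideal.mem_span_singleton_self _)
  · have hua : IsUnit (algebraMap S (Localization.Away h) h) :=
      IsLocalization.Away.algebraMap_isUnit (S := Localization.Away h) h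
    have hwi : algebraMap S (Localization.Away h) (j α) * (hua.unit⁻¹ : (Localization.Away h)ˣ) =
        algebraMap S (Localization.Away h) (j (β ^ N)) := by
      rw [← hh, map_mul, mul_assoc, IsUnit.mul_val_inv, mul_one, map_pow j]
    refine QFV.second c j β h α N hc hfin hu hS hh hqf
      (Ideal.Quotient.mk (Ideal.span {(C α * X - C (β ^ N) : R[X])}))
      Ideal.Quotient.mk_surjective ?_ hua.unit rfl (Ideal.Quotient.lift _
      (eval₂RingHom ((algebraMap S (Localization.Away h)).comp j) (hua.unit⁻¹ : _ˣ)) (by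
        intro x hx
        rw [Ideal.mem_span_singleton] at hx
        obtain ⟨b, rfl⟩ := hx
        rw [map_mul, coe_eval₂RingHom, eval₂_sub, eval₂_mul, eval₂_C, eval₂_X, eval₂_C,
          RingHom.comp_apply, RingHom.comp_apply, hwi, sub_self, zero_mul]))
      (Ideal.Quotient.lift_comp_mk _ _ _)
    rw [← map_mul, ← sub_eq_zero, ← map_sub]
    exact Ideal.Quotient.eq_zero_iff_mem.2 (Ideal.mem_span_singleton_self _)

end Pool.Agent.MG.WL
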