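import Pool.Agent.MG.WL.StmtsX

/-!
# REL: two charts differ by a scaling
-/

open CategoryTheory CategoryTheory.Limits AlgebraicGeometry TensorProduct

namespace Pool.Agent.MG.WL

open Pool.Agent.MG.W Pool.Agent.MG.One

namespace REL

section

variable {A B D : Type} [CommRing A] [CommRing B] [CommRing D] {φ : A →+* B} {C : Fam 1 A}

theorem aux {X1 X2 X3 X4 X5 Y3 Y4 : Scheme.{0}} (s1 : X1 ⟶ X2) (m : X2 ⟶ X3) (w : X3 ⟶ X4)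
    (k : X4 ⟶ X5) (m' : X1 ⟶ Y3) (s : Y3 ⟶ X3) (w' : Y3 ⟶ Y4) (k' : Y4 ⟶ X5)
    (e3 : s1 ≫ m = m' ≫ s) (h : s ≫ w ≫ k = w' ≫ k') :
    s1 ≫ (m ≫ w) ≫ k = (m' ≫ w') ≫ k' := by
  rw [Category.assoc, ← Category.assoc, e3, Category.assoc, h, Category.assoc]

theorem aux2 {X1 X2 X3 X4 : Scheme.{0}} (s' : X1 ⟶ X2) (s : X2 ⟶ X3) (t : X1 ⟶ X3)
    (w : X3 ⟶ X4) (w' : X2 ⟶ X4) (w'' : X1 ⟶ X4) (e : s' ≫ s = t)
    (h : s ≫ w = w') (h' : s' ≫ w' = w'') : t ≫ w = w'' := by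
  rw [← e, Category.assoc, h, h']

theorem push_f (c : Ch φ C) (ψ : B →+* D) :
    (c.push ψ).e.f = (warr ψ (a := c.a) (b := c.b) rfl rfl).f ≫ c.e.f := rfl

theorem ex (hEXA : Stmt_EXA) {B' : Type} [CommRing B'] {φ' : A →+* B'} (c : Ch φ C)
    (c' : Ch φ' C) (ψ : B →+* D) (ψ' : B' →+* D) (h6 : IsUnit (6 : D))
    (h : ψ.comp φ = ψ'.comp φ') : ∃ u : D, Rel c c' ψ ψ' u := by
  have h1 : ψ'.comp φ' = (RingHom.id D).comp (ψ.comp φ) := by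
    rw [RingHom.id_comp, h]
  obtain ⟨u, v, huv, ha, hb, hf⟩ :=
    hEXA.1 h6 (arrowLift (castA h1 (c'.push ψ').e) (c.push ψ).e)
  refine ⟨u, v, huv, ha, hb, ?_⟩
  have h2 := arrowLift_f (castA h1 (c'.push ψ').e) (c.push ψ).e
  rw [hf] at h2
  exact h2

theorem uniq (hEXA : Stmt_EXA) {B' : Type} [CommRing B'] {φ' : A →+* B'} (c : Ch φ C)
    (c' : Ch φ' C) (ψ : B →+* D) (ψ' : B' →+* D) (u u' : D) (hu : Rel c c' ψ ψ' u)
    (hu' : Rel c c' ψ ψ' u') : u = u' := by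
  obtain ⟨v, huv, ha, hb, h⟩ := hu
  obtain ⟨v', huv', ha', hb', h'⟩ := hu'
  have h2 : (scarr huv ha hb).f = (scarr huv' ha' hb').f :=
    arrow_ext (scarr huv ha hb) (scarr huv' ha' hb') (c.push ψ).e (h.trans h'.symm)
  exact hEXA.2 huv ha hb huv' ha' hb' h2

theorem cmp (hSCC : Stmt_SCC) {B' B'' : Type} [CommRing B'] [CommRing B''] {φ' : A →+* B'}
    {φ'' : A →+* B''} (c : Ch φ C) (c' : Ch φ' C) (c'' : Ch φ'' C) (ψ : B →+* D)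
    (ψ' : B' →+* D) (ψ'' : B'' →+* D) (u u' : D) (hu : Rel c c' ψ ψ' u)
    (hu' : Rel c' c'' ψ' ψ'' u') : Rel c c'' ψ ψ'' (u' * u) := by
  obtain ⟨v, huv, ha, hb, h⟩ := hu
  obtain ⟨v', huv', ha', hb', h'⟩ := hu'
  have hws : (u' * u) * (v * v') = 1 := by
    calc (u' * u) * (v * v') = (u' * v') * (u * v) := by ring
      _ = 1 := by rw [huv, huv', one_mul]
  have hc : ψ'' c''.a = (u' * u) ^ 4 * ψ c.a := by
    rw [ha', ha]; ring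
  have hd : ψ'' c''.b = (u' * u) ^ 6 * ψ c.b := by
    rw [hb', hb]; ring
  refine ⟨v * v', hws, hc, hd, ?_⟩
  exact aux2 _ _ _ _ _ _ (hSCC huv ha hb huv' ha' hb' hws hc hd rfl) h h'

theorem psh {B' D' : Type} [CommRing B'] [CommRing D'] {φ' : A →+* B'} (c : Ch φ C)
    (c' : Ch φ' C) (ψ : B →+* D) (ψ' : B' →+* D) (χ : D →+* D') (u : D)
    (hu : Rel c c' ψ ψ' u) : Rel c c' (χ.comp ψ) (χ.comp ψ') (χ u) := by
  obtain ⟨v, huv, ha, hb, h⟩ := hu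
  have hws : χ u * χ v = 1 := by rw [← map_mul, huv, map_one]
  have hc : (χ.comp ψ') c'.a = (χ u) ^ 4 * (χ.comp ψ) c.a := by
    rw [RingHom.comp_apply, RingHom.comp_apply, ha, map_mul, map_pow]
  have hd : (χ.comp ψ') c'.b = (χ u) ^ 6 * (χ.comp ψ) c.b := by
    rw [RingHom.comp_apply, RingHom.comp_apply, hb, map_mul, map_pow]
  refine ⟨χ v, hws, hc, hd, ?_⟩
  have e1 : (warr (χ.comp ψ) (a := c.a) (b := c.b) rfl rfl).f =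
      WX.map χ (a := ψ c.a) (b := ψ c.b) rfl rfl ≫ (warr ψ (a := c.a) (b := c.b) rfl rfl).f :=
    (warr_comp ψ χ rfl rfl rfl rfl rfl rfl rfl).symm
  have e2 : (warr (χ.comp ψ') (a := c'.a) (b := c'.b) rfl rfl).f =
      WX.map χ (a := ψ' c'.a) (b := ψ' c'.b) rfl rfl ≫
        (warr ψ' (a := c'.a) (b := c'.b) rfl rfl).f :=
    (warr_comp ψ' χ rfl rfl rfl rfl rfl rfl rfl).symm
  have e3 := t_WSC.2.2 χ huv ha hb hws hc hd rfl rfl rfl rfl rfl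
  rw [e1, e2]
  exact aux _ _ _ _ _ _ _ _ e3 h

end

end REL

theorem t_REL (hEXA : Stmt_EXA) (hSCC : Stmt_SCC) : Stmt_REL :=
  ⟨fun c c' ψ ψ' h6 h => REL.ex hEXA c c' ψ ψ' h6 h,
    fun c c' ψ ψ' u u' _ hu hu' => REL.uniq hEXA c c' ψ ψ' u u' hu hu',
    fun c c' c'' ψ ψ' ψ'' u u' hu hu' => REL.cmp hSCC c c' c'' ψ ψ' ψ'' u u' hu hu',
    fun c c' ψ ψ' χ u hu => REL.psh c c' ψ ψ' χ u hu⟩

end Pool.Agent.MG.WL
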