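import Pool.Agent.MG.WL.StmtsX

/-!
# RGD: rigidity of deformations
-/

open CategoryTheory CategoryTheory.Limits AlgebraicGeometry TensorProduct

namespace Pool.Agent.MG.WL

open Pool.Agent.MG.W Pool.Agent.MG.One

namespace RGD

/-- Scaling with `u = 1` is the identity. -/
theorem sc_id {B : Type} [CommRing B] {a b u v : B} (huv : u * v = 1) (ha : a = u ^ 4 * a)
    (hb : b = u ^ 6 * b) (hu : u = 1) : WX.sc huv ha hb = 𝟙 _ := by
  subst hu
  have hv : v = 1 := by rw [one_mul] at huv; exact huv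
  subst hv
  exact sc_one ha hb

/-- A unit `u = 1 + t ε` fixing `a + ε α` and `b + ε β`, where `(a, b) = 1`, is `1`. -/
theorem unit_eq_one {D : Type} [CommRing D] (h6 : IsUnit (6 : D)) {a b : D}
    (h : Ideal.span {a, b} = ⊤) {α β : D} {u : Eps D} (hu : u.fst = 1)
    (ha : ep a α = u ^ 4 * ep a α) (hb : ep b β = u ^ 6 * ep b β) : u = 1 := by
  obtain ⟨i6, hi⟩ := h6.exists_right_inv
  rw [Ideal.eq_top_iff_one, Ideal.mem_span_pair] at h
  obtain ⟨r, s, hrs⟩ := h
  have h2f : (u * u).fst = 1 := by rw [fst_mul', hu, one_mul]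
  have h2s : (u * u).snd = 2 * u.snd := by rw [snd_mul', hu]; ring
  have h4 : u ^ 4 = (u * u) * (u * u) := by ring
  have h6' : u ^ 6 = (u * u) * ((u * u) * (u * u)) := by ring
  have h4f : (u * u * (u * u)).fst = 1 := by rw [fst_mul', h2f, one_mul]
  have h4s : (u * u * (u * u)).snd = 4 * u.snd := by rw [snd_mul', h2f, h2s]; ring
  have h6f : (u * u * (u * u * (u * u))).fst = 1 := by rw [fst_mul', h2f, h4f, one_mul]
  have h6s : (u * u * (u * u * (u * u))).snd = 6 * u.snd := by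
    rw [snd_mul', h2f, h2s, h4f, h4s]; ring
  have e1 := congrArg TrivSqZeroExt.snd ha
  have e2 := congrArg TrivSqZeroExt.snd hb
  rw [h4, snd_mul', h4f, h4s, snd_ep, fst_ep] at e1
  rw [h6', snd_mul', h6f, h6s, snd_ep, fst_ep] at e2
  have ht : u.snd = 0 := by
    linear_combination (-9 * i6 ^ 2 * r) * e1 - (i6 * s) * e2 - u.snd * hrs
      - (r * u.snd * a * (6 * i6 + 1) + s * u.snd * b) * hi
  refine TrivSqZeroExt.ext ?_ ?_
  · rw [hu, TrivSqZeroExt.fst_one]
  · rw [ht, TrivSqZeroExt.snd_one]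

theorem local_aux (hEXA : Stmt_EXA) {D : Type} [CommRing D] (h6 : IsUnit (6 : D)) {a b : D}
    (h : Ideal.span {a, b} = ⊤) (z : Fam 1 (Eps D)) (hz : IsStable 1 z)
    (r : Arrow (eps0 D) (Wei (WZ a b)) z) (k : Arrow (RingHom.id (Eps D)) z z)
    (hk : r.f ≫ k.f = r.f) : k.f = 𝟙 _ := by
  obtain ⟨α, β, g, hg⟩ := exists_dW h6 h ⟨z, hz, r⟩
  have hg' : r.f ≫ g.f = (dW h6 h α β).r.f := hg
  let gi : Arrow (RingHom.id (Eps D)) (dW h6 h α β).y z :=
    arrowLift (castA (RingHom.comp_id _).symm (idArr (dW h6 h α β).y)) g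
  have hgi : gi.f ≫ g.f = 𝟙 _ := arrowLift_f _ _
  have hiso : IsIso g.f := arrow_id_iso g
  have hgi2 : g.f ≫ gi.f = 𝟙 _ := by
    rw [← cancel_mono g.f, Category.assoc, hgi, Category.comp_id, Category.id_comp]
  let h0 : Arrow (RingHom.id (Eps D)) (dW h6 h α β).y (dW h6 h α β).y :=
    castA (by rw [RingHom.comp_id, RingHom.comp_id]) (PBS.comp (PBS.comp gi k) g)
  have hh0 : h0.f = (gi.f ≫ k.f) ≫ g.f := rfl
  have hr0 : (dW h6 h α β).r.f ≫ h0.f = (dW h6 h α β).r.f := by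
    rw [hh0, ← hg', Category.assoc, Category.assoc, reassoc_of% hgi2, reassoc_of% hk]
  obtain ⟨u, v, huv, ha, hb, e⟩ := hEXA.1 (isUnit6_map (algebraMap D (Eps D)) h6) h0
  have hws : u.fst * v.fst = 1 := by
    rw [← fst_mul', huv, TrivSqZeroExt.fst_one]
  have hpow : ∀ (w : Eps D) (n : ℕ), (w ^ n).fst = w.fst ^ n := fun w n =>
    TrivSqZeroExt.fst_pow w n
  have hc : a = u.fst ^ 4 * a := by
    have := congrArg TrivSqZeroExt.fst ha
    rwa [fst_mul', hpow, fst_ep] at this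
  have hd : b = u.fst ^ 6 * b := by
    have := congrArg TrivSqZeroExt.fst hb
    rwa [fst_mul', hpow, fst_ep] at this
  have h1 := t_WSC.2.2 (eps0 D) huv ha hb (c := a) (d := b) (c' := a) (d' := b) (w := u.fst)
      (s := v.fst) hws hc hd (fst_ep a α).symm (fst_ep b β).symm
      (fst_ep a α).symm (fst_ep b β).symm rfl
  have h2 : WX.sc hws hc hd ≫ (dW h6 h α β).r.f = (dW h6 h α β).r.f := by
    refine Eq.trans ?_ hr0
    rw [e]
    exact h1
  have h3 : WX.sc hws hc hd = 𝟙 _ := by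
    refine (dW h6 h α β).r.cart.hom_ext ?_ ?_
    · exact h2.trans (Category.id_comp _).symm
    · exact (WX.sc_pr hws hc hd).trans (Category.id_comp _).symm
  have h4 : u.fst = 1 := by
    refine hEXA.2 hws hc hd (mul_one 1) (by ring) (by ring) ?_
    rw [h3, sc_one]
  have h5 : u = 1 := unit_eq_one h6 h h4 ha hb
  have h6 : h0.f = 𝟙 _ := by
    rw [e]
    exact sc_id huv ha hb h5
  have h7 : k.f = (g.f ≫ gi.f) ≫ k.f ≫ (g.f ≫ gi.f) := by
    rw [hgi2, Category.id_comp, Category.comp_id]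
  have h8 : (g.f ≫ gi.f) ≫ k.f ≫ (g.f ≫ gi.f) = g.f ≫ h0.f ≫ gi.f := by
    rw [hh0]
    simp only [Category.assoc]
  rw [h7, h8, h6, Category.id_comp, hgi2]

theorem local_thm (hEXA : Stmt_EXA) {D : Type} [CommRing D] (h6 : IsUnit (6 : D)) {a b : D}
    (h : Ideal.span {a, b} = ⊤) (z z' : Fam 1 (Eps D)) (hz : IsStable 1 z)
    (r : Arrow (eps0 D) (Wei (WZ a b)) z) (f f' : Arrow (RingHom.id (Eps D)) z z')
    (hf : r.f ≫ f.f = r.f ≫ f'.f) : f.f = f'.f := by
  let k : Arrow (RingHom.id (Eps D)) z z := arrowLift (castA (RingHom.comp_id _).symm f') f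
  have hk : k.f ≫ f.f = f'.f := arrowLift_f _ _
  have hi : IsIso f.f := arrow_id_iso f
  have h1 : r.f ≫ k.f = r.f := by
    rw [← cancel_mono f.f, Category.assoc, hk, hf]
  have h2 := local_aux hEXA h6 h z hz r k h1
  rw [← hk, h2, Category.id_comp]

end RGD

theorem t_RGD (hEXA : Stmt_EXA) (hLOE : Stmt_LOE) : Stmt_RGD := by
  intro D _ h6 x hx z z' hz hz' r f f' hf
  refine Scheme.hom_ext_of_forall _ _ fun y => ?_
  let q : PrimeSpectrum (Eps D) := z.π y
  obtain ⟨f0, hf0, ⟨c⟩⟩ := hx (PrimeSpectrum.comap (algebraMap D (Eps D)) q)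
  set φ : D →+* Localization.Away f0 := algebraMap D (Localization.Away f0) with hφ
  -- the open immersion
  have hloc := hLOE (A := D) (B := Localization.Away f0) f0
  have hoi : IsOpenImmersion (spMap (epsMap φ)) := by
    let _ := (epsMap (algebraMap D (Localization.Away f0))).toAlgebra
    exact IsOpenImmersion.of_isLocalization (TrivSqZeroExt.inl f0 : Eps D)
  have hrange : ∃ w : PrimeSpectrum (Eps (Localization.Away f0)),
      PrimeSpectrum.comap (epsMap φ) w = q := by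
    let _ := (epsMap (algebraMap D (Localization.Away f0))).toAlgebra
    have h1 := PrimeSpectrum.localization_away_comap_range (Eps (Localization.Away f0))
      (TrivSqZeroExt.inl f0 : Eps D)
    have h2 : q ∈ (PrimeSpectrum.basicOpen (TrivSqZeroExt.inl f0 : Eps D) :
        Set (PrimeSpectrum (Eps D))) := by
      intro h3
      exact hf0 h3
    rw [← h1] at h2
    exact h2
  obtain ⟨w, hw⟩ := hrange
  -- base change
  let bz := PBS.bcArrow (epsMap φ) z
  let bz' := PBS.bcArrow (epsMap φ) z'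
  have hbz : IsOpenImmersion bz.f := by
    change IsOpenImmersion (pullback.fst z.π (spMap (epsMap φ)))
    infer_instance
  let F : Arrow (RingHom.id _) (PBS.bc (epsMap φ) z) (PBS.bc (epsMap φ) z') :=
    arrowLift (castA (by rw [RingHom.comp_id, RingHom.id_comp]) (PBS.comp bz f)) bz'
  let F' : Arrow (RingHom.id _) (PBS.bc (epsMap φ) z) (PBS.bc (epsMap φ) z') :=
    arrowLift (castA (by rw [RingHom.comp_id, RingHom.id_comp]) (PBS.comp bz f')) bz'
  have hF : F.f ≫ bz'.f = bz.f ≫ f.f := arrowLift_f _ _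
  have hF' : F'.f ≫ bz'.f = bz.f ≫ f'.f := arrowLift_f _ _
  let d : Defo 1 (Wei (WZ c.a c.b)) := bcD c.e ⟨z, hz, r⟩
  let dr : Arrow (eps0 (Localization.Away f0)) (Wei (WZ c.a c.b)) (PBS.bc (epsMap φ) z) := d.r
  have hd : dr.f ≫ bz.f = c.e.f ≫ r.f := bcD_r c.e ⟨z, hz, r⟩
  have hdF : dr.f ≫ F.f = dr.f ≫ F'.f := by
    refine arrow_ext (PBS.comp dr F) (PBS.comp dr F') bz' ?_
    change (dr.f ≫ F.f) ≫ bz'.f = (dr.f ≫ F'.f) ≫ bz'.f
    rw [Category.assoc, Category.assoc, hF, hF', reassoc_of% hd, reassoc_of% hd, hf]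
  have hFF : F.f = F'.f :=
    RGD.local_thm hEXA (isUnit6_map φ h6) c.h (PBS.bc (epsMap φ) z) (PBS.bc (epsMap φ) z')
      d.stable dr F F' hdF
  have hmain : bz.f ≫ f.f = bz.f ≫ f'.f := by rw [← hF, ← hF', hFF]
  refine ⟨bz.f.opensRange, ?_, ?_⟩
  · have h1 : z.π y = spMap (epsMap φ) w := hw.symm
    obtain ⟨t, ht, -⟩ := Scheme.Pullback.exists_preimage_pullback (f := z.π)
      (g := spMap (epsMap φ)) y w h1
    exact ⟨t, ht⟩
  · have e1 := Scheme.Hom.isoOpensRange_inv_comp bz.f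
    have e2 : (bz.f.isoOpensRange.inv ≫ bz.f) ≫ f.f = (bz.f.isoOpensRange.inv ≫ bz.f) ≫ f'.f := by
      rw [Category.assoc, Category.assoc, hmain]
    rw [e1] at e2
    exact e2

end Pool.Agent.MG.WL
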