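import Pool.Agent.MG.WL.StmtsX

/-!
# SCC: composition of scalings
-/

open CategoryTheory CategoryTheory.Limits AlgebraicGeometry TensorProduct

namespace Pool.Agent.MG.WL

open Pool.Agent.MG.W Pool.Agent.MG.One

theorem t_SCC : Stmt_SCC := by
  intro D _ a b a' b' a'' b'' u v u' v' w s huv ha hb huv' ha' hb' hws hc hd hw
  have hs : s = v * v' := by
    calc s = (u * v) * (u' * v') * s := by rw [huv, huv']; ring
      _ = (w * s) * (v * v') := by rw [hw]; ring
      _ = v * v' := by rw [hws, one_mul]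
  have h1 : (sc1 huv' ha' hb').comp (sc1 huv ha hb) = sc1 hws hc hd := by
    refine hom1_ext ?_ ?_ ?_
    · intro c
      rw [RingHom.comp_apply, sc1_b, sc1_b, sc1_b]
    · rw [RingHom.comp_apply, sc1_x, map_mul, map_pow, sc1_b, sc1_x, sc1_x, hs, map_mul]
      ring
    · rw [RingHom.comp_apply, sc1_y, map_mul, map_pow, sc1_b, sc1_y, sc1_y, hs, map_mul]
      ring
  have h2 : (sc2 ha' hb').comp (sc2 ha hb) = sc2 hc hd := by
    refine hom2_ext ?_ ?_ ?_
    · intro c
      rw [RingHom.comp_apply, sc2_b, sc2_b, sc2_b]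
    · rw [RingHom.comp_apply, sc2_z, map_mul, sc2_b, sc2_z, sc2_z, hw, map_mul]
      ring
    · rw [RingHom.comp_apply, sc2_t, sc2_t, sc2_t]
  refine WX.ext' ?_ ?_
  · rw [← Category.assoc, WX.in1_sc, Category.assoc, WX.in1_sc, ← Category.assoc,
      W.spMap_comp', h1, WX.in1_sc]
  · rw [← Category.assoc, WX.in2_sc, Category.assoc, WX.in2_sc, ← Category.assoc,
      W.spMap_comp', h2, WX.in2_sc]

end Pool.Agent.MG.WL
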