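import Pool.Agent.MG.WL.StmtsX

/-!
# TAU: the coefficient of a covector in a chart
-/

open CategoryTheory CategoryTheory.Limits AlgebraicGeometry TensorProduct

namespace Pool.Agent.MG.WL

open Pool.Agent.MG.W Pool.Agent.MG.One

namespace TAU

/-- Finitely many charts which cover the base. -/
theorem exists_cover {A : Type} [CommRing A] {C : Fam 1 A} (h : LW C) :
    ∃ (r : ℕ) (g : Fin r → A), Ideal.span (Set.range g) = ⊤ ∧
      ∀ i, Nonempty (Ch (algebraMap A (Localization.Away (g i))) C) := by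
  have h1 : Ideal.span (chI C) = ⊤ := by
    by_contra hne
    obtain ⟨m, hm, hle⟩ := Ideal.exists_le_maximal _ hne
    obtain ⟨f, hf, hc⟩ := h ⟨m, hm.isPrime⟩
    exact hf (hle (Ideal.subset_span hc))
  rw [Ideal.eq_top_iff_one] at h1
  obtain ⟨T, hT, h2⟩ := Submodule.mem_span_finite_of_mem_span h1
  refine ⟨T.card, fun i => (T.equivFin.symm i : A), ?_, fun i => hT (T.equivFin.symm i).2⟩
  rw [Ideal.eq_top_iff_one]
  have h3 : Set.range (fun i => (T.equivFin.symm i : A)) = (T : Set A) := by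
    ext x
    constructor
    · rintro ⟨i, rfl⟩
      exact (T.equivFin.symm i).2
    · intro hx
      exact ⟨T.equivFin ⟨x, hx⟩, by simp⟩
  rw [h3]
  exact h2

theorem six_loc {A B : Type} [CommRing A] [CommRing B] (φ : A →+* B) (h : IsUnit (6 : A)) :
    IsUnit (6 : B) := by
  have := h.map φ
  rwa [map_ofNat] at this

variable {A : Type} [CommRing A]

/-- The classes of a deformation in charts are compatible. -/
theorem cpt_of_delta (hDEC : Stmt_DEC) (h6 : IsUnit (6 : A)) {r : ℕ} {f : Fin r → A} {C : Fam 1 A}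
    (c : ∀ i, Ch (algebraMap A (Localization.Away (f i))) C)
    (δ : ∀ i, Localization.Away (f i)) (d : Defo 1 C) (hd : ∀ i, IsDelta (c i) d (δ i)) :
    Cpt c δ := by
  intro i j D _ ψ ψ' u hψ hR
  have h6D : IsUnit (6 : D) := six_loc (ψ.comp (algebraMap A _)) h6
  exact hDEC.2.2.2.1 (c i) (c j) ψ ψ' u h6D hψ hR d (δ i) (δ j) (hd i) (hd j)

theorem core (hDEA : Stmt_DEA) (hDEC : Stmt_DEC) (hDSP : Stmt_DSP) (hDGL : Stmt_DGL)
    (hEXT : Stmt_EXT) (h6 : IsUnit (6 : A)) {C : Fam 1 A} {r : ℕ} (f : Fin r → A)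
    (hf : Ideal.span (Set.range f) = ⊤)
    (c : ∀ i, Ch (algebraMap A (Localization.Away (f i))) C) (i₀ : Fin r) :
    (∃ (N : ℕ) (d : Defo 1 C), IsDelta (c i₀) d (algebraMap A _ (f i₀) ^ N)) ∧
    ∀ l : Cov 1 C, ∃! τ : Localization.Away (f i₀), IsTau (c i₀) l τ := by
  obtain ⟨N, δ0, hδ0, hcpt⟩ := hEXT.1 h6 f c i₀ 1
  obtain ⟨d0, hd0⟩ := hDGL h6 f hf c δ0 hcpt
  have hu : IsUnit (algebraMap A (Localization.Away (f i₀)) (f i₀)) :=
    IsLocalization.Away.algebraMap_isUnit (f i₀)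
  have hd0' : IsDelta (c i₀) d0 (algebraMap A _ (f i₀) ^ N) := by
    have := hd0 i₀
    rwa [hδ0, mul_one] at this
  refine ⟨⟨N, d0, hd0'⟩, fun l => ?_⟩
  have huN : IsUnit (algebraMap A (Localization.Away (f i₀)) (f i₀) ^ N) := hu.pow N
  obtain ⟨w, hw⟩ := huN.exists_right_inv
  refine ⟨algebraMap A _ (l.l d0) * w, ?_, ?_⟩
  · intro d δ hδ
    have h6i : ∀ i, IsUnit (6 : Localization.Away (f i)) := fun i => six_loc (algebraMap A _) h6
    have hex : ∀ i, ∃ δ' : Localization.Away (f i), IsDelta (c i) d δ' := fun i =>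
      (hDEA (c i) (h6i i) d).exists
    choose δ' hδ' using hex
    have hδi : δ' i₀ = δ := (hDEA (c i₀) (h6i i₀) d).unique (hδ' i₀) hδ
    obtain ⟨M, a, ha⟩ := IsLocalization.Away.surj (f i₀) δ
    have e1 : ∀ i, IsDelta (c i) (scD (f i₀ ^ (N + M)) d)
        (algebraMap A _ (f i₀ ^ (N + M)) * δ' i) := fun i =>
      hDEC.2.2.1 (c i) _ d (δ' i) (hδ' i)
    have e2 : ∀ i, IsDelta (c i) (scD a d0) (algebraMap A _ a * δ0 i) := fun i =>
      hDEC.2.2.1 (c i) _ d0 (δ0 i) (hd0 i)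
    have c1 := cpt_of_delta hDEC h6 c _ _ e1
    have c2 := cpt_of_delta hDEC h6 c _ _ e2
    have e0 : algebraMap A (Localization.Away (f i₀)) (f i₀ ^ (N + M)) * δ' i₀ =
        algebraMap A (Localization.Away (f i₀)) a * δ0 i₀ := by
      rw [hδi, hδ0, mul_one, ← ha, map_pow, pow_add]
      ring
    obtain ⟨K, hK⟩ := hEXT.2 h6 f c i₀ _ _ c1 c2 e0
    have g1 : ∀ i, IsDelta (c i) (scD (f i₀ ^ K) (scD (f i₀ ^ (N + M)) d))
        (algebraMap A _ (f i₀) ^ K * (algebraMap A _ (f i₀ ^ (N + M)) * δ' i)) := fun i => by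
      have := hDEC.2.2.1 (c i) (f i₀ ^ K) _ _ (e1 i)
      rwa [map_pow] at this
    have g2 : ∀ i, IsDelta (c i) (scD (f i₀ ^ K) (scD a d0))
        (algebraMap A _ (f i₀) ^ K * (algebraMap A _ (f i₀ ^ (N + M)) * δ' i)) := fun i => by
      have := hDEC.2.2.1 (c i) (f i₀ ^ K) _ _ (e2 i)
      rw [map_pow] at this
      rw [hK i]
      exact this
    obtain ⟨g, hg⟩ := hDSP h6 f hf c _ _ _ g1 g2
    have h1 := l.iso _ _ g hg
    rw [scD_l, scD_l, scD_l, scD_l] at h1
    have h2 := congrArg (algebraMap A (Localization.Away (f i₀))) h1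
    simp only [map_mul, map_pow] at h2
    have h3 := (hu.pow K).mul_left_cancel h2
    -- f ^ (N + M) l(d) = a l(d0)
    have h4 : algebraMap A (Localization.Away (f i₀)) (f i₀) ^ (N + M) *
        (algebraMap A _ (l.l d0) * w * δ) =
        algebraMap A (Localization.Away (f i₀)) a * algebraMap A _ (l.l d0) := by
      rw [← ha, pow_add]
      linear_combination (algebraMap A (Localization.Away (f i₀)) (l.l d0) * δ *
        algebraMap A (Localization.Away (f i₀)) (f i₀) ^ M) * hw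
    exact (hu.pow (N + M)).mul_left_cancel (h3.trans h4.symm)
  · intro τ hτ
    have h1 := hτ d0 _ hd0'
    rw [h1]
    linear_combination (-τ) * hw

end TAU

theorem t_TAU (hDEA : Stmt_DEA) (hDEC : Stmt_DEC) (hDSP : Stmt_DSP) (hDGL : Stmt_DGL)
    (hEXT : Stmt_EXT) : Stmt_TAU := by
  intro A _ h6 C _ hLW f c
  obtain ⟨r, g, hg, hc⟩ := TAU.exists_cover hLW
  have hspan : Ideal.span (Set.range (Fin.cons f g : Fin (r + 1) → A)) = ⊤ := by
    rw [eq_top_iff, ← hg]
    apply Ideal.span_mono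
    rintro x ⟨i, rfl⟩
    exact ⟨i.succ, by simp⟩
  have c' : ∀ i : Fin r, Ch (algebraMap A (Localization.Away (g i))) C := fun i => (hc i).some
  let cc : ∀ i : Fin (r + 1),
      Ch (algebraMap A (Localization.Away ((Fin.cons f g : Fin (r + 1) → A) i))) C :=
    Fin.cases c c'
  exact TAU.core hDEA hDEC hDSP hDGL hEXT h6 (Fin.cons f g : Fin (r + 1) → A) hspan cc 0

end Pool.Agent.MG.WL
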