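import Pool.Agent.MG.WL.StmtsX

/-!
# TRL: the coefficients of a covector in two charts, base change of the coefficient
-/

open CategoryTheory CategoryTheory.Limits AlgebraicGeometry TensorProduct

namespace Pool.Agent.MG.WL

open Pool.Agent.MG.W Pool.Agent.MG.One

namespace TRL

/-- Families with Weierstrass charts are stable under base change. -/
theorem lw_pull {A A' : Type} [CommRing A] [CommRing A'] {φ : A →+* A'} {C : Fam 1 A}
    {C' : Fam 1 A'} (g : Arrow φ C' C) (h : LW C) : LW C' := by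
  intro p
  obtain ⟨f, hf, ⟨c⟩⟩ := h (p.comap φ)
  refine ⟨φ f, fun h1 => hf h1, ⟨c.pull g (Localization.awayMap φ f) ?_⟩⟩
  ext x
  simp [Localization.awayMap, IsLocalization.Away.map]

theorem isUnit_six_loc {A B : Type} [CommRing A] [CommRing B] (φ : A →+* B)
    (h : IsUnit (6 : A)) : IsUnit (6 : B) := by
  have := h.map φ
  rwa [map_ofNat] at this

end TRL

theorem t_TRL (hDEA : Stmt_DEA) (hDEC : Stmt_DEC) (hTAU : Stmt_TAU) : Stmt_TRL := by
  obtain ⟨-, -, -, hDEC4, hDEC5⟩ := hDEC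
  refine ⟨?_, ?_⟩
  · intro A _ h6 C hs hlw f f' c c' l τ τ' hτ hτ' D _ ψ ψ' u hψ hrel
    obtain ⟨N, d0, hd0⟩ := (hTAU h6 hs hlw f c).1
    obtain ⟨δ', hδ', -⟩ := hDEA c' (TRL.isUnit_six_loc (algebraMap A _) h6) d0
    have h1 := hτ d0 _ hd0
    have h2 := hτ' d0 _ hδ'
    have h3 := hDEC4 c c' ψ ψ' u
      (TRL.isUnit_six_loc (ψ.comp (algebraMap A (Localization.Away f))) h6) hψ hrel d0 _ δ'
      hd0 hδ'
    have h4 : ψ (algebraMap A _ (l.l d0)) = ψ' (algebraMap A _ (l.l d0)) :=
      RingHom.congr_fun hψ (l.l d0)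
    rw [h1, h2, map_mul, map_mul, h3] at h4
    have hu : IsUnit (ψ (algebraMap A (Localization.Away f) f ^ N)) := by
      have : IsUnit (algebraMap A (Localization.Away f) f) :=
        IsLocalization.Away.algebraMap_isUnit f
      exact (this.pow N).map ψ
    refine hu.mul_right_cancel ?_
    rw [h4]
    ring
  · intro A A' _ _ h6 φ C C' hs hlw g l l' hcomp f c τ hτ ω h
    have h6' : IsUnit (6 : A') := TRL.isUnit_six_loc φ h6
    obtain ⟨N, d0, hd0⟩ := (hTAU h6 hs hlw f c).1
    obtain ⟨τ', hτ', -⟩ := (hTAU h6' (arrow_stable g hs) (TRL.lw_pull g hlw) (φ f)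
      (c.pull g ω h)).2 l'
    have h1 := hτ d0 _ hd0
    have h2 := hDEC5 g c ω h d0 _ hd0
    have h3 := hτ' _ _ h2
    have h4 : l'.l (bcD g d0) = φ (l.l d0) :=
      hcomp (bcD g d0) d0 (PBS.bcArrow (epsMap φ) d0.y) (bcD_r g d0)
    have h5 : algebraMap A' (Localization.Away (φ f)) (φ (l.l d0)) =
        ω (algebraMap A _ (l.l d0)) := (RingHom.congr_fun h (l.l d0)).symm
    rw [h4, h5, h1, map_mul] at h3
    have hu : IsUnit (ω (algebraMap A (Localization.Away f) f ^ N)) := by
      have : IsUnit (algebraMap A (Localization.Away f) f) :=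
        IsLocalization.Away.algebraMap_isUnit f
      exact (this.pow N).map ω
    have h6 : ω τ = τ' := hu.mul_right_cancel h3
    rw [h6]
    exact hτ'

end Pool.Agent.MG.WL
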