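import Pool.Agent.MG.WL.DefsW

/-!
# The market: local Weierstrass form of stable one-pointed curves of genus one over any base

See `Pool/Agent/MG/WL/PAPER.md` for the proofs.
-/

open CategoryTheory CategoryTheory.Limits AlgebraicGeometry TensorProduct

namespace Pool.Agent.MG.WL

open Pool.Agent.MG.W Pool.Agent.MG.One Pool.Agent.MG.GLU

/-! ## Local coordinates -/

/-- LCE: local coordinates at the section exist Zariski locally on the base. -/
def Stmt_LCE : Prop :=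
  ∀ (A : Type) [CommRing A] [Algebra ℂ A] (C : Fam 1 A), IsStable 1 C → ∀ p : PrimeSpectrum A,
    ∃ f : A, f ∉ p.asIdeal ∧ Nonempty (LC (PBS.bc (algebraMap A (Localization.Away f)) C))

/-- LCB: base change of local coordinates. -/
def Stmt_LCB : Prop :=
  ∀ {A B : Type} [CommRing A] [CommRing B] {φ : A →+* B} {C : Fam 1 A} {y : Fam 1 B}
    (a : Arrow φ y C) (L : LC C), ∃ L' : LC y, L.Bc a L'

/-! ## Nice covers -/

/-- A preliminary nice cover over a local ring: `W ∩ V i` contains `D(β i)`, and the closed fibre is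
covered by `W` and the points `z i`. -/
structure PNC {B : Type} [CommRing B] [IsLocalRing B] {y : Fam 1 B} (L : LC y) where
  /-- the big chart -/
  W : y.X.Opens
  aW : IsAffineOpen W
  leW : W ≤ L.U
  /-- the index set -/
  ι : Type
  [fin : Fintype ι]
  [dec : DecidableEq ι]
  /-- the small charts -/
  V : ι → y.X.Opens
  aV : ∀ i, IsAffineOpen (V i)
  /-- the equation -/
  β : ∀ i, Γ(y.X, V i)
  bas : ∀ i, y.X.basicOpen (β i) ≤ W
  /-- the points of the closed fibre outside `W` -/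
  z : ι → y.X
  zc : ∀ i, y.π (z i) = IsLocalRing.closedPoint B
  inj : Function.Injective z
  mem : ∀ i, z i ∈ V i
  nW : ∀ i, z i ∉ W
  uniq : ∀ i (x : y.X), x ∈ V i → y.π x = IsLocalRing.closedPoint B →
    x ∉ y.X.basicOpen (β i) → x = z i
  cov : ∀ x : y.X, y.π x = IsLocalRing.closedPoint B → x ∈ W ∨ ∃ i, x = z i
  /-- the index of the section -/
  i₀ : ι
  le₀ : V i₀ ≤ L.V
  sec : y.σ 0 (IsLocalRing.closedPoint B) = z i₀

attribute [instance] PNC.fin PNC.dec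

/-- The index `i` is good: `Γ(V i)/β i` is finite over the base. -/
def PNC.Good {B : Type} [CommRing B] [IsLocalRing B] {y : Fam 1 B} {L : LC y} (P : PNC L)
    (i : P.ι) : Prop :=
  ((Ideal.Quotient.mk (Ideal.span {P.β i})).comp (coef y.π (P.V i))).Finite

/-- PNE: preliminary nice covers exist over local rings. -/
def Stmt_PNE : Prop :=
  ∀ (B : Type) [CommRing B] [IsLocalRing B] [Algebra ℂ B] (y : Fam 1 B), IsStable 1 y →
    ∀ L : LC y, Nonempty (PNC L)

/-- SPL: one index can be made good by an étale local extension with trivial extension of the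
residue field. -/
def Stmt_SPL : Prop :=
  ∀ (B : Type) [CommRing B] [IsLocalRing B] (y : Fam 1 B), IsStable 1 y →
    ∀ (L : LC y) (P : PNC L) (i : P.ι), ∃ (B' : Type) (_ : CommRing B') (_ : IsLocalRing B')
      (φ : B →+* B') (_ : IsLocalHom φ) (y' : Fam 1 B') (a : Arrow φ y' y) (L' : LC y')
      (P' : PNC L') (e : P.ι ≃ P'.ι), φ.Flat ∧ L.Bc a L' ∧ P'.Good (e i) ∧
        ∀ j, P.Good j → P'.Good (e j)

/-- GNC: a preliminary nice cover all of whose indices are good gives a nice cover. -/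
def Stmt_GNC : Prop :=
  ∀ (B : Type) [CommRing B] [IsLocalRing B] (y : Fam 1 B), IsStable 1 y →
    ∀ (L : LC y) (P : PNC L), (∀ i, P.Good i) → Nonempty (NC L)

/-- NCE: nice covers exist over a flat local extension of the local ring of `p`. -/
def Stmt_NCE : Prop :=
  ∀ (A : Type) [CommRing A] [Algebra ℂ A] (C : Fam 1 A), IsStable 1 C → ∀ (L : LC C)
    (p : PrimeSpectrum A), ∃ (B : Type) (_ : CommRing B) (_ : IsLocalRing B) (φ : A →+* B)
      (y : Fam 1 B) (a : Arrow φ y C) (L' : LC y), φ.Flat ∧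
        Ideal.comap φ (IsLocalRing.maximalIdeal B) = p.asIdeal ∧ L.Bc a L' ∧ Nonempty (NC L')

/-- NCB: base change of nice covers. -/
def Stmt_NCB : Prop :=
  ∀ {A B : Type} [CommRing A] [CommRing B] {φ : A →+* B} {C : Fam 1 A} {y : Fam 1 B}
    (a : Arrow φ y C) (L : LC C) (L' : LC y) (_ : L.Bc a L') (N : NC L),
    ∃ (N' : NC L') (e : N.ι ≃ N'.ι), N'.W = a.f ⁻¹ᵁ N.W ∧ (∀ i, N'.V (e i) = a.f ⁻¹ᵁ N.V i) ∧
      e N.i₀ = N'.i₀

/-! ## Finiteness of the first cohomology over a local ring -/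

/-- CEC: vanishing of the first Čech cohomology of an affine scheme for star shaped covers. -/
def Stmt_CEC : Prop :=
  ∀ {X : Scheme.{0}} (T : X.Opens), IsAffineOpen T → ∀ {ι : Type} [Fintype ι] (W : X.Opens)
    (V : ι → X.Opens), W ≤ T → IsAffineOpen W → (∀ i, V i ≤ T) → (∀ i, IsAffineOpen (V i)) →
    (∀ z ∈ T, z ∈ W ∨ ∃ i, z ∈ V i) → (∀ i j, i ≠ j → V i ⊓ V j ≤ W) →
    ∀ s : ∀ i, Γ(X, W ⊓ V i), ∃ (r : Γ(X, W)) (q : ∀ i, Γ(X, V i)),
      ∀ i, s i = rs X inf_le_left r + rs X inf_le_right (q i)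

/-- LPI: closed subschemes with one equation on every chart of a star shaped cover. -/
def Stmt_LPI : Prop :=
  ∀ {X : Scheme.{0}} {ι : Type} [Fintype ι] (W : X.Opens) (V : ι → X.Opens), IsAffineOpen W →
    (∀ i, IsAffineOpen (V i)) → (∀ i, IsAffineOpen (W ⊓ V i)) →
    (∀ z : X, z ∈ W ∨ ∃ i, z ∈ V i) → (∀ i j, i ≠ j → V i ⊓ V j ≤ W) →
    ∀ (f : Γ(X, W)) (g : ∀ i, Γ(X, V i)),
    (∀ i, Ideal.span {rs X (inf_le_left : W ⊓ V i ≤ W) f} =
      Ideal.span {rs X (inf_le_right : W ⊓ V i ≤ V i) (g i)}) →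
    ∃ (Z : Scheme.{0}) (j : Z ⟶ X), IsClosedImmersion j ∧
      RingHom.ker (j.app W).hom = Ideal.span {f} ∧
      ∀ i, RingHom.ker (j.app (V i)).hom = Ideal.span {g i}

/-- GEO: if the closed subscheme defined by `f`, `g` is quasi-finite over the affine base of the
proper scheme `X`, it is finite and affine. -/
def Stmt_GEO : Prop :=
  ∀ {P : Type} [CommRing P] {X : Scheme.{0}} (π : X ⟶ Sp P) (_ : IsProper π) {ι : Type}
    [Fintype ι] (W : X.Opens) (V : ι → X.Opens), IsAffineOpen W → (∀ i, IsAffineOpen (V i)) →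
    (∀ z : X, z ∈ W ∨ ∃ i, z ∈ V i) → (∀ i j, i ≠ j → V i ⊓ V j ≤ W) →
    ∀ (f : Γ(X, W)) (g : ∀ i, Γ(X, V i)),
    (∀ i, Ideal.span {rs X (inf_le_left : W ⊓ V i ≤ W) f} =
      Ideal.span {rs X (inf_le_right : W ⊓ V i ≤ V i) (g i)}) →
    ((Ideal.Quotient.mk (Ideal.span {f})).comp (coef π W)).QuasiFinite →
    (∀ i, ((Ideal.Quotient.mk (Ideal.span {g i})).comp (coef π (V i))).QuasiFinite) →
    (∃ (m : ℕ) (e : Fin m → Γ(X, W)) (e' : Fin m → ∀ i, Γ(X, V i)),
      (∀ j i, rs X inf_le_left (e j) - rs X inf_le_right (e' j i) ∈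
        Ideal.span {rs X (inf_le_left : W ⊓ V i ≤ W) f}) ∧
      ∀ (r : Γ(X, W)) (q : ∀ i, Γ(X, V i)),
        (∀ i, rs X inf_le_left r - rs X inf_le_right (q i) ∈
          Ideal.span {rs X (inf_le_left : W ⊓ V i ≤ W) f}) →
        ∃ c : Fin m → P, r - ∑ j, coef π W (c j) * e j ∈ Ideal.span {f} ∧
          ∀ i, q i - ∑ j, coef π (V i) (c j) * e' j i ∈ Ideal.span {g i}) ∧
    ∀ s : ∀ i, Γ(X, W ⊓ V i), ∃ (r : Γ(X, W)) (q : ∀ i, Γ(X, V i)),
      ∀ i, s i - rs X inf_le_left r - rs X inf_le_right (q i) ∈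
        Ideal.span {rs X (inf_le_left : W ⊓ V i ≤ W) f}

/-- Rings and homomorphisms for `ALGF`. -/
structure SRings (B : Type) [CommRing B] (ι : Type) where
  /-- functions on `W` -/
  R : Type
  /-- functions on `V i` -/
  Q : ι → Type
  /-- functions on `W ∩ V i` -/
  S : ι → Type
  [cR : CommRing R]
  [cQ : ∀ i, CommRing (Q i)]
  [cS : ∀ i, CommRing (S i)]
  /-- structure map -/
  cr : B →+* R
  /-- structure map -/
  cq : ∀ i, B →+* Q i
  /-- structure map -/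
  cs : ∀ i, B →+* S i
  /-- restriction -/
  jr : ∀ i, R →+* S i
  /-- restriction -/
  jq : ∀ i, Q i →+* S i
  hr : ∀ i b, jr i (cr b) = cs i b
  hq : ∀ i b, jq i (cq i b) = cs i b

attribute [instance] SRings.cR SRings.cQ SRings.cS

/-- The conclusion of `GEO` over `P = B[X]`, for polynomials `f`, `g` over the rings `D`. -/
def SRings.Geo {B : Type} [CommRing B] {ι : Type} (D : SRings B ι) (f : Polynomial D.R)
    (g : ∀ i, Polynomial (D.Q i)) : Prop :=
  (∃ (m : ℕ) (e : Fin m → Polynomial D.R) (e' : Fin m → ∀ i, Polynomial (D.Q i)),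
    (∀ j i, (e j).map (D.jr i) - (e' j i).map (D.jq i) ∈ Ideal.span {f.map (D.jr i)}) ∧
    ∀ (r : Polynomial D.R) (q : ∀ i, Polynomial (D.Q i)),
      (∀ i, r.map (D.jr i) - (q i).map (D.jq i) ∈ Ideal.span {f.map (D.jr i)}) →
      ∃ c : Fin m → Polynomial B, r - ∑ j, (c j).map D.cr * e j ∈ Ideal.span {f} ∧
        ∀ i, q i - ∑ j, (c j).map (D.cq i) * e' j i ∈ Ideal.span {g i}) ∧
  ∀ s : ∀ i, Polynomial (D.S i), ∃ (r : Polynomial D.R) (q : ∀ i, Polynomial (D.Q i)),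
    ∀ i, s i - r.map (D.jr i) - (q i).map (D.jq i) ∈ Ideal.span {f.map (D.jr i)}

/-- ALGF: the graph trick, algebra. -/
def Stmt_ALGF : Prop :=
  ∀ {B : Type} [CommRing B] {ι : Type} [Fintype ι] (D : SRings B ι) (h : D.R)
    (α β : ∀ i, D.Q i), (∀ i, IsUnit (D.jq i (β i))) →
    (∀ i, D.jq i (β i) * D.jr i h = D.jq i (α i)) →
    D.Geo (Polynomial.X - Polynomial.C h)
      (fun i => Polynomial.C (β i) * Polynomial.X - Polynomial.C (α i)) →
    D.Geo (Polynomial.C h * Polynomial.X - 1)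
      (fun i => Polynomial.C (α i) * Polynomial.X - Polynomial.C (β i)) →
    ∃ (m : ℕ) (e : Fin m → ∀ i, D.S i), ∀ s : ∀ i, D.S i,
      ∃ (c : Fin m → B) (r : D.R) (q : ∀ i, D.Q i),
        ∀ i, s i = ∑ j, D.cs i (c j) * e j i + D.jr i r + D.jq i (q i)

/-- QFV: quasi-finiteness of the charts of the graph. -/
def Stmt_QFV : Prop :=
  ∀ {B R S : Type} [CommRing B] [CommRing R] [CommRing S] (c : B →+* R) (j : R →+* S)
    (β : R) (h : S) (α : R) (N : ℕ), c.FiniteType →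
    ((Ideal.Quotient.mk (Ideal.span {β})).comp c).Finite →
    (letI := j.toAlgebra; IsLocalization.Away β S) → j β ^ N * h = j α →
    (Polynomial.eval₂RingHom (j.comp c) h).QuasiFinite →
    ((Ideal.Quotient.mk (Ideal.span
      {(Polynomial.C (β ^ N) * Polynomial.X - Polynomial.C α : Polynomial R)})).comp
        (Polynomial.mapRingHom c)).QuasiFinite ∧
    ((Ideal.Quotient.mk (Ideal.span
      {(Polynomial.C α * Polynomial.X - Polynomial.C (β ^ N) : Polynomial R)})).comp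
        (Polynomial.mapRingHom c)).QuasiFinite

/-- TRN: a function on `W` which is quasi-finite over the affine line over the base. -/
def Stmt_TRN : Prop :=
  ∀ (B : Type) [CommRing B] [IsLocalRing B] [Algebra ℂ B] (y : Fam 1 B), IsStable 1 y →
    ∀ W : y.X.Opens, IsAffineOpen W →
      (∃ x ∈ W, y.π x = IsLocalRing.closedPoint B) →
      ∃ h : Γ(y.X, W), (Polynomial.eval₂RingHom (coef y.π W) h).QuasiFinite

/-- FG: the first cohomology is finitely generated. -/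
def Stmt_FG : Prop :=
  ∀ (B : Type) [CommRing B] [IsLocalRing B] [Algebra ℂ B] (y : Fam 1 B), IsStable 1 y →
    ∀ (L : LC y) (N : NC L), ∃ (m : ℕ) (e : Fin m → ∀ i, Γ(y.X, N.W ⊓ N.V i)),
      ∀ s : ∀ i, Γ(y.X, N.W ⊓ N.V i), ∃ (c : Fin m → B) (r : Γ(y.X, N.W))
        (q : ∀ i, Γ(y.X, N.V i)), ∀ i, s i = ∑ j, coef y.π _ (c j) * e j i +
          rs y.X inf_le_left r + rs y.X inf_le_right (q i)

/-! ## Vanishing and lifting -/

/-- `s = r + q`, where `q i₀` may have a simple pole along the section. -/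
def NC.Tr {B : Type} [CommRing B] {y : Fam 1 B} {L : LC y} (N : NC L)
    (s : ∀ i, Γ(y.X, N.W ⊓ N.V i)) : Prop :=
  ∃ (r : Γ(y.X, N.W)) (q : ∀ i, Γ(y.X, N.V i)),
    (∀ i, i ≠ N.i₀ → s i = rs y.X inf_le_left r + rs y.X inf_le_right (q i)) ∧
    rs y.X (inf_le_right.trans N.le₀ : N.W ⊓ N.V N.i₀ ≤ L.V) L.t *
      (s N.i₀ - rs y.X inf_le_left r) = rs y.X inf_le_right (q N.i₀)

/-- VNF: vanishing over an algebraically closed field. -/
def Stmt_VNF : Prop :=
  ∀ {k : Type} [Field k] [IsAlgClosed k] (y : Fam 1 k) (a b : k) (_ : a ≠ 0 ∨ b ≠ 0)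
    (f : Arrow (RingHom.id k) y (Wei (WZ a b))) (_ : IsIso f.f) (L : LC y) (N : NC L)
    (s : ∀ i, Γ(y.X, N.W ⊓ N.V i)), N.Tr s

/-- VAN: vanishing modulo the maximal ideal. -/
def Stmt_VAN : Prop :=
  ∀ (B : Type) [CommRing B] [IsLocalRing B] [Algebra ℂ B] (y : Fam 1 B), IsStable 1 y →
    ∀ (L : LC y) (N : NC L) (s : ∀ i, Γ(y.X, N.W ⊓ N.V i)),
      ∃ (m : ℕ) (c : Fin m → B) (_ : ∀ j, c j ∈ IsLocalRing.maximalIdeal B)
        (e : Fin m → ∀ i, Γ(y.X, N.W ⊓ N.V i)),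
        N.Tr (fun i => s i - ∑ j, coef y.π _ (c j) * e j i)

/-- LFB: functions with prescribed poles over local rings with nice covers. -/
def Stmt_LFB : Prop :=
  ∀ (B : Type) [CommRing B] [IsLocalRing B] [Algebra ℂ B] (y : Fam 1 B), IsStable 1 y →
    ∀ (L : LC y), Nonempty (NC L) → ∀ n, 2 ≤ n → ∃ X : Γ(y.X, L.U), L.Pole n 1 X

/-- DSC: descent of functions with prescribed poles. -/
def Stmt_DSC : Prop :=
  ∀ {A B : Type} [CommRing A] [CommRing B] [IsLocalRing B] {φ : A →+* B} {C : Fam 1 A}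
    {y : Fam 1 B} (a : Arrow φ y C) (_ : IsProper C.π) (L : LC C) (L' : LC y), L.Bc a L' →
    φ.Flat → ∀ p : PrimeSpectrum A, Ideal.comap φ (IsLocalRing.maximalIdeal B) = p.asIdeal →
    ∀ n, (∃ X' : Γ(y.X, L'.U), L'.Pole n 1 X') → ∃ f : A, f ∉ p.asIdeal ∧
      ∃ X : Γ(C.X, L.U), L.Pole n f X

/-- LIFT: functions with prescribed poles near `p`. -/
def Stmt_LIFT : Prop :=
  ∀ (A : Type) [CommRing A] [Algebra ℂ A] (C : Fam 1 A), IsStable 1 C → ∀ (L : LC C)
    (p : PrimeSpectrum A) (n : ℕ), 2 ≤ n → ∃ f : A, f ∉ p.asIdeal ∧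
      ∃ X : Γ(C.X, L.U), L.Pole n f X

/-! ## Weierstrass form from functions with poles of order two and three -/

/-- FIN: a curve with functions with poles of order two and three is a Weierstrass curve. -/
def Stmt_FIN : Prop :=
  ∀ (A : Type) [CommRing A] [Algebra ℂ A] (C : Fam 1 A), IsStable 1 C → ∀ (L : LC C)
    (x y : Γ(C.X, L.U)), L.Pole 2 1 x → L.Pole 3 1 y →
    ∃ a b : A, Ideal.span {a, b} = ⊤ ∧
      Nonempty (Arrow (RingHom.id A) (Wei (WZ a b)) C)

end Pool.Agent.MG.WL
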