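import Pool.Agent.MG.W.WDM
import Pool.Agent.MG.W.WRG
import Pool.Agent.MG.TwoAlg
import Pool.Agent.MG.WL.StmtsW

/-!
# Weierstrass curves as schemes: integral, proper closed subsets are finite, infinite
-/

open CategoryTheory CategoryTheory.Limits AlgebraicGeometry TensorProduct TopologicalSpace

namespace Pool.Agent.MG.WL

open Pool.Agent.MG.W Pool.Agent.MG.One

/-- Integral schemes with the topology of a curve. -/
structure Crv (X : Scheme.{0}) : Prop where
  int : IsIntegral X
  fin : ∀ U : X.Opens, Nonempty U → ((U : Set X)ᶜ).Finite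
  inf : Infinite X

namespace WTop

section

variable (K : Type) [Field K] (a b : K)

/-- The generic point. -/
noncomputable def gen : WX K a b :=
  have := WDM.dom1 K a b
  WX.in1 K a b (⊥ : PrimeSpectrum (A1 K a b))

theorem comap_bot {A B : Type} [CommRing A] [CommRing B] [IsDomain A] [IsDomain B] (f : A →+* B)
    (hf : Function.Injective f) :
    spMap f (⊥ : PrimeSpectrum B) = (⊥ : PrimeSpectrum A) := by
  apply PrimeSpectrum.ext
  change Ideal.comap f ⊥ = ⊥
  exact (RingHom.injective_iff_ker_eq_bot f).1 hf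

theorem surj (x : WX K a b) : x ∈ Set.range (WX.in1 K a b) ∨ x ∈ Set.range (WX.in2 K a b) :=
  glue2_surj (spMap (g1 K a b)) (spMap (g2 K a b)) x

theorem g1_inj : Function.Injective (g1 K a b) := (t_WRG K a b).2.2.2.1

theorem gen_eq : gen K a b = (have := WDM.dom2 K a b
    WX.in2 K a b (⊥ : PrimeSpectrum (A2 K a b))) := by
  have := WDM.dom1 K a b
  have := WDM.dom2 K a b
  have := WDM.dom12 K a b
  have hcond : spMap (g1 K a b) ≫ WX.in1 K a b = spMap (g2 K a b) ≫ WX.in2 K a b :=
    pushout.condition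
  have h1 := comap_bot (g1 K a b) (g1_inj K a b)
  have h2 := comap_bot (g2 K a b) (WDM.g2_inj K a b)
  change WX.in1 K a b (⊥ : PrimeSpectrum (A1 K a b)) = WX.in2 K a b (⊥ : PrimeSpectrum (A2 K a b))
  rw [← h1, ← h2, ← Scheme.Hom.comp_apply, ← Scheme.Hom.comp_apply, hcond]

theorem range_sub {A : Type} [CommRing A] [IsDomain A] {X : Scheme.{0}} (f : Sp A ⟶ X) (x : X)
    (hx : x = f (⊥ : PrimeSpectrum A)) : Set.range f ⊆ closure {x} := by
  rintro _ ⟨q, rfl⟩
  let o : Sp A := (⊥ : PrimeSpectrum A)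
  have h1 : q ∈ closure {o} := by
    have h2 : (⊥ : PrimeSpectrum A) ≤ q := bot_le
    exact (PrimeSpectrum.le_iff_mem_closure _ _).1 h2
  have h3 : f q ∈ f '' closure {o} := ⟨q, h1, rfl⟩
  have h4 := image_closure_subset_closure_image f.continuous h3
  rw [Set.image_singleton] at h4
  rw [hx]
  exact h4

theorem closure_gen : closure {gen K a b} = (Set.univ : Set (WX K a b)) := by
  have := WDM.dom1 K a b
  have := WDM.dom2 K a b
  rw [Set.eq_univ_iff_forall]
  intro x
  rcases surj K a b x with hx | hx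
  · exact range_sub (WX.in1 K a b) _ rfl hx
  · exact range_sub (WX.in2 K a b) _ (gen_eq K a b) hx

theorem irr : IrreducibleSpace (WX K a b) := by
  have h : IsIrreducible (closure {gen K a b}) := isIrreducible_singleton.closure
  rw [closure_gen] at h
  have : PreirreducibleSpace (WX K a b) := ⟨h.2⟩
  exact ⟨⟨gen K a b⟩⟩

theorem red_of {A : Type} [CommRing A] [IsDomain A] {X : Scheme.{0}} (f : Sp A ⟶ X)
    [IsOpenImmersion f] (x : X) (hx : x ∈ Set.range f) : _root_.IsReduced (X.presheaf.stalk x) := by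
  obtain ⟨q, rfl⟩ := hx
  have h1 : Function.Injective (f.stalkMap q).hom :=
    (ConcreteCategory.bijective_of_isIso (f.stalkMap q)).1
  exact isReduced_of_injective (f.stalkMap q).hom h1

theorem red : IsReduced (WX K a b) := by
  have := WDM.dom1 K a b
  have := WDM.dom2 K a b
  have : ∀ x : WX K a b, _root_.IsReduced ((WX K a b).presheaf.stalk x) := by
    intro x
    rcases surj K a b x with hx | hx
    · exact red_of (WX.in1 K a b) x hx
    · exact red_of (WX.in2 K a b) x hx
  exact isReduced_of_isReduced_stalk _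

theorem integral : IsIntegral (WX K a b) := by
  have := irr K a b
  have := red K a b
  exact isIntegral_of_irreducibleSpace_of_isReduced _

theorem finiteA1 : (Polynomial.aeval (x1 K a b) : Polynomial K →ₐ[K] A1 K a b).toRingHom.Finite := by
  classical
  let f : Polynomial K →+* A1 K a b :=
    (Polynomial.aeval (x1 K a b) : Polynomial K →ₐ[K] A1 K a b).toRingHom
  change f.Finite
  let A : Algebra (Polynomial K) (A1 K a b) := f.toAlgebra
  have h : Module.Finite (Polynomial K) (A1 K a b) := by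
    refine ⟨⟨{1, y1 K a b}, ?_⟩⟩
    rw [eq_top_iff]
    intro v _
    obtain ⟨pq, hpq, -⟩ := (t_WRG K a b).1 v
    rw [Finset.coe_insert, Finset.coe_singleton, Submodule.mem_span_pair]
    refine ⟨pq.1, pq.2, ?_⟩
    rw [Algebra.smul_def, Algebra.smul_def, mul_one]
    exact hpq.symm
  exact h

theorem dim1 : Ring.DimensionLEOne (A1 K a b) := by
  have := WDM.dom1 K a b
  let f : Polynomial K →+* A1 K a b :=
    (Polynomial.aeval (x1 K a b) : Polynomial K →ₐ[K] A1 K a b).toRingHom
  let A : Algebra (Polynomial K) (A1 K a b) := f.toAlgebra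
  have h : Module.Finite (Polynomial K) (A1 K a b) := finiteA1 K a b
  refine ⟨fun {p} hp hpr => ?_⟩
  have h1 : p.comap (algebraMap (Polynomial K) (A1 K a b)) ≠ ⊥ := by
    obtain ⟨v, hv, hv0⟩ := Submodule.exists_mem_ne_zero_of_ne_bot hp
    exact Ideal.comap_ne_bot_of_integral_mem hv0 hv (Algebra.IsIntegral.isIntegral v)
  exact Ideal.isMaximal_of_isIntegral_of_isMaximal_comap (R := Polynomial K) p
    (Ring.DimensionLEOne.maximalOfPrime h1 inferInstance)

theorem fin1 (I : Ideal (A1 K a b)) (hI : I ≠ ⊥) :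
    (PrimeSpectrum.zeroLocus (I : Set (A1 K a b))).Finite := by
  have := WDM.dom1 K a b
  have := dim1 K a b
  obtain ⟨v, hv, hv0⟩ := Submodule.exists_mem_ne_zero_of_ne_bot hI
  exact (Two.finite_primes_containing v hv0).subset fun Q hQ => hQ hv

theorem fin2 : {Q : PrimeSpectrum (A2 K a b) | z2 K a b ∈ Q.asIdeal}.Finite := by
  refine Set.Subsingleton.finite ?_
  have key : ∀ Q : PrimeSpectrum (A2 K a b), z2 K a b ∈ Q.asIdeal → ∀ v,
      v ∈ Q.asIdeal ↔ inf2 K a b v = 0 := by
    intro Q hQ v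
    have h1 : v - algebraMap K _ (inf2 K a b v) ∈ Q.asIdeal :=
      (Ideal.span_singleton_le_iff_mem _).2 hQ ((t_WRG K a b).2.1 v)
    constructor
    · intro hv
      by_contra h0
      have h2 : algebraMap K (A2 K a b) (inf2 K a b v) ∈ Q.asIdeal := by
        have := Q.asIdeal.sub_mem hv h1
        rwa [sub_sub_cancel] at this
      exact Q.isPrime.ne_top (Ideal.eq_top_of_isUnit_mem _ h2 ((isUnit_iff_ne_zero.2 h0).map _))
    · intro hv
      rw [hv, map_zero, sub_zero] at h1
      exact h1
  intro Q hQ Q' hQ'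
  ext v
  rw [key Q hQ, key Q' hQ']

theorem gen_mem (U : (WX K a b).Opens) (hU : Nonempty U) : gen K a b ∈ U := by
  obtain ⟨⟨x, hx⟩⟩ := hU
  have h1 : x ∈ closure {gen K a b} := by rw [closure_gen]; trivial
  rw [mem_closure_iff] at h1
  obtain ⟨y, hy, hy'⟩ := h1 U U.isOpen hx
  rw [Set.mem_singleton_iff] at hy'
  rw [← hy']
  exact hy

theorem fin (U : (WX K a b).Opens) (hU : Nonempty U) : ((U : Set (WX K a b))ᶜ).Finite := by
  have := WDM.dom1 K a b
  let Z : Set (PrimeSpectrum (A1 K a b)) := {q | WX.in1 K a b q ∉ U}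
  have hZc : IsClosed Z := (U.isOpen.preimage (WX.in1 K a b).continuous).isClosed_compl
  obtain ⟨I, hI⟩ := (PrimeSpectrum.isClosed_iff_zeroLocus_ideal Z).mp hZc
  have hIne : I ≠ ⊥ := by
    rintro rfl
    have h1 : (⊥ : PrimeSpectrum (A1 K a b)) ∈ Z := by
      rw [hI]
      intro v hv
      exact hv
    exact h1 (gen_mem K a b U hU)
  have hZ : Z.Finite := by
    rw [hI]
    exact fin1 K a b I hIne
  refine ((hZ.image (WX.in1 K a b)).union ((fin2 K a b).image (WX.in2 K a b))).subset ?_
  intro x hx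
  rcases surj K a b x with ⟨q, rfl⟩ | ⟨Q, rfl⟩
  · exact Or.inl ⟨q, hx, rfl⟩
  · by_cases hz : z2 K a b ∈ (show PrimeSpectrum (A2 K a b) from Q).asIdeal
    · exact Or.inr ⟨Q, hz, rfl⟩
    · have h1 : (show PrimeSpectrum (A2 K a b) from Q) ∈
          Set.range (PrimeSpectrum.comap (algebraMap (A2 K a b) (A12 K a b))) := by
        rw [PrimeSpectrum.localization_away_comap_range (A12 K a b) (z2 K a b)]
        exact hz
      obtain ⟨w, hw⟩ := h1
      have hcond : spMap (g1 K a b) ≫ WX.in1 K a b = spMap (g2 K a b) ≫ WX.in2 K a b :=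
        pushout.condition
      have h2 : WX.in2 K a b Q = WX.in1 K a b (spMap (g1 K a b) w) := by
        rw [← Scheme.Hom.comp_apply, hcond, Scheme.Hom.comp_apply]
        congr 1
        exact hw.symm
      rw [h2] at hx ⊢
      exact Or.inl ⟨_, hx, rfl⟩

theorem inf [IsAlgClosed K] : Infinite (WX K a b) := by
  have hd : ∀ c : K, ∃ d : K, d ^ 2 = c ^ 3 + a * c + b := fun c =>
    IsAlgClosed.exists_pow_nat_eq _ (by norm_num)
  choose d hd using hd
  let ev : ∀ c : K, A1 K a b →+* K := fun c => lift1 (RingHom.id K) c (d c) (hd c)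
  have hx : ∀ c, ev c (x1 K a b) = c := fun c => lift1_x (RingHom.id K) c (d c) (hd c)
  have hb : ∀ c e, ev c (algebraMap K _ e) = e := fun c e =>
    lift1_b (RingHom.id K) c (d c) (hd c) e
  let P : K → PrimeSpectrum (A1 K a b) := fun c => PrimeSpectrum.comap (ev c) ⊥
  have hP : Function.Injective P := by
    intro c c' h
    have h1 : x1 K a b - algebraMap K _ c ∈ (P c).asIdeal := by
      change ev c (x1 K a b - algebraMap K _ c) ∈ (⊥ : Ideal K)
      rw [map_sub, hx, hb, sub_self]
      exact zero_mem _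
    rw [h] at h1
    change ev c' (x1 K a b - algebraMap K _ c) ∈ (⊥ : Ideal K) at h1
    rw [map_sub, hx, hb, Ideal.mem_bot, sub_eq_zero] at h1
    exact h1.symm
  have : Infinite K := IsAlgClosed.instInfinite
  exact Infinite.of_injective (fun c => WX.in1 K a b (P c))
    ((WX.in1 K a b).isOpenEmbedding.injective.comp hP)

theorem crv [IsAlgClosed K] : Crv (WX K a b) := ⟨integral K a b, fin K a b, inf K a b⟩

end

theorem crv_iso {X Y : Scheme.{0}} (f : X ⟶ Y) [IsIso f] (h : Crv Y) : Crv X where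
  int := by
    have := h.int
    exact IsIntegral.of_isIso (inv f)
  fin U hU := by
    have hi : Function.Injective (inv f) := (inv f).isOpenEmbedding.injective
    have hii : ∀ x, (inv f) (f x) = x := fun x => by
      rw [← Scheme.Hom.comp_apply, IsIso.hom_inv_id]
      rfl
    have h1 := h.fin ((inv f) ⁻¹ᵁ U) (by
      obtain ⟨⟨x, hx⟩⟩ := hU
      refine ⟨⟨f x, ?_⟩⟩
      change (inv f) (f x) ∈ U
      rwa [hii])
    refine (h1.image (inv f)).subset fun x hx => ⟨f x, ?_, hii x⟩
    intro h2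
    apply hx
    change (inv f) (f x) ∈ U at h2
    rwa [hii] at h2
  inf := by
    have := h.inf
    exact Infinite.of_injective (inv f) (inv f).isOpenEmbedding.injective

end WTop

theorem crv_of_stable (hCL : Stmt_CL) {K : Type} [Field K] [IsAlgClosed K] [CharZero K]
    (z : Fam 1 K) (hz : IsStable 1 z) : Crv z.X := by
  obtain ⟨a, b, -, f, hf⟩ := hCL z hz
  exact WTop.crv_iso f.f (WTop.crv K a b)

end Pool.Agent.MG.WL
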