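import Pool.Agent.MG.WL.TRNA
import Pool.Agent.MG.WL.WTop
import Pool.Agent.MG.WL.Tools
import Pool.Agent.MG.TwoPts

/-!
# TRN: a function on `W` which is quasi-finite over the affine line over the base
-/

open CategoryTheory CategoryTheory.Limits AlgebraicGeometry TensorProduct TopologicalSpace

namespace Pool.Agent.MG.WL

open Pool.Agent.MG.W Pool.Agent.MG.One

namespace TRN

section

variable {X : Scheme.{0}} {K : Type} [Field K] (π : X ⟶ Sp K)

theorem primes_sub (h : Crv X) {U : X.Opens} (hU : IsAffineOpen U) (g : Γ(X, U)) (hg : g ≠ 0) :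
    {Q : PrimeSpectrum Γ(X, U) | g ∈ Q.asIdeal}.Finite := by
  have := h.int
  have h1 : X.basicOpen g ≠ ⊥ := fun h2 => hg ((basicOpen_eq_bot_iff g).1 h2)
  have h3 : Nonempty (X.basicOpen g) := by
    by_contra h4
    apply h1
    rw [eq_bot_iff]
    intro x hx
    exact (h4 ⟨⟨x, hx⟩⟩).elim
  have h5 := h.fin (X.basicOpen g) h3
  refine Set.Finite.of_finite_image (f := fun Q : PrimeSpectrum Γ(X, U) => hU.fromSpec Q)
    (h5.subset ?_) ?_
  · rintro _ ⟨Q, hQ, rfl⟩ h6
    have h7 : Q ∈ hU.fromSpec ⁻¹ᵁ X.basicOpen g := h6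
    rw [hU.fromSpec_preimage_basicOpen] at h7
    exact h7 hQ
  · exact hU.fromSpec.isOpenEmbedding.injective.injOn

theorem ft_coef [LocallyOfFiniteType π] {U : X.Opens} (hU : IsAffineOpen U) :
    (coef π U).FiniteType := by
  have h1 := HasRingHomProperty.appLE (P := @LocallyOfFiniteType) π inferInstance
    ⟨⊤, isAffineOpen_top _⟩ ⟨U, hU⟩ le_top
  rw [coef_eq]
  exact h1.comp (RingHom.FiniteType.of_surjective _
    (ConcreteCategory.bijective_of_isIso (Scheme.ΓSpecIso (CommRingCat.of K)).inv).2)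

/-- The quotient of the functions on an affine open set by a nonzero function. -/
theorem quot_fin [LocallyOfFiniteType π] (h : Crv X) {U : X.Opens} (hU : IsAffineOpen U)
    (g : Γ(X, U)) (hg : g ≠ 0) :
    ((Ideal.Quotient.mk (Ideal.span {g})).comp (coef π U)).Finite := by
  have h1 : ((Ideal.Quotient.mk (Ideal.span {g})).comp (coef π U)).FiniteType :=
    (RingHom.FiniteType.of_surjective _ Ideal.Quotient.mk_surjective).comp (ft_coef π hU)
  have h2 : Finite (PrimeSpectrum (Γ(X, U) ⧸ Ideal.span {g})) := by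
    have h3 := primes_sub h hU g hg
    rw [← Set.finite_univ_iff]
    refine Set.Finite.of_finite_image
      (f := PrimeSpectrum.comap (Ideal.Quotient.mk (Ideal.span {g}))) (h3.subset ?_) ?_
    · rintro _ ⟨Q, -, rfl⟩
      change Ideal.Quotient.mk (Ideal.span {g}) g ∈ Q.asIdeal
      rw [Ideal.Quotient.eq_zero_iff_mem.2 (Ideal.mem_span_singleton_self g)]
      exact zero_mem _
    · exact (PrimeSpectrum.comap_injective_of_surjective _ Ideal.Quotient.mk_surjective).injOn
  algebraize [(Ideal.Quotient.mk (Ideal.span {g})).comp (coef π U)]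
  have h4 : Algebra.QuasiFinite K (Γ(X, U) ⧸ Ideal.span {g}) :=
    Algebra.QuasiFinite.iff_finite_comap_preimage_singleton.2 fun x => Set.toFinite _
  exact Algebra.QuasiFinite.iff_of_isArtinianRing.1 h4

/-- Nonempty affine open sets have non-constant functions. -/
theorem not_surj (h : Crv X) {U : X.Opens} (hU : IsAffineOpen U) (hne : Nonempty U) :
    ¬ Function.Surjective (coef π U) := by
  intro hs
  have h1 : Set.Subsingleton (U : Set X) := by
    intro x hx y hy
    have h2 : hU.primeIdealOf ⟨x, hx⟩ = hU.primeIdealOf ⟨y, hy⟩ := by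
      apply PrimeSpectrum.comap_injective_of_surjective _ hs
      exact Subsingleton.elim _ _
    exact congrArg Subtype.val (Two.primeIdealOf_injective hU h2)
  have h3 : (Set.univ : Set X).Finite := by
    rw [← Set.union_compl_self (U : Set X)]
    exact h1.finite.union (h.fin U hne)
  have := h.inf
  exact Set.infinite_univ h3

end

theorem charZero {B K : Type} [CommRing B] [Algebra ℂ B] [Field K] (s : B →+* K) : CharZero K :=
  charZero_of_injective_ringHom (s.comp (algebraMap ℂ B)).injective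

/-- Finiteness of a quotient of a tensor product from the isomorphism with the functions on the
base change. -/
theorem fin_transfer {B K R G : Type} [CommRing B] [Field K] [CommRing R] [CommRing G]
    [Algebra B R] [Algebra B K] (c : K →+* G) (e : K ⊗[B] R ≃+* G)
    (he : ∀ k : K, e (k ⊗ₜ 1) = c k) (t : K ⊗[B] R)
    (h : ((Ideal.Quotient.mk (Ideal.span {e t})).comp c).Finite) :
    Module.Finite K ((K ⊗[B] R) ⧸ Ideal.span {t}) := by
  let θ : G ⧸ Ideal.span {e t} →+* (K ⊗[B] R) ⧸ Ideal.span {t} :=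
    Ideal.Quotient.lift (Ideal.span {e t})
      ((Ideal.Quotient.mk (Ideal.span {t})).comp (e.symm : G →+* K ⊗[B] R)) (by
        intro a ha
        rw [Ideal.mem_span_singleton'] at ha
        obtain ⟨b, rfl⟩ := ha
        rw [RingHom.comp_apply, Ideal.Quotient.eq_zero_iff_mem, map_mul]
        refine Ideal.mul_mem_left _ _ ?_
        have h1 : (e.symm : G →+* K ⊗[B] R) (e t) = t := e.symm_apply_apply t
        rw [h1]
        exact Ideal.mem_span_singleton_self t)
  have hθ : Function.Surjective θ := by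
    intro x
    obtain ⟨y, rfl⟩ := Ideal.Quotient.mk_surjective x
    refine ⟨Ideal.Quotient.mk _ (e y), ?_⟩
    change Ideal.Quotient.mk (Ideal.span {t}) (e.symm (e y)) = _
    rw [e.symm_apply_apply]
  have h1 : (θ.comp ((Ideal.Quotient.mk (Ideal.span {e t})).comp c)).Finite :=
    (RingHom.Finite.of_surjective _ hθ).comp h
  have h2 : θ.comp ((Ideal.Quotient.mk (Ideal.span {e t})).comp c) =
      algebraMap K ((K ⊗[B] R) ⧸ Ideal.span {t}) := by
    ext k
    change Ideal.Quotient.mk (Ideal.span {t}) (e.symm (c k)) = _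
    rw [← he, e.symm_apply_apply]
    rfl
  rw [h2] at h1
  exact RingHom.finite_algebraMap.1 h1

end TRN

open IsLocalRing in
theorem t_TRN (hCL : Stmt_CL) : Stmt_TRN := by
  intro B _ _ _ y hy W hW ⟨x, hxW, hx⟩
  let _ : Algebra B Γ(y.X, W) := (coef y.π W).toAlgebra
  have hfl : Module.Flat B Γ(y.X, W) := by
    have := hy.flat
    have h1 := HasRingHomProperty.appLE (P := @Flat) y.π inferInstance
      ⟨⊤, isAffineOpen_top _⟩ ⟨W, hW⟩ le_top
    have h2 : (coef y.π W).Flat := by
      rw [coef_eq]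
      exact RingHom.Flat.comp (RingHom.Flat.of_bijective
        (ConcreteCategory.bijective_of_isIso (Scheme.ΓSpecIso (CommRingCat.of B)).inv)) h1
    exact h2
  -- the geometric closed fibre
  let K₀ := AlgebraicClosure (ResidueField B)
  let s₀ : B →+* K₀ := (algebraMap (ResidueField B) K₀).comp (residue B)
  have hs₀ : IsLocalHom s₀ := RingHom.isLocalHom_comp _ _
  have hCrv : ∀ (K : Type) [Field K] [IsAlgClosed K] (s : B →+* K), Crv (PBS.bc s y).X := by
    intro K _ _ s
    have := TRN.charZero s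
    exact crv_of_stable hCL _ (PBS.bc_stable s y hy)
  have hne : Nonempty ((PBS.bcArrow s₀ y).f ⁻¹ᵁ W : (PBS.bc s₀ y).X.Opens) := by
    let pt : Sp K₀ := (⊥ : PrimeSpectrum K₀)
    have h1 : y.π x = spMap s₀ pt := by
      rw [hx]
      have h2 := IsLocalRing.comap_closedPoint s₀
      rw [← h2]
      change PrimeSpectrum.comap s₀ _ = PrimeSpectrum.comap s₀ _
      congr 1
      exact Subsingleton.elim _ _
    obtain ⟨z, hz, -⟩ := Scheme.Pullback.exists_preimage_pullback (f := y.π) (g := spMap s₀)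
      x pt h1
    refine ⟨⟨z, ?_⟩⟩
    change pullback.fst y.π (spMap s₀) z ∈ W
    rw [hz]
    exact hxW
  let A₀ : Algebra B K₀ := s₀.toAlgebra
  have hl₀ : IsLocalHom (algebraMap B K₀) := hs₀
  obtain ⟨h, hh⟩ : ∃ h : Γ(y.X, W), ∀ ξ : K₀, (1 ⊗ₜ h : K₀ ⊗[B] Γ(y.X, W)) ≠ ξ ⊗ₜ 1 := by
    by_contra hcon
    push Not at hcon
    obtain ⟨e, he⟩ := tp_affine (PBS.bcArrow s₀ y) hW
    apply TRN.not_surj (PBS.bc s₀ y).π (hCrv K₀ s₀) (pre_affine (PBS.bcArrow s₀ y) hW) hne
    intro v
    obtain ⟨u, rfl⟩ := e.surjective v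
    induction u using TensorProduct.induction_on with
    | zero => exact ⟨0, by rw [map_zero, map_zero]⟩
    | add u v hu hv =>
      obtain ⟨c, hc⟩ := hu
      obtain ⟨d, hd⟩ := hv
      exact ⟨c + d, by rw [map_add, hc, hd, map_add]⟩
    | tmul k r =>
      obtain ⟨ξ, hξ⟩ := hcon r
      refine ⟨k * ξ, ?_⟩
      have h1 : (k ⊗ₜ r : K₀ ⊗[B] Γ(y.X, W)) = (k * ξ) ⊗ₜ 1 := by
        have h2 : (k ⊗ₜ r : K₀ ⊗[B] Γ(y.X, W)) = (k ⊗ₜ 1) * (1 ⊗ₜ r) := by
          rw [Algebra.TensorProduct.tmul_mul_tmul, mul_one, one_mul]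
        rw [h2, hξ, Algebra.TensorProduct.tmul_mul_tmul, mul_one]
      rw [h1, he, map_one, mul_one]
  refine ⟨h, TRN.qf_of_geom h (fun K _ _ s ξ => ?_)⟩
  let A : Algebra B K := s.toAlgebra
  obtain ⟨e, he⟩ := tp_affine (PBS.bcArrow s y) hW
  have hne' : (1 ⊗ₜ h - ξ ⊗ₜ 1 : K ⊗[B] Γ(y.X, W)) ≠ 0 :=
    sub_ne_zero.2 (TRN.nonconst h hh ξ)
  have hlft : LocallyOfFiniteType (PBS.bc s y).π := by
    have := (PBS.bc_stable s y hy).fp
    infer_instance
  refine TRN.fin_transfer (coef (PBS.bc s y).π ((PBS.bcArrow s y).f ⁻¹ᵁ W)) e (fun k => ?_) _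
    (TRN.quot_fin (PBS.bc s y).π (hCrv K s) (pre_affine (PBS.bcArrow s y) hW) _ ?_)
  · rw [he, map_one, mul_one]
  · intro h0
    exact hne' ((map_eq_zero_iff e e.injective).1 h0)

end Pool.Agent.MG.WL
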