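import Pool.Agent.MG.WL.StmtsX

/-!
# VAL: existence and uniqueness of the value
-/

open CategoryTheory CategoryTheory.Limits AlgebraicGeometry TensorProduct

namespace Pool.Agent.MG.WL

open Pool.Agent.MG.W Pool.Agent.MG.One

namespace VALX

/-- Image of the value of a polynomial under a homomorphism. -/
theorem aeval_map {A A' : Type} [CommRing A] [Algebra ℂ A] [CommRing A'] [Algebra ℂ A']
    (ω : A →+* A') (hω : ω.comp (algebraMap ℂ A) = algebraMap ℂ A') (a b τ : A)
    (P : MvPolynomial (Fin 3) ℂ) :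
    ω (MvPolynomial.aeval ![a, b, τ] P) = MvPolynomial.aeval ![ω a, ω b, ω τ] P := by
  let ωA : A →ₐ[ℂ] A' := { ω with commutes' := fun z => RingHom.congr_fun hω z }
  have h1 : ωA (MvPolynomial.aeval ![a, b, τ] P) =
      MvPolynomial.aeval (fun i => ωA (![a, b, τ] i)) P := MvPolynomial.comp_aeval_apply _ _ _
  have h2 : (fun i => ωA (![a, b, τ] i)) = ![ω a, ω b, ω τ] := by
    funext i
    fin_cases i <;> rfl
  rw [h2] at h1
  exact h1

theorem algebraMap_comp {A : Type} [CommRing A] [Algebra ℂ A] (f : A) :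
    (algebraMap A (Localization.Away f)).comp (algebraMap ℂ A) =
      algebraMap ℂ (Localization.Away f) :=
  (IsScalarTower.algebraMap_eq ℂ A (Localization.Away f)).symm

/-- The elements with a chart span the unit ideal. -/
theorem span_chI {A : Type} [CommRing A] {C : Fam 1 A} (h : LW C) :
    Ideal.span (chI C) = ⊤ := by
  by_contra hne
  obtain ⟨m, hm, hle⟩ := Ideal.exists_le_maximal _ hne
  obtain ⟨f, hf, hc⟩ := h ⟨m, hm.isPrime⟩
  exact hf (hle (Ideal.subset_span hc))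

/-- The invariance of `P` as an identity of polynomials. -/
theorem inv_poly (P : MvPolynomial (Fin 3) ℂ) (hP : P ∈ One.Inv) :
    (MvPolynomial.aeval ![MvPolynomial.X 0 ^ 4 * MvPolynomial.X 1,
        MvPolynomial.X 0 ^ 6 * MvPolynomial.X 2, MvPolynomial.X 3] P :
          MvPolynomial (Fin 4) ℂ) =
      MvPolynomial.aeval ![MvPolynomial.X 1, MvPolynomial.X 2,
        MvPolynomial.X 0 ^ 10 * MvPolynomial.X 3] P := by
  have hX : (MvPolynomial.X 0 : MvPolynomial (Fin 4) ℂ) ≠ 0 := MvPolynomial.X_ne_zero 0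
  refine mul_left_cancel₀ hX (MvPolynomial.funext fun w => ?_)
  rw [map_mul, map_mul, MvPolynomial.eval_X]
  have e1 : ∀ (p : Fin 3 → MvPolynomial (Fin 4) ℂ),
      MvPolynomial.eval w (MvPolynomial.aeval p P) =
        MvPolynomial.eval (fun i => MvPolynomial.eval w (p i)) P := by
    intro p
    have h1 : (MvPolynomial.aeval w : MvPolynomial (Fin 4) ℂ →ₐ[ℂ] ℂ)
        (MvPolynomial.aeval p P) = MvPolynomial.aeval
          (fun i => (MvPolynomial.aeval w : MvPolynomial (Fin 4) ℂ →ₐ[ℂ] ℂ) (p i)) P :=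
      MvPolynomial.comp_aeval_apply _ _ _
    simpa [MvPolynomial.coe_aeval_eq_eval] using h1
  rw [e1, e1]
  have e2 : (fun i => MvPolynomial.eval w ((![MvPolynomial.X 0 ^ 4 * MvPolynomial.X 1,
        MvPolynomial.X 0 ^ 6 * MvPolynomial.X 2, MvPolynomial.X 3] :
          Fin 3 → MvPolynomial (Fin 4) ℂ) i)) = ![w 0 ^ 4 * w 1, w 0 ^ 6 * w 2, w 3] := by
    funext i
    fin_cases i <;> simp
  have e3 : (fun i => MvPolynomial.eval w ((![MvPolynomial.X 1, MvPolynomial.X 2,
        MvPolynomial.X 0 ^ 10 * MvPolynomial.X 3] :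
          Fin 3 → MvPolynomial (Fin 4) ℂ) i)) = ![w 1, w 2, w 0 ^ 10 * w 3] := by
    funext i
    fin_cases i <;> simp
  rw [e2, e3]
  by_cases h0 : w 0 = 0
  · rw [h0, zero_mul, zero_mul]
  · rw [hP (w 0) (w 1) (w 2) (w 3) h0]

/-- The invariance of `P` over an arbitrary algebra. -/
theorem inv_alg {D : Type} [CommRing D] [Algebra ℂ D] (P : MvPolynomial (Fin 3) ℂ)
    (hP : P ∈ One.Inv) (u a b t : D) :
    MvPolynomial.aeval ![u ^ 4 * a, u ^ 6 * b, t] P =
      MvPolynomial.aeval ![a, b, u ^ 10 * t] P := by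
  have h := congrArg (MvPolynomial.aeval ![u, a, b, t] : MvPolynomial (Fin 4) ℂ →ₐ[ℂ] D)
    (inv_poly P hP)
  rw [MvPolynomial.comp_aeval_apply, MvPolynomial.comp_aeval_apply] at h
  have e2 : (fun i => (MvPolynomial.aeval ![u, a, b, t] : MvPolynomial (Fin 4) ℂ →ₐ[ℂ] D)
      ((![MvPolynomial.X 0 ^ 4 * MvPolynomial.X 1,
        MvPolynomial.X 0 ^ 6 * MvPolynomial.X 2, MvPolynomial.X 3] :
          Fin 3 → MvPolynomial (Fin 4) ℂ) i)) = ![u ^ 4 * a, u ^ 6 * b, t] := by
    funext i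
    fin_cases i <;> simp
  have e3 : (fun i => (MvPolynomial.aeval ![u, a, b, t] : MvPolynomial (Fin 4) ℂ →ₐ[ℂ] D)
      ((![MvPolynomial.X 1, MvPolynomial.X 2,
        MvPolynomial.X 0 ^ 10 * MvPolynomial.X 3] :
          Fin 3 → MvPolynomial (Fin 4) ℂ) i)) = ![a, b, u ^ 10 * t] := by
    funext i
    fin_cases i <;> simp
  rw [e2, e3] at h
  exact h

/-- The values in two charts agree over a common ring. -/
theorem agree (hREL : Stmt_REL) (hTRL : Stmt_TRL) {A : Type} [CommRing A] [Algebra ℂ A]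
    {C : Fam 1 A} (hC : IsStable 1 C) (lC : LW C) (P : MvPolynomial (Fin 3) ℂ)
    (hP : P ∈ One.Inv) (l : Cov 1 C) (f f' : A)
    (c : Ch (algebraMap A (Localization.Away f)) C)
    (c' : Ch (algebraMap A (Localization.Away f')) C) (τ : Localization.Away f)
    (τ' : Localization.Away f') (hτ : IsTau c l τ) (hτ' : IsTau c' l τ') {D : Type} [CommRing D]
    [Algebra ℂ D] (ψ : Localization.Away f →+* D) (ψ' : Localization.Away f' →+* D)
    (hψ : ψ.comp (algebraMap ℂ _) = algebraMap ℂ D)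
    (h : ψ.comp (algebraMap A _) = ψ'.comp (algebraMap A _)) :
    ψ (MvPolynomial.aeval ![c.a, c.b, τ] P) = ψ' (MvPolynomial.aeval ![c'.a, c'.b, τ'] P) := by
  have hψ' : ψ'.comp (algebraMap ℂ _) = algebraMap ℂ D := by
    rw [← algebraMap_comp, ← RingHom.comp_assoc, ← h, RingHom.comp_assoc, algebraMap_comp]
    exact hψ
  obtain ⟨u, hu⟩ := hREL.1 c c' ψ ψ' six h
  have h1 := hTRL.1 six hC lC f f' c c' l τ τ' hτ hτ' D ψ ψ' u h hu
  obtain ⟨v, huv, ha, hb, -⟩ := hu
  rw [aeval_map ψ hψ, aeval_map ψ' hψ', ha, hb, inv_alg P hP, h1]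

end VALX

open VALX in
/-- Existence and uniqueness of the value. -/
theorem t_VAL (hREL : Stmt_REL) (hTAU : Stmt_TAU) (hTRL : Stmt_TRL) : Stmt_VAL := by
  intro A _ _ C hC lC P hP l
  have h6 : IsUnit (6 : A) := six
  have hex : ∀ g : chI C, ∃ v : Localization.Away (g : A),
      ∀ (c : Ch (algebraMap A (Localization.Away (g : A))) C) (τ : Localization.Away (g : A)),
        IsTau c l τ → v = MvPolynomial.aeval ![c.a, c.b, τ] P := by
    rintro ⟨f, ⟨c⟩⟩
    obtain ⟨τ, hτ, -⟩ := (hTAU h6 hC lC f c).2 l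
    refine ⟨MvPolynomial.aeval ![c.a, c.b, τ] P, fun c' τ' hτ' => ?_⟩
    exact agree hREL hTRL hC lC P hP l f f c c' τ τ' hτ hτ' (RingHom.id _) (RingHom.id _)
      rfl rfl
  choose v hv using hex
  have hex2 : ∀ g : chI C, ∃ (c : Ch (algebraMap A (Localization.Away (g : A))) C)
      (τ : Localization.Away (g : A)), IsTau c l τ := by
    rintro ⟨f, ⟨c⟩⟩
    obtain ⟨τ, hτ, -⟩ := (hTAU h6 hC lC f c).2 l
    exact ⟨c, τ, hτ⟩
  have key := Localization.existsUnique_algebraMap_eq_of_span_eq_top (chI C) (span_chI lC) v (by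
    intro g g'
    obtain ⟨c, τ, hτ⟩ := hex2 g
    obtain ⟨c', τ', hτ'⟩ := hex2 g'
    rw [hv g c τ hτ, hv g' c' τ' hτ']
    have e1 : (IsLocalization.Away.awayToAwayRight (P := Localization.Away ((g : A) * (g' : A)))
        (g : A) (g' : A) : Localization.Away (g : A) →+* _).comp (algebraMap A _) =
        algebraMap A (Localization.Away ((g : A) * (g' : A))) :=
      RingHom.ext fun z => IsLocalization.Away.awayToAwayRight_eq (g : A) (g' : A) z
    have e2 : (IsLocalization.Away.awayToAwayLeft (P := Localization.Away ((g : A) * (g' : A)))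
        (g' : A) (g : A) : Localization.Away (g' : A) →+* _).comp (algebraMap A _) =
        algebraMap A (Localization.Away ((g : A) * (g' : A))) :=
      RingHom.ext fun z => IsLocalization.Away.awayToAwayLeft_eq (g' : A) (g : A) z
    refine agree hREL hTRL hC lC P hP l g g' c c' τ τ' hτ hτ' _ _ ?_ ?_
    · rw [← algebraMap_comp, ← RingHom.comp_assoc, e1, algebraMap_comp]
    · rw [e1, e2])
  obtain ⟨r, hr, hu⟩ := key
  refine ⟨r, fun f c τ hτ => ?_, fun r' hr' => ?_⟩
  · rw [hr ⟨f, ⟨c⟩⟩]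
    exact hv ⟨f, ⟨c⟩⟩ c τ hτ
  · refine hu r' fun g => ?_
    obtain ⟨c, τ, hτ⟩ := hex2 g
    rw [hv g c τ hτ]
    exact hr' g c τ hτ

end Pool.Agent.MG.WL
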