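import Pool.Agent.MG.WL.StmtsW
import Pool.Agent.MG.WL.Tools

/-!
# Vanishing modulo the maximal ideal
-/

open CategoryTheory CategoryTheory.Limits AlgebraicGeometry TensorProduct

namespace Pool.Agent.MG.WL

open Pool.Agent.MG.W Pool.Agent.MG.One Pool.Agent.MG.GLU

namespace VANm

/-! ## Algebra -/

theorem exists_fun {B Q : Type} [CommRing B] [IsLocalRing B] [AddCommGroup Q] [Module B Q]
    (N0 : Submodule B Q) (s : Q)
    (hs : s ∉ N0 ⊔ (IsLocalRing.maximalIdeal B) • (⊤ : Submodule B Q)) :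
    ∃ f : Q →+ IsLocalRing.ResidueField B,
      (∀ b x, f (b • x) = IsLocalRing.residue B b * f x) ∧ (∀ x ∈ N0, f x = 0) ∧ f s ≠ 0 := by
  have h1 : (1 : IsLocalRing.ResidueField B) ⊗ₜ[B] (N0.mkQ s) ≠ 0 := by
    intro h
    apply hs
    have h2 : (Submodule.Quotient.mk (N0.mkQ s) :
        (Q ⧸ N0) ⧸ (IsLocalRing.maximalIdeal B • (⊤ : Submodule B (Q ⧸ N0)))) = 0 := by
      have h' : (1 : B ⧸ IsLocalRing.maximalIdeal B) ⊗ₜ[B] (N0.mkQ s) = 0 := h
      have h3 := congrArg (TensorProduct.quotTensorEquivQuotSMul (Q ⧸ N0)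
        (IsLocalRing.maximalIdeal B)) h'
      rw [map_zero] at h3
      rw [← h3]
      symm
      have h4 := TensorProduct.quotTensorEquivQuotSMul_mk_tmul (M := Q ⧸ N0)
        (IsLocalRing.maximalIdeal B) 1 (N0.mkQ s)
      rw [one_smul] at h4
      exact h4
    rw [Submodule.Quotient.mk_eq_zero] at h2
    have h5 : (IsLocalRing.maximalIdeal B • (⊤ : Submodule B (Q ⧸ N0))) =
        Submodule.map N0.mkQ (IsLocalRing.maximalIdeal B • (⊤ : Submodule B Q)) := by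
      rw [Submodule.map_smul'', Submodule.map_top, Submodule.range_mkQ]
    rw [h5] at h2
    have h6 : s ∈ Submodule.comap N0.mkQ (Submodule.map N0.mkQ
        (IsLocalRing.maximalIdeal B • (⊤ : Submodule B Q))) := h2
    rw [Submodule.comap_map_eq, Submodule.ker_mkQ, sup_comm] at h6
    exact h6
  obtain ⟨g, hg⟩ : ∃ g : Module.Dual (IsLocalRing.ResidueField B)
      (IsLocalRing.ResidueField B ⊗[B] (Q ⧸ N0)), g (1 ⊗ₜ[B] (N0.mkQ s)) ≠ 0 := by
    by_contra hc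
    push Not at hc
    exact h1 ((Module.forall_dual_apply_eq_zero_iff _ _).1 hc)
  refine ⟨{ toFun := fun x => g (1 ⊗ₜ[B] (N0.mkQ x))
            map_zero' := by rw [map_zero, TensorProduct.tmul_zero, map_zero]
            map_add' := fun x x' => by rw [map_add, TensorProduct.tmul_add, map_add] }, ?_, ?_, hg⟩
  · intro b x
    change g (1 ⊗ₜ[B] (N0.mkQ (b • x))) = _ * g (1 ⊗ₜ[B] (N0.mkQ x))
    rw [map_smul, TensorProduct.tmul_smul, ← smul_eq_mul, ← map_smul]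
    rfl
  · intro x hx
    change g (1 ⊗ₜ[B] (N0.mkQ x)) = 0
    have : N0.mkQ x = 0 := by
      rw [← LinearMap.mem_ker, Submodule.ker_mkQ]
      exact hx
    rw [this, TensorProduct.tmul_zero, map_zero]

theorem smul_top_sum {B Q : Type} [CommRing B] [AddCommGroup Q] [Module B Q] (I : Ideal B) (z : Q)
    (hz : z ∈ I • (⊤ : Submodule B Q)) : ∃ (m : ℕ) (c : Fin m → B) (_ : ∀ j, c j ∈ I)
      (e : Fin m → Q), z = ∑ j, c j • e j := by
  refine Submodule.smul_induction_on hz ?_ ?_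
  · intro r hr n _
    exact ⟨1, fun _ => r, fun _ => hr, fun _ => n, by simp⟩
  · rintro _ _ ⟨m, c, hc, e, rfl⟩ ⟨m', c', hc', e', rfl⟩
    refine ⟨m + m', Fin.append c c', ?_, Fin.append e e', ?_⟩
    · intro j
      refine Fin.addCases (fun i => ?_) (fun i => ?_) j
      · rw [Fin.append_left]; exact hc i
      · rw [Fin.append_right]; exact hc' i
    · rw [Fin.sum_univ_add]
      simp

/-! ## Base change -/

section

variable {n : ℕ} {A K : Type} [CommRing A] [CommRing K] {φ : A →+* K}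
  {C : Fam n A} {y : Fam n K}

theorem tp_ext {a : Arrow φ y C} {V : C.X.Opens} (h : TP a V) (g : Γ(C.X, V) →+ K)
    (hg : ∀ b r, g (coef C.π V b * r) = φ b * g r) :
    ∃ g' : Γ(y.X, a.f ⁻¹ᵁ V) →+ K, ∀ (c : K) (r : Γ(C.X, V)),
      g' (coef y.π (a.f ⁻¹ᵁ V) c * (a.f.appLE V (a.f ⁻¹ᵁ V) le_rfl).hom r) = c * g r := by
  let _ := φ.toAlgebra
  let _ := (coef C.π V).toAlgebra
  obtain ⟨e, he⟩ := h
  let gl : Γ(C.X, V) →ₗ[A] K :=
    { toFun := g
      map_add' := map_add g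
      map_smul' := fun b r => by
        rw [Algebra.smul_def, Algebra.smul_def]
        exact hg b r }
  let L : K ⊗[A] Γ(C.X, V) →ₗ[A] K := TensorProduct.lift ((LinearMap.mul A K).compl₂ gl)
  have hL : ∀ c r, L (c ⊗ₜ r) = c * g r := by
    intro c r
    rfl
  refine ⟨L.toAddMonoidHom.comp e.symm.toAddEquiv.toAddMonoidHom, ?_⟩
  intro c r
  have h1 : e.symm (coef y.π (a.f ⁻¹ᵁ V) c * (a.f.appLE V (a.f ⁻¹ᵁ V) le_rfl).hom r) =
      c ⊗ₜ r := by
    rw [← he, RingEquiv.symm_apply_apply]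
  change L (e.symm _) = _
  rw [h1, hL]

theorem tp_ind {a : Arrow φ y C} {V : C.X.Opens} (h : TP a V) (P : Γ(y.X, a.f ⁻¹ᵁ V) → Prop)
    (h0 : P 0) (hadd : ∀ x x', P x → P x' → P (x + x'))
    (h1 : ∀ (c : K) (r : Γ(C.X, V)),
      P (coef y.π (a.f ⁻¹ᵁ V) c * (a.f.appLE V (a.f ⁻¹ᵁ V) le_rfl).hom r))
    (z : Γ(y.X, a.f ⁻¹ᵁ V)) : P z := by
  let _ := φ.toAlgebra
  let _ := (coef C.π V).toAlgebra
  obtain ⟨e, he⟩ := h
  obtain ⟨w, rfl⟩ := e.surjective z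
  induction w using TensorProduct.induction_on with
  | zero => rw [map_zero]; exact h0
  | tmul c r => rw [he]; exact h1 c r
  | add x x' hx hx' => rw [map_add]; exact hadd _ _ hx hx'

theorem rs_rs' {X : Scheme.{0}} {U V W : X.Opens} (h : U ≤ V) (h' : V ≤ W) (a : Γ(X, W)) :
    rs X h (rs X h' a) = rs X (h.trans h') a := by
  change (X.presheaf.map (homOfLE h').op ≫ X.presheaf.map (homOfLE h).op) a = _
  rw [← Functor.map_comp, ← op_comp]
  rfl

theorem rs_app {X Y : Scheme.{0}} (f : Y ⟶ X) {V V' : X.Opens} {U U' : Y.Opens} (hU : U' ≤ U)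
    (hV : V' ≤ V) (h : U ≤ f ⁻¹ᵁ V) (h' : U' ≤ f ⁻¹ᵁ V') (r : Γ(X, V)) :
    rs Y hU ((f.appLE V U h).hom r) = (f.appLE V' U' h').hom (rs X hV r) := by
  change (f.appLE V U h ≫ Y.presheaf.map (homOfLE hU).op) r =
    (X.presheaf.map (homOfLE hV).op ≫ f.appLE V' U' h') r
  rw [Scheme.Hom.appLE_map, Scheme.Hom.map_appLE]

end

theorem unit_rs {B : Type} [CommRing B] {y : Fam 1 B} {L : LC y} (N : NC L) :
    ∃ u : Γ(y.X, N.W ⊓ N.V N.i₀),
      rs y.X (inf_le_right.trans N.le₀ : N.W ⊓ N.V N.i₀ ≤ L.V) L.t * u = 1 := by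
  have h1 : N.W ⊓ N.V N.i₀ ≤ y.X.basicOpen L.t := by
    rw [L.bas]
    exact le_inf (inf_le_left.trans N.leW) (inf_le_right.trans N.le₀)
  have h2 : IsUnit (rs y.X (y.X.basicOpen_le L.t) L.t) := y.X.toRingedSpace.isUnit_res_basicOpen L.t
  have h3 := h2.map (rs y.X h1)
  rw [rs_rs'] at h3
  exact h3.exists_right_inv

theorem van_main {B K : Type} [CommRing B] [CommRing K] {φ : B →+* K} {y : Fam 1 B}
    {y' : Fam 1 K} (a : Arrow φ y' y) (hy : IsProper y.π) (L : LC y) (N : NC L) (L' : LC y')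
    (hL : L.Bc a L') (N' : NC L') (e : N.ι ≃ N'.ι) (hW : N'.W = a.f ⁻¹ᵁ N.W)
    (hV : ∀ i, N'.V (e i) = a.f ⁻¹ᵁ N.V i) (hi : e N.i₀ = N'.i₀) (hT : ∀ s', N'.Tr s')
    (g : (∀ i, Γ(y.X, N.W ⊓ N.V i)) →+ K)
    (hg : ∀ (b : B) (x : ∀ i, Γ(y.X, N.W ⊓ N.V i)),
      g (fun i => coef y.π (N.W ⊓ N.V i) b * x i) = φ b * g x)
    (hk : ∀ x, N.Tr x → g x = 0) (s : ∀ i, Γ(y.X, N.W ⊓ N.V i)) : g s = 0 := by
  classical
  let gi : ∀ i, Γ(y.X, N.W ⊓ N.V i) →+ K := fun i =>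
    g.comp (AddMonoidHom.single (fun i => Γ(y.X, N.W ⊓ N.V i)) i)
  have hgi : ∀ i x, gi i x = g (Pi.single i x) := fun i x => rfl
  have hgs : ∀ x, g x = ∑ i, gi i (x i) := by
    intro x
    conv_lhs => rw [← Finset.univ_sum_single x]
    rw [map_sum]
    rfl
  have hgc : ∀ i (b : B) (x : Γ(y.X, N.W ⊓ N.V i)),
      gi i (coef y.π (N.W ⊓ N.V i) b * x) = φ b * gi i x := by
    intro i b x
    rw [hgi, hgi, ← hg]
    congr 1
    funext j
    by_cases h : j = i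
    · subst h
      rw [Pi.single_eq_same, Pi.single_eq_same]
    · rw [Pi.single_eq_of_ne h, Pi.single_eq_of_ne h, mul_zero]
  have haf : ∀ i, IsAffineOpen (N.W ⊓ N.V i) := fun i => inf_affine hy N.aW (N.aV i)
  choose g' hg' using fun i => tp_ext (tp_affine a (haf i)) (gi i) (hgc i)
  obtain ⟨u, hu⟩ := unit_rs N
  -- pull back
  let P : ∀ i, Γ(y.X, N.W ⊓ N.V i) →+* Γ(y'.X, a.f ⁻¹ᵁ (N.W ⊓ N.V i)) := fun i =>
    (a.f.appLE (N.W ⊓ N.V i) (a.f ⁻¹ᵁ (N.W ⊓ N.V i)) le_rfl).hom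
  have hP : ∀ i (c : K) (r : Γ(y.X, N.W ⊓ N.V i)),
      g' i (coef y'.π (a.f ⁻¹ᵁ (N.W ⊓ N.V i)) c * P i r) = c * gi i r := hg'
  have hP1 : ∀ i (r : Γ(y.X, N.W ⊓ N.V i)), g' i (P i r) = gi i r := by
    intro i r
    have := hP i 1 r
    rwa [map_one, one_mul, one_mul] at this
  have iW : ∀ i, a.f ⁻¹ᵁ (N.W ⊓ N.V i) ≤ a.f ⁻¹ᵁ N.W := fun i => fun z hz => hz.1
  have iV : ∀ i, a.f ⁻¹ᵁ (N.W ⊓ N.V i) ≤ a.f ⁻¹ᵁ N.V i := fun i => fun z hz => hz.2
  have c1 : ∀ r : Γ(y'.X, a.f ⁻¹ᵁ N.W), ∑ i, g' i (rs y'.X (iW i) r) = 0 := by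
    refine tp_ind (tp_affine a N.aW) _ ?_ ?_ ?_
    · simp
    · intro x x' hx hx'
      simp only [map_add, Finset.sum_add_distrib, hx, hx', add_zero]
    · intro c r
      have h1 : ∀ i, g' i (rs y'.X (iW i) (coef y'.π (a.f ⁻¹ᵁ N.W) c *
          (a.f.appLE N.W (a.f ⁻¹ᵁ N.W) le_rfl).hom r)) =
            c * gi i (rs y.X (inf_le_left : N.W ⊓ N.V i ≤ N.W) r) := by
        intro i
        rw [map_mul, coef_rs, rs_app a.f (iW i) (inf_le_left : N.W ⊓ N.V i ≤ N.W) le_rfl le_rfl]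
        exact hP i c _
      rw [Finset.sum_congr rfl fun i _ => h1 i, ← Finset.mul_sum,
        ← hgs (fun i => rs y.X (inf_le_left : N.W ⊓ N.V i ≤ N.W) r)]
      rw [hk _ ⟨r, 0, ?_, ?_⟩, mul_zero]
      · intro i _
        simp
      · simp
  have c2 : ∀ i, i ≠ N.i₀ → ∀ q : Γ(y'.X, a.f ⁻¹ᵁ N.V i), g' i (rs y'.X (iV i) q) = 0 := by
    intro i hne
    refine tp_ind (tp_affine a (N.aV i)) _ ?_ ?_ ?_
    · simp
    · intro x x' hx hx'
      rw [map_add, map_add, hx, hx', add_zero]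
    · intro c r
      rw [map_mul, coef_rs, rs_app a.f (iV i) (inf_le_right : N.W ⊓ N.V i ≤ N.V i) le_rfl le_rfl]
      rw [show (a.f.appLE (N.W ⊓ N.V i) (a.f ⁻¹ᵁ (N.W ⊓ N.V i)) le_rfl).hom = P i from rfl, hP i c _,
        hgi, hk _ ⟨0, Pi.single i r, ?_, ?_⟩, mul_zero]
      · intro j _
        by_cases h : j = i
        · subst h
          rw [Pi.single_eq_same, Pi.single_eq_same, map_zero, zero_add]
        · rw [Pi.single_eq_of_ne h, Pi.single_eq_of_ne h, map_zero, map_zero, zero_add]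
      · rw [Pi.single_eq_of_ne hne.symm, Pi.single_eq_of_ne hne.symm, map_zero, map_zero, sub_zero,
          mul_zero]
  have c3 : ∀ q : Γ(y'.X, a.f ⁻¹ᵁ N.V N.i₀),
      g' N.i₀ (P N.i₀ u * rs y'.X (iV N.i₀) q) = 0 := by
    refine tp_ind (tp_affine a (N.aV N.i₀)) _ ?_ ?_ ?_
    · simp
    · intro x x' hx hx'
      rw [map_add, mul_add, map_add, hx, hx', add_zero]
    · intro c r
      have h0 : rs y'.X (iV N.i₀) (coef y'.π (a.f ⁻¹ᵁ N.V N.i₀) c *
          (a.f.appLE (N.V N.i₀) (a.f ⁻¹ᵁ N.V N.i₀) le_rfl).hom r) =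
          coef y'.π (a.f ⁻¹ᵁ (N.W ⊓ N.V N.i₀)) c *
            P N.i₀ (rs y.X (inf_le_right : N.W ⊓ N.V N.i₀ ≤ N.V N.i₀) r) := by
        rw [map_mul, coef_rs,
          rs_app a.f (iV N.i₀) (inf_le_right : N.W ⊓ N.V N.i₀ ≤ N.V N.i₀) le_rfl le_rfl]
      rw [h0, mul_left_comm, ← map_mul (P N.i₀), hP N.i₀ c _,
        hgi, hk _ ⟨0, Pi.single N.i₀ r, ?_, ?_⟩, mul_zero]
      · intro j hj
        rw [Pi.single_eq_of_ne hj, Pi.single_eq_of_ne hj, map_zero, map_zero, zero_add]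
      · rw [Pi.single_eq_same, Pi.single_eq_same, map_zero, sub_zero, ← mul_assoc, hu, one_mul]
  -- the pulled back element
  have hle : ∀ i, a.f ⁻¹ᵁ (N.W ⊓ N.V i) ≤ N'.W ⊓ N'.V (e i) := by
    intro i
    rw [hW, hV]
    exact le_inf (iW i) (iV i)
  have hle' : ∀ j, N'.W ⊓ N'.V j ≤ a.f ⁻¹ᵁ (N.W ⊓ N.V (e.symm j)) := by
    intro j
    have h1 : N'.V j = a.f ⁻¹ᵁ N.V (e.symm j) := by
      rw [← hV, Equiv.apply_symm_apply]
    rw [hW, h1]
    exact fun z hz => hz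
  obtain ⟨r', q', h1, h2⟩ := hT fun j =>
    (a.f.appLE (N.W ⊓ N.V (e.symm j)) (N'.W ⊓ N'.V j) (hle' j)).hom (s (e.symm j))
  have hs' : ∀ i, rs y'.X (hle i) ((a.f.appLE (N.W ⊓ N.V (e.symm (e i))) (N'.W ⊓ N'.V (e i))
      (hle' (e i))).hom (s (e.symm (e i)))) = P i (s i) := by
    intro i
    have key : ∀ (i' : N.ι) (_ : i' = i)
        (hO : N'.W ⊓ N'.V (e i) ≤ a.f ⁻¹ᵁ (N.W ⊓ N.V i')),
        rs y'.X (hle i) ((a.f.appLE (N.W ⊓ N.V i') (N'.W ⊓ N'.V (e i)) hO).hom (s i')) =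
          P i (s i) := by
      intro i' hi' hO
      subst hi'
      change (a.f.appLE _ _ hO ≫ y'.X.presheaf.map (homOfLE (hle i')).op) (s i') = _
      rw [Scheme.Hom.appLE_map]
    exact key _ (e.symm_apply_apply i) _
  have wle : a.f ⁻¹ᵁ N.W ≤ N'.W := hW.ge
  have vle : ∀ i, a.f ⁻¹ᵁ N.V i ≤ N'.V (e i) := fun i => (hV i).ge
  have e1 : ∀ i, rs y'.X (hle i) (rs y'.X (inf_le_left : N'.W ⊓ N'.V (e i) ≤ N'.W) r') =
      rs y'.X (iW i) (rs y'.X wle r') := by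
    intro i
    rw [rs_rs', rs_rs']
  have e2 : ∀ i, rs y'.X (hle i) (rs y'.X (inf_le_right : N'.W ⊓ N'.V (e i) ≤ N'.V (e i))
      (q' (e i))) = rs y'.X (iV i) (rs y'.X (vle i) (q' (e i))) := by
    intro i
    rw [rs_rs', rs_rs']
  have f1 : ∀ i, i ≠ N.i₀ → P i (s i) = rs y'.X (iW i) (rs y'.X wle r') +
      rs y'.X (iV i) (rs y'.X (vle i) (q' (e i))) := by
    intro i hne
    have h3 := h1 (e i) (fun h => hne (e.injective (h.trans hi.symm)))
    beta_reduce at h3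
    rw [← hs' i, h3, map_add, e1, e2]
  have f2 : P N.i₀ (s N.i₀) = rs y'.X (iW N.i₀) (rs y'.X wle r') +
      P N.i₀ u * rs y'.X (iV N.i₀) (rs y'.X (vle N.i₀) (q' (e N.i₀))) := by
    have key : ∀ (j : N'.ι) (_ : j = N'.i₀) (hh : N'.W ⊓ N'.V j ≤ L'.V),
        rs y'.X hh L'.t * ((a.f.appLE (N.W ⊓ N.V (e.symm j)) (N'.W ⊓ N'.V j) (hle' j)).hom
          (s (e.symm j)) - rs y'.X inf_le_left r') = rs y'.X inf_le_right (q' j) := by
      intro j hj hh
      subst hj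
      exact h2
    have hh : N'.W ⊓ N'.V (e N.i₀) ≤ L'.V := by
      rw [hi]
      exact inf_le_right.trans N'.le₀
    have h3 := congrArg (rs y'.X (hle N.i₀)) (key (e N.i₀) hi hh)
    rw [map_mul, map_sub, hs', e1, e2, rs_rs'] at h3
    have h4 : rs y'.X ((hle N.i₀).trans hh) L'.t =
        P N.i₀ (rs y.X (inf_le_right.trans N.le₀ : N.W ⊓ N.V N.i₀ ≤ L.V) L.t) := by
      rw [hL.t]
      exact rs_app a.f _ _ _ _ _
    rw [h4] at h3
    have h5 : P N.i₀ (rs y.X (inf_le_right.trans N.le₀ : N.W ⊓ N.V N.i₀ ≤ L.V) L.t) *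
        P N.i₀ u = 1 := by
      rw [← map_mul, hu, map_one]
    rw [← h3]
    linear_combination (-(P N.i₀ (s N.i₀) - rs y'.X (iW N.i₀) (rs y'.X wle r'))) * h5
  have f3 : ∀ i, g' i (P i (s i)) = g' i (rs y'.X (iW i) (rs y'.X wle r')) := by
    intro i
    by_cases h : i = N.i₀
    · subst h
      rw [f2, map_add, c3, add_zero]
    · rw [f1 i h, map_add, c2 i h, add_zero]
  rw [hgs, ← c1 (rs y'.X wle r')]
  exact Finset.sum_congr rfl fun i _ => by rw [← hP1, f3]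

/-- The elements of the form `r + q`. -/
theorem tr_add {B : Type} [CommRing B] {y : Fam 1 B} {L : LC y} (N : NC L)
    {s s' : ∀ i, Γ(y.X, N.W ⊓ N.V i)} (h : N.Tr s) (h' : N.Tr s') : N.Tr (s + s') := by
  obtain ⟨r, q, h1, h2⟩ := h
  obtain ⟨r', q', h1', h2'⟩ := h'
  refine ⟨r + r', q + q', ?_, ?_⟩
  · intro i hne
    rw [Pi.add_apply, Pi.add_apply, h1 i hne, h1' i hne, map_add, map_add]
    ring
  · rw [Pi.add_apply, Pi.add_apply, map_add, map_add, ← h2, ← h2']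
    ring

theorem tr_mul {B : Type} [CommRing B] {y : Fam 1 B} {L : LC y} (N : NC L) (b : B)
    {s : ∀ i, Γ(y.X, N.W ⊓ N.V i)} (h : N.Tr s) :
    N.Tr (fun i => coef y.π (N.W ⊓ N.V i) b * s i) := by
  obtain ⟨r, q, h1, h2⟩ := h
  refine ⟨coef y.π N.W b * r, fun i => coef y.π (N.V i) b * q i, ?_, ?_⟩
  · intro i hne
    change coef y.π (N.W ⊓ N.V i) b * s i = rs y.X inf_le_left (coef y.π N.W b * r) +
      rs y.X inf_le_right (coef y.π (N.V i) b * q i)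
    rw [h1 i hne, map_mul, map_mul, coef_rs, coef_rs]
    ring
  · change _ * (coef y.π (N.W ⊓ N.V N.i₀) b * s N.i₀ - rs y.X inf_le_left (coef y.π N.W b * r)) =
      rs y.X inf_le_right (coef y.π (N.V N.i₀) b * q N.i₀)
    rw [map_mul, map_mul, coef_rs, coef_rs, ← h2]
    ring

theorem tr_zero {B : Type} [CommRing B] {y : Fam 1 B} {L : LC y} (N : NC L) :
    N.Tr (0 : ∀ i, Γ(y.X, N.W ⊓ N.V i)) := by
  refine ⟨0, 0, ?_, ?_⟩
  · intro i _
    simp
  · simp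

end VANm

open VANm in
theorem t_VAN (hCL : Stmt_CL) (hLCB : Stmt_LCB) (hNCB : Stmt_NCB) (hVNF : Stmt_VNF) :
    Stmt_VAN := by
  intro B _ _ _ y hy L N s
  let _ : ∀ i, Algebra B Γ(y.X, N.W ⊓ N.V i) := fun i => (coef y.π (N.W ⊓ N.V i)).toAlgebra
  have hsm : ∀ (b : B) (x : ∀ i, Γ(y.X, N.W ⊓ N.V i)),
      b • x = fun i => coef y.π (N.W ⊓ N.V i) b * x i := by
    intro b x
    funext i
    rw [Pi.smul_apply, Algebra.smul_def]
    rfl
  let N0 : Submodule B (∀ i, Γ(y.X, N.W ⊓ N.V i)) :=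
    { carrier := {x | N.Tr x}
      add_mem' := fun h h' => tr_add N h h'
      zero_mem' := tr_zero N
      smul_mem' := fun b x hx => by
        have h := tr_mul N b hx
        rw [← hsm] at h
        exact h }
  by_cases hs : s ∈ N0 ⊔ (IsLocalRing.maximalIdeal B) •
      (⊤ : Submodule B (∀ i, Γ(y.X, N.W ⊓ N.V i)))
  · obtain ⟨x, hx, z, hz, hxz⟩ := Submodule.mem_sup.1 hs
    obtain ⟨m, c, hc, e, rfl⟩ := smul_top_sum _ z hz
    refine ⟨m, c, hc, e, ?_⟩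
    have h1 : (fun i => s i - ∑ j, coef y.π (N.W ⊓ N.V i) (c j) * e j i) = x := by
      funext i
      rw [← hxz, Pi.add_apply, Finset.sum_apply]
      have h2 : ∀ j, (c j • e j) i = coef y.π (N.W ⊓ N.V i) (c j) * e j i := by
        intro j
        rw [hsm]
      rw [Finset.sum_congr rfl fun j _ => h2 j, add_sub_cancel_right]
    rw [h1]
    exact hx
  · exfalso
    obtain ⟨f, hf1, hf2, hf3⟩ := exists_fun N0 s hs
    let κ := IsLocalRing.ResidueField B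
    let k := AlgebraicClosure κ
    let φ : B →+* k := (algebraMap κ k).comp (IsLocalRing.residue B)
    have hch : CharZero κ :=
      charZero_of_injective_ringHom
        (f := (IsLocalRing.residue B).comp (algebraMap ℂ B)) (RingHom.injective _)
    have hck : CharZero k := charZero_of_injective_ringHom (algebraMap κ k).injective
    let y' : Fam 1 k := PBS.bc φ y
    let a : Arrow φ y' y := PBS.bcArrow φ y
    obtain ⟨L', hL'⟩ := hLCB a L
    obtain ⟨N', e, hW, hV, hi⟩ := hNCB a L L' hL' N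
    obtain ⟨a0, b0, hab, ar, har⟩ := hCL y' (PBS.bc_stable φ y hy)
    have hT : ∀ s', N'.Tr s' := fun s' => hVNF y' a0 b0 hab ar har L' N' s'
    have h1 := van_main a hy.proper L N L' hL' N' e hW hV hi hT
      ((algebraMap κ k).toAddMonoidHom.comp f) (by
        intro b x
        change algebraMap κ k (f _) = algebraMap κ k (IsLocalRing.residue B b) * algebraMap κ k (f x)
        rw [← hsm, hf1, map_mul]) (by
        intro x hx
        change algebraMap κ k (f x) = 0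
        rw [hf2 x hx, map_zero]) s
    have h2 : algebraMap κ k (f s) = 0 := h1
    exact hf3 ((map_eq_zero (algebraMap κ k)).1 h2)

end Pool.Agent.MG.WL
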