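import Pool.Agent.MG.WL.StmtsW
import Pool.Agent.MG.WL.Tools
import Pool.Agent.MG.W.WRG
import Pool.Agent.MG.W.WPR
import Pool.Agent.MG.W.WBC
import Pool.Agent.MG.AFF
import Pool.Agent.MG.GLU

/-!
# VNF: vanishing over an algebraically closed field for a Weierstrass curve
-/

open CategoryTheory CategoryTheory.Limits AlgebraicGeometry TensorProduct TopologicalSpace

namespace Pool.Agent.MG.WL

open Pool.Agent.MG.W Pool.Agent.MG.One Pool.Agent.MG.GLU

namespace VNF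

theorem rr {X : Scheme.{0}} {U V W : X.Opens} (h : U ≤ V) (h' : V ≤ W) (a : Γ(X, W)) :
    rs X h (rs X h' a) = rs X (h.trans h') a := AFF.rs_rs h h' a

section chart

variable {k : Type} [Field k] {a b : k} {X : Scheme.{0}} {σ : Sp k ⟶ X}
  {i1 : Sp (A1 k a b) ⟶ X} {i2 : Sp (A2 k a b) ⟶ X}

/-- The two charts of a Weierstrass curve. -/
structure Cht (σ : Sp k ⟶ X) (i1 : Sp (A1 k a b) ⟶ X) (i2 : Sp (A2 k a b) ⟶ X) : Prop where
  o1 : IsOpenImmersion i1
  o2 : IsOpenImmersion i2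
  con : spMap (g1 k a b) ≫ i1 = spMap (g2 k a b) ≫ i2
  cov : ∀ z : X, z ∈ Set.range i1 ∨ z ∈ Set.range i2
  int : ∀ x y, i1 x = i2 y → ∃ w, spMap (g1 k a b) w = x ∧ spMap (g2 k a b) w = y
  sec : σ = spMap (inf2 k a b) ≫ i2

theorem inf2_z : inf2 k a b (z2 k a b) = 0 := lift2_z _ _ _ _

theorem inf2_b (c : k) : inf2 k a b (algebraMap k _ c) = c := lift2_b _ _ _ _ _

theorem inf2_surj : Function.Surjective (inf2 k a b) := fun c => ⟨algebraMap k _ c, inf2_b c⟩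

theorem z_sec (s : Sp k) : z2 k a b ∈ (spMap (inf2 k a b) s).asIdeal := by
  change inf2 k a b (z2 k a b) ∈ s.asIdeal
  rw [inf2_z]
  exact s.asIdeal.zero_mem

theorem mem_i1 (c : Cht σ i1 i2) (z : X) : z ∈ Set.range i1 ↔ z ∉ Set.range σ := by
  constructor
  · rintro ⟨x, rfl⟩ ⟨s, hs⟩
    rw [c.sec, Scheme.Hom.comp_apply] at hs
    obtain ⟨w, h1, h2⟩ := c.int x _ hs.symm
    have h3 := z_sec (a := a) (b := b) s
    exact (WBC.range_g2 k a b _).1 ⟨w, h2⟩ h3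
  · intro hz
    rcases c.cov z with h | ⟨x, rfl⟩
    · exact h
    · by_cases hx : z2 k a b ∈ x.asIdeal
      · exfalso
        apply hz
        let s : Sp k := (⊥ : PrimeSpectrum k)
        refine ⟨s, ?_⟩
        rw [c.sec, Scheme.Hom.comp_apply]
        congr 1
        have h1 : RingHom.ker (inf2 k a b) ≤ x.asIdeal := by
          intro v hv
          have h2 := (t_WRG k a b).2.1 v
          rw [RingHom.mem_ker] at hv
          rw [hv, map_zero, sub_zero] at h2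
          exact (Ideal.span_singleton_le_iff_mem _).2 hx h2
        have h3 : (RingHom.ker (inf2 k a b)).IsMaximal :=
          RingHom.ker_isMaximal_of_surjective _ inf2_surj
        have h4 := h3.eq_of_le x.isPrime.ne_top h1
        apply PrimeSpectrum.ext
        rw [← h4]
        rfl
      · obtain ⟨w, rfl⟩ := (WBC.range_g2 k a b x).2 hx
        refine ⟨spMap (g1 k a b) w, ?_⟩
        rw [← Scheme.Hom.comp_apply, c.con, Scheme.Hom.comp_apply]

theorem pt (s : Sp k) : s = (⊥ : PrimeSpectrum k) := by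
  exact Subsingleton.elim (α := PrimeSpectrum k) s ⊥

/-- A function which vanishes at the section is divisible by `z` near the section. -/
theorem div_z [IsOpenImmersion i2] (hs : σ = spMap (inf2 k a b) ≫ i2) (N : X.Opens)
    (hN : i2.opensRange = N) (aN : IsAffineOpen N) (leN : ⊤ ≤ i2 ⁻¹ᵁ N) (z : Γ(X, N))
    (hz : gm i2 N leN z = z2 k a b) (V : X.Opens) (leV : ⊤ ≤ σ ⁻¹ᵁ V) (u : Γ(X, V))
    (hu : gm σ V leV u = 0) :
    ∃ (O : X.Opens) (hON : O ≤ N) (hOV : O ≤ V) (_ : ⊤ ≤ σ ⁻¹ᵁ O) (u' : Γ(X, O)),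
      rs X hOV u = rs X hON z * u' := by
  let s : Sp k := (⊥ : PrimeSpectrum k)
  have hsN : ⊤ ≤ σ ⁻¹ᵁ N := by
    intro q _
    change σ q ∈ N
    rw [hs, Scheme.Hom.comp_apply]
    exact leN (show _ ∈ ⊤ by trivial)
  have hp : σ s ∈ V ⊓ N := ⟨leV (show s ∈ ⊤ by trivial), hsN (show s ∈ ⊤ by trivial)⟩
  obtain ⟨h, h1, h2⟩ := aN.exists_basicOpen_le ⟨σ s, hp⟩ hp.2
  have hON : X.basicOpen h ≤ N := X.basicOpen_le h
  have hOV : X.basicOpen h ≤ V := h1.trans inf_le_left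
  have hsO : ⊤ ≤ σ ⁻¹ᵁ (X.basicOpen h) := by
    intro q _
    change σ q ∈ X.basicOpen h
    rw [pt q]
    exact h2
  obtain ⟨m, y, hy⟩ := exists_eq_pow_mul_of_isAffineOpen X N aN h (rs X hOV u)
  have hy' : rs X hON y = rs X hON h ^ m * rs X hOV u := hy
  -- the value of `y`
  have hv : inf2 k a b (gm i2 N leN y) = 0 := by
    have e1 : gm σ N hsN y = inf2 k a b (gm i2 N leN y) := gm_comp i2 (inf2 k a b) σ hs N leN hsN y
    have hid : σ = spMap (RingHom.id k) ≫ σ := by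
      have : spMap (RingHom.id k) = 𝟙 _ := Spec.map_id _
      rw [this, Category.id_comp]
    have e2 := gm_rs σ (RingHom.id k) σ hid hON hsN hsO y
    have e3 := gm_rs σ (RingHom.id k) σ hid hOV leV hsO u
    rw [← e1]
    have e4 : gm σ N hsN y = gm σ (X.basicOpen h) hsO (rs X hON y) := e2.symm
    rw [e4, hy', map_mul, e3, hu, map_zero, mul_zero]
  have hd := (t_WRG k a b).2.1 (gm i2 N leN y)
  rw [hv, map_zero, sub_zero, Ideal.mem_span_singleton] at hd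
  obtain ⟨w, hw⟩ := hd
  have hb := gm_bij i2 N leN hN
  obtain ⟨w', rfl⟩ := hb.2 w
  have hyz : y = z * w' := by
    apply hb.1
    rw [hw, map_mul, hz]
  have hun : IsUnit (rs X hON h) := RingedSpace.isUnit_res_basicOpen X.toRingedSpace h
  obtain ⟨v, hv'⟩ := hun.exists_left_inv
  refine ⟨X.basicOpen h, hON, hOV, hsO, v ^ m * rs X hON w', ?_⟩
  have h3 : v ^ m * rs X hON y = rs X hOV u := by
    rw [hy', ← mul_assoc, ← mul_pow, hv', one_pow, one_mul]
  rw [← h3, hyz, map_mul]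
  ring

end chart

end VNF

theorem t_VNF (hCEC : Stmt_CEC) : Stmt_VNF := by
  intro k _ _ y a b _ f hf L N s
  let e : y.X ⟶ WX k a b := f.f
  have he : IsIso e := hf
  let i1 : Sp (A1 k a b) ⟶ y.X := WX.in1 k a b ≫ inv e
  let i2 : Sp (A2 k a b) ⟶ y.X := WX.in2 k a b ≫ inv e
  have hie : ∀ (x : y.X), inv e (e x) = x := by
    intro x
    rw [← Scheme.Hom.comp_apply, IsIso.hom_inv_id]
    rfl
  have hei : ∀ (x : WX k a b), e (inv e x) = x := by
    intro x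
    rw [← Scheme.Hom.comp_apply, IsIso.inv_hom_id]
    rfl
  have hσ : y.σ 0 = spMap (inf2 k a b) ≫ i2 := by
    have h1 := f.sec 0
    have h2 : (Wei (WZ a b)).σ 0 = spMap (inf2 k a b) ≫ WX.in2 k a b := rfl
    have h3 : spMap (RingHom.id k) = 𝟙 _ := Spec.map_id _
    rw [h2, h3, Category.id_comp] at h1
    have h4 : y.σ 0 ≫ e = spMap (inf2 k a b) ≫ WX.in2 k a b := h1
    rw [← Category.assoc, ← h4, Category.assoc, IsIso.hom_inv_id, Category.comp_id]
  have hC : VNF.Cht (y.σ 0) i1 i2 :=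
    { o1 := inferInstance
      o2 := inferInstance
      con := by
        have h : spMap (g1 k a b) ≫ WX.in1 k a b = spMap (g2 k a b) ≫ WX.in2 k a b :=
          pushout.condition
        rw [← Category.assoc, h, Category.assoc]
      cov := by
        intro z
        rcases glue2_surj (spMap (g1 k a b)) (spMap (g2 k a b)) (e z) with ⟨x, hx⟩ | ⟨x, hx⟩
        · left
          refine ⟨x, ?_⟩
          have hx' : WX.in1 k a b x = e z := hx
          rw [Scheme.Hom.comp_apply, hx', hie]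
        · right
          refine ⟨x, ?_⟩
          have hx' : WX.in2 k a b x = e z := hx
          rw [Scheme.Hom.comp_apply, hx', hie]
      int := by
        intro x x' h
        have h1 := congrArg e h
        rw [Scheme.Hom.comp_apply, Scheme.Hom.comp_apply, hei, hei] at h1
        exact glue2_eq (spMap (g1 k a b)) (spMap (g2 k a b)) x x' h1
      sec := hσ }
  have hU1 : i1.opensRange = L.U := by
    ext z
    exact (VNF.mem_i1 hC z).trans (L.mU z).symm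
  have hprop : IsProper y.π :=
    MorphismProperty.of_isPullback (P := @IsProper) f.cart (t_WPR k a b).1
  have aU : IsAffineOpen L.U := hU1 ▸ isAffineOpen_opensRange i1
  let T : y.X.Opens := i2.opensRange
  have aT : IsAffineOpen T := isAffineOpen_opensRange i2
  -- the first application of CEC
  obtain ⟨r, q, hq⟩ := hCEC L.U aU N.W (fun i => N.V i ⊓ L.U) N.leW N.aW (fun i => inf_le_right)
    (fun i => inf_affine hprop (N.aV i) aU)
    (fun z hz => by
      rcases N.cov z with h | ⟨i, h⟩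
      · exact Or.inl h
      · exact Or.inr ⟨i, h, hz⟩)
    (fun i j hij z hz => N.dis i j hij ⟨hz.1.1, hz.2.1⟩)
    (fun i => rs y.X (inf_le_inf_left N.W inf_le_left) (s i))
  -- the second application
  have aUT : IsAffineOpen (L.U ⊓ T) := inf_affine hprop aU aT
  have secT : ⊤ ≤ (y.σ 0) ⁻¹ᵁ T := by
    intro x _
    change y.σ 0 x ∈ T
    rw [hσ, Scheme.Hom.comp_apply]
    exact ⟨_, rfl⟩
  have notU : ∀ z : y.X, z ∉ L.U → ∀ O : y.X.Opens, ⊤ ≤ (y.σ 0) ⁻¹ᵁ O → z ∈ O := by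
    intro z hz O hO
    rw [L.mU, not_not] at hz
    obtain ⟨x, rfl⟩ := hz
    exact hO (show x ∈ ⊤ by trivial)
  have hle0 : (L.U ⊓ T) ⊓ (N.V N.i₀ ⊓ T) ≤ N.V N.i₀ ⊓ L.U := fun z hz => ⟨hz.2.1, hz.1.1⟩
  obtain ⟨v, q2, hq2⟩ := hCEC T aT (ι := Unit) (L.U ⊓ T) (fun _ => N.V N.i₀ ⊓ T) inf_le_right aUT
    (fun _ => inf_le_right) (fun _ => inf_affine hprop (N.aV N.i₀) aT)
    (fun z hz => by
      by_cases h : z ∈ L.U
      · exact Or.inl ⟨h, hz⟩
      · exact Or.inr ⟨(), notU z h _ N.sec, hz⟩)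
    (fun i j hij => absurd rfl hij)
    (fun _ => rs y.X hle0 (q N.i₀))
  -- rings
  let i12 : Sp (A12 k a b) ⟶ y.X := spMap (g2 k a b) ≫ i2
  have h12 : i12 = spMap (g1 k a b) ≫ i1 := hC.con.symm
  have hr12 : i12.opensRange = L.U ⊓ T := by
    ext z
    constructor
    · rintro ⟨w, rfl⟩
      refine ⟨?_, ?_⟩
      · rw [← hU1]
        refine ⟨spMap (g1 k a b) w, ?_⟩
        rw [← Scheme.Hom.comp_apply, ← h12]
      · exact ⟨spMap (g2 k a b) w, by rw [← Scheme.Hom.comp_apply]⟩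
    · rintro ⟨h1, ⟨x', h2⟩⟩
      rw [← hU1] at h1
      obtain ⟨x, h1⟩ := h1
      obtain ⟨w, hw1, hw2⟩ := hC.int x x' (h1.trans h2.symm)
      refine ⟨w, ?_⟩
      rw [Scheme.Hom.comp_apply, hw2]
      exact h2
  have le1 : ⊤ ≤ i1 ⁻¹ᵁ L.U := le_range i1 hU1
  have le2 : ⊤ ≤ i2 ⁻¹ᵁ T := le_range i2 rfl
  have le12 : ⊤ ≤ i12 ⁻¹ᵁ (L.U ⊓ T) := le_range i12 hr12
  have b1 := gm_bij i1 L.U le1 hU1
  have b2 := gm_bij i2 T le2 rfl
  have b12 := gm_bij i12 (L.U ⊓ T) le12 hr12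
  have m1 : ∀ w, gm i12 (L.U ⊓ T) le12 (rs y.X inf_le_left w) = g1 k a b (gm i1 L.U le1 w) :=
    fun w => gm_rs i1 (g1 k a b) i12 h12 inf_le_left le1 le12 w
  have m2 : ∀ w, gm i12 (L.U ⊓ T) le12 (rs y.X inf_le_right w) = g2 k a b (gm i2 T le2 w) :=
    fun w => gm_rs i2 (g2 k a b) i12 rfl inf_le_right le2 le12 w
  have hπ : i12 ≫ y.π = spMap (algebraMap k (A12 k a b)) := by
    have h1 : e ≫ WX.pr k a b = y.π := by
      have h2 := f.cart.w
      have h3 : spMap (RingHom.id k) = 𝟙 _ := Spec.map_id _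
      rw [h3, Category.comp_id] at h2
      exact h2
    have h2 : inv e ≫ y.π = WX.pr k a b := by
      rw [← h1, IsIso.inv_hom_id_assoc]
    have h3 : i12 ≫ y.π = spMap (g2 k a b) ≫ WX.in2 k a b ≫ inv e ≫ y.π := by
      simp only [i12, i2, Category.assoc]
    rw [h3, h2, WX.in2_pr, ← Spec.map_comp]
    rfl
  have mc : ∀ c, gm i12 (L.U ⊓ T) le12 (coef y.π _ c) = algebraMap k (A12 k a b) c :=
    fun c => gm_coef i12 y.π (algebraMap k (A12 k a b)) hπ _ le12 c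
  obtain ⟨c, v1, v2, hv⟩ := (t_WRG k a b).2.2.2.2.1 (gm i12 (L.U ⊓ T) le12 v)
  obtain ⟨w1, rfl⟩ := b1.2 v1
  obtain ⟨w2, rfl⟩ := b2.2 v2
  obtain ⟨z, hz⟩ := b2.2 (z2 k a b)
  obtain ⟨zi, hzi⟩ := b12.2 ((zu k a b)⁻¹).val
  have hv' : v = coef y.π _ c * zi + rs y.X inf_le_left w1 + rs y.X inf_le_right w2 := by
    apply b12.1
    rw [hv, map_add, map_add, map_mul, mc, m1, m2, hzi]
  have hzz : rs y.X inf_le_right z * zi = 1 := by
    apply b12.1
    rw [map_mul, m2, hzi, hz, map_one, ← zu_val]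
    exact Units.mul_inv _
  -- the coordinate
  obtain ⟨O, hOT, hOV, hsO, u', hu'⟩ := VNF.div_z hσ T rfl aT le2 z hz L.V L.le L.t
    ((L.ker L.t).2 ⟨1, (mul_one _).symm⟩)
  -- the extension of `t (q - w1)`
  have hVL : N.V N.i₀ ⊓ L.U ≤ L.V := inf_le_left.trans N.le₀
  let O3 : y.X.Opens := O ⊓ N.V N.i₀
  let I : y.X.Opens := O3 ⊓ L.U
  have I1 : I ≤ N.V N.i₀ ⊓ L.U := fun x hx => ⟨hx.1.2, hx.2⟩
  have I2 : I ≤ O3 := inf_le_left
  have I3 : I ≤ L.U ⊓ T := fun x hx => ⟨hx.2, hOT hx.1.1⟩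
  have I4 : I ≤ N.V N.i₀ ⊓ T := fun x hx => ⟨hx.1.2, hOT hx.1.1⟩
  have I5 : I ≤ O := fun x hx => hx.1.1
  have I6 : I ≤ (L.U ⊓ T) ⊓ (N.V N.i₀ ⊓ T) := le_inf I3 I4
  have hglue := AFF.glue (X := y.X) (U := N.V N.i₀ ⊓ L.U) (V := O3) (W := N.V N.i₀) (I := I)
    inf_le_left inf_le_right
    (fun x hx => by
      by_cases h : x ∈ L.U
      · exact Or.inl ⟨hx, h⟩
      · exact Or.inr ⟨notU x h O hsO, hx⟩)
    I1 I2 (fun x hx => ⟨hx.2, hx.1.2⟩)
    (rs y.X hVL L.t * (q N.i₀ - rs y.X inf_le_right w1))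
    (coef y.π O3 c * rs y.X inf_le_left u' + rs y.X (inf_le_left.trans hOV) L.t *
      (rs y.X (inf_le_left.trans hOT) w2 +
        rs y.X (fun x hx => ⟨hx.2, hOT hx.1⟩ : O3 ≤ N.V N.i₀ ⊓ T) (q2 ()))) (by
      have k1 := congrArg (rs y.X I6) (hq2 ())
      rw [hv'] at k1
      have k2 := congrArg (rs y.X I3) hzz
      have k3 := congrArg (rs y.X I5) hu'
      simp only [map_add, map_mul, map_sub, map_one, VNF.rr, coef_rs] at k1 k2 k3 ⊢
      rw [k1]
      linear_combination (coef y.π I c) * (rs y.X _ zi) * k3 + (coef y.π I c) * (rs y.X _ u') * k2)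
  obtain ⟨q0, hq0, -⟩ := hglue
  -- the result
  have hWU : N.W ≤ L.U := N.leW
  have key : ∀ i, ∃ qi : Γ(y.X, N.V i),
      (i ≠ N.i₀ → s i = rs y.X inf_le_left (r + rs y.X hWU w1) + rs y.X inf_le_right qi) ∧
      (i = N.i₀ → ∀ hV : N.V i ≤ L.V, rs y.X (inf_le_right.trans hV : N.W ⊓ N.V i ≤ L.V) L.t *
        (s i - rs y.X inf_le_left (r + rs y.X hWU w1)) = rs y.X inf_le_right qi) := by
    intro i
    have hle : N.W ⊓ N.V i ≤ N.W ⊓ (N.V i ⊓ L.U) := fun x hx => ⟨hx.1, hx.2, hWU hx.1⟩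
    have h1 := congrArg (rs y.X hle) (hq i)
    simp only [map_add, VNF.rr] at h1
    have h2 : rs y.X (le_refl (N.W ⊓ N.V i)) (s i) = s i := by
      change (y.X.presheaf.map (𝟙 _)).hom (s i) = s i
      rw [y.X.presheaf.map_id]
      rfl
    rw [h2] at h1
    rcases eq_or_ne i N.i₀ with rfl | hi
    · refine ⟨q0, fun h => absurd rfl h, fun _ hV => ?_⟩
      have h3 := congrArg (rs y.X (fun x hx => ⟨hx.2, hWU hx.1⟩ :
        N.W ⊓ N.V N.i₀ ≤ N.V N.i₀ ⊓ L.U)) hq0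
      simp only [map_add, map_mul, map_sub, VNF.rr] at h3 ⊢
      rw [h3, h1]
      ring
    · refine ⟨rs y.X (le_inf le_rfl (N.ne i hi)) (q i - rs y.X inf_le_right w1),
        fun _ => ?_, fun h => absurd h hi⟩
      simp only [map_add, map_sub, VNF.rr]
      rw [h1]
      ring
  choose qq hqq using key
  exact ⟨r + rs y.X hWU w1, qq, fun i hi => (hqq i).1 hi, (hqq N.i₀).2 rfl N.le₀⟩

end Pool.Agent.MG.WL
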