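import Pool.Agent.MG.PBS

/-!
# Arrows into stable curves, lifting of arrows
-/

open CategoryTheory CategoryTheory.Limits AlgebraicGeometry TensorProduct

namespace Pool.Agent.MG.WL

section

variable {n : ℕ} {A B D : Type} [CommRing A] [CommRing B] [CommRing D] {φ : A →+* B}
  {C : Fam n A} {y : Fam n B}

theorem arrow_stable {g : ℕ} (a : Arrow φ y C) (h : IsStable g C) : IsStable g y where
  proper := by
    have := h.proper
    exact MorphismProperty.of_isPullback (P := @IsProper) a.cart h.proper
  flat := by
    have := h.flat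
    exact MorphismProperty.of_isPullback (P := @Flat) a.cart h.flat
  fp := by
    have := h.fp
    exact MorphismProperty.of_isPullback (P := @LocallyOfFinitePresentation) a.cart h.fp
  fib k _ _ s z := by
    rintro ⟨b⟩
    exact h.fib k (s.comp φ) z ⟨PBS.comp b a⟩

/-- The lift of an arrow. -/
noncomputable def arrowLift {ψ : B →+* D} {z : Fam n D} (e : Arrow (ψ.comp φ) z C)
    (g : Arrow φ y C) : Arrow ψ z y where
  f := g.cart.lift e.f (z.π ≫ spMap ψ) (by
    rw [e.cart.w, PBS.spMap_comp, Category.assoc])
  cart := by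
    have h : IsPullback (g.cart.lift e.f (z.π ≫ spMap ψ) (by
        rw [e.cart.w, PBS.spMap_comp, Category.assoc]) ≫ g.f) z.π C.π (spMap ψ ≫ spMap φ) := by
      rw [g.cart.lift_fst, ← PBS.spMap_comp]
      exact e.cart
    exact IsPullback.of_right h (g.cart.lift_snd _ _ _) g.cart
  sec i := by
    apply g.cart.hom_ext
    · rw [Category.assoc, g.cart.lift_fst, e.sec, PBS.spMap_comp, Category.assoc, Category.assoc,
        g.sec]
    · rw [Category.assoc, g.cart.lift_snd, Category.assoc, y.sec, ← Category.assoc, z.sec,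
        Category.id_comp, Category.comp_id]

theorem arrowLift_f {ψ : B →+* D} {z : Fam n D} (e : Arrow (ψ.comp φ) z C)
    (g : Arrow φ y C) : (arrowLift e g).f ≫ g.f = e.f :=
  g.cart.lift_fst _ _ _

theorem arrow_ext {ψ : B →+* D} {z : Fam n D} (e e' : Arrow ψ z y) (g : Arrow φ y C)
    (h : e.f ≫ g.f = e'.f ≫ g.f) : e.f = e'.f :=
  g.cart.hom_ext h (by rw [e.cart.w, e'.cart.w])

end

/-- An arrow over the identity is an isomorphism. -/
theorem arrow_id_iso {n : ℕ} {A : Type} [CommRing A] {C y : Fam n A}
    (a : Arrow (RingHom.id A) y C) : IsIso a.f := by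
  have h : IsIso (spMap (RingHom.id A)) := by
    have : spMap (RingHom.id A) = 𝟙 _ := Spec.map_id _
    rw [this]; infer_instance
  exact a.cart.isIso_fst_of_isIso

end Pool.Agent.MG.WL
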