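import Pool.Agent.MG.WL.DefsX
import Pool.Agent.MG.GLUT

/-!
# Local coordinates at the section, nice covers
-/

open CategoryTheory CategoryTheory.Limits AlgebraicGeometry TensorProduct

namespace Pool.Agent.MG.WL

open Pool.Agent.MG.W Pool.Agent.MG.One Pool.Agent.MG.GLU

/-- The complement `U` of the section and a coordinate `t` on an affine neighbourhood `V` of the
section. -/
structure LC {A : Type} [CommRing A] (C : Fam 1 A) where
  /-- the complement of the section -/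
  U : C.X.Opens
  mU : ∀ z : C.X, z ∈ U ↔ z ∉ Set.range (C.σ 0)
  /-- the neighbourhood of the section -/
  V : C.X.Opens
  aff : IsAffineOpen V
  le : ⊤ ≤ (C.σ 0) ⁻¹ᵁ V
  /-- the coordinate -/
  t : Γ(C.X, V)
  bas : C.X.basicOpen t = U ⊓ V
  ker : ∀ r : Γ(C.X, V), gm (C.σ 0) V le r = 0 ↔ ∃ s, r = t * s
  flat : (Polynomial.eval₂RingHom (coef C.π V) t).Flat

/-- `L'` is the base change of `L`. -/
structure LC.Bc {A B : Type} [CommRing A] [CommRing B] {φ : A →+* B} {C : Fam 1 A} {y : Fam 1 B}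
    (L : LC C) (a : Arrow φ y C) (L' : LC y) : Prop where
  U : L'.U = a.f ⁻¹ᵁ L.U
  V : L'.V = a.f ⁻¹ᵁ L.V
  t : L'.t = (a.f.appLE L.V L'.V V.le).hom L.t

/-- `X` is a function on the complement of the section with `t ^ n X = c + t r`. -/
def LC.Pole {A : Type} [CommRing A] {C : Fam 1 A} (L : LC C) (n : ℕ) (c : A)
    (X : Γ(C.X, L.U)) : Prop :=
  ∃ r : Γ(C.X, L.V), rs C.X inf_le_right L.t ^ n * rs C.X inf_le_left X =
    rs C.X (inf_le_right : L.U ⊓ L.V ≤ L.V) (coef C.π L.V c + L.t * r)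

/-- A nice cover: an affine open `W` disjoint from the section, and affine opens `V i` with
`W ∩ V i = D(β i)`, `V i ∩ V j ⊆ W` for `i ≠ j`, and `Γ(V i)/β i` finite over the base; the section
is contained in `V i₀ ⊆ L.V` and disjoint from the other `V i`. -/
structure NC {B : Type} [CommRing B] {y : Fam 1 B} (L : LC y) where
  /-- the big chart -/
  W : y.X.Opens
  aW : IsAffineOpen W
  leW : W ≤ L.U
  /-- the index set -/
  ι : Type
  [fin : Fintype ι]
  [dec : DecidableEq ι]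
  /-- the small charts -/
  V : ι → y.X.Opens
  aV : ∀ i, IsAffineOpen (V i)
  /-- the equation of the complement of `W` in `V i` -/
  β : ∀ i, Γ(y.X, V i)
  bas : ∀ i, y.X.basicOpen (β i) = W ⊓ V i
  dis : ∀ i j, i ≠ j → V i ⊓ V j ≤ W
  cov : ∀ z : y.X, z ∈ W ∨ ∃ i, z ∈ V i
  finite : ∀ i, ((Ideal.Quotient.mk (Ideal.span {β i})).comp (coef y.π (V i))).Finite
  /-- the chart of the section -/
  i₀ : ι
  le₀ : V i₀ ≤ L.V
  sec : ⊤ ≤ (y.σ 0) ⁻¹ᵁ V i₀
  ne : ∀ i, i ≠ i₀ → V i ≤ L.U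

attribute [instance] NC.fin NC.dec

end Pool.Agent.MG.WL
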