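import Pool.Agent.MG.WL.Top
import Pool.Agent.MG.PBS

/-!
# Weierstrass charts of a family of curves, classes of deformations in a chart
-/

open CategoryTheory CategoryTheory.Limits AlgebraicGeometry TensorProduct

namespace Pool.Agent.MG.WL

open Pool.Agent.MG.W Pool.Agent.MG.One

section

variable {A B D : Type} [CommRing A] [CommRing B] [CommRing D]

/-- A Weierstrass chart of `C` over `φ : A → B`: an isomorphism of the base change of `C` to `B` with
a Weierstrass curve. -/
structure Ch (φ : A →+* B) (C : Fam 1 A) where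
  /-- coefficient -/
  a : B
  /-- coefficient -/
  b : B
  h : Ideal.span {a, b} = ⊤
  /-- the arrow -/
  e : Arrow φ (Wei (WZ a b)) C

/-- `C` has Weierstrass charts Zariski locally. -/
def LW (C : Fam 1 A) : Prop :=
  ∀ p : PrimeSpectrum A, ∃ f : A, f ∉ p.asIdeal ∧
    Nonempty (Ch (algebraMap A (Localization.Away f)) C)

/-- The elements `f` of `A` such that `C` has a chart over `A_f`. -/
def chI (C : Fam 1 A) : Set A := {f | Nonempty (Ch (algebraMap A (Localization.Away f)) C)}

variable {φ : A →+* B} {C : Fam 1 A}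

/-- `δ` is the class of the deformation `d` in the chart `c`: in this chart `d` is the deformation
`(a + ε α, b + ε β)`, and `δ = 2 a β - 3 b α`. -/
def IsDelta (c : Ch φ C) (d : Defo 1 C) (δ : B) : Prop :=
  ∃ (α β : B) (f : Arrow (epsMap φ) (Wei (WZ (ep c.a α) (ep c.b β))) d.y),
    (warr (eps0 B) (fst_ep c.a α).symm (fst_ep c.b β).symm).f ≫ f.f = c.e.f ≫ d.r.f ∧
      δ = 2 * c.a * β - 3 * c.b * α

/-- Over `D` the charts `c` (over `B`) and `c'` (over `B'`) differ by the scaling `u`. -/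
def Rel {B' : Type} [CommRing B'] {φ' : A →+* B'} (c : Ch φ C) (c' : Ch φ' C) (ψ : B →+* D)
    (ψ' : B' →+* D) (u : D) : Prop :=
  ∃ (v : D) (huv : u * v = 1) (ha : ψ' c'.a = u ^ 4 * ψ c.a) (hb : ψ' c'.b = u ^ 6 * ψ c.b),
    WX.sc huv ha hb ≫ (warr ψ (a := c.a) (b := c.b) rfl rfl).f ≫ c.e.f =
      (warr ψ' (a := c'.a) (b := c'.b) rfl rfl).f ≫ c'.e.f

/-- `τ` is the coefficient of the covector `l` in the chart `c`. -/
def IsTau (c : Ch φ C) (l : Cov 1 C) (τ : B) : Prop :=
  ∀ (d : Defo 1 C) (δ : B), IsDelta c d δ → φ (l.l d) = τ * δ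

/-- Push forward of charts. -/
noncomputable def Ch.push (c : Ch φ C) (ψ : B →+* D) : Ch (ψ.comp φ) C where
  a := ψ c.a
  b := ψ c.b
  h := by
    have h := c.h
    rw [Ideal.eq_top_iff_one, Ideal.mem_span_pair] at h ⊢
    obtain ⟨r, s, hrs⟩ := h
    exact ⟨ψ r, ψ s, by rw [← map_mul, ← map_mul, ← map_add, hrs, map_one]⟩
  e := PBS.comp (warr ψ rfl rfl) c.e

end

end Pool.Agent.MG.WL
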