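import Pool.Agent.MG.WL.Tools
import Pool.Agent.MG.WL.StmtsW

/-!
# FG, translation: the product with the affine line
-/

open CategoryTheory CategoryTheory.Limits AlgebraicGeometry TensorProduct TopologicalSpace

namespace Pool.Agent.MG.WL

open Pool.Agent.MG.W Pool.Agent.MG.One Pool.Agent.MG.GLU

open Polynomial

namespace FG

section

variable {B : Type} [CommRing B] {y : Fam 1 B} {z : Fam 1 B[X]}
  (a : Arrow (C : B →+* B[X]) z y)

/-- Polynomials as functions on the product with the affine line. -/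
noncomputable def th (U : y.X.Opens) : Γ(y.X, U)[X] →+* Γ(z.X, a.f ⁻¹ᵁ U) :=
  eval₂RingHom (a.f.appLE U (a.f ⁻¹ᵁ U) le_rfl).hom (coef z.π (a.f ⁻¹ᵁ U) X)

theorem th_C {U : y.X.Opens} (r : Γ(y.X, U)) :
    th a U (C r) = (a.f.appLE U (a.f ⁻¹ᵁ U) le_rfl).hom r := by
  rw [th, coe_eval₂RingHom, eval₂_C]

theorem th_X {U : y.X.Opens} : th a U X = coef z.π (a.f ⁻¹ᵁ U) X := by
  rw [th, coe_eval₂RingHom, eval₂_X]

theorem th_coef {U : y.X.Opens} (p : B[X]) :
    th a U (p.map (coef y.π U)) = coef z.π (a.f ⁻¹ᵁ U) p := by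
  have h1 : (th a U).comp (mapRingHom (coef y.π U)) = coef z.π (a.f ⁻¹ᵁ U) := by
    refine ringHom_ext (fun b => ?_) ?_
    · rw [RingHom.comp_apply, coe_mapRingHom, map_C, th_C]
      exact coef_arrow a.cart.w U _ le_rfl b
    · rw [RingHom.comp_apply, coe_mapRingHom, map_X, th_X]
  exact congrArg (fun f => f p) h1

theorem th_rs {U V : y.X.Opens} (h : U ≤ V) (h' : a.f ⁻¹ᵁ U ≤ a.f ⁻¹ᵁ V)
    (p : Γ(y.X, V)[X]) : rs z.X h' (th a V p) = th a U (p.map (rs y.X h)) := by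
  have h1 : (rs z.X h').comp (th a V) = (th a U).comp (mapRingHom (rs y.X h)) := by
    refine ringHom_ext (fun r => ?_) ?_
    · rw [RingHom.comp_apply, RingHom.comp_apply, coe_mapRingHom, map_C, th_C, th_C]
      change (a.f.appLE V (a.f ⁻¹ᵁ V) le_rfl ≫ z.X.presheaf.map (homOfLE h').op) r =
        (y.X.presheaf.map (homOfLE h).op ≫ a.f.appLE U (a.f ⁻¹ᵁ U) le_rfl) r
      rw [Scheme.Hom.appLE_map, Scheme.Hom.map_appLE]
    · rw [RingHom.comp_apply, RingHom.comp_apply, coe_mapRingHom, map_X, th_X, th_X, coef_rs]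
  exact congrArg (fun f => f p) h1

theorem th_bij {U : y.X.Opens} (hU : IsAffineOpen U) : Function.Bijective (th a U) := by
  have hp := arrow_push a U (isIso_pushoutSection_of_isAffineOpen _ _ _ _
    (isAffineOpen_top _) (isAffineOpen_top _) hU)
  let d1 : Γ(y.X, U) ⟶ CommRingCat.of Γ(y.X, U)[X] := CommRingCat.ofHom C
  let d2 : CommRingCat.of B[X] ⟶ CommRingCat.of Γ(y.X, U)[X] :=
    CommRingCat.ofHom (mapRingHom (coef y.π U))
  have hd : CommRingCat.ofHom (coef y.π U) ≫ d1 = CommRingCat.ofHom (C : B →+* B[X]) ≫ d2 := by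
    refine CommRingCat.hom_ext (RingHom.ext fun b => ?_)
    change C (coef y.π U b) = (C b).map (coef y.π U)
    rw [map_C]
  let ψ := hp.desc d1 d2 hd
  have h1 : ∀ p, ψ.hom (th a U p) = p := by
    have h2 : ψ.hom.comp (th a U) = RingHom.id _ := by
      refine ringHom_ext (fun r => ?_) ?_
      · rw [RingHom.comp_apply, th_C]
        exact ConcreteCategory.congr_hom (hp.inl_desc d1 d2 hd) r
      · rw [RingHom.comp_apply, th_X]
        refine (ConcreteCategory.congr_hom (hp.inr_desc d1 d2 hd) X).trans ?_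
        change (X : B[X]).map (coef y.π U) = X
        rw [map_X]
    exact fun p => congrArg (fun f => f p) h2
  have h3 : ψ ≫ CommRingCat.ofHom (th a U) = 𝟙 _ := by
    apply hp.hom_ext
    · rw [← Category.assoc, hp.inl_desc, Category.comp_id]
      exact CommRingCat.hom_ext (RingHom.ext fun r => th_C a r)
    · rw [← Category.assoc, hp.inr_desc, Category.comp_id]
      exact CommRingCat.hom_ext (RingHom.ext fun p => th_coef a p)
  constructor
  · intro p q hpq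
    rw [← h1 p, hpq, h1]
  · intro v
    exact ⟨ψ.hom v, ConcreteCategory.congr_hom h3 v⟩

theorem mem_span {R G : Type} [CommRing R] [CommRing G] (t : R →+* G)
    (ht : Function.Bijective t) (x a : R) :
    x ∈ Ideal.span {a} ↔ t x ∈ Ideal.span {t a} := by
  rw [Ideal.mem_span_singleton', Ideal.mem_span_singleton']
  constructor
  · rintro ⟨b, rfl⟩
    exact ⟨t b, by rw [map_mul]⟩
  · rintro ⟨b, hb⟩
    obtain ⟨b, rfl⟩ := ht.2 b
    exact ⟨b, ht.1 (by rw [map_mul, hb])⟩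

theorem qf_tr {P R G : Type} [CommRing P] [CommRing R] [CommRing G] (t : R →+* G)
    (ht : Function.Bijective t) (c : P →+* R) (c' : P →+* G) (hc : ∀ p, t (c p) = c' p) (f : R)
    (h : ((Ideal.Quotient.mk (Ideal.span {f})).comp c).QuasiFinite) :
    ((Ideal.Quotient.mk (Ideal.span {t f})).comp c').QuasiFinite := by
  obtain rfl : t.comp c = c' := RingHom.ext hc
  let θ : R ⧸ Ideal.span {f} →+* G ⧸ Ideal.span {t f} :=
    Ideal.Quotient.lift (Ideal.span {f}) ((Ideal.Quotient.mk (Ideal.span {t f})).comp t) (by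
      intro a ha
      rw [RingHom.comp_apply, Ideal.Quotient.eq_zero_iff_mem]
      exact (mem_span _ ht _ _).1 ha)
  have hθ : Function.Surjective θ := by
    intro x
    obtain ⟨v, rfl⟩ := Ideal.Quotient.mk_surjective x
    obtain ⟨p, rfl⟩ := ht.2 v
    exact ⟨Ideal.Quotient.mk _ p, rfl⟩
  exact (RingHom.QuasiFinite.of_finite (RingHom.Finite.of_surjective _ hθ)).comp h

/-- Transport of the conclusion of `GEO`. -/
theorem transport {B : Type} [CommRing B] {ι : Type} (D : SRings B ι)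
    {R' : Type} {Q' S' : ι → Type} [CommRing R'] [∀ i, CommRing (Q' i)] [∀ i, CommRing (S' i)]
    (cr' : B[X] →+* R') (cq' : ∀ i, B[X] →+* Q' i) (jr' : ∀ i, R' →+* S' i)
    (jq' : ∀ i, Q' i →+* S' i) (tR : D.R[X] →+* R') (tQ : ∀ i, (D.Q i)[X] →+* Q' i)
    (tS : ∀ i, (D.S i)[X] →+* S' i) (bR : Function.Bijective tR)
    (bQ : ∀ i, Function.Bijective (tQ i)) (bS : ∀ i, Function.Bijective (tS i))
    (hr : ∀ i r, jr' i (tR r) = tS i (r.map (D.jr i)))
    (hq : ∀ i r, jq' i (tQ i r) = tS i (r.map (D.jq i)))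
    (hcr : ∀ p, tR (p.map D.cr) = cr' p) (hcq : ∀ i p, tQ i (p.map (D.cq i)) = cq' i p)
    (f : D.R[X]) (g : ∀ i, (D.Q i)[X])
    (H : (∃ (m : ℕ) (e : Fin m → R') (e' : Fin m → ∀ i, Q' i),
        (∀ j i, jr' i (e j) - jq' i (e' j i) ∈ Ideal.span {jr' i (tR f)}) ∧
        ∀ (r : R') (q : ∀ i, Q' i), (∀ i, jr' i r - jq' i (q i) ∈ Ideal.span {jr' i (tR f)}) →
          ∃ c : Fin m → B[X], r - ∑ j, cr' (c j) * e j ∈ Ideal.span {tR f} ∧
            ∀ i, q i - ∑ j, cq' i (c j) * e' j i ∈ Ideal.span {tQ i (g i)}) ∧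
      ∀ s : ∀ i, S' i, ∃ (r : R') (q : ∀ i, Q' i),
        ∀ i, s i - jr' i r - jq' i (q i) ∈ Ideal.span {jr' i (tR f)}) : D.Geo f g := by
  obtain ⟨⟨m, e, e', he, hG⟩, hs⟩ := H
  choose e1 he1 using fun j => bR.2 (e j)
  choose e2 he2 using fun j i => (bQ i).2 (e' j i)
  refine ⟨⟨m, e1, e2, ?_, ?_⟩, ?_⟩
  · intro j i
    have h4 := he j i
    rw [← he1 j, ← he2 j i, hr, hq, hr, ← map_sub, ← mem_span _ (bS i)] at h4
    exact h4
  · intro r q hrq
    obtain ⟨c, hc1, hc2⟩ := hG (tR r) (fun i => tQ i (q i)) (fun i => by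
      rw [hr, hq, hr, ← map_sub, ← mem_span _ (bS i)]
      exact hrq i)
    refine ⟨c, ?_, fun i => ?_⟩
    · rw [mem_span tR bR, map_sub, map_sum]
      simp only [map_mul, hcr, he1]
      exact hc1
    · rw [mem_span (tQ i) (bQ i), map_sub, map_sum]
      simp only [map_mul, hcq, he2]
      exact hc2 i
  · intro s
    obtain ⟨r, q, hrq⟩ := hs (fun i => tS i (s i))
    obtain ⟨r1, hr1⟩ := bR.2 r
    choose q1 hq1 using fun i => (bQ i).2 (q i)
    refine ⟨r1, q1, fun i => ?_⟩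
    have h4 := hrq i
    rw [← hr1, ← hq1 i, hr, hq, hr, ← map_sub, ← map_sub, ← mem_span _ (bS i)] at h4
    exact h4

variable {L : LC y} (N : NC L)

/-- The rings of a nice cover. -/
noncomputable def D : SRings B N.ι where
  R := Γ(y.X, N.W)
  Q i := Γ(y.X, N.V i)
  S i := Γ(y.X, N.W ⊓ N.V i)
  cr := coef y.π N.W
  cq i := coef y.π (N.V i)
  cs i := coef y.π (N.W ⊓ N.V i)
  jr i := rs y.X (inf_le_left : N.W ⊓ N.V i ≤ N.W)
  jq i := rs y.X (inf_le_right : N.W ⊓ N.V i ≤ N.V i)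
  hr _ _ := coef_rs _ _ _
  hq _ _ := coef_rs _ _ _

include a in
theorem geo (hGEO : Stmt_GEO) (hy : IsProper y.π) (hz : IsProper z.π) (f : Γ(y.X, N.W)[X])
    (g : ∀ i, Γ(y.X, N.V i)[X])
    (h1 : ∀ i, Ideal.span {f.map (rs y.X (inf_le_left : N.W ⊓ N.V i ≤ N.W))} =
      Ideal.span {(g i).map (rs y.X (inf_le_right : N.W ⊓ N.V i ≤ N.V i))})
    (h2 : ((Ideal.Quotient.mk (Ideal.span {f})).comp (mapRingHom (coef y.π N.W))).QuasiFinite)
    (h3 : ∀ i, ((Ideal.Quotient.mk (Ideal.span {g i})).comp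
      (mapRingHom (coef y.π (N.V i)))).QuasiFinite) :
    (D N).Geo f g := by
  have hWV : ∀ i, IsAffineOpen (N.W ⊓ N.V i) := fun i => inf_affine hy N.aW (N.aV i)
  have l1 : ∀ i, a.f ⁻¹ᵁ N.W ⊓ a.f ⁻¹ᵁ N.V i ≤ a.f ⁻¹ᵁ N.W := fun i => inf_le_left
  have l2 : ∀ i, a.f ⁻¹ᵁ N.W ⊓ a.f ⁻¹ᵁ N.V i ≤ a.f ⁻¹ᵁ N.V i := fun i => inf_le_right
  have r1 : ∀ i (p : Γ(y.X, N.W)[X]), rs z.X (l1 i) (th a N.W p) =
      th a (N.W ⊓ N.V i) (p.map (rs y.X inf_le_left)) := fun i p => th_rs a inf_le_left (l1 i) p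
  have r2 : ∀ i (p : Γ(y.X, N.V i)[X]), rs z.X (l2 i) (th a (N.V i) p) =
      th a (N.W ⊓ N.V i) (p.map (rs y.X inf_le_right)) := fun i p => th_rs a inf_le_right (l2 i) p
  have H := hGEO z.π hz (a.f ⁻¹ᵁ N.W)
    (fun i => a.f ⁻¹ᵁ N.V i) (pre_affine a N.aW) (fun i => pre_affine a (N.aV i))
    (fun z => N.cov (a.f z)) (fun i j hij x hx => N.dis i j hij hx) (th a N.W f)
    (fun i => th a (N.V i) (g i)) (fun i => by
      have h4 := congrArg (Ideal.map (th a (N.W ⊓ N.V i))) (h1 i)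
      rw [Ideal.map_span, Ideal.map_span, Set.image_singleton, Set.image_singleton,
        ← r1 i f, ← r2 i (g i)] at h4
      exact h4)
    (qf_tr _ (th_bij a N.aW) _ _ (fun p => th_coef a p) f h2)
    (fun i => qf_tr _ (th_bij a (N.aV i)) _ _ (fun p => th_coef a p) (g i) (h3 i))
  exact transport (D N) (coef z.π (a.f ⁻¹ᵁ N.W))
    (fun i => coef z.π (a.f ⁻¹ᵁ N.V i)) (fun i => rs z.X (l1 i))
    (fun i => rs z.X (l2 i)) (th a N.W) (fun i => th a (N.V i))
    (fun i => th a (N.W ⊓ N.V i)) (th_bij a N.aW) (fun i => th_bij a (N.aV i))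
    (fun i => th_bij a (hWV i)) r1 r2 (fun p => th_coef a p) (fun i p => th_coef a p) f g H

end

end FG

end Pool.Agent.MG.WL
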