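import Pool.Agent.MG.WL.FGM
import Pool.Agent.MG.WL.FGP

/-!
# FG: the first cohomology is finitely generated
-/

open CategoryTheory CategoryTheory.Limits AlgebraicGeometry TensorProduct TopologicalSpace

namespace Pool.Agent.MG.WL

open Pool.Agent.MG.W Pool.Agent.MG.One Pool.Agent.MG.GLU

open Polynomial

namespace FG

theorem spans {R Q S : Type} [CommRing R] [CommRing Q] [CommRing S] (jr : R →+* S) (jq : Q →+* S)
    (h : R) (α β : Q) (hβ : IsUnit (jq β)) (h1 : jq β * jr h = jq α) :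
    Ideal.span {(X - C h : R[X]).map jr} = Ideal.span {(C β * X - C α : Q[X]).map jq} ∧
    Ideal.span {(C h * X - 1 : R[X]).map jr} = Ideal.span {(C α * X - C β : Q[X]).map jq} := by
  have e1 : (C β * X - C α : Q[X]).map jq = C (jq β) * (X - C h : R[X]).map jr := by
    rw [Polynomial.map_sub, Polynomial.map_sub, Polynomial.map_mul, map_C, map_C, map_C, map_X,
      map_X, ← h1, C_mul]
    ring
  have e2 : (C α * X - C β : Q[X]).map jq = C (jq β) * (C h * X - 1 : R[X]).map jr := by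
    rw [Polynomial.map_sub, Polynomial.map_sub, Polynomial.map_mul, Polynomial.map_mul, map_C,
      map_C, map_C, map_X, map_X, Polynomial.map_one, ← h1, C_mul]
    ring
  rw [e1, e2]
  exact ⟨(Ideal.span_singleton_mul_left_unit (hβ.map C) _).symm,
    (Ideal.span_singleton_mul_left_unit (hβ.map C) _).symm⟩

end FG

theorem t_FG (hCL : Stmt_CL) (hGEO : Stmt_GEO) (hALGF : Stmt_ALGF) (hQFV : Stmt_QFV)
    (hTRN : Stmt_TRN) : Stmt_FG := by
  intro B _ _ _ y hy L N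
  have hpr := hy.proper
  have hlft : LocallyOfFiniteType y.π := by
    have := hy.fp
    infer_instance
  obtain ⟨h, hh⟩ := hTRN B y hy N.W N.aW (FG.meets hCL y hy N)
  have hWV : ∀ i, IsAffineOpen (N.W ⊓ N.V i) := fun i => inf_affine hpr N.aW (N.aV i)
  have hloc : ∀ i, (letI := (rs y.X (inf_le_right : N.W ⊓ N.V i ≤ N.V i)).toAlgebra
      IsLocalization.Away (N.β i) Γ(y.X, N.W ⊓ N.V i)) := fun i =>
    (N.aV i).isLocalization_of_eq_basicOpen (N.β i) (homOfLE inf_le_right) (N.bas i).symm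
  have hex : ∀ i, ∃ (n : ℕ) (α : Γ(y.X, N.V i)),
      rs y.X (inf_le_right : N.W ⊓ N.V i ≤ N.V i) (N.β i) ^ n *
        rs y.X (inf_le_left : N.W ⊓ N.V i ≤ N.W) h =
      rs y.X (inf_le_right : N.W ⊓ N.V i ≤ N.V i) α := by
    intro i
    let _ := (rs y.X (inf_le_right : N.W ⊓ N.V i ≤ N.V i)).toAlgebra
    have := hloc i
    obtain ⟨n, α, hα⟩ := IsLocalization.Away.surj (N.β i)
      (rs y.X (inf_le_left : N.W ⊓ N.V i ≤ N.W) h)
    exact ⟨n, α, (mul_comm _ _).trans hα⟩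
  choose n α hα using hex
  have hunit : ∀ i, IsUnit (rs y.X (inf_le_right : N.W ⊓ N.V i ≤ N.V i) (N.β i ^ n i)) := by
    intro i
    let _ := (rs y.X (inf_le_right : N.W ⊓ N.V i ≤ N.V i)).toAlgebra
    have := hloc i
    rw [map_pow]
    exact (IsLocalization.Away.algebraMap_isUnit (S := Γ(y.X, N.W ⊓ N.V i)) (N.β i)).pow _
  have hα' : ∀ i, rs y.X (inf_le_right : N.W ⊓ N.V i ≤ N.V i) (N.β i ^ n i) *
        rs y.X (inf_le_left : N.W ⊓ N.V i ≤ N.W) h =
      rs y.X (inf_le_right : N.W ⊓ N.V i ≤ N.V i) (α i) := by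
    intro i
    rw [map_pow]
    exact hα i
  have hV := fun i => hQFV (coef y.π (N.V i)) (rs y.X (inf_le_right : N.W ⊓ N.V i ≤ N.V i))
    (N.β i) (rs y.X (inf_le_left : N.W ⊓ N.V i ≤ N.W) h) (α i) (n i) (FG.ftc y.π (N.aV i))
    (N.finite i) (hloc i) (hα i) (by
      have h1 : (rs y.X (inf_le_right : N.W ⊓ N.V i ≤ N.V i)).comp (coef y.π (N.V i)) =
          coef y.π (N.W ⊓ N.V i) := RingHom.ext fun b => coef_rs _ _ _
      rw [h1]
      exact FG.qf_sub y.π (hWV i) N.aW inf_le_left h hh)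
  have hW := FG.qf_one hQFV (coef y.π N.W) h (FG.ftc y.π N.aW) hh
  have hsp := fun i => FG.spans (rs y.X (inf_le_left : N.W ⊓ N.V i ≤ N.W))
    (rs y.X (inf_le_right : N.W ⊓ N.V i ≤ N.V i)) h (α i) (N.β i ^ n i) (hunit i) (hα' i)
  let a := PBS.bcArrow (C : B →+* B[X]) y
  have hz : IsProper (PBS.bc (C : B →+* B[X]) y).π := (PBS.bc_stable C y hy).proper
  let f1 : Γ(y.X, N.W)[X] := X - C h
  let g1 : ∀ i, Γ(y.X, N.V i)[X] := fun i => C (N.β i ^ n i) * X - C (α i)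
  let f2 : Γ(y.X, N.W)[X] := C h * X - 1
  let g2 : ∀ i, Γ(y.X, N.V i)[X] := fun i => C (α i) * X - C (N.β i ^ n i)
  have G1 := FG.geo a N hGEO hpr hz f1 g1 (fun i => (hsp i).1) hW.1 (fun i => (hV i).1)
  have G2 := FG.geo a N hGEO hpr hz f2 g2 (fun i => (hsp i).2) hW.2 (fun i => (hV i).2)
  exact hALGF (FG.D N) h α (fun i => N.β i ^ n i) hunit hα' G1 G2

end Pool.Agent.MG.WL
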