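import Pool.Agent.MG.WL.TRN

/-!
# FG: the big chart of a nice cover meets the closed fibre
-/

open CategoryTheory CategoryTheory.Limits AlgebraicGeometry TensorProduct TopologicalSpace

namespace Pool.Agent.MG.WL

open Pool.Agent.MG.W Pool.Agent.MG.One

namespace FG

/-- A chart whose equation vanishes on the fibre is finite on the fibre. -/
theorem fin_of_zero {B K : Type} [CommRing B] [Field K] {s : B →+* K} {y : Fam 1 B} {z : Fam 1 K}
    (a : Arrow s z y) {V : y.X.Opens} (hV : IsAffineOpen V) (b : Γ(y.X, V))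
    (hb : ((Ideal.Quotient.mk (Ideal.span {b})).comp (coef y.π V)).Finite)
    (h0 : (a.f.appLE V (a.f ⁻¹ᵁ V) le_rfl).hom b = 0) :
    ((a.f ⁻¹ᵁ V : z.X.Opens) : Set z.X).Finite := by
  let _ : Algebra B Γ(y.X, V) := (coef y.π V).toAlgebra
  let _ : Algebra B K := s.toAlgebra
  obtain ⟨e, he⟩ := tp_affine a hV
  let G := Γ(z.X, a.f ⁻¹ᵁ V)
  let _ : Algebra K G := (coef z.π (a.f ⁻¹ᵁ V)).toAlgebra
  have hfin : Module.Finite K G := by
    let Qt := Γ(y.X, V) ⧸ Ideal.span {b}
    have h1 : Module.Finite B Qt := RingHom.finite_algebraMap.1 hb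
    let _ : Algebra B G := ((coef z.π (a.f ⁻¹ᵁ V)).comp s).toAlgebra
    have : IsScalarTower B K G := IsScalarTower.of_algebraMap_eq' rfl
    let f : Γ(y.X, V) →ₐ[B] G :=
      { (a.f.appLE V (a.f ⁻¹ᵁ V) le_rfl).hom with
        commutes' := fun c => coef_arrow a.cart.w V _ le_rfl c }
    let ψ : Qt →ₐ[B] G := Ideal.Quotient.liftₐ _ f (by
      intro x hx
      rw [Ideal.mem_span_singleton'] at hx
      obtain ⟨c, rfl⟩ := hx
      rw [map_mul]
      change _ * (a.f.appLE V (a.f ⁻¹ᵁ V) le_rfl).hom b = 0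
      rw [h0, mul_zero])
    let Θ : K ⊗[B] Qt →ₐ[K] G :=
      Algebra.TensorProduct.lift (Algebra.ofId K G) ψ (fun _ _ => mul_comm _ _)
    have hΘ : Function.Surjective Θ := by
      intro v
      obtain ⟨u, rfl⟩ := e.surjective v
      induction u using TensorProduct.induction_on with
      | zero => exact ⟨0, by rw [map_zero, map_zero]⟩
      | add u v hu hv =>
        obtain ⟨c, hc⟩ := hu
        obtain ⟨d, hd⟩ := hv
        exact ⟨c + d, by rw [map_add, hc, hd, map_add]⟩
      | tmul k r =>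
        refine ⟨k ⊗ₜ Ideal.Quotient.mk _ r, ?_⟩
        rw [he]
        rfl
    exact Module.Finite.of_surjective Θ.toLinearMap hΘ
  have : IsArtinianRing G := IsArtinianRing.of_finite K G
  have hF : Finite (PrimeSpectrum G) := inferInstance
  exact Finite.of_injective _ (Two.primeIdealOf_injective (pre_affine a hV))

open IsLocalRing in
theorem meets (hCL : Stmt_CL) {B : Type} [CommRing B] [IsLocalRing B] [Algebra ℂ B] (y : Fam 1 B)
    (hy : IsStable 1 y) {L : LC y} (N : NC L) :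
    ∃ x ∈ N.W, y.π x = IsLocalRing.closedPoint B := by
  by_contra hno
  push Not at hno
  let K₀ := AlgebraicClosure (ResidueField B)
  let s₀ : B →+* K₀ := (algebraMap (ResidueField B) K₀).comp (residue B)
  have := TRN.charZero s₀
  have hC : Crv (PBS.bc s₀ y).X := crv_of_stable hCL _ (PBS.bc_stable s₀ y hy)
  have hs₀ : IsLocalHom s₀ := RingHom.isLocalHom_comp _ _
  let a := PBS.bcArrow s₀ y
  have hW : a.f ⁻¹ᵁ N.W = ⊥ := by
    rw [eq_bot_iff]
    intro z hz
    refine (hno (a.f z) hz ?_).elim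
    have h1 : y.π (a.f z) = spMap s₀ ((PBS.bc s₀ y).π z) := by
      rw [← Scheme.Hom.comp_apply, ← Scheme.Hom.comp_apply, a.cart.w]
    rw [h1, ← IsLocalRing.comap_closedPoint s₀]
    change PrimeSpectrum.comap s₀ _ = PrimeSpectrum.comap s₀ _
    congr 1
    exact Subsingleton.elim _ _
  have hb : ∀ i, (a.f.appLE (N.V i) (a.f ⁻¹ᵁ N.V i) le_rfl).hom (N.β i) = 0 := by
    intro i
    have := hC.int
    rw [← basicOpen_eq_bot_iff, eq_bot_iff, ← hW]
    have h1 := Scheme.basicOpen_appLE a.f (a.f ⁻¹ᵁ N.V i) (N.V i) le_rfl (N.β i)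
    refine h1.le.trans (inf_le_right.trans ?_)
    rw [N.bas i]
    exact fun x hx => hx.1
  have hfin : (Set.univ : Set (PBS.bc s₀ y).X).Finite := by
    refine (Set.finite_iUnion fun i =>
      fin_of_zero a (N.aV i) (N.β i) (N.finite i) (hb i)).subset fun z _ => ?_
    rcases N.cov (a.f z) with h | ⟨i, h⟩
    · have h1 : z ∈ a.f ⁻¹ᵁ N.W := h
      rw [hW] at h1
      exact h1.elim
    · exact Set.mem_iUnion.2 ⟨i, h⟩
  have := hC.inf
  exact Set.infinite_univ hfin

theorem ftc {B : Type} [CommRing B] {X : Scheme.{0}} (π : X ⟶ Sp B) [LocallyOfFiniteType π]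
    {U : X.Opens} (hU : IsAffineOpen U) : (coef π U).FiniteType := by
  have h1 := HasRingHomProperty.appLE (P := @LocallyOfFiniteType) π inferInstance
    ⟨⊤, isAffineOpen_top _⟩ ⟨U, hU⟩ le_top
  rw [coef_eq]
  exact h1.comp (RingHom.FiniteType.of_surjective _
    (ConcreteCategory.bijective_of_isIso (Scheme.ΓSpecIso (CommRingCat.of B)).inv).2)

theorem qf_rs {X : Scheme.{0}} {U V : X.Opens} (hU : IsAffineOpen U) (hV : IsAffineOpen V)
    (h : U ≤ V) : (rs X h).QuasiFinite := by
  have h0 : U ≤ (𝟙 X : X ⟶ X) ⁻¹ᵁ V := h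
  have h1 := LocallyQuasiFinite.quasiFinite_appLE (f := 𝟙 X) hV hU h0
  have h2 : (𝟙 X : X ⟶ X).appLE V U h0 = X.presheaf.map (homOfLE h).op := by
    rw [Scheme.Hom.appLE, Scheme.Hom.id_app]
    exact Category.id_comp (X.presheaf.map (homOfLE h).op)
  rw [h2] at h1
  exact h1

open Polynomial in
theorem qf_sub {B : Type} [CommRing B] {X : Scheme.{0}} (π : X ⟶ Sp B) {U V : X.Opens}
    (hU : IsAffineOpen U) (hV : IsAffineOpen V) (h : U ≤ V) (f : Γ(X, V))
    (hf : (eval₂RingHom (coef π V) f).QuasiFinite) :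
    (eval₂RingHom (coef π U) (rs X h f)).QuasiFinite := by
  have h1 : eval₂RingHom (coef π U) (rs X h f) = (rs X h).comp (eval₂RingHom (coef π V) f) := by
    refine ringHom_ext (fun b => ?_) ?_
    · rw [RingHom.comp_apply, coe_eval₂RingHom, coe_eval₂RingHom, eval₂_C, eval₂_C, coef_rs]
    · rw [RingHom.comp_apply, coe_eval₂RingHom, coe_eval₂RingHom, eval₂_X, eval₂_X]
  rw [h1]
  exact (qf_rs hU hV h).comp hf

open Polynomial in
/-- The charts of the graph over the big chart. -/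
theorem qf_one (hQFV : Stmt_QFV) {B R : Type} [CommRing B] [CommRing R] (c : B →+* R) (h : R)
    (hc : c.FiniteType) (hqf : (eval₂RingHom c h).QuasiFinite) :
    ((Ideal.Quotient.mk (Ideal.span {(X - C h : R[X])})).comp (mapRingHom c)).QuasiFinite ∧
    ((Ideal.Quotient.mk (Ideal.span {(C h * X - 1 : R[X])})).comp (mapRingHom c)).QuasiFinite := by
  have hs : Subsingleton (R ⧸ Ideal.span {(1 : R)}) :=
    Ideal.Quotient.subsingleton_iff.2 Ideal.span_singleton_one
  have h1 := hQFV c (RingHom.id R) 1 h h 0 hc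
    (RingHom.Finite.of_surjective _ fun x => ⟨0, Subsingleton.elim _ _⟩)
    (IsLocalization.away_of_isUnit_of_bijective R isUnit_one Function.bijective_id)
    (by rw [pow_zero, one_mul, RingHom.id_apply]) (by rw [RingHom.id_comp]; exact hqf)
  have e1 : (C (1 ^ 0) * X - C h : R[X]) = X - C h := by rw [pow_zero, C_1, one_mul]
  have e2 : (C h * X - C (1 ^ 0) : R[X]) = C h * X - 1 := by rw [pow_zero, C_1]
  exact ⟨e1 ▸ h1.1, e2 ▸ h1.2⟩

end FG

end Pool.Agent.MG.WL
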