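import Pool.Agent.MG.WL.StmtsW
import Pool.Agent.MG.WL.Tools
import Pool.Agent.MG.NOD

/-!
# GNC: from preliminary nice covers to nice covers
-/

set_option autoImplicit false

open CategoryTheory CategoryTheory.Limits AlgebraicGeometry TensorProduct

namespace Pool.Agent.MG.WL

open Pool.Agent.MG.W Pool.Agent.MG.One Pool.Agent.MG.GLU

namespace GNC

section closedpt

variable {B : Type} [CommRing B] [IsLocalRing B] {X Z : Scheme.{0}} (π : X ⟶ Sp B)

theorem closed_range (j : Z ⟶ X) (hj : IsProper (j ≫ π)) (hπ : IsProper π) :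
    IsClosed (Set.range j) := by
  have : IsProper j := IsProper.of_comp j π
  exact j.isClosedMap.isClosed_range

theorem mem_of_closed (j : Z ⟶ X) (hj : IsProper (j ≫ π)) (O : X.Opens)
    (h : ∀ z : Z, π (j z) = IsLocalRing.closedPoint B → j z ∈ O) (z : Z) : j z ∈ O := by
  by_contra hz
  have h1 : IsClosed ((j ≫ π) '' (j ⁻¹' (O : Set X)ᶜ)) :=
    (j ≫ π).isClosedMap _ (O.isOpen.isClosed_compl.preimage j.continuous)
  have h2 : (j ≫ π) z ∈ (j ≫ π) '' (j ⁻¹' (O : Set X)ᶜ) := ⟨z, hz, rfl⟩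
  have h3 := (IsLocalRing.specializes_closedPoint ((j ≫ π) z : PrimeSpectrum B)).mem_closed h1 h2
  obtain ⟨w, hw, hwc⟩ := h3
  exact hw (h w hwc)

end closedpt

section piece

variable {B : Type} [CommRing B] {X : Scheme.{0}} {V : X.Opens} (hV : IsAffineOpen V) (β : Γ(X, V))

/-- The closed subscheme of `V` defined by `β`. -/
noncomputable def jj : Sp (Γ(X, V) ⧸ Ideal.span {β}) ⟶ X :=
  spMap (Ideal.Quotient.mk (Ideal.span {β})) ≫ hV.fromSpec

theorem mem_jj (x : X) : (∃ s, jj hV β s = x) ↔ x ∈ V ∧ x ∉ X.basicOpen β := by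
  constructor
  · rintro ⟨s, rfl⟩
    have h1 : jj hV β s ∈ Set.range hV.fromSpec :=
      ⟨spMap (Ideal.Quotient.mk (Ideal.span {β})) s, rfl⟩
    rw [hV.range_fromSpec] at h1
    refine ⟨h1, fun h2 => ?_⟩
    have h3 : spMap (Ideal.Quotient.mk (Ideal.span {β})) s ∈ hV.fromSpec ⁻¹ᵁ X.basicOpen β := h2
    rw [hV.fromSpec_preimage_basicOpen] at h3
    apply h3
    change Ideal.Quotient.mk (Ideal.span {β}) β ∈ s.asIdeal
    rw [Ideal.Quotient.eq_zero_iff_mem.2 (Ideal.mem_span_singleton_self β)]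
    exact zero_mem _
  · rintro ⟨hx, hxb⟩
    have h1 : x ∈ Set.range hV.fromSpec := by rw [hV.range_fromSpec]; exact hx
    obtain ⟨p, rfl⟩ := h1
    have h2 : p ∉ hV.fromSpec ⁻¹ᵁ X.basicOpen β := hxb
    rw [hV.fromSpec_preimage_basicOpen] at h2
    have h3 : β ∈ p.asIdeal := by
      by_contra h
      exact h2 h
    have h4 : p ∈ Set.range (PrimeSpectrum.comap (Ideal.Quotient.mk (Ideal.span {β}))) := by
      rw [range_comap_of_surjective _ _ Ideal.Quotient.mk_surjective,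
        Ideal.mk_ker]
      change ((Ideal.span {β} : Ideal Γ(X, V)) : Set Γ(X, V)) ⊆ (p.asIdeal : Set Γ(X, V))
      intro y hy
      obtain ⟨c, rfl⟩ := Ideal.mem_span_singleton'.1 hy
      exact p.asIdeal.mul_mem_left _ h3
    obtain ⟨s, hs⟩ := h4
    refine ⟨s, ?_⟩
    change hV.fromSpec (spMap (Ideal.Quotient.mk (Ideal.span {β})) s) = _
    congr 1

end piece

section aff

variable {X : Scheme.{0}} {W U : X.Opens}

/-- Locality of affineness on an affine base. -/
theorem affine_of_local (hW : IsAffineOpen W) (hU : U ≤ W)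
    (h : ∀ x ∈ W, ∃ f : Γ(X, W), x ∈ X.basicOpen f ∧ IsAffineOpen (U ⊓ X.basicOpen f)) :
    IsAffineOpen U := by
  let s : Set Γ(X, W) := {f | IsAffineOpen (U ⊓ X.basicOpen f)}
  have hs : Ideal.span s = ⊤ := by
    rw [← hW.self_le_iSup_basicOpen_iff]
    intro x hx
    obtain ⟨f, hf, hfa⟩ := h x hx
    exact TopologicalSpace.Opens.mem_iSup.2 ⟨⟨f, hfa⟩, hf⟩
  refine isAffineOpen_of_isAffineOpen_basicOpen U (rs X hU '' s) ?_ ?_
  · rw [← Ideal.map_span, hs, Ideal.map_top]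
  · rintro _ ⟨f, hf, rfl⟩
    have h1 := Scheme.basicOpen_res X f (homOfLE hU).op
    have h2 : X.basicOpen (rs X hU f) = U ⊓ X.basicOpen f := h1
    rw [h2]
    exact hf

/-- The complement in an affine open `W` of a closed subset of `X` which is defined by one equation
in an affine open `V`. -/
theorem affine_sub (hW : IsAffineOpen W) {V : X.Opens} (β : Γ(X, V))
    (hU : ∀ x, x ∈ U ↔ x ∈ W ∧ (x ∈ V → x ∈ X.basicOpen β)) :
    IsAffineOpen U := by
  refine affine_of_local hW (fun x hx => ((hU x).1 hx).1) fun x hx => ?_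
  by_cases hxU : x ∈ U
  · obtain ⟨f, hf, hxf⟩ := hW.exists_basicOpen_le ⟨x, hxU⟩ hx
    refine ⟨f, hxf, ?_⟩
    rw [inf_eq_right.2 hf]
    exact hW.basicOpen f
  · have hxV : x ∈ V := by
      by_contra h
      exact hxU ((hU x).2 ⟨hx, fun h' => absurd h' h⟩)
    obtain ⟨f, hf, hxf⟩ := hW.exists_basicOpen_le (V := W ⊓ V) ⟨x, ⟨hx, hxV⟩⟩ hx
    refine ⟨f, hxf, ?_⟩
    have hfV : X.basicOpen f ≤ V := hf.trans inf_le_right
    have h1 : U ⊓ X.basicOpen f = X.basicOpen (rs X hfV β) := by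
      have h2 : X.basicOpen (rs X hfV β) = X.basicOpen f ⊓ X.basicOpen β :=
        Scheme.basicOpen_res X β (homOfLE hfV).op
      rw [h2]
      ext z
      constructor
      · rintro ⟨hz, hzf⟩
        exact ⟨hzf, ((hU z).1 hz).2 (hfV hzf)⟩
      · rintro ⟨hzf, hz⟩
        exact ⟨(hU z).2 ⟨(hf hzf).1, fun _ => hz⟩, hzf⟩
    rw [h1]
    exact (hW.basicOpen f).basicOpen _

end aff

section fin

variable {B : Type} [CommRing B] {X : Scheme.{0}} {V V' : X.Opens}

theorem finite_restrict (hV : IsAffineOpen V) (β g : Γ(X, V)) (hV' : V' = X.basicOpen g)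
    (h : V' ≤ V) (hc : ∀ x ∈ V, x ∈ X.basicOpen β ∨ x ∈ X.basicOpen g) (c : B →+* Γ(X, V))
    (hf : ((Ideal.Quotient.mk (Ideal.span {β})).comp c).Finite) :
    ((Ideal.Quotient.mk (Ideal.span {rs X h β})).comp ((rs X h).comp c)).Finite := by
  subst hV'
  have hs : Ideal.span {β, g} = ⊤ := by
    rw [← hV.self_le_iSup_basicOpen_iff]
    intro x hx
    rcases hc x hx with h | h
    · exact TopologicalSpace.Opens.mem_iSup.2 ⟨⟨β, by simp⟩, h⟩
    · exact TopologicalSpace.Opens.mem_iSup.2 ⟨⟨g, by simp⟩, h⟩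
  obtain ⟨u, w, huw⟩ := Ideal.mem_span_pair.1 ((Ideal.eq_top_iff_one _).1 hs)
  have hle : Ideal.span {β} ≤ Ideal.comap (rs X h) (Ideal.span {rs X h β}) := by
    rw [Ideal.span_singleton_le_iff_mem, Ideal.mem_comap]
    exact Ideal.mem_span_singleton_self _
  let ρ : Γ(X, V) ⧸ Ideal.span {β} →+* Γ(X, X.basicOpen g) ⧸ Ideal.span {rs X h β} :=
    Ideal.quotientMap _ (rs X h) hle
  have hρ : (Ideal.Quotient.mk (Ideal.span {rs X h β})).comp ((rs X h).comp c) =
      ρ.comp ((Ideal.Quotient.mk (Ideal.span {β})).comp c) := by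
    ext b
    simp only [ρ, RingHom.comp_apply, Ideal.quotientMap_mk]
  rw [hρ]
  refine RingHom.Finite.comp (RingHom.Finite.of_surjective _ ?_) hf
  intro y
  obtain ⟨y, rfl⟩ := Ideal.Quotient.mk_surjective y
  have hl := hV.isLocalization_basicOpen g
  obtain ⟨⟨a, ⟨_, n, rfl⟩⟩, ha⟩ := IsLocalization.surj (Submonoid.powers g) y
  refine ⟨Ideal.Quotient.mk _ (a * w ^ n), ?_⟩
  rw [Ideal.quotientMap_mk, Ideal.Quotient.mk_eq_mk_iff_sub_mem]
  have h1 : rs X h g ^ n * rs X h w ^ n - 1 ∈ Ideal.span {rs X h β} := by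
    rw [← mul_pow]
    have h2 : rs X h g * rs X h w - 1 ∈ Ideal.span {rs X h β} := by
      rw [Ideal.mem_span_singleton']
      refine ⟨- rs X h u, ?_⟩
      have h0 := congrArg (rs X h) huw
      rw [map_add, map_mul, map_mul, map_one] at h0
      linear_combination -h0
    have h3 : (1 : Γ(X, X.basicOpen g)) ^ n = 1 := one_pow n
    rw [← h3]
    exact Ideal.mem_of_dvd _ (sub_dvd_pow_sub_pow _ _ n) h2
  have h4 : y * rs X h g ^ n = rs X h a := by
    rw [← map_pow]
    exact ha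
  have h5 : rs X h (a * w ^ n) - y = y * (rs X h g ^ n * rs X h w ^ n - 1) := by
    rw [map_mul, ← h4, map_pow]
    ring
  rw [h5]
  exact Ideal.mul_mem_left _ _ h1

end fin



section main

variable {B : Type} [CommRing B] {y : Fam 1 B}

theorem jj_comp {V : y.X.Opens} (hV : IsAffineOpen V) (β : Γ(y.X, V)) :
    jj hV β ≫ y.π = spMap ((Ideal.Quotient.mk (Ideal.span {β})).comp (coef y.π V)) := by
  rw [jj, Category.assoc, NOD.fromSpec_coef, spMap_comp']

end main

end GNC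

theorem t_GNC : Stmt_GNC := by
  intro B _ _ y hy L P hG
  have hπ : IsProper y.π := hy.proper
  let Y : P.ι → Set y.X := fun i => {x | x ∈ P.V i ∧ x ∉ y.X.basicOpen (P.β i)}
  have hYr : ∀ i, Y i = Set.range (GNC.jj (P.aV i) (P.β i)) := by
    intro i
    ext x
    exact (GNC.mem_jj (P.aV i) (P.β i) x).symm
  have hjp : ∀ i, IsProper (GNC.jj (P.aV i) (P.β i) ≫ y.π) := by
    intro i
    rw [GNC.jj_comp]
    have : IsFinite (spMap ((Ideal.Quotient.mk (Ideal.span {P.β i})).comp (coef y.π (P.V i)))) :=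
      (IsFinite.SpecMap_iff _).2 (hG i)
    infer_instance
  have hYc : ∀ i, IsClosed (Y i) := fun i => by
    rw [hYr]
    exact GNC.closed_range y.π _ (hjp i) hπ
  have hYO : ∀ i (O : y.X.Opens), P.z i ∈ O → ∀ x ∈ Y i, x ∈ O := by
    intro i O hz x hx
    obtain ⟨s, rfl⟩ := (GNC.mem_jj (P.aV i) (P.β i) x).2 hx
    refine GNC.mem_of_closed y.π _ (hjp i) O (fun w hw => ?_) s
    have h1 := (GNC.mem_jj (P.aV i) (P.β i) _).1 ⟨w, rfl⟩
    rw [P.uniq i _ h1.1 hw h1.2]
    exact hz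
  have hzY : ∀ i, P.z i ∈ Y i := fun i => ⟨P.mem i, fun h => P.nW i (P.bas i h)⟩
  have hzn : ∀ i j, j ≠ i → P.z i ∉ Y j := fun i j hij h =>
    hij (P.inj (P.uniq j _ h.1 (P.zc i) h.2)).symm
  have hσp : IsProper (y.σ 0 ≫ y.π) := by
    rw [y.sec]
    infer_instance
  have hσc : IsClosed (Set.range (y.σ 0)) := GNC.closed_range y.π _ hσp hπ
  have hσπ : ∀ s, y.π (y.σ 0 s) = s := by
    intro s
    have h1 : (y.σ 0 ≫ y.π) s = s := by
      rw [y.sec]
      rfl
    exact h1
  have hσO : ∀ O : y.X.Opens, P.z P.i₀ ∈ O → ∀ s, y.σ 0 s ∈ O := by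
    intro O hz s
    refine GNC.mem_of_closed y.π _ hσp O (fun w hw => ?_) s
    rw [hσπ] at hw
    rw [hw, P.sec]
    exact hz
  have hσz : ∀ i, i ≠ P.i₀ → P.z i ∉ Set.range (y.σ 0) := by
    rintro i hi ⟨s, hs⟩
    have h1 := P.zc i
    rw [← hs, hσπ] at h1
    rw [h1, P.sec] at hs
    exact hi (P.inj hs).symm
  have hcov : ∀ x, x ∈ P.W ∨ ∃ i, x ∈ P.V i := by
    have h := GNC.mem_of_closed y.π (𝟙 y.X) (by rw [Category.id_comp]; exact hπ)
      (P.W ⊔ ⨆ i, P.V i) (fun z hz => by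
        have hz' : y.π z = IsLocalRing.closedPoint B := hz
        change z ∈ P.W ⊔ ⨆ i, P.V i
        rcases P.cov z hz' with h | ⟨i, rfl⟩
        · exact Or.inl h
        · exact Or.inr (TopologicalSpace.Opens.mem_iSup.2 ⟨i, P.mem i⟩))
    intro x
    rcases h x with h | h
    · exact Or.inl h
    · exact Or.inr (TopologicalSpace.Opens.mem_iSup.1 h)
  have hg : ∀ i, ∃ g : Γ(y.X, P.V i), P.z i ∈ y.X.basicOpen g ∧
      (∀ j, j ≠ i → ∀ x ∈ Y j, x ∉ y.X.basicOpen g) ∧
      (i ≠ P.i₀ → ∀ s, y.σ 0 s ∉ y.X.basicOpen g) := by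
    intro i
    have hc : IsClosed ((⋃ j : {j // j ≠ i}, Y j) ∪
        {x | x ∈ Set.range (y.σ 0) ∧ i ≠ P.i₀}) := by
      refine (isClosed_iUnion_of_finite (s := fun j : {j // j ≠ i} => Y j)
        fun j => hYc j).union ?_
      by_cases h : i = P.i₀
      · have : {x | x ∈ Set.range (y.σ 0) ∧ i ≠ P.i₀} = ∅ := by
          ext x
          simp [h]
        rw [this]
        exact isClosed_empty
      · have : {x | x ∈ Set.range (y.σ 0) ∧ i ≠ P.i₀} = Set.range (y.σ 0) := by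
          ext x
          simp [h]
        rw [this]
        exact hσc
    let O : y.X.Opens := ⟨_, hc.isOpen_compl⟩
    have hzO : P.z i ∈ O := by
      intro h
      rcases h with h | h
      · obtain ⟨j, hj⟩ := Set.mem_iUnion.1 h
        exact hzn i j j.2 hj
      · exact hσz i h.2 h.1
    obtain ⟨g, hg, hgz⟩ := (P.aV i).exists_basicOpen_le (V := O) ⟨P.z i, hzO⟩ (P.mem i)
    refine ⟨g, hgz, fun j hj x hx hxg => ?_, fun hi s hs => ?_⟩
    · exact hg hxg (Or.inl (Set.mem_iUnion.2 ⟨⟨j, hj⟩, hx⟩))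
    · exact hg hs (Or.inr ⟨⟨s, rfl⟩, hi⟩)
  choose g hgz hgY hgσ using hg
  let WO : Finset P.ι → y.X.Opens := fun s =>
    ⟨(P.W : Set y.X) \ ⋃ i : s, Y i, P.W.isOpen.sdiff (isClosed_iUnion_of_finite fun i => hYc i)⟩
  have hWO : ∀ s x, x ∈ WO s ↔ x ∈ P.W ∧ ∀ i ∈ s, x ∉ Y i := by
    intro s x
    change x ∈ (P.W : Set y.X) \ ⋃ i : s, Y i ↔ _
    rw [Set.mem_diff, Set.mem_iUnion]
    refine and_congr Iff.rfl ⟨fun h i hi hx => h ⟨⟨i, hi⟩, hx⟩, fun h => ?_⟩
    rintro ⟨⟨i, hi⟩, hx⟩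
    exact h i hi hx
  have hWa : ∀ s, IsAffineOpen (WO s) := by
    intro s
    induction s using Finset.induction_on with
    | empty =>
      have : WO ∅ = P.W := by
        ext x
        exact (hWO ∅ x).trans (by simp)
      rw [this]
      exact P.aW
    | insert a s ha ih =>
      have h1 : IsAffineOpen (WO {a}) := by
        refine GNC.affine_sub P.aW (P.β a) fun x => ?_
        rw [hWO]
        refine and_congr Iff.rfl ⟨fun h hx => ?_, fun h i hi hx => ?_⟩
        · by_contra hb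
          exact h a (Finset.mem_singleton_self a) ⟨hx, hb⟩
        · rw [Finset.mem_singleton] at hi
          subst hi
          exact hx.2 (h hx.1)
      have h2 : WO (insert a s) = WO {a} ⊓ WO s := by
        ext x
        refine (hWO _ x).trans (Iff.trans ?_ (and_congr (hWO _ x) (hWO _ x)).symm)
        simp only [Finset.mem_insert, Finset.mem_singleton, forall_eq_or_imp, forall_eq]
        tauto
      rw [h2]
      exact inf_affine hπ h1 ih
  have hDW : ∀ i x, x ∈ y.X.basicOpen (P.β i) → x ∈ y.X.basicOpen (g i) →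
      x ∈ WO Finset.univ := by
    intro i x hx hxg
    rw [hWO]
    refine ⟨P.bas i hx, fun j _ hj => ?_⟩
    by_cases hji : j = i
    · subst hji
      exact hj.2 hx
    · exact hgY i j hji x hj hxg
  refine ⟨{ W := WO Finset.univ
            aW := hWa _
            leW := fun x hx => P.leW ((hWO _ x).1 hx).1
            ι := P.ι
            V := fun i => y.X.basicOpen (g i)
            aV := fun i => (P.aV i).basicOpen _
            β := fun i => rs y.X (y.X.basicOpen_le (g i)) (P.β i)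
            bas := fun i => ?_
            dis := fun i j hij x hx => ?_
            cov := fun x => ?_
            finite := fun i => ?_
            i₀ := P.i₀
            le₀ := (y.X.basicOpen_le _).trans P.le₀
            sec := fun s _ => hσO _ (hgz _) s
            ne := fun i hi x hx => ?_ }⟩
  · have h1 : y.X.basicOpen (rs y.X (y.X.basicOpen_le (g i)) (P.β i)) =
        y.X.basicOpen (g i) ⊓ y.X.basicOpen (P.β i) :=
      Scheme.basicOpen_res y.X (P.β i) (homOfLE (y.X.basicOpen_le (g i))).op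
    rw [h1]
    ext x
    constructor
    · rintro ⟨hxg, hx⟩
      exact ⟨hDW i x hx hxg, hxg⟩
    · rintro ⟨hxW, hxg⟩
      refine ⟨hxg, ?_⟩
      by_contra hx
      exact ((hWO _ x).1 hxW).2 i (Finset.mem_univ i) ⟨y.X.basicOpen_le _ hxg, hx⟩
  · have hxi : x ∈ y.X.basicOpen (g i) := hx.1
    have hxj : x ∈ y.X.basicOpen (g j) := hx.2
    refine hDW i x ?_ hxi
    by_contra hxb
    exact hgY j i hij x ⟨y.X.basicOpen_le _ hxi, hxb⟩ hxj
  · by_cases h : ∃ i, x ∈ Y i
    · obtain ⟨i, hi⟩ := h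
      exact Or.inr ⟨i, hYO i _ (hgz i) x hi⟩
    · left
      rw [hWO]
      refine ⟨?_, fun i _ hi => h ⟨i, hi⟩⟩
      rcases hcov x with hx | ⟨i, hx⟩
      · exact hx
      · by_contra hxW
        exact h ⟨i, hx, fun hb => hxW (P.bas i hb)⟩
  · have h1 : coef y.π (y.X.basicOpen (g i)) =
        (rs y.X (y.X.basicOpen_le (g i))).comp (coef y.π (P.V i)) := by
      ext b
      exact (coef_rs y.π _ b).symm
    rw [h1]
    refine GNC.finite_restrict (P.aV i) (P.β i) (g i) rfl _ (fun x hx => ?_) _ (hG i)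
    by_cases hb : x ∈ y.X.basicOpen (P.β i)
    · exact Or.inl hb
    · exact Or.inr (hYO i _ (hgz i) x ⟨hx, hb⟩)
  · rw [L.mU]
    rintro ⟨s, rfl⟩
    exact hgσ i hi s hx

end Pool.Agent.MG.WL
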