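import Pool.Agent.MG.WL.StmtsX

/-!
# Stability is local on the base
-/

open CategoryTheory CategoryTheory.Limits AlgebraicGeometry TensorProduct

namespace Pool.Agent.MG.WL

open Pool.Agent.MG.W Pool.Agent.MG.One

namespace STL

section

variable {E : Type} [CommRing E] {r : ℕ} (f : Fin r → E) (hf : Ideal.span (Set.range f) = ⊤)
  (B : Fin r → Type) [∀ i, CommRing (B i)] [∀ i, Algebra E (B i)]
  [∀ i, IsLocalization.Away (f i) (B i)]

theorem exists_not_mem (hf : Ideal.span (Set.range f) = ⊤) (P : Ideal E) (hP : P ≠ ⊤) :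
    ∃ i, f i ∉ P := by
  by_contra! h
  apply hP
  rwa [← top_le_iff, ← hf, Ideal.span_le, Set.range_subset_iff]

include hf in
/-- The covering of the spectrum. -/
theorem exists_cover : ∃ 𝒰 : Scheme.OpenCover.{0} (Sp E), ∀ j : 𝒰.I₀, ∃ (i : Fin r) (e : 𝒰.X j ≅ Sp (B i)),
    e.hom ≫ spMap (algebraMap E (B i)) = 𝒰.f j := by
  let 𝒱 : (Sp E).AffineOpenCover :=
    { I₀ := Fin r
      X := fun i => CommRingCat.of (B i)
      f := fun i => spMap (algebraMap E (B i))
      idx := fun x => (exists_not_mem f hf x.asIdeal x.2.ne_top).choose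
      covers := fun x => by
        have h1 := (exists_not_mem f hf x.asIdeal x.2.ne_top).choose_spec
        generalize (exists_not_mem f hf x.asIdeal x.2.ne_top).choose = i at h1
        have h2 := PrimeSpectrum.localization_away_comap_range (B i) (f i)
        exact (eq_iff_iff.mp congr(x ∈ $h2)).mpr h1
      map_prop := fun i => IsOpenImmersion.of_isLocalization (f i) }
  exact ⟨𝒱.openCover, fun j => ⟨j, Iso.refl _, Category.id_comp _⟩⟩

include hf in
/-- Properties which are local on the target. -/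
theorem local_prop (P : MorphismProperty Scheme.{0}) [IsZariskiLocalAtTarget P] {n : ℕ}
    (y : Fam n E) (Y : ∀ i, Fam n (B i))
    (k : ∀ i, Nonempty (Arrow (algebraMap E (B i)) (Y i) y)) (hP : ∀ i, P (Y i).π) : P y.π := by
  obtain ⟨𝒰, h𝒰⟩ := exists_cover f hf B
  rw [IsZariskiLocalAtTarget.iff_of_openCover (P := P) 𝒰]
  intro j
  obtain ⟨i, e, he⟩ := h𝒰 j
  obtain ⟨a⟩ := k i
  have h1 : IsPullback (pullback.fst y.π (𝒰.f j)) (pullback.snd y.π (𝒰.f j)) y.π (𝒰.f j) :=
    IsPullback.of_hasPullback _ _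
  -- the square with the other corner
  have h2 : IsPullback (pullback.fst y.π (𝒰.f j)) (pullback.snd y.π (𝒰.f j) ≫ e.hom) y.π
      (spMap (algebraMap E (B i))) := by
    refine IsPullback.of_iso h1 (Iso.refl _) (Iso.refl _) e (Iso.refl _) ?_ ?_ ?_ ?_
    · simp
    · simp
    · simp
    · simp [he]
  have h3 : P (pullback.snd y.π (𝒰.f j) ≫ e.hom) := by
    have h4 : (h2.isoIsPullback _ _ a.cart).hom ≫ (Y i).π = pullback.snd y.π (𝒰.f j) ≫ e.hom :=
      IsPullback.isoIsPullback_hom_snd _ _ _ _
    rw [← h4, P.cancel_left_of_respectsIso]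
    exact hP i
  rw [P.cancel_right_of_respectsIso] at h3
  exact h3

end

theorem flat_local : IsZariskiLocalAtTarget (@Flat : MorphismProperty Scheme.{0}) :=
  HasRingHomProperty.instIsZariskiLocalAtTarget (Q := RingHom.Flat) _

theorem fp_local :
    IsZariskiLocalAtTarget (@LocallyOfFinitePresentation : MorphismProperty Scheme.{0}) :=
  HasRingHomProperty.instIsZariskiLocalAtTarget (Q := RingHom.FinitePresentation) _

end STL

open STL in
theorem t_STL : Stmt_STL := by
  intro n g E _ r f hf B _ _ _ y Y hk hY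
  refine ⟨?_, ?_, ?_, ?_⟩
  · exact local_prop f hf B @IsProper y Y hk fun i => (hY i).proper
  · have := flat_local
    exact local_prop f hf B @Flat y Y hk fun i => (hY i).flat
  · have := fp_local
    exact local_prop f hf B @LocallyOfFinitePresentation y Y hk fun i => (hY i).fp
  · intro k _ _ s z hz
    obtain ⟨a⟩ := hz
    obtain ⟨i, hi⟩ := exists_not_mem f hf (RingHom.ker s) (RingHom.ker_ne_top s)
    have hu : IsUnit (s (f i)) := by
      rw [isUnit_iff_ne_zero]
      exact fun h => hi h
    obtain ⟨b⟩ := hk i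
    have h1 : (IsLocalization.Away.lift (S := B i) (f i) hu).comp (algebraMap E (B i)) = s := by
      ext x
      exact IsLocalization.Away.lift_eq (f i) hu x
    exact (hY i).fib k (IsLocalization.Away.lift (S := B i) (f i) hu) z
      ⟨arrowLift (castA h1.symm a) b⟩

end Pool.Agent.MG.WL
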