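import Pool.Agent.MG.WL.ToolsX

/-!
# The market, second part: existence of regular functions on `T^*M̄_{1,1}`

See `Pool/Agent/MG/WL/PAPERX.md` for the proofs.
-/

open CategoryTheory CategoryTheory.Limits AlgebraicGeometry TensorProduct

namespace Pool.Agent.MG.WL

open Pool.Agent.MG.W Pool.Agent.MG.One

/-! ## Isomorphisms of Weierstrass curves -/

/-- EXA: isomorphisms of Weierstrass curves are scalings. -/
def Stmt_EXA : Prop :=
  (∀ {D : Type} [CommRing D] (_ : IsUnit (6 : D)) {a b a' b' : D}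
    (e : Arrow (RingHom.id D) (Wei (WZ a' b')) (Wei (WZ a b))),
    ∃ (u v : D) (huv : u * v = 1) (ha : a' = u ^ 4 * a) (hb : b' = u ^ 6 * b),
      e.f = WX.sc huv ha hb) ∧
  (∀ {D : Type} [CommRing D] {a b a' b' u v u' v' : D} (huv : u * v = 1)
    (ha : a' = u ^ 4 * a) (hb : b' = u ^ 6 * b) (huv' : u' * v' = 1) (ha' : a' = u' ^ 4 * a)
    (hb' : b' = u' ^ 6 * b), WX.sc huv ha hb = WX.sc huv' ha' hb' → u = u')

/-- SCC: composition of scalings. -/
def Stmt_SCC : Prop :=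
  ∀ {D : Type} [CommRing D] {a b a' b' a'' b'' u v u' v' w s : D} (huv : u * v = 1)
    (ha : a' = u ^ 4 * a) (hb : b' = u ^ 6 * b) (huv' : u' * v' = 1)
    (ha' : a'' = u' ^ 4 * a') (hb' : b'' = u' ^ 6 * b') (hws : w * s = 1)
    (hc : a'' = w ^ 4 * a) (hd : b'' = w ^ 6 * b) (_ : w = u' * u),
    WX.sc huv' ha' hb' ≫ WX.sc huv ha hb = WX.sc hws hc hd

/-- REL: over a common ring two charts of a curve differ by a scaling; uniqueness, composition,
push forward. -/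
def Stmt_REL : Prop :=
  (∀ {A B B' D : Type} [CommRing A] [CommRing B] [CommRing B'] [CommRing D] {φ : A →+* B}
    {φ' : A →+* B'} {C : Fam 1 A} (c : Ch φ C) (c' : Ch φ' C) (ψ : B →+* D) (ψ' : B' →+* D),
    IsUnit (6 : D) → ψ.comp φ = ψ'.comp φ' → ∃ u : D, Rel c c' ψ ψ' u) ∧
  (∀ {A B B' D : Type} [CommRing A] [CommRing B] [CommRing B'] [CommRing D] {φ : A →+* B}
    {φ' : A →+* B'} {C : Fam 1 A} (c : Ch φ C) (c' : Ch φ' C) (ψ : B →+* D) (ψ' : B' →+* D)
    (u u' : D), ψ.comp φ = ψ'.comp φ' → Rel c c' ψ ψ' u → Rel c c' ψ ψ' u' → u = u') ∧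
  (∀ {A B B' B'' D : Type} [CommRing A] [CommRing B] [CommRing B'] [CommRing B''] [CommRing D]
    {φ : A →+* B} {φ' : A →+* B'} {φ'' : A →+* B''} {C : Fam 1 A} (c : Ch φ C) (c' : Ch φ' C)
    (c'' : Ch φ'' C) (ψ : B →+* D) (ψ' : B' →+* D) (ψ'' : B'' →+* D) (u u' : D),
    Rel c c' ψ ψ' u → Rel c' c'' ψ' ψ'' u' → Rel c c'' ψ ψ'' (u' * u)) ∧
  (∀ {A B B' D D' : Type} [CommRing A] [CommRing B] [CommRing B'] [CommRing D] [CommRing D']
    {φ : A →+* B} {φ' : A →+* B'} {C : Fam 1 A} (c : Ch φ C) (c' : Ch φ' C) (ψ : B →+* D)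
    (ψ' : B' →+* D) (χ : D →+* D') (u : D), Rel c c' ψ ψ' u →
    Rel c c' (χ.comp ψ) (χ.comp ψ') (χ u))

/-! ## Classes of deformations in charts -/

/-- DEA: existence and uniqueness of the class. -/
def Stmt_DEA : Prop :=
  ∀ {A B : Type} [CommRing A] [CommRing B] {φ : A →+* B} {C : Fam 1 A} (c : Ch φ C),
    IsUnit (6 : B) → ∀ d : Defo 1 C, ∃! δ : B, IsDelta c d δ

/-- DEI: deformations with the same class become isomorphic over `B`. -/
def Stmt_DEI : Prop :=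
  ∀ {A B : Type} [CommRing A] [CommRing B] {φ : A →+* B} {C : Fam 1 A} (c : Ch φ C),
    IsUnit (6 : B) → ∀ (d d' : Defo 1 C) (δ : B), IsDelta c d δ → IsDelta c d' δ →
    ∃ (z : Fam 1 (Eps B)) (_ : IsStable 1 z) (r : Arrow (eps0 B) (Wei (WZ c.a c.b)) z)
      (f : Arrow (epsMap φ) z d.y) (f' : Arrow (epsMap φ) z d'.y),
      r.f ≫ f.f = c.e.f ≫ d.r.f ∧ r.f ≫ f'.f = c.e.f ≫ d'.r.f

/-- DEC: functoriality of the class: push forward, isomorphisms, scaling, change of charts, base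
change of the curve. -/
def Stmt_DEC : Prop :=
  (∀ {A B D : Type} [CommRing A] [CommRing B] [CommRing D] {φ : A →+* B} {C : Fam 1 A}
    (c : Ch φ C) (ψ : B →+* D) (d : Defo 1 C) (δ : B), IsDelta c d δ →
    IsDelta (c.push ψ) d (ψ δ)) ∧
  (∀ {A B : Type} [CommRing A] [CommRing B] {φ : A →+* B} {C : Fam 1 A} (c : Ch φ C)
    (d d' : Defo 1 C) (f : Arrow (RingHom.id (Eps A)) d.y d'.y), d.r.f ≫ f.f = d'.r.f →
    ∀ δ, IsDelta c d δ → IsDelta c d' δ) ∧
  (∀ {A B : Type} [CommRing A] [CommRing B] {φ : A →+* B} {C : Fam 1 A} (c : Ch φ C) (s : A)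
    (d : Defo 1 C) (δ : B), IsDelta c d δ → IsDelta c (scD s d) (φ s * δ)) ∧
  (∀ {A B B' D : Type} [CommRing A] [CommRing B] [CommRing B'] [CommRing D] {φ : A →+* B}
    {φ' : A →+* B'} {C : Fam 1 A} (c : Ch φ C) (c' : Ch φ' C) (ψ : B →+* D) (ψ' : B' →+* D)
    (u : D), IsUnit (6 : D) → ψ.comp φ = ψ'.comp φ' → Rel c c' ψ ψ' u →
    ∀ (d : Defo 1 C) (δ : B) (δ' : B'), IsDelta c d δ → IsDelta c' d δ' →
      ψ' δ' = u ^ 10 * ψ δ) ∧
  (∀ {A A' B B' : Type} [CommRing A] [CommRing A'] [CommRing B] [CommRing B'] {φ : A →+* A'}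
    {χ : A →+* B} {χ' : A' →+* B'} {C : Fam 1 A} {C' : Fam 1 A'} (g : Arrow φ C' C) (c : Ch χ C)
    (ω : B →+* B') (h : ω.comp χ = χ'.comp φ) (d : Defo 1 C) (δ : B), IsDelta c d δ →
    IsDelta (c.pull g ω h) (bcD g d) (ω δ))

/-! ## Gluing -/

/-- LOE: localisations of the dual numbers. -/
def Stmt_LOE : Prop :=
  ∀ {A B : Type} [CommRing A] [CommRing B] [Algebra A B] (f : A) [IsLocalization.Away f B],
    letI := (epsMap (algebraMap A B)).toAlgebra
    IsLocalization.Away (TrivSqZeroExt.inl f : Eps A) (Eps B)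

/-- GAR: arrows can be glued. -/
def Stmt_GAR : Prop :=
  ∀ {n : ℕ} {E A : Type} [CommRing E] [CommRing A] (φ : E →+* A) {Y : Fam n E} {C : Fam n A}
    {r : ℕ} (f : Fin r → A) (_ : Ideal.span (Set.range f) = ⊤) (B : Fin r → Type)
    [∀ i, CommRing (B i)] [∀ i, Algebra A (B i)] [∀ i, IsLocalization.Away (f i) (B i)]
    (C' : ∀ i, Fam n (B i)) (k : ∀ i, Arrow (algebraMap A (B i)) (C' i) C)
    (ρ : ∀ i, Arrow ((algebraMap A (B i)).comp φ) (C' i) Y),
    (∀ i j (Z : Scheme.{0}) (p : Z ⟶ (C' i).X) (q : Z ⟶ (C' j).X), p ≫ (k i).f = q ≫ (k j).f →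
      p ≫ (ρ i).f = q ≫ (ρ j).f) →
    ∃ e : Arrow φ C Y, ∀ i, (k i).f ≫ e.f = (ρ i).f

/-- GLD: families can be glued (along the Zariski covering of the base by the `D(f i)`; the
families are given on all intersections of these sets). -/
def Stmt_GLD : Prop :=
  ∀ {n : ℕ} {E : Type} [CommRing E] {r : ℕ} (f : Fin r → E) (_ : Ideal.span (Set.range f) = ⊤)
    (E' : {S : Finset (Fin r) // S.Nonempty} → Type) [∀ S, CommRing (E' S)]
    [∀ S, Algebra E (E' S)] [∀ S, IsLocalization.Away (∏ i ∈ S.1, f i) (E' S)]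
    (ρ : ∀ S T, S ≤ T → (E' S →ₐ[E] E' T)) (Y : ∀ S, Fam n (E' S))
    (g : ∀ S T (h : S ≤ T), Arrow (ρ S T h : E' S →+* E' T) (Y T) (Y S)),
    (∀ S, (g S S le_rfl).f = 𝟙 _) →
    (∀ S T U (h : S ≤ T) (h' : T ≤ U), (g T U h').f ≫ (g S T h).f = (g S U (h.trans h')).f) →
    ∃ (y : Fam n E) (k : ∀ S, Arrow (algebraMap E (E' S)) (Y S) y),
      ∀ S T (h : S ≤ T), (g S T h).f ≫ (k S).f = (k T).f

/-- STL: stability is local on the base. -/
def Stmt_STL : Prop :=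
  ∀ {n g : ℕ} {E : Type} [CommRing E] {r : ℕ} (f : Fin r → E) (_ : Ideal.span (Set.range f) = ⊤)
    (B : Fin r → Type) [∀ i, CommRing (B i)] [∀ i, Algebra E (B i)]
    [∀ i, IsLocalization.Away (f i) (B i)] (y : Fam n E) (Y : ∀ i, Fam n (B i)),
    (∀ i, Nonempty (Arrow (algebraMap E (B i)) (Y i) y)) → (∀ i, IsStable g (Y i)) →
    IsStable g y

/-- RGD: rigidity of deformations. -/
def Stmt_RGD : Prop :=
  ∀ {D : Type} [CommRing D] (_ : IsUnit (6 : D)) {x : Fam 1 D} (_ : LW x)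
    (z z' : Fam 1 (Eps D)) (_ : IsStable 1 z) (_ : IsStable 1 z') (r : Arrow (eps0 D) x z)
    (f f' : Arrow (RingHom.id (Eps D)) z z'), r.f ≫ f.f = r.f ≫ f'.f → f.f = f'.f

/-- The classes `δ i` in the charts `c i` are compatible. -/
def Cpt {A : Type} [CommRing A] {r : ℕ} {f : Fin r → A} {C : Fam 1 A}
    (c : ∀ i, Ch (algebraMap A (Localization.Away (f i))) C)
    (δ : ∀ i, Localization.Away (f i)) : Prop :=
  ∀ (i j : Fin r) (D : Type) [CommRing D] (ψ : Localization.Away (f i) →+* D)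
    (ψ' : Localization.Away (f j) →+* D) (u : D),
    ψ.comp (algebraMap A (Localization.Away (f i))) =
      ψ'.comp (algebraMap A (Localization.Away (f j))) →
    Rel (c i) (c j) ψ ψ' u → ψ' (δ j) = u ^ 10 * ψ (δ i)

/-- DSP: deformations with the same classes in a covering of charts are isomorphic. -/
def Stmt_DSP : Prop :=
  ∀ {A : Type} [CommRing A] (_ : IsUnit (6 : A)) {r : ℕ} (f : Fin r → A)
    (_ : Ideal.span (Set.range f) = ⊤) {C : Fam 1 A}
    (c : ∀ i, Ch (algebraMap A (Localization.Away (f i))) C) (d d' : Defo 1 C)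
    (δ : ∀ i, Localization.Away (f i)), (∀ i, IsDelta (c i) d (δ i)) →
    (∀ i, IsDelta (c i) d' (δ i)) →
    ∃ g : Arrow (RingHom.id (Eps A)) d.y d'.y, d.r.f ≫ g.f = d'.r.f

/-- DGL: compatible classes come from a deformation. -/
def Stmt_DGL : Prop :=
  ∀ {A : Type} [CommRing A] (_ : IsUnit (6 : A)) {r : ℕ} (f : Fin r → A)
    (_ : Ideal.span (Set.range f) = ⊤) {C : Fam 1 A}
    (c : ∀ i, Ch (algebraMap A (Localization.Away (f i))) C)
    (δ : ∀ i, Localization.Away (f i)), Cpt c δ → ∃ d : Defo 1 C, ∀ i, IsDelta (c i) d (δ i)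

/-! ## The coefficient of a covector -/

/-- EXT: extension of classes after multiplication by a power of `f i₀`. -/
def Stmt_EXT : Prop :=
  (∀ {A : Type} [CommRing A] (_ : IsUnit (6 : A)) {r : ℕ} (f : Fin r → A) {C : Fam 1 A}
    (c : ∀ i, Ch (algebraMap A (Localization.Away (f i))) C) (i₀ : Fin r)
    (s : Localization.Away (f i₀)), ∃ (N : ℕ) (δ : ∀ i, Localization.Away (f i)),
    δ i₀ = algebraMap A _ (f i₀) ^ N * s ∧ Cpt c δ) ∧
  (∀ {A : Type} [CommRing A] (_ : IsUnit (6 : A)) {r : ℕ} (f : Fin r → A) {C : Fam 1 A}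
    (c : ∀ i, Ch (algebraMap A (Localization.Away (f i))) C) (i₀ : Fin r)
    (δ δ' : ∀ i, Localization.Away (f i)), Cpt c δ → Cpt c δ' → δ i₀ = δ' i₀ →
    ∃ K : ℕ, ∀ i, algebraMap A _ (f i₀) ^ K * δ i = algebraMap A _ (f i₀) ^ K * δ' i)

/-- TAU: the coefficient of a covector in a chart over `A_f`; a deformation with class `f ^ N`. -/
def Stmt_TAU : Prop :=
  ∀ {A : Type} [CommRing A] (_ : IsUnit (6 : A)) {C : Fam 1 A} (_ : IsStable 1 C) (_ : LW C)
    (f : A) (c : Ch (algebraMap A (Localization.Away f)) C),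
    (∃ (N : ℕ) (d : Defo 1 C), IsDelta c d (algebraMap A _ f ^ N)) ∧
    ∀ l : Cov 1 C, ∃! τ : Localization.Away f, IsTau c l τ

/-- TRL: the coefficients in two charts. -/
def Stmt_TRL : Prop :=
  (∀ {A : Type} [CommRing A] (_ : IsUnit (6 : A)) {C : Fam 1 A} (_ : IsStable 1 C) (_ : LW C)
    (f f' : A) (c : Ch (algebraMap A (Localization.Away f)) C)
    (c' : Ch (algebraMap A (Localization.Away f')) C) (l : Cov 1 C) (τ : Localization.Away f)
    (τ' : Localization.Away f'), IsTau c l τ → IsTau c' l τ' → ∀ (D : Type) [CommRing D]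
    (ψ : Localization.Away f →+* D) (ψ' : Localization.Away f' →+* D) (u : D),
    ψ.comp (algebraMap A _) = ψ'.comp (algebraMap A _) → Rel c c' ψ ψ' u →
    ψ τ = u ^ 10 * ψ' τ') ∧
  (∀ {A A' : Type} [CommRing A] [CommRing A'] (_ : IsUnit (6 : A)) (φ : A →+* A') {C : Fam 1 A}
    {C' : Fam 1 A'} (_ : IsStable 1 C) (_ : LW C) (g : Arrow φ C' C) (l : Cov 1 C)
    (l' : Cov 1 C') (_ : Compat g l' l) (f : A)
    (c : Ch (algebraMap A (Localization.Away f)) C) (τ : Localization.Away f) (_ : IsTau c l τ)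
    (ω : Localization.Away f →+* Localization.Away (φ f))
    (h : ω.comp (algebraMap A _) = (algebraMap A' _).comp φ),
    IsTau (c.pull g ω h) l' (ω τ))

/-- The value of a covector `l`, for a polynomial `P`: in every chart it is `P(a, b, τ)`. -/
def IsVal {A : Type} [CommRing A] [Algebra ℂ A] {C : Fam 1 A} (P : MvPolynomial (Fin 3) ℂ)
    (l : Cov 1 C) (v : A) : Prop :=
  ∀ (f : A) (c : Ch (algebraMap A (Localization.Away f)) C) (τ : Localization.Away f),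
    IsTau c l τ → algebraMap A _ v = MvPolynomial.aeval ![c.a, c.b, τ] P

/-- VAL: existence and uniqueness of the value. -/
def Stmt_VAL : Prop :=
  ∀ {A : Type} [CommRing A] [Algebra ℂ A] {C : Fam 1 A} (_ : IsStable 1 C) (_ : LW C)
    (P : MvPolynomial (Fin 3) ℂ) (_ : P ∈ One.Inv) (l : Cov 1 C), ∃! v : A, IsVal P l v

end Pool.Agent.MG.WL
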