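import Mathlib

/-!
# TRN, algebra: non-constant functions over a local ring, quasi-finiteness from geometric fibres
-/

open TensorProduct

namespace Pool.Agent.MG.WL.TRN

section

variable {B R : Type} [CommRing B] [CommRing R] [Algebra B R] (h : R)

theorem li_ext {F F' : Type} [Field F] [Field F'] [Algebra B F] [Algebra B F'] [Algebra F F']
    [IsScalarTower B F F']
    (hF : LinearIndependent F ![(1 ⊗ₜ h : F ⊗[B] R), 1 ⊗ₜ 1]) :
    LinearIndependent F' ![(1 ⊗ₜ h : F' ⊗[B] R), 1 ⊗ₜ 1] := by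
  have h1 := Module.Flat.linearIndependent_one_tmul (S := F') hF
  let e := Algebra.TensorProduct.cancelBaseChange B F F' F' R
  have h2 := h1.map' e.toLinearMap (by
    rw [LinearMap.ker_eq_bot]
    exact e.injective)
  have h3 : (e.toLinearMap ∘ fun x => (1 : F') ⊗ₜ[F] ![(1 ⊗ₜ h : F ⊗[B] R), 1 ⊗ₜ 1] x) =
      ![(1 ⊗ₜ h : F' ⊗[B] R), 1 ⊗ₜ 1] := by
    funext i
    fin_cases i
    · simp [e]
    · simp [e]
  rw [h3] at h2
  exact h2

variable [IsLocalRing B]

open IsLocalRing in
theorem li_res {K₀ : Type} [Field K₀] [Algebra B K₀] [IsLocalHom (algebraMap B K₀)]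
    (h0 : ∀ ξ : K₀, (1 ⊗ₜ h : K₀ ⊗[B] R) ≠ ξ ⊗ₜ 1) :
    LinearIndependent (ResidueField B) ![(1 ⊗ₜ h : ResidueField B ⊗[B] R), 1 ⊗ₜ 1] := by
  rw [LinearIndependent.pair_iff]
  intro s t hst
  let l : ResidueField B →ₐ[B] K₀ :=
    { ResidueField.lift (algebraMap B K₀) with
      commutes' := fun r => ResidueField.lift_residue_apply (algebraMap B K₀) r }
  let m : ResidueField B ⊗[B] R →ₐ[B] K₀ ⊗[B] R := Algebra.TensorProduct.map l (AlgHom.id B R)
  have h1 := congrArg m hst
  rw [smul_tmul', smul_tmul', smul_eq_mul, smul_eq_mul, mul_one, mul_one, map_add, map_zero,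
    Algebra.TensorProduct.map_tmul, Algebra.TensorProduct.map_tmul, AlgHom.id_apply,
    AlgHom.id_apply] at h1
  have hl : ∀ s, l s = 0 → s = 0 := fun s hs => (map_eq_zero_iff l (l : ResidueField B →+*
    K₀).injective).1 hs
  have hs : l s = 0 := by
    by_contra hs
    apply h0 (-((l s)⁻¹ * l t))
    have h2 := congrArg (fun u => ((l s)⁻¹ ⊗ₜ (1 : R) : K₀ ⊗[B] R) * u) h1
    simp only [mul_add, Algebra.TensorProduct.tmul_mul_tmul, one_mul, mul_zero,
      inv_mul_cancel₀ hs] at h2
    rw [neg_tmul, ← sub_eq_zero, sub_neg_eq_add]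
    exact h2
  refine ⟨hl s hs, hl t ?_⟩
  by_contra ht
  rw [hs, zero_tmul, zero_add] at h1
  have h2 := congrArg (fun u => ((l t)⁻¹ ⊗ₜ h : K₀ ⊗[B] R) * u) h1
  simp only [Algebra.TensorProduct.tmul_mul_tmul, mul_one, mul_zero, inv_mul_cancel₀ ht] at h2
  apply h0 0
  rw [h2, zero_tmul]

open IsLocalRing in
/-- If `h` is not constant on the closed fibre then it is not constant on all fibres. -/
theorem nonconst [Module.Flat B R] {K₀ : Type} [Field K₀] [Algebra B K₀]
    [IsLocalHom (algebraMap B K₀)] (h0 : ∀ ξ : K₀, (1 ⊗ₜ h : K₀ ⊗[B] R) ≠ ξ ⊗ₜ 1)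
    {K : Type} [Field K] [Algebra B K] (ξ : K) : (1 ⊗ₜ h : K ⊗[B] R) ≠ ξ ⊗ₜ 1 := by
  obtain ⟨O, hO, hloc⟩ := exists_factor_valuationRing (algebraMap B K)
  let g : B →+* O := (algebraMap B K).codRestrict O.toSubring hO
  let _ : Algebra B O := g.toAlgebra
  have hT : IsScalarTower B O K := IsScalarTower.of_algebraMap_eq' rfl
  have hl : IsLocalHom (algebraMap B O) := hloc
  have h1 := li_ext h (F := ResidueField B) (F' := ResidueField O) (li_res h h0)
  rw [LinearIndependent.pair_iff] at h1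
  -- reduction and embedding
  let ρ : O ⊗[B] R →ₐ[B] ResidueField O ⊗[B] R :=
    Algebra.TensorProduct.map (IsScalarTower.toAlgHom B O (ResidueField O)) (AlgHom.id B R)
  let ι : O ⊗[B] R →ₐ[B] K ⊗[B] R :=
    Algebra.TensorProduct.map (IsScalarTower.toAlgHom B O K) (AlgHom.id B R)
  have hι : Function.Injective ι := by
    have h2 : Function.Injective ((IsScalarTower.toAlgHom B O K).toLinearMap.rTensor R) :=
      Module.Flat.rTensor_preserves_injective_linearMap _ (fun x y hxy => Subtype.ext hxy)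
    exact h2
  intro hξ
  rcases O.mem_or_inv_mem ξ with hx | hx
  · have h3 : (1 ⊗ₜ h : O ⊗[B] R) = (⟨ξ, hx⟩ : O) ⊗ₜ 1 := by
      apply hι
      rw [Algebra.TensorProduct.map_tmul, Algebra.TensorProduct.map_tmul, map_one]
      exact hξ
    have h4 := congrArg ρ h3
    rw [Algebra.TensorProduct.map_tmul, Algebra.TensorProduct.map_tmul, map_one,
      AlgHom.id_apply, AlgHom.id_apply] at h4
    have h5 := h1 1 (-(IsScalarTower.toAlgHom B O (ResidueField O) ⟨ξ, hx⟩)) (by
      rw [one_smul, smul_tmul', smul_eq_mul, mul_one, neg_tmul, h4, add_neg_cancel])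
    exact one_ne_zero h5.1
  · by_cases hx' : ξ ∈ O
    · -- same as above
      have h3 : (1 ⊗ₜ h : O ⊗[B] R) = (⟨ξ, hx'⟩ : O) ⊗ₜ 1 := by
        apply hι
        rw [Algebra.TensorProduct.map_tmul, Algebra.TensorProduct.map_tmul, map_one]
        exact hξ
      have h4 := congrArg ρ h3
      rw [Algebra.TensorProduct.map_tmul, Algebra.TensorProduct.map_tmul, map_one,
        AlgHom.id_apply, AlgHom.id_apply] at h4
      have h5 := h1 1 (-(IsScalarTower.toAlgHom B O (ResidueField O) ⟨ξ, hx'⟩)) (by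
        rw [one_smul, smul_tmul', smul_eq_mul, mul_one, neg_tmul, h4, add_neg_cancel])
      exact one_ne_zero h5.1
    · have hξ0 : ξ ≠ 0 := by
        rintro rfl
        exact hx' O.zero_mem
      have h3 : ((⟨ξ⁻¹, hx⟩ : O) ⊗ₜ h : O ⊗[B] R) = 1 ⊗ₜ 1 := by
        apply hι
        rw [Algebra.TensorProduct.map_tmul, Algebra.TensorProduct.map_tmul, map_one]
        have h6 := congrArg (fun u => (ξ⁻¹ ⊗ₜ (1 : R) : K ⊗[B] R) * u) hξ
        simp only [Algebra.TensorProduct.tmul_mul_tmul, mul_one, one_mul,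
          inv_mul_cancel₀ hξ0] at h6
        exact h6
      have hm : residue O ⟨ξ⁻¹, hx⟩ = 0 := by
        rw [residue_eq_zero_iff, mem_maximalIdeal, mem_nonunits_iff]
        intro hu
        apply hx'
        obtain ⟨u, hu⟩ := hu
        have h7 : (u : O) * (u⁻¹ : Oˣ) = 1 := Units.mul_inv u
        have h8 := congrArg (Subtype.val) h7
        rw [hu] at h8
        change ξ⁻¹ * ((u⁻¹ : Oˣ) : O).1 = 1 at h8
        have h9 : ((u⁻¹ : Oˣ) : O).1 = ξ := by
          field_simp at h8
          exact h8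
        rw [← h9]
        exact ((u⁻¹ : Oˣ) : O).2
      have h4 := congrArg ρ h3
      rw [Algebra.TensorProduct.map_tmul, Algebra.TensorProduct.map_tmul, map_one,
        AlgHom.id_apply, AlgHom.id_apply] at h4
      have h10 : IsScalarTower.toAlgHom B O (ResidueField O) ⟨ξ⁻¹, hx⟩ = 0 := hm
      rw [h10, zero_tmul] at h4
      have h5 := h1 0 1 (by rw [zero_smul, one_smul, zero_add, ← h4])
      exact one_ne_zero h5.2

end

open Polynomial

theorem fin_surj {B R K T : Type} [CommRing B] [CommRing R] [Algebra B R] [Field K]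
    [Algebra B K] [CommRing T] [Algebra K T] (g : R →+* T)
    (hgB : ∀ b, g (algebraMap B R b) = algebraMap K T (algebraMap B K b)) (h : R) (ξ : K)
    (hgh : g h = algebraMap K T ξ) (hspan : ∀ x : T, x ∈ Submodule.span K (Set.range g))
    (H : Module.Finite K ((K ⊗[B] R) ⧸ Ideal.span {(1 ⊗ₜ h - ξ ⊗ₜ 1 : K ⊗[B] R)})) :
    Module.Finite K T := by
  let _ : Algebra B T := ((algebraMap K T).comp (algebraMap B K)).toAlgebra
  have : IsScalarTower B K T := IsScalarTower.of_algebraMap_eq' rfl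
  let g' : R →ₐ[B] T := { g with commutes' := hgB }
  have hg' : ∀ r, g' r = g r := fun r => rfl
  let m : K ⊗[B] R →ₐ[K] T := Algebra.TensorProduct.lift (Algebra.ofId K T) g'
    (fun x y => mul_comm _ _)
  have hm : Function.Surjective m := by
    intro x
    induction hspan x using Submodule.span_induction with
    | mem x hx =>
      obtain ⟨r, rfl⟩ := hx
      refine ⟨1 ⊗ₜ r, ?_⟩
      rw [Algebra.TensorProduct.lift_tmul, map_one, one_mul, hg']
    | zero => exact ⟨0, by rw [map_zero]⟩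
    | add x y _ _ hx hy =>
      obtain ⟨u, hu⟩ := hx
      obtain ⟨v, hv⟩ := hy
      exact ⟨u + v, by rw [map_add, hu, hv]⟩
    | smul c x _ hx =>
      obtain ⟨u, hu⟩ := hx
      exact ⟨c • u, by rw [map_smul, hu]⟩
  have hker : ∀ a ∈ Ideal.span {(1 ⊗ₜ h - ξ ⊗ₜ 1 : K ⊗[B] R)}, m a = 0 := by
    intro a ha
    rw [Ideal.mem_span_singleton'] at ha
    obtain ⟨b, rfl⟩ := ha
    rw [map_mul, map_sub, Algebra.TensorProduct.lift_tmul, Algebra.TensorProduct.lift_tmul,
      map_one, map_one, one_mul, mul_one, hg', hgh]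
    have h4 : Algebra.ofId K T ξ = algebraMap K T ξ := rfl
    rw [h4, sub_self, mul_zero]
  let q := Ideal.Quotient.liftₐ (Ideal.span {(1 ⊗ₜ h - ξ ⊗ₜ 1 : K ⊗[B] R)}) m hker
  refine Module.Finite.of_surjective q.toLinearMap (fun x => ?_)
  obtain ⟨u, rfl⟩ := hm x
  exact ⟨Ideal.Quotient.mk _ u, rfl⟩

theorem fin_fiber {B R κ K F : Type} [CommRing B] [CommRing R] [Algebra B R] [Field κ] [Field K]
    [CommRing F] [Algebra κ K] [Algebra κ F] [Algebra B K] (t : B →+* κ)
    (ht : algebraMap B K = (algebraMap κ K).comp t) (g : R →+* F)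
    (hgB : ∀ b, g (algebraMap B R b) = algebraMap κ F (t b)) (h : R) (η : κ)
    (hgh : g h = algebraMap κ F η) (hspan : ∀ x : F, x ∈ Submodule.span κ (Set.range g))
    (H : Module.Finite K ((K ⊗[B] R) ⧸
      Ideal.span {(1 ⊗ₜ h - algebraMap κ K η ⊗ₜ 1 : K ⊗[B] R)})) :
    Module.Finite κ F := by
  suffices h1 : Module.Finite K (K ⊗[κ] F) from
    Module.Finite.of_finite_tensorProduct_of_faithfullyFlat K
  have key : ∀ c : κ, ((1 : K) ⊗ₜ algebraMap κ F c : K ⊗[κ] F) =
      algebraMap K (K ⊗[κ] F) (algebraMap κ K c) := by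
    intro c
    rw [Algebra.algebraMap_eq_smul_one (A := F), ← smul_tmul, Algebra.smul_def, mul_one]
    rfl
  let i : F →+* K ⊗[κ] F := (Algebra.TensorProduct.includeRight : F →ₐ[κ] K ⊗[κ] F).toRingHom
  have hi : ∀ x, i x = (1 : K) ⊗ₜ x := fun x => rfl
  refine fin_surj (B := B) (R := R) (K := K) (T := K ⊗[κ] F) (i.comp g) ?_ h
    (algebraMap κ K η) ?_ ?_ H
  · intro b
    rw [RingHom.comp_apply, hgB, hi, key, ht]
    rfl
  · rw [RingHom.comp_apply, hgh, hi, key]
  · intro x
    induction x using TensorProduct.induction_on with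
    | zero => exact zero_mem _
    | add x y hx hy => exact add_mem hx hy
    | tmul a x =>
      induction hspan x using Submodule.span_induction with
      | mem x hx =>
        obtain ⟨r, rfl⟩ := hx
        have h1 : (a ⊗ₜ g r : K ⊗[κ] F) = a • (i.comp g) r := by
          rw [RingHom.comp_apply, hi, smul_tmul', smul_eq_mul, mul_one]
        rw [h1]
        exact Submodule.smul_mem _ _ (Submodule.subset_span ⟨r, rfl⟩)
      | zero => rw [tmul_zero]; exact zero_mem _
      | add x y _ _ hx hy => rw [tmul_add]; exact add_mem hx hy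
      | smul c x _ hx =>
        rw [tmul_smul, ← algebraMap_smul K c]
        exact Submodule.smul_mem _ _ hx

theorem qf_of_geom {B R : Type} [CommRing B] [CommRing R] [Algebra B R]
    (h : R)
    (H : ∀ (K : Type) [Field K] [IsAlgClosed K] (s : B →+* K) (ξ : K), letI := s.toAlgebra
      Module.Finite K ((K ⊗[B] R) ⧸ Ideal.span {(1 ⊗ₜ h - ξ ⊗ₜ 1 : K ⊗[B] R)})) :
    (Polynomial.eval₂RingHom (algebraMap B R) h).QuasiFinite := by
  let A : Algebra B[X] R := (Polynomial.eval₂RingHom (algebraMap B R) h).toAlgebra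
  have hA : ∀ p, algebraMap B[X] R p = eval₂ (algebraMap B R) h p := fun p => rfl
  change Algebra.QuasiFinite B[X] R
  refine ⟨fun P hP => ?_⟩
  let t : B →+* P.ResidueField := (algebraMap B[X] P.ResidueField).comp C
  let s : B →+* AlgebraicClosure P.ResidueField := (algebraMap P.ResidueField _).comp t
  let _ : Algebra B (AlgebraicClosure P.ResidueField) := s.toAlgebra
  let g : R →+* P.Fiber R := Algebra.TensorProduct.includeRight.toRingHom
  have key : ∀ p, g (algebraMap B[X] R p) =
      algebraMap P.ResidueField (P.Fiber R) (algebraMap B[X] P.ResidueField p) := by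
    intro p
    change ((1 : P.ResidueField) ⊗ₜ[B[X]] algebraMap B[X] R p : P.Fiber R) = _
    rw [Algebra.algebraMap_eq_smul_one (A := R), ← TensorProduct.smul_tmul,
      Algebra.smul_def, mul_one]
    rfl
  refine fin_fiber (B := B) (R := R) (κ := P.ResidueField)
    (K := AlgebraicClosure P.ResidueField) (F := P.Fiber R) t rfl g ?_ h
    (algebraMap B[X] P.ResidueField X) ?_ ?_ (H _ s _)
  · intro b
    have h1 := key (C b)
    rw [hA, eval₂_C] at h1
    exact h1
  · have h1 := key X
    rw [hA, eval₂_X] at h1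
    exact h1
  · intro x
    induction x using TensorProduct.induction_on with
    | zero => exact zero_mem _
    | add x y hx hy => exact add_mem hx hy
    | tmul a r =>
      have h1 : (a ⊗ₜ r : P.Fiber R) = a • g r := by
        change _ = a • ((1 : P.ResidueField) ⊗ₜ[B[X]] r)
        rw [smul_tmul', smul_eq_mul, mul_one]
      rw [h1]
      exact Submodule.smul_mem _ _ (Submodule.subset_span ⟨r, rfl⟩)

end Pool.Agent.MG.WL.TRN
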