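import Pool.Agent.MG.WL.DefsX
import Pool.Agent.MG.WL.ARW

/-!
# Formal constructions for the existence part: casts of arrows, base changes of charts and of
deformations
-/

open CategoryTheory CategoryTheory.Limits AlgebraicGeometry TensorProduct

namespace Pool.Agent.MG.WL

open Pool.Agent.MG.W Pool.Agent.MG.One

section

variable {n : ℕ} {A B D : Type} [CommRing A] [CommRing B] [CommRing D]

/-- An arrow over `φ` is an arrow over `φ' = φ`. -/
def castA {φ φ' : A →+* B} (h : φ = φ') {y : Fam n B} {x : Fam n A} (a : Arrow φ y x) :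
    Arrow φ' y x where
  f := a.f
  cart := by rw [← h]; exact a.cart
  sec i := by rw [← h]; exact a.sec i

@[simp]
theorem castA_f {φ φ' : A →+* B} (h : φ = φ') {y : Fam n B} {x : Fam n A} (a : Arrow φ y x) :
    (castA h a).f = a.f := rfl

theorem eps0_epsMap (φ : A →+* B) : (eps0 B).comp (epsMap φ) = φ.comp (eps0 A) :=
  RingHom.ext fun z => by simp [epsMap]

theorem eps0_epsScale (s : A) : (eps0 A).comp (epsScale s) = eps0 A :=
  RingHom.ext fun z => by simp

theorem epsMap_epsScale (φ : A →+* B) (s : A) :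
    (epsMap φ).comp (epsScale s) = (epsScale (φ s)).comp (epsMap φ) :=
  RingHom.ext fun z => by
    refine TrivSqZeroExt.ext ?_ ?_ <;> simp [epsMap, mul_comm]

theorem epsMap_comp (φ : A →+* B) (ψ : B →+* D) :
    (epsMap ψ).comp (epsMap φ) = epsMap (ψ.comp φ) :=
  RingHom.ext fun z => by
    refine TrivSqZeroExt.ext ?_ ?_ <;> simp [epsMap]

theorem epsMap_ep (φ : A →+* B) (x y : A) : epsMap φ (ep x y) = ep (φ x) (φ y) := by
  refine TrivSqZeroExt.ext ?_ ?_ <;> simp [epsMap]

/-- The base change of a deformation to `A'`. -/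
noncomputable def bcD {g : ℕ} {φ : A →+* B} {C : Fam n A} {C' : Fam n B} (a : Arrow φ C' C)
    (d : Defo g C) : Defo g C' where
  y := PBS.bc (epsMap φ) d.y
  stable := PBS.bc_stable _ _ d.stable
  r := arrowLift (castA (eps0_epsMap φ).symm (PBS.comp a d.r)) (PBS.bcArrow (epsMap φ) d.y)

theorem bcD_r {g : ℕ} {φ : A →+* B} {C : Fam n A} {C' : Fam n B} (a : Arrow φ C' C)
    (d : Defo g C) : (bcD a d).r.f ≫ (PBS.bcArrow (epsMap φ) d.y).f = a.f ≫ d.r.f :=
  arrowLift_f _ _

/-- The deformation `s d`. -/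
noncomputable def scD {g : ℕ} {C : Fam n A} (s : A) (d : Defo g C) : Defo g C where
  y := PBS.bc (epsScale s) d.y
  stable := PBS.bc_stable _ _ d.stable
  r := arrowLift (castA (eps0_epsScale s).symm d.r) (PBS.bcArrow (epsScale s) d.y)

theorem scD_r {g : ℕ} {C : Fam n A} (s : A) (d : Defo g C) :
    (scD s d).r.f ≫ (PBS.bcArrow (epsScale s) d.y).f = d.r.f :=
  arrowLift_f _ _

theorem scD_l {g : ℕ} {C : Fam n A} (s : A) (d : Defo g C) (l : Cov g C) :
    l.l (scD s d) = s * l.l d :=
  l.scale s d (scD s d) (PBS.bcArrow (epsScale s) d.y) (scD_r s d)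

/-- The chart of the base change. -/
noncomputable def Ch.pull {A' B' : Type} [CommRing A'] [CommRing B'] {φ : A →+* A'}
    {χ : A →+* B} {χ' : A' →+* B'} {C : Fam 1 A} {C' : Fam 1 A'} (g : Arrow φ C' C) (c : Ch χ C)
    (ω : B →+* B') (h : ω.comp χ = χ'.comp φ) : Ch χ' C' where
  a := ω c.a
  b := ω c.b
  h := (c.push ω).h
  e := arrowLift (castA h (c.push ω).e) g

end

end Pool.Agent.MG.WL
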